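import Mathlib

open MeasureTheory Set Filter Topology
open scoped RealInnerProductSpace ENNReal NNReal

namespace Pool.Agent.Helper104.GirthVol

abbrev E (n : ℕ) := EuclideanSpace ℝ (Fin n)

/-- Smooth positive sublinear data: `h` is `1`-homogeneous with gradient field `g` and Hessian `T`. -/
structure SS (V : Type) [NormedAddCommGroup V] [InnerProductSpace ℝ V] where
  h : V → ℝ
  g : V → V
  T : V → V →L[ℝ] V
  hh : ∀ x, x ≠ 0 → h x = ⟪g x, x⟫
  h0 : h 0 = 0
  pos : ∀ x, x ≠ 0 → 0 < h x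
  hg : ∀ x, x ≠ 0 → HasFDerivAt g (T x) x
  symm : ∀ x, x ≠ 0 → ∀ v w, ⟪T x v, w⟫ = ⟪v, T x w⟫
  ker : ∀ x, x ≠ 0 → T x x = 0
  pd : ∀ x, x ≠ 0 → ∀ v, (∀ a : ℝ, v ≠ a • x) → 0 < ⟪T x v, v⟫

variable {V : Type} [NormedAddCommGroup V] [InnerProductSpace ℝ V] 

lemma SS.T_nonneg (S : SS V) {x : V} (hx : x ≠ 0) (v : V) : 0 ≤ ⟪S.T x v, v⟫ := by
  by_cases h : ∀ a : ℝ, v ≠ a • x
  · exact (S.pd x hx v h).le
  · push Not at h
    obtain ⟨a, rfl⟩ := h
    simp [S.ker x hx]

/-- derivative of `h` -/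
lemma SS.hasFDerivAt_h (S : SS V) {x : V} (hx : x ≠ 0) :
    HasFDerivAt S.h (innerSL ℝ (S.g x)) x := by
  have h1 : HasFDerivAt (fun y => ⟪S.g y, y⟫) 
      ((fderivInnerCLM ℝ (S.g x, x)).comp ((S.T x).prod (ContinuousLinearMap.id ℝ V))) x :=
    (S.hg x hx).inner ℝ (hasFDerivAt_id x)
  have h2 : S.h =ᶠ[𝓝 x] fun y => ⟪S.g y, y⟫ := by
    filter_upwards [isOpen_ne.mem_nhds hx] with y hy using S.hh y hy
  have h3 := h1.congr_of_eventuallyEq h2
  refine h3.congr_fderiv ?_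
  ext v
  have e1 := S.symm x hx v x
  rw [S.ker x hx, inner_zero_right] at e1
  simp [e1]

/-- gradient inequality -/
lemma SS.grad_le (S : SS V) {x : V} (hx : x ≠ 0) (y : V) : ⟪S.g x, y⟫ ≤ S.h y := by
  by_cases hy0 : y = 0
  · subst hy0; simp [S.h0]
  by_cases hseg : ∃ τ : ℝ, 0 < τ ∧ τ < 1 ∧ x + τ • (y - x) = 0
  · obtain ⟨τ, h0, h1, h2⟩ := hseg
    have hy : y = -((1 - τ) / τ) • x := by
      have : τ • y = -(1 - τ) • x := by
        have h3 : x + τ • (y - x) = (1 - τ) • x + τ • y := by module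
        rw [h3] at h2
        rw [neg_smul]
        exact eq_neg_of_add_eq_zero_right h2
      rw [show -((1 - τ) / τ) = τ⁻¹ * (-(1-τ)) by field_simp, mul_smul, ← this, smul_smul,
        inv_mul_cancel₀ h0.ne', one_smul]
    have hp := S.pos x hx
    have hp2 := S.pos y hy0
    have : ⟪S.g x, y⟫ = -((1 - τ) / τ) * S.h x := by
      rw [hy, inner_smul_right, S.hh x hx]
    rw [this]
    have : 0 < (1 - τ) / τ := div_pos (by linarith) h0
    nlinarith
  · push Not at hseg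
    have hne : ∀ τ : ℝ, τ ∈ Icc (0:ℝ) 1 → x + τ • (y - x) ≠ 0 := by
      intro τ hτ
      rcases eq_or_lt_of_le hτ.1 with h | h
      · subst h; simpa using hx
      rcases eq_or_lt_of_le hτ.2 with h' | h'
      · subst h'; simpa using hy0
      · exact hseg τ h h'
    have hder : ∀ τ : ℝ, τ ∈ Icc (0:ℝ) 1 → HasDerivAt (fun τ : ℝ => ⟪S.g (x + τ • (y - x)), y⟫)
        (⟪S.T (x + τ • (y - x)) (y - x), y⟫) τ := by
      intro τ hτ
      have h1 := S.hg _ (hne τ hτ)
      have h2 : HasDerivAt (fun τ : ℝ => x + τ • (y - x)) (y - x) τ := by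
        simpa using ((hasDerivAt_id τ).smul_const (y - x)).const_add x
      have h3 := h1.comp_hasDerivAt τ h2
      have h4 := h3.inner ℝ (hasDerivAt_const τ y)
      simpa using h4
    have hcont : ContinuousOn (fun τ : ℝ => ⟪S.g (x + τ • (y - x)), y⟫) (Icc 0 1) := fun τ hτ =>
      (hder τ hτ).continuousAt.continuousWithinAt
    obtain ⟨τ, hτ, hτ2⟩ := exists_hasDerivAt_eq_slope (fun τ : ℝ => ⟪S.g (x + τ • (y - x)), y⟫)
      (fun τ => ⟪S.T (x + τ • (y - x)) (y - x), y⟫) (by norm_num : (0:ℝ) < 1) hcont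
      (fun τ hτ => hder τ ⟨hτ.1.le, hτ.2.le⟩)
    simp only [zero_smul, add_zero, one_smul, sub_zero, div_one] at hτ2
    rw [show x + (y - x) = y by abel] at hτ2
    rw [S.hh y hy0]
    have hz := hne τ ⟨hτ.1.le, hτ.2.le⟩
    have h5 : y = (x + τ • (y - x)) + (1 - τ) • (y - x) := by module
    have h6 : ⟪S.T (x + τ • (y - x)) (y - x), y⟫ = (1 - τ) * ⟪S.T (x + τ • (y - x)) (y - x), y - x⟫ := by
      have h7 : ⟪S.T (x + τ • (y - x)) (y - x), x + τ • (y - x)⟫ = 0 := by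
        rw [S.symm _ hz, S.ker _ hz, inner_zero_right]
      calc ⟪S.T (x + τ • (y - x)) (y - x), y⟫ 
          = ⟪S.T (x + τ • (y - x)) (y - x), (x + τ • (y - x)) + (1 - τ) • (y - x)⟫ := by rw [← h5]
        _ = _ := by rw [inner_add_right, h7, inner_smul_right, zero_add]
    have := S.T_nonneg hz (y - x)
    have : 0 ≤ (1 - τ) * ⟪S.T (x + τ • (y - x)) (y - x), y - x⟫ := mul_nonneg (by linarith [hτ.2]) this
    linarith

lemma SS.subadd (S : SS V) (a b : V) : S.h a ≤ S.h (a + b) + S.h (-b) := by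
  by_cases ha : a = 0
  · subst ha
    rw [S.h0, zero_add]
    by_cases hb : b = 0
    · subst hb; simp [S.h0]
    · exact add_nonneg (S.pos b hb).le (S.pos (-b) (neg_ne_zero.2 hb)).le
  · have h1 := S.grad_le ha (a + b)
    have h2 := S.grad_le ha (-b)
    rw [S.hh a ha]
    have : ⟪S.g a, a⟫ = ⟪S.g a, a + b⟫ + ⟪S.g a, -b⟫ := by
      rw [← inner_add_right]; congr 1; abel
    linarith

section chart

variable {W : Type} [NormedAddCommGroup W] [InnerProductSpace ℝ W] [FiniteDimensional ℝ V]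
  [FiniteDimensional ℝ W] 

/-- the orthogonal projection to the range of `ι`, in the coordinates given by `ι` -/
noncomputable def ad (ι : W →ₗᵢ[ℝ] V) : V →L[ℝ] W :=
  haveI := FiniteDimensional.complete ℝ V
  haveI := FiniteDimensional.complete ℝ W
  ContinuousLinearMap.adjoint ι.toContinuousLinearMap

lemma ad_inner (ι : W →ₗᵢ[ℝ] V) (x : V) (y : W) : ⟪ad ι x, y⟫ = ⟪x, ι y⟫ := by
  haveI := FiniteDimensional.complete ℝ V
  haveI := FiniteDimensional.complete ℝ W
  simp [ad, ContinuousLinearMap.adjoint_inner_left]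

lemma ad_inner' (ι : W →ₗᵢ[ℝ] V) (x : V) (y : W) : ⟪y, ad ι x⟫ = ⟪ι y, x⟫ := by
  rw [real_inner_comm, ad_inner, real_inner_comm]

lemma ad_ι (ι : W →ₗᵢ[ℝ] V) (y : W) : ad ι (ι y) = y := by
  refine ext_inner_right ℝ fun z => ?_
  rw [ad_inner, LinearIsometry.inner_map_map]

lemma norm_ad_le (ι : W →ₗᵢ[ℝ] V) (x : V) : ‖ad ι x‖ ≤ ‖x‖ := by
  have h1 : ‖ad ι x‖ ^ 2 ≤ ‖x‖ * ‖ad ι x‖ := by
    rw [← real_inner_self_eq_norm_sq, ad_inner]
    calc ⟪x, ι (ad ι x)⟫ ≤ ‖x‖ * ‖ι (ad ι x)‖ := real_inner_le_norm _ _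
      _ = _ := by rw [LinearIsometry.norm_map]
  by_contra hcon
  push Not at hcon
  have : 0 < ‖ad ι x‖ := lt_of_le_of_lt (norm_nonneg _) hcon
  nlinarith

variable (S : SS V) (ι : W →ₗᵢ[ℝ] V) (u : V) 

/-- the gradient map in the chart -/
noncomputable def G (y : W) : W := ad ι (S.g (ι y + u))

/-- its derivative -/
noncomputable def DG (y : W) : W →L[ℝ] W := (ad ι).comp ((S.T (ι y + u)).comp ι.toContinuousLinearMap)

lemma chart_ne {ι : W →ₗᵢ[ℝ] V} {u : V} (hu : ‖u‖ = 1) (hort : ∀ y, ⟪ι y, u⟫ = 0) (y : W) :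
    ι y + u ≠ 0 := by
  intro h
  have : ⟪ι y + u, u⟫ = 1 := by
    rw [inner_add_left, hort, zero_add, real_inner_self_eq_norm_sq, hu]; norm_num
  rw [h, inner_zero_left] at this
  norm_num at this

lemma G_hasFDerivAt {ι : W →ₗᵢ[ℝ] V} {u : V} (hu : ‖u‖ = 1) (hort : ∀ y, ⟪ι y, u⟫ = 0) (y : W) :
    HasFDerivAt (G S ι u) (DG S ι u y) y := by
  have h1 : HasFDerivAt (fun y : W => ι y + u) (ι.toContinuousLinearMap) y :=
    ι.toContinuousLinearMap.hasFDerivAt.add_const u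
  have h2 := (S.hg _ (chart_ne hu hort y)).comp y h1
  exact (ad ι).hasFDerivAt.comp y h2

lemma DG_pos {ι : W →ₗᵢ[ℝ] V} {u : V} (hu : ‖u‖ = 1) (hort : ∀ y, ⟪ι y, u⟫ = 0) (y : W) (v : W)
    (hv : v ≠ 0) : 0 < ⟪DG S ι u y v, v⟫ := by
  have : ⟪DG S ι u y v, v⟫ = ⟪S.T (ι y + u) (ι v), ι v⟫ := by
    simp only [DG, ContinuousLinearMap.comp_apply, LinearIsometry.coe_toContinuousLinearMap]
    rw [ad_inner]
  rw [this]
  apply S.pd _ (chart_ne hu hort y)
  intro a ha
  have h1 : ⟪ι v, u⟫ = a := by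
    rw [ha, inner_smul_left, inner_add_left, hort, zero_add, real_inner_self_eq_norm_sq, hu]; simp
  rw [hort] at h1
  rw [← h1, zero_smul] at ha
  apply hv
  have := ι.norm_map v
  rw [ha, norm_zero] at this
  exact norm_eq_zero.1 this.symm

lemma DG_isPositive {ι : W →ₗᵢ[ℝ] V} {u : V} (hu : ‖u‖ = 1) (hort : ∀ y, ⟪ι y, u⟫ = 0) (y : W) :
    (DG S ι u y).toLinearMap.IsPositive := by
  refine ⟨fun v w => ?_, fun v => ?_⟩
  · simp only [DG, ContinuousLinearMap.coe_coe, ContinuousLinearMap.comp_apply, LinearIsometry.coe_toContinuousLinearMap]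
    rw [ad_inner, ad_inner', S.symm _ (chart_ne hu hort y)]
  · by_cases hv : v = 0
    · subst hv; simp
    · exact (DG_pos S hu hort y v hv).le

lemma det_DG_nonneg {ι : W →ₗᵢ[ℝ] V} {u : V} (hu : ‖u‖ = 1) (hort : ∀ y, ⟪ι y, u⟫ = 0) (y : W) :
    0 ≤ (DG S ι u y).det := by
  have h1 := DG_isPositive S hu hort y
  have h2 := (LinearMap.posSemidef_toMatrix_iff (stdOrthonormalBasis ℝ W)).2 h1
  have h3 := h2.det_nonneg
  rwa [LinearMap.det_toMatrix] at h3

lemma G_injective {ι : W →ₗᵢ[ℝ] V} {u : V} (hu : ‖u‖ = 1) (hort : ∀ y, ⟪ι y, u⟫ = 0) :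
    Function.Injective (G S ι u) := by
  intro a b hab
  by_contra hne
  have hv : a - b ≠ 0 := sub_ne_zero.2 hne
  have hder : ∀ τ : ℝ, HasDerivAt (fun τ : ℝ => ⟪G S ι u (b + τ • (a - b)), a - b⟫)
      (⟪DG S ι u (b + τ • (a - b)) (a - b), a - b⟫) τ := by
    intro τ
    have h2 : HasDerivAt (fun τ : ℝ => b + τ • (a - b)) (a - b) τ := by
      simpa using ((hasDerivAt_id τ).smul_const (a - b)).const_add b
    have h3 := (G_hasFDerivAt S hu hort (b + τ • (a - b))).comp_hasDerivAt τ h2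
    have h4 := h3.inner ℝ (hasDerivAt_const τ (a - b))
    simpa using h4
  obtain ⟨τ, -, hτ2⟩ := exists_hasDerivAt_eq_slope (fun τ : ℝ => ⟪G S ι u (b + τ • (a - b)), a - b⟫)
      (fun τ => (⟪DG S ι u (b + τ • (a - b)) (a - b), a - b⟫)) (by norm_num : (0:ℝ) < 1)
      (fun τ hτ => (hder τ).continuousAt.continuousWithinAt) (fun τ hτ => hder τ)
  have := DG_pos S hu hort (b + τ • (a - b)) (a - b) hv
  rw [hτ2] at this
  simp [hab] at this

/-- the planar (dual) description of the projection -/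
def M (S : SS V) (ι : W →ₗᵢ[ℝ] V) : Set W := {z | ∀ y, ⟪z, y⟫ ≤ S.h (ι y)}

lemma M_closed : IsClosed (M S ι) := by
  simp only [M, Set.ofPred_forall]
  exact isClosed_iInter fun y => isClosed_le (by fun_prop) continuous_const

lemma M_convex : Convex ℝ (M S ι) := by
  intro a ha b hb s t hs ht hst y
  rw [inner_add_left, inner_smul_left, inner_smul_left]
  have h1 := ha y
  have h2 := hb y
  simp only [conj_trivial]
  have h3 : s * ⟪a, y⟫ ≤ s * S.h (ι y) := mul_le_mul_of_nonneg_left h1 hs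
  have h4 : t * ⟪b, y⟫ ≤ t * S.h (ι y) := mul_le_mul_of_nonneg_left h2 ht
  calc _ ≤ s * S.h (ι y) + t * S.h (ι y) := add_le_add h3 h4
    _ = _ := by rw [← add_mul, hst, one_mul]

lemma range_G_subset {ι : W →ₗᵢ[ℝ] V} {u : V} (hu : ‖u‖ = 1) (hort : ∀ y, ⟪ι y, u⟫ = 0) :
    range (G S ι u) ⊆ M S ι := by
  rintro _ ⟨y, rfl⟩ z
  rw [G, ad_inner]
  exact S.grad_le (chart_ne hu hort y) _

lemma interior_subset_range {ι : W →ₗᵢ[ℝ] V} {u : V} (hu : ‖u‖ = 1) (hort : ∀ y, ⟪ι y, u⟫ = 0) :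
    interior (M S ι) ⊆ range (G S ι u) := by
  intro z hz
  obtain ⟨r, hr, hball⟩ := Metric.nhds_basis_closedBall.mem_iff.1 (mem_interior_iff_mem_nhds.1 hz)
  have key : ∀ y : W, ⟪z, y⟫ + r * ‖y‖ ≤ S.h (ι y) := by
    intro y
    by_cases hy : y = 0
    · subst hy; simp [S.h0]
    have hy' : 0 < ‖y‖ := norm_pos_iff.2 hy
    have hm : z + (r / ‖y‖) • y ∈ M S ι := by
      apply hball
      rw [Metric.mem_closedBall, dist_eq_norm, add_sub_cancel_left, norm_smul, norm_div, norm_norm,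
        div_mul_cancel₀ _ hy'.ne', Real.norm_eq_abs, abs_of_pos hr]
    have := hm y
    rw [inner_add_left, inner_smul_left, real_inner_self_eq_norm_sq] at this
    simp only [conj_trivial] at this
    have e : r / ‖y‖ * ‖y‖ ^ 2 = r * ‖y‖ := by field_simp
    linarith
  have hderk : ∀ y : W, HasFDerivAt (fun y : W => S.h (ι y + u) - ⟪z, y⟫)
      ((innerSL ℝ (S.g (ι y + u))).comp ι.toContinuousLinearMap - innerSL ℝ z) y := by
    intro y
    have h1 : HasFDerivAt (fun y : W => ι y + u) (ι.toContinuousLinearMap) y :=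
      ι.toContinuousLinearMap.hasFDerivAt.add_const u
    have h2 := (S.hasFDerivAt_h (chart_ne hu hort y)).comp y h1
    exact h2.sub (innerSL ℝ z).hasFDerivAt
  have hcont : Continuous (fun y : W => S.h (ι y + u) - ⟪z, y⟫) :=
    continuous_iff_continuousAt.2 fun y => (hderk y).continuousAt
  have hlow : ∀ y : W, r * ‖y‖ - S.h (-u) ≤ S.h (ι y + u) - ⟪z, y⟫ := by
    intro y
    have h1 := S.subadd (ι y) u
    have h2 := key y
    linarith
  have htend : Tendsto (fun y : W => S.h (ι y + u) - ⟪z, y⟫) (cocompact W) atTop := by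
    haveI := FiniteDimensional.proper ℝ W
    refine tendsto_atTop_mono hlow ?_
    exact tendsto_atTop_add_const_right _ _ (tendsto_norm_cocompact_atTop.const_mul_atTop hr)
  obtain ⟨y0, hy0⟩ := hcont.exists_forall_le htend
  have hmin : IsLocalMin (fun y : W => S.h (ι y + u) - ⟪z, y⟫) y0 := Filter.Eventually.of_forall hy0
  have hzero := hmin.hasFDerivAt_eq_zero (hderk y0)
  refine ⟨y0, ?_⟩
  refine ext_inner_right ℝ fun w => ?_
  have := congrArg (fun L : W →L[ℝ] ℝ => L w) hzero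
  simp only [sub_apply, ContinuousLinearMap.comp_apply, 
    LinearIsometry.coe_toContinuousLinearMap, innerSL_apply_apply, zero_apply] at this
  rw [G, ad_inner]
  linarith

variable [MeasurableSpace W] [BorelSpace W]

theorem volume_eq {ι : W →ₗᵢ[ℝ] V} {u : V} (hu : ‖u‖ = 1) (hort : ∀ y, ⟪ι y, u⟫ = 0)
    (A : Set W) (h1 : range (G S ι u) ⊆ A) (h2 : A ⊆ M S ι) :
    volume A = ∫⁻ y : W, ENNReal.ofReal (DG S ι u y).det := by
  have e1 : ∫⁻ y in (univ : Set W), ENNReal.ofReal |(DG S ι u y).det| = volume (G S ι u '' univ) :=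
    lintegral_abs_det_fderiv_eq_addHaar_image volume MeasurableSet.univ
      (fun y _ => (G_hasFDerivAt S hu hort y).hasFDerivWithinAt) (G_injective S hu hort).injOn
  rw [image_univ, Measure.restrict_univ] at e1
  have e2 : ∫⁻ y : W, ENNReal.ofReal (DG S ι u y).det = volume (range (G S ι u)) := by
    rw [← e1]
    refine lintegral_congr fun y => ?_
    rw [abs_of_nonneg (det_DG_nonneg S hu hort y)]
  rw [e2]
  apply le_antisymm _ (measure_mono h1)
  calc volume A ≤ volume (M S ι) := measure_mono h2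
    _ ≤ volume (interior (M S ι) ∪ frontier (M S ι)) := by
        apply measure_mono
        rw [← closure_eq_interior_union_frontier]
        exact subset_closure
    _ ≤ volume (interior (M S ι)) + volume (frontier (M S ι)) := measure_union_le _ _
    _ = volume (interior (M S ι)) := by rw [(M_convex S ι).addHaar_frontier volume, add_zero]
    _ ≤ _ := measure_mono (interior_subset_range S hu hort)

end chart

end Pool.Agent.Helper104.GirthVol
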