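import Mathlib
import Pool.Agent.Helper104.GirthVol

open MeasureTheory Set Filter Topology
open scoped RealInnerProductSpace ENNReal NNReal

namespace Pool.Agent.Helper104.GirthVol

variable {V : Type} [NormedAddCommGroup V] [InnerProductSpace ℝ V] 

lemma hasFDerivAt_norm' {x : V} (hx : x ≠ 0) :
    HasFDerivAt (fun y : V => ‖y‖) (‖x‖⁻¹ • innerSL ℝ x) x := by
  have h1 := (hasStrictFDerivAt_norm_sq x).hasFDerivAt
  have hpos : 0 < ‖x‖ := norm_pos_iff.2 hx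
  have h2 := h1.sqrt (by positivity)
  have h3 : (fun y : V => Real.sqrt (‖y‖ ^ 2)) = fun y : V => ‖y‖ := by
    funext y; exact Real.sqrt_sq (norm_nonneg y)
  rw [h3] at h2
  refine h2.congr_fderiv ?_
  ext v
  rw [Real.sqrt_sq hpos.le]
  simp
  field_simp

lemma hasFDerivAt_inv_norm {x : V} (hx : x ≠ 0) :
    HasFDerivAt (fun y : V => ‖y‖⁻¹) (-(‖x‖ ^ 3)⁻¹ • innerSL ℝ x) x := by
  have hpos : 0 < ‖x‖ := norm_pos_iff.2 hx
  have h1 := (hasDerivAt_inv hpos.ne').comp_hasFDerivAt x (hasFDerivAt_norm' hx)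
  refine h1.congr_fderiv ?_
  ext v
  simp
  field_simp

/-- adding a multiple of the unit ball -/
noncomputable def SS.addNorm (S : SS V) (s : ℝ) (hs : 0 ≤ s) : SS V where
  h x := S.h x + s * ‖x‖
  g x := S.g x + (s * ‖x‖⁻¹) • x
  T x := S.T x + ((s * ‖x‖⁻¹) • (ContinuousLinearMap.id ℝ V) - (s * (‖x‖ ^ 3)⁻¹) • ((innerSL ℝ x).smulRight x))
  hh x hx := by
    have hpos : 0 < ‖x‖ := norm_pos_iff.2 hx
    rw [inner_add_left, inner_smul_left, real_inner_self_eq_norm_sq, ← S.hh x hx]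
    simp only [conj_trivial]
    field_simp
  h0 := by simp [S.h0]
  pos x hx := add_pos_of_pos_of_nonneg (S.pos x hx) (mul_nonneg hs (norm_nonneg x))
  hg x hx := by
    have hpos : 0 < ‖x‖ := norm_pos_iff.2 hx
    have h1 : HasFDerivAt (fun y : V => s * ‖y‖⁻¹) (s • (-(‖x‖ ^ 3)⁻¹ • innerSL ℝ x)) x :=
      (hasFDerivAt_inv_norm hx).const_mul s
    have h2 := h1.smul (hasFDerivAt_id x)
    have h3 := (S.hg x hx).add h2
    refine h3.congr_fderiv ?_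
    ext v
    simp [smul_smul]
    module
  symm x hx v w := by
    simp only [add_apply, sub_apply, smul_apply, ContinuousLinearMap.id_apply, 
      ContinuousLinearMap.smulRight_apply, innerSL_apply_apply]
    rw [inner_add_left, inner_add_right, S.symm x hx]
    simp only [inner_sub_left, inner_sub_right, inner_smul_left, inner_smul_right, conj_trivial]
    rw [real_inner_comm x v]
    ring
  ker x hx := by
    have hpos : 0 < ‖x‖ := norm_pos_iff.2 hx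
    simp only [add_apply, sub_apply, smul_apply, ContinuousLinearMap.id_apply, 
      ContinuousLinearMap.smulRight_apply, innerSL_apply_apply]
    rw [S.ker x hx, zero_add, real_inner_self_eq_norm_sq, smul_smul, ← sub_smul]
    have : s * ‖x‖⁻¹ - s * (‖x‖ ^ 3)⁻¹ * ‖x‖ ^ 2 = 0 := by field_simp; ring
    rw [this, zero_smul]
  pd x hx v hv := by
    have hpos : 0 < ‖x‖ := norm_pos_iff.2 hx
    simp only [add_apply, sub_apply, smul_apply, ContinuousLinearMap.id_apply, 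
      ContinuousLinearMap.smulRight_apply, innerSL_apply_apply]
    rw [inner_add_left, inner_sub_left, inner_smul_left, inner_smul_left, inner_smul_left, real_inner_self_eq_norm_sq]
    simp only [conj_trivial]
    have h1 := S.pd x hx v hv
    have h2 : ⟪x, v⟫ ^ 2 ≤ ‖x‖ ^ 2 * ‖v‖ ^ 2 := by
      have := abs_real_inner_le_norm x v
      rw [← mul_pow, ← sq_abs]
      exact pow_le_pow_left₀ (abs_nonneg _) this 2
    have h3 : s * ‖x‖⁻¹ * ‖v‖ ^ 2 - s * (‖x‖ ^ 3)⁻¹ * (⟪x, v⟫ * ⟪x, v⟫) = 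
      s * (‖x‖ ^ 3)⁻¹ * (‖x‖ ^ 2 * ‖v‖ ^ 2 - ⟪x, v⟫ ^ 2) := by field_simp
    have h4 : 0 ≤ s * (‖x‖ ^ 3)⁻¹ * (‖x‖ ^ 2 * ‖v‖ ^ 2 - ⟪x, v⟫ ^ 2) := 
      mul_nonneg (by positivity) (by linarith)
    linarith

lemma det_fin4 (A : Matrix (Fin 4) (Fin 4) ℝ) : A.det =
    A 0 0 * (A 1 1 * (A 2 2 * A 3 3 - A 2 3 * A 3 2) - A 1 2 * (A 2 1 * A 3 3 - A 2 3 * A 3 1) + A 1 3 * (A 2 1 * A 3 2 - A 2 2 * A 3 1))
  - A 0 1 * (A 1 0 * (A 2 2 * A 3 3 - A 2 3 * A 3 2) - A 1 2 * (A 2 0 * A 3 3 - A 2 3 * A 3 0) + A 1 3 * (A 2 0 * A 3 2 - A 2 2 * A 3 0))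
  + A 0 2 * (A 1 0 * (A 2 1 * A 3 3 - A 2 3 * A 3 1) - A 1 1 * (A 2 0 * A 3 3 - A 2 3 * A 3 0) + A 1 3 * (A 2 0 * A 3 1 - A 2 1 * A 3 0))
  - A 0 3 * (A 1 0 * (A 2 1 * A 3 2 - A 2 2 * A 3 1) - A 1 1 * (A 2 0 * A 3 2 - A 2 2 * A 3 0) + A 1 2 * (A 2 0 * A 3 1 - A 2 1 * A 3 0)) := by
  rw [Matrix.det_succ_row_zero, Fin.sum_univ_four]
  simp only [Matrix.det_fin_three, Matrix.submatrix_apply]
  simp [Fin.succAbove, Fin.lt_def]
  ring

lemma det4 (M : Matrix (Fin 4) (Fin 4) ℝ) : ∃ c0 c1 : ℝ, ∀ τ : ℝ, (M + τ • (1 : Matrix (Fin 4) (Fin 4) ℝ)).det = 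
    τ ^ 4 + M.trace * τ ^ 3 + (M.trace ^ 2 - (M * M).trace) / 2 * τ ^ 2 + c1 * τ + c0 := by
  refine ⟨M.det, (1 + M).det - 1 - M.trace - (M.trace ^ 2 - (M * M).trace) / 2 - M.det, fun τ => ?_⟩
  simp only [det_fin4, Matrix.trace, Matrix.diag_apply, Matrix.mul_apply, Fin.sum_univ_four, Matrix.add_apply, Matrix.smul_apply]
  simp
  ring

section

variable {W : Type} [NormedAddCommGroup W] [InnerProductSpace ℝ W] [FiniteDimensional ℝ V]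
  [FiniteDimensional ℝ W] 

lemma det4_lin (hW : Module.finrank ℝ W = 4) (A : W →ₗ[ℝ] W) : ∃ c0 c1 : ℝ, ∀ τ : ℝ, 
    LinearMap.det (A + τ • LinearMap.id) = 
    τ ^ 4 + LinearMap.trace ℝ W A * τ ^ 3 + (LinearMap.trace ℝ W A ^ 2 - LinearMap.trace ℝ W (A ∘ₗ A)) / 2 * τ ^ 2 
      + c1 * τ + c0 := by
  let b := Module.finBasisOfFinrankEq ℝ W hW
  obtain ⟨c0, c1, h⟩ := det4 (LinearMap.toMatrix b b A)
  refine ⟨c0, c1, fun τ => ?_⟩
  rw [← LinearMap.det_toMatrix b, LinearMap.trace_eq_matrix_trace ℝ b, LinearMap.trace_eq_matrix_trace ℝ b,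
    LinearMap.toMatrix_comp b b b, ← h τ]
  congr 1
  simp

/-- a unit normal vector -/
lemma exists_normal (ι : W →ₗᵢ[ℝ] V) (hdim : Module.finrank ℝ V = Module.finrank ℝ W + 1) :
    ∃ u : V, ‖u‖ = 1 ∧ (∀ y, ⟪ι y, u⟫ = 0) ∧ ∀ z, ι (ad ι z) + ⟪u, z⟫ • u = z := by
  set R := LinearMap.range ι.toLinearMap with hR
  have h1 : Module.finrank ℝ R = Module.finrank ℝ W :=
    LinearMap.finrank_range_of_inj ι.injective
  have h2 : Module.finrank ℝ Rᗮ = 1 := by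
    have := R.finrank_add_finrank_orthogonal
    omega
  obtain ⟨⟨u0, hu0⟩, hne, hspan⟩ := finrank_eq_one_iff'.1 h2
  have hu0ne : u0 ≠ 0 := fun h => hne (by ext; simpa using h)
  have hpos : 0 < ‖u0‖ := norm_pos_iff.2 hu0ne
  have hort0 : ∀ y, ⟪ι y, u0⟫ = 0 := by
    intro y
    exact (Submodule.mem_orthogonal R u0).1 hu0 (ι y) ⟨y, rfl⟩
  refine ⟨‖u0‖⁻¹ • u0, ?_, ?_, ?_⟩
  · rw [norm_smul, norm_inv, norm_norm, inv_mul_cancel₀ hpos.ne']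
  · intro y
    rw [inner_smul_right, hort0, mul_zero]
  · intro z
    have hz : z - ι (ad ι z) ∈ Rᗮ := by
      rw [Submodule.mem_orthogonal]
      rintro _ ⟨y, rfl⟩
      change ⟪ι y, z - ι (ad ι z)⟫ = 0
      rw [inner_sub_right, LinearIsometry.inner_map_map, ad_inner', sub_self]
    obtain ⟨c, hc⟩ := hspan ⟨z - ι (ad ι z), hz⟩
    have hc' : c • u0 = z - ι (ad ι z) := congrArg Subtype.val hc
    have h5 : ⟪u0, z⟫ = c * ‖u0‖ ^ 2 := by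
      have : z = ι (ad ι z) + c • u0 := by rw [hc']; abel
      calc ⟪u0, z⟫ = ⟪u0, ι (ad ι z) + c • u0⟫ := by rw [← this]
        _ = _ := by
          rw [inner_add_right, real_inner_comm, hort0, inner_smul_right, real_inner_self_eq_norm_sq]; ring
    rw [inner_smul_left, h5, smul_smul]
    simp only [conj_trivial]
    have : ‖u0‖⁻¹ * (c * ‖u0‖ ^ 2) * ‖u0‖⁻¹ = c := by field_simp
    rw [this, hc']
    abel

theorem det_addNorm (S : SS V) (hW : Module.finrank ℝ W = 4) {ι : W →ₗᵢ[ℝ] V} {u : V} (hu : ‖u‖ = 1) 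
    (hort : ∀ y, ⟪ι y, u⟫ = 0) (hsp : ∀ z, ι (ad ι z) + ⟪u, z⟫ • u = z) (y : W) : 
    ∃ c0 c1 c3 c4 : ℝ, ∀ (s : ℝ) (hs : 0 ≤ s), (DG (S.addNorm s hs) ι u y).det = 
      c4 * s ^ 4 + c3 * s ^ 3 + 
      ((‖ι y + u‖ ^ 4)⁻¹ * ((LinearMap.trace ℝ V (S.T (ι y + u)).toLinearMap ^ 2 - 
        LinearMap.trace ℝ V ((S.T (ι y + u)).toLinearMap ∘ₗ (S.T (ι y + u)).toLinearMap)) / 2)) * s ^ 2 
      + c1 * s + c0 := by
  have hne := chart_ne hu hort y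
  set x := ι y + u with hx
  have hpos : 0 < ‖x‖ := norm_pos_iff.2 hne
  set T := (S.T x).toLinearMap with hT
  have hadu : ad ι u = 0 := by
    refine ext_inner_right ℝ fun w => ?_
    rw [ad_inner, real_inner_comm, hort, inner_zero_left]
  have hadx : ad ι x = y := by rw [hx, map_add, ad_ι, hadu, add_zero]
  have hnorm : ‖x‖ ^ 2 = 1 + ‖y‖ ^ 2 := by
    rw [hx, ← real_inner_self_eq_norm_sq, inner_add_left, inner_add_right, inner_add_right, hort,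
      real_inner_comm (ι y) u, hort, LinearIsometry.inner_map_map, real_inner_self_eq_norm_sq, real_inner_self_eq_norm_sq, hu]
    ring
  let C : W →ₗ[ℝ] W := LinearMap.transvection (innerSL ℝ y : W →L[ℝ] ℝ).toLinearMap y
  have hC : LinearMap.det C = ‖x‖ ^ 2 := by
    rw [LinearMap.transvection.det, hnorm]
    simp
  let A : W →ₗ[ℝ] W := (DG S ι u y).toLinearMap
  let R : V →ₗ[ℝ] W := (ad ι).toLinearMap - ((innerSL ℝ u : V →L[ℝ] ℝ).toLinearMap).smulRight y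
  have hA : ∀ v, A v = ad ι (S.T x (ι v)) := fun v => rfl
  have hTx : ∀ z, ⟪x, S.T x z⟫ = 0 := by
    intro z
    rw [← S.symm x hne, S.ker x hne, inner_zero_left]
  have hCA : C ∘ₗ A = R ∘ₗ T ∘ₗ ι.toLinearMap := by
    ext v
    simp only [C, R, LinearMap.comp_apply, LinearMap.transvection.apply, LinearMap.sub_apply, 
      LinearMap.smulRight_apply, hA]
    change ad ι (S.T x (ι v)) + ⟪y, ad ι (S.T x (ι v))⟫ • y = ad ι (S.T x (ι v)) - ⟪u, S.T x (ι v)⟫ • y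
    rw [ad_inner']
    have : ⟪ι y, S.T x (ι v)⟫ + ⟪u, S.T x (ι v)⟫ = 0 := by
      rw [← inner_add_left, ← hx, hTx]
    have h2 : ⟪ι y, S.T x (ι v)⟫ = - ⟪u, S.T x (ι v)⟫ := by linarith
    rw [h2]; module
  have hιR : ∀ z, ι (R z) = z - ⟪u, z⟫ • x := by
    intro z
    change ι (ad ι z - ⟪u, z⟫ • y) = _
    rw [map_sub, map_smul]
    have := hsp z
    rw [hx]
    calc ι (ad ι z) - ⟪u, z⟫ • ι y = (ι (ad ι z) + ⟪u, z⟫ • u) - ⟪u, z⟫ • (ι y + u) := by module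
      _ = _ := by rw [this]
  have hTιR : T ∘ₗ (ι.toLinearMap ∘ₗ R) = T := by
    ext z
    change S.T x (ι (R z)) = S.T x z
    rw [hιR, map_sub, map_smul, S.ker x hne, smul_zero, sub_zero]
  have htr1 : LinearMap.trace ℝ W (C ∘ₗ A) = LinearMap.trace ℝ V T := by
    rw [hCA, LinearMap.trace_comp_comm', LinearMap.comp_assoc, hTιR]
  have htr2 : LinearMap.trace ℝ W ((C ∘ₗ A) ∘ₗ (C ∘ₗ A)) = LinearMap.trace ℝ V (T ∘ₗ T) := by
    have : (C ∘ₗ A) ∘ₗ (C ∘ₗ A) = R ∘ₗ (T ∘ₗ T ∘ₗ ι.toLinearMap) := by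
      rw [hCA]
      calc (R ∘ₗ T ∘ₗ ι.toLinearMap) ∘ₗ (R ∘ₗ T ∘ₗ ι.toLinearMap) 
          = R ∘ₗ (T ∘ₗ (ι.toLinearMap ∘ₗ R)) ∘ₗ T ∘ₗ ι.toLinearMap := rfl
        _ = _ := by rw [hTιR]
    rw [this, LinearMap.trace_comp_comm']
    congr 1
    calc (T ∘ₗ T ∘ₗ ι.toLinearMap) ∘ₗ R = T ∘ₗ (T ∘ₗ (ι.toLinearMap ∘ₗ R)) := rfl
      _ = _ := by rw [hTιR]
  obtain ⟨c0, c1, hdet⟩ := det4_lin hW (C ∘ₗ A)
  rw [htr1, htr2] at hdet
  refine ⟨(‖x‖ ^ 2)⁻¹ * c0, (‖x‖ ^ 3)⁻¹ * c1, (‖x‖ ^ 5)⁻¹ * LinearMap.trace ℝ V T, (‖x‖ ^ 6)⁻¹, fun s hs => ?_⟩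
  have hmain : C ∘ₗ (DG (S.addNorm s hs) ι u y).toLinearMap = C ∘ₗ A + (s * ‖x‖⁻¹) • LinearMap.id := by
    ext v
    have e1 : DG (S.addNorm s hs) ι u y v = A v + ((s * ‖x‖⁻¹) • v - (s * (‖x‖ ^ 3)⁻¹ * ⟪y, v⟫) • y) := by
      change ad ι (S.T x (ι v) + ((s * ‖x‖⁻¹) • (ι v) - (s * (‖x‖ ^ 3)⁻¹) • (⟪x, ι v⟫ • x))) = _
      rw [map_add, map_sub, map_smul, map_smul, map_smul, ad_ι, hadx, smul_smul, ← ad_inner, hadx, hA]
    simp only [LinearMap.comp_apply, ContinuousLinearMap.coe_coe, LinearMap.add_apply, LinearMap.smul_apply,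
      LinearMap.id_apply]
    rw [e1, map_add]
    congr 1
    simp only [C, LinearMap.transvection.apply]
    change ((s * ‖x‖⁻¹) • v - (s * (‖x‖ ^ 3)⁻¹ * ⟪y, v⟫) • y) + 
      ⟪y, (s * ‖x‖⁻¹) • v - (s * (‖x‖ ^ 3)⁻¹ * ⟪y, v⟫) • y⟫ • y = _
    rw [inner_sub_right, inner_smul_right, inner_smul_right, real_inner_self_eq_norm_sq]
    have e2 : - (s * (‖x‖ ^ 3)⁻¹ * ⟪y, v⟫) + (s * ‖x‖⁻¹ * ⟪y, v⟫ - s * (‖x‖ ^ 3)⁻¹ * ⟪y, v⟫ * ‖y‖ ^ 2) = 0 := by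
      have : ‖y‖ ^ 2 = ‖x‖ ^ 2 - 1 := by linarith
      rw [this]; field_simp
      ring_nf
    calc _ = (s * ‖x‖⁻¹) • v + (- (s * (‖x‖ ^ 3)⁻¹ * ⟪y, v⟫) + (s * ‖x‖⁻¹ * ⟪y, v⟫ - s * (‖x‖ ^ 3)⁻¹ * ⟪y, v⟫ * ‖y‖ ^ 2)) • y := by module
      _ = _ := by rw [e2, zero_smul, add_zero]
  have hdd := congrArg LinearMap.det hmain
  rw [LinearMap.det_comp, hC, hdet] at hdd
  have : (DG (S.addNorm s hs) ι u y).det = (‖x‖ ^ 2)⁻¹ * (‖x‖ ^ 2 * LinearMap.det (DG (S.addNorm s hs) ι u y).toLinearMap) := by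
    rw [← mul_assoc, inv_mul_cancel₀ (by positivity), one_mul]
  rw [this, hdd]
  field_simp

end

end Pool.Agent.Helper104.GirthVol
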