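import Mathlib
import Pool.Agent.Helper104.GirthDet

open MeasureTheory Set Filter Topology
open scoped RealInnerProductSpace ENNReal NNReal

namespace Pool.Agent.Helper104.GirthVol

lemma inner5 (x y : E 5) : ⟪x, y⟫ = x 0 * y 0 + x 1 * y 1 + x 2 * y 2 + x 3 * y 3 + x 4 * y 4 := by
  rw [PiLp.inner_apply, Fin.sum_univ_five]
  simp
  ring

lemma normsq5 (x : E 5) : ‖x‖ ^ 2 = x 0 ^ 2 + x 1 ^ 2 + x 2 ^ 2 + x 3 ^ 2 + x 4 ^ 2 := by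
  rw [← real_inner_self_eq_norm_sq, inner5]; ring

/-- The symmetric bilinear map of the Cartan cubic. -/
noncomputable def Bl : E 5 →ₗ[ℝ] E 5 →ₗ[ℝ] E 5 :=
  LinearMap.mk₂ ℝ (fun x v => !₂[6 * x 0 * v 0 - 6 * x 1 * v 1 - 6 * x 2 * v 2 + 3 * x 3 * v 3 + 3 * x 4 * v 4,
    -6 * x 1 * v 0 - 6 * x 0 * v 1 + 3 * √3 * x 3 * v 3 - 3 * √3 * x 4 * v 4,
    -6 * x 2 * v 0 - 6 * x 0 * v 2 + 3 * √3 * x 4 * v 3 + 3 * √3 * x 3 * v 4,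
    3 * x 3 * v 0 + 3 * √3 * x 3 * v 1 + 3 * √3 * x 4 * v 2 + (3 * x 0 + 3 * √3 * x 1) * v 3 + 3 * √3 * x 2 * v 4,
    3 * x 4 * v 0 - 3 * √3 * x 4 * v 1 + 3 * √3 * x 3 * v 2 + 3 * √3 * x 2 * v 3 + (3 * x 0 - 3 * √3 * x 1) * v 4])
  (by intro a b c; ext i; fin_cases i <;> simp <;> ring)
  (by intro a b c; ext i; fin_cases i <;> simp <;> ring)
  (by intro a b c; ext i; fin_cases i <;> simp <;> ring)
  (by intro a b c; ext i; fin_cases i <;> simp <;> ring)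

lemma Bl_0 (x v : E 5) : Bl x v 0 = 6 * x 0 * v 0 - 6 * x 1 * v 1 - 6 * x 2 * v 2 + 3 * x 3 * v 3 + 3 * x 4 * v 4 := by
  simp [Bl]
lemma Bl_1 (x v : E 5) : Bl x v 1 = -6 * x 1 * v 0 - 6 * x 0 * v 1 + 3 * √3 * x 3 * v 3 - 3 * √3 * x 4 * v 4 := by
  simp [Bl]
lemma Bl_2 (x v : E 5) : Bl x v 2 = -6 * x 2 * v 0 - 6 * x 0 * v 2 + 3 * √3 * x 4 * v 3 + 3 * √3 * x 3 * v 4 := by
  simp [Bl]
lemma Bl_3 (x v : E 5) : Bl x v 3 = 3 * x 3 * v 0 + 3 * √3 * x 3 * v 1 + 3 * √3 * x 4 * v 2 + (3 * x 0 + 3 * √3 * x 1) * v 3 + 3 * √3 * x 2 * v 4 := by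
  simp [Bl]
lemma Bl_4 (x v : E 5) : Bl x v 4 = 3 * x 4 * v 0 - 3 * √3 * x 4 * v 1 + 3 * √3 * x 3 * v 2 + 3 * √3 * x 2 * v 3 + (3 * x 0 - 3 * √3 * x 1) * v 4 := by
  simp [Bl]

lemma Bl_comm (x v : E 5) : Bl x v = Bl v x := by
  ext i; fin_cases i
  · change Bl x v 0 = Bl v x 0
    rw [Bl_0, Bl_0]; ring
  · change Bl x v 1 = Bl v x 1
    rw [Bl_1, Bl_1]; ring
  · change Bl x v 2 = Bl v x 2
    rw [Bl_2, Bl_2]; ring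
  · change Bl x v 3 = Bl v x 3
    rw [Bl_3, Bl_3]; ring
  · change Bl x v 4 = Bl v x 4
    rw [Bl_4, Bl_4]; ring

lemma Bl_symm (x v w : E 5) : ⟪Bl x v, w⟫ = ⟪v, Bl x w⟫ := by
  rw [inner5, inner5, Bl_0, Bl_0, Bl_1, Bl_1, Bl_2, Bl_2, Bl_3, Bl_3, Bl_4, Bl_4]; ring

/-- half of the gradient of the cubic... the gradient itself -/
noncomputable def Gf (x : E 5) : E 5 := (1 / 2 : ℝ) • Bl x x

/-- The Cartan cubic. -/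
noncomputable def Ff (x : E 5) : ℝ := (1 / 3) * ⟪Gf x, x⟫

lemma sq3 : (√3 : ℝ) ^ 2 = 3 := Real.sq_sqrt (by norm_num)

lemma Gf_normsq (x : E 5) : ‖Gf x‖ ^ 2 = 9 * ‖x‖ ^ 4 := by
  have h : ‖x‖ ^ 4 = (‖x‖ ^ 2) ^ 2 := by ring
  rw [h, Gf, norm_smul, mul_pow, normsq5, normsq5, Bl_0, Bl_1, Bl_2, Bl_3, Bl_4]
  rw [Real.norm_eq_abs, sq_abs]
  have h3 := sq3
  set s := √(3:ℝ)
  linear_combination (9 / 4 * ((x 3 ^ 2 - x 4 ^ 2) ^ 2 + (2 * x 3 * x 4) ^ 2 + (2 * x 3 * x 1 + 2 * x 4 * x 2) ^ 2 + (2 * x 3 * x 2 - 2 * x 4 * x 1) ^ 2)) * h3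

lemma Bl_Gf (x : E 5) : Bl x (Gf x) = (18 * ‖x‖ ^ 2) • x := by
  have h3 := sq3
  rw [normsq5]
  ext i; fin_cases i
  · change Bl x (Gf x) 0 = (18 * _) * x 0
    simp only [Bl_0, Bl_1, Bl_2, Bl_3, Bl_4, Gf, PiLp.smul_apply, smul_eq_mul]
    ring
  · change Bl x (Gf x) 1 = (18 * _) * x 1
    simp only [Bl_0, Bl_1, Bl_2, Bl_3, Bl_4, Gf, PiLp.smul_apply, smul_eq_mul]
    linear_combination (9 * x 1 * (x 3 ^ 2 + x 4 ^ 2)) * h3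
  · change Bl x (Gf x) 2 = (18 * _) * x 2
    simp only [Bl_0, Bl_1, Bl_2, Bl_3, Bl_4, Gf, PiLp.smul_apply, smul_eq_mul]
    linear_combination (9 * x 2 * (x 3 ^ 2 + x 4 ^ 2)) * h3
  · change Bl x (Gf x) 3 = (18 * _) * x 3
    simp only [Bl_0, Bl_1, Bl_2, Bl_3, Bl_4, Gf, PiLp.smul_apply, smul_eq_mul]
    linear_combination (9 / 2 * x 3 * (x 3 ^ 2 + x 4 ^ 2) + 9 * x 3 * (x 1 ^ 2 + x 2 ^ 2)) * h3
  · change Bl x (Gf x) 4 = (18 * _) * x 4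
    simp only [Bl_0, Bl_1, Bl_2, Bl_3, Bl_4, Gf, PiLp.smul_apply, smul_eq_mul]
    linear_combination (9 / 2 * x 4 * (x 3 ^ 2 + x 4 ^ 2) + 9 * x 4 * (x 1 ^ 2 + x 2 ^ 2)) * h3

lemma Bl_self (x : E 5) : Bl x x = (2 : ℝ) • Gf x := by
  rw [Gf, smul_smul]; norm_num

lemma Gf_inner (x : E 5) : ⟪x, Gf x⟫ = 3 * Ff x := by
  rw [Ff, real_inner_comm]; ring

lemma trace_Bl (x : E 5) : LinearMap.trace ℝ (E 5) (Bl x) = 0 := by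
  rw [LinearMap.trace_eq_sum_inner _ (EuclideanSpace.basisFun (Fin 5) ℝ), Fin.sum_univ_five]
  simp only [inner5, Bl_0, Bl_1, Bl_2, Bl_3, Bl_4]
  simp
  ring

lemma trace_Bl_Bl (x : E 5) : LinearMap.trace ℝ (E 5) (Bl x ∘ₗ Bl x) = 126 * ‖x‖ ^ 2 := by
  have h3 := sq3
  have h : ∀ a : E 5, ⟪a, (Bl x ∘ₗ Bl x) a⟫ = ‖Bl x a‖ ^ 2 := by
    intro a
    rw [LinearMap.comp_apply, ← Bl_symm, real_inner_self_eq_norm_sq]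
  rw [LinearMap.trace_eq_sum_inner _ (EuclideanSpace.basisFun (Fin 5) ℝ), Fin.sum_univ_five]
  simp only [h, normsq5, Bl_0, Bl_1, Bl_2, Bl_3, Bl_4]
  simp
  linear_combination (18 * (x 1 ^ 2 + x 2 ^ 2) + 36 * (x 3 ^ 2 + x 4 ^ 2)) * h3

end Pool.Agent.Helper104.GirthVol
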