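import Mathlib
import Pool.Agent.Helper104.GirthCubic

open MeasureTheory Set Filter Topology
open scoped RealInnerProductSpace ENNReal NNReal

namespace Pool.Agent.Helper104.GirthVol

/-- continuous bilinear version -/
noncomputable def BC : E 5 →L[ℝ] E 5 →L[ℝ] E 5 := Bl.toContinuousBilinearMap

lemma BC_apply (x v : E 5) : BC x v = Bl x v := rfl

lemma hasFDerivAt_Gf (x : E 5) : HasFDerivAt Gf (BC x) x := by
  have h1 := BC.hasFDerivAt_of_bilinear (hasFDerivAt_id x) (hasFDerivAt_id x)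
  have h2 := h1.const_smul (1 / 2 : ℝ)
  refine h2.congr_fderiv ?_
  ext v : 1
  change (1 / 2 : ℝ) • (Bl x v + Bl v x) = Bl x v
  rw [Bl_comm v x, ← two_smul ℝ (Bl x v), smul_smul]
  norm_num

lemma hasFDerivAt_Ff (x : E 5) : HasFDerivAt Ff (innerSL ℝ (Gf x)) x := by
  have h1 := ((hasFDerivAt_Gf x).inner ℝ (hasFDerivAt_id x)).const_mul (1 / 3 : ℝ)
  refine h1.congr_fderiv ?_
  ext v
  simp only [fderivInnerCLM_apply, ContinuousLinearMap.comp_apply, ContinuousLinearMap.prod_apply, smul_apply,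
    ContinuousLinearMap.id_apply, BC_apply, innerSL_apply_apply, smul_eq_mul, id]
  rw [Bl_symm, Bl_self, inner_smul_right, real_inner_comm v (Gf x)]
  ring

lemma norm_Gf (x : E 5) : ‖Gf x‖ = 3 * ‖x‖ ^ 2 := by
  have h : ‖Gf x‖ ^ 2 = (3 * ‖x‖ ^ 2) ^ 2 := by rw [Gf_normsq]; ring
  exact (pow_left_inj₀ (norm_nonneg _) (by positivity) (by norm_num)).1 h

lemma abs_Ff_le (x : E 5) : |Ff x| ≤ ‖x‖ ^ 3 := by
  have h1 := abs_real_inner_le_norm x (Gf x)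
  rw [Gf_inner, norm_Gf, abs_mul, abs_of_pos (by norm_num : (0:ℝ) < 3)] at h1
  nlinarith [h1]

lemma Bl_inner_ww (x w : E 5) : ⟪Bl x w, w⟫ = 2 * ⟪x, Gf w⟫ := by
  rw [Bl_comm, Bl_symm, Bl_self, inner_smul_right]

/-- rank one operator -/
noncomputable def ro (a b : E 5) : E 5 →L[ℝ] E 5 := (innerSL ℝ a).smulRight b

lemma ro_apply (a b v : E 5) : ro a b v = ⟪a, v⟫ • b := rfl

/-- parametrised quotient `t = F/|x|^3` -/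
noncomputable def tt (x : E 5) : ℝ := Ff x * (‖x‖⁻¹) ^ 3

lemma abs_tt_le (x : E 5) : |tt x| ≤ 1 := by
  by_cases hx : x = 0
  · subst hx; simp [tt]
  have hpos : 0 < ‖x‖ := norm_pos_iff.2 hx
  rw [tt, abs_mul, abs_of_pos (by positivity : 0 < (‖x‖⁻¹) ^ 3)]
  have := abs_Ff_le x
  calc |Ff x| * ‖x‖⁻¹ ^ 3 ≤ ‖x‖ ^ 3 * ‖x‖⁻¹ ^ 3 := by gcongr
    _ = 1 := by field_simp

lemma hasFDerivAt_tt {x : E 5} (hx : x ≠ 0) : HasFDerivAt tt 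
    ((‖x‖⁻¹ ^ 3) • innerSL ℝ (Gf x) - (3 * tt x * ‖x‖⁻¹ ^ 2) • innerSL ℝ x) x := by
  have hpos : 0 < ‖x‖ := norm_pos_iff.2 hx
  have h1 := (hasFDerivAt_Ff x).mul ((hasFDerivAt_inv_norm hx).pow 3)
  refine h1.congr_fderiv ?_
  ext v
  simp [tt]
  field_simp
  ring

/-- profile functions -/
structure Prof where
  H : ℝ → ℝ
  H1 : ℝ → ℝ
  H2 : ℝ → ℝ
  d1 : ∀ t, HasDerivAt H (H1 t) t
  d2 : ∀ t, HasDerivAt H1 (H2 t) t
  pos : ∀ t, |t| ≤ 1 → 0 < H t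
  pd : ∀ t, |t| ≤ 1 → 0 < H t - 3 * t * H1 t - 9 * (1 - t ^ 2) * |H2 t| - 6 * |H1 t|

variable (p : Prof)

def Prof.P (t : ℝ) : ℝ := p.H t - 3 * t * p.H1 t
def Prof.P1 (t : ℝ) : ℝ := -2 * p.H1 t - 3 * t * p.H2 t

lemma Prof.hasDerivAt_P (t : ℝ) : HasDerivAt p.P (p.P1 t) t := by
  have h1 : HasDerivAt (fun t : ℝ => 3 * t) 3 t := by simpa using (hasDerivAt_id t).const_mul 3
  have h := (p.d1 t).sub (h1.mul (p.d2 t))
  refine h.congr_deriv ?_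
  simp [Prof.P1]; ring

noncomputable def gfun (x : E 5) : E 5 := (p.P (tt x) * ‖x‖⁻¹) • x + (p.H1 (tt x) * ‖x‖⁻¹ ^ 2) • Gf x

noncomputable def Tfun (x : E 5) : E 5 →L[ℝ] E 5 := 
  (p.P (tt x) * ‖x‖⁻¹) • ContinuousLinearMap.id ℝ (E 5) 
  + ((-(p.P (tt x)) - 3 * tt x * p.P1 (tt x)) * ‖x‖⁻¹ ^ 3) • ro x x 
  + (p.P1 (tt x) * ‖x‖⁻¹ ^ 4) • (ro (Gf x) x + ro x (Gf x))
  + (p.H2 (tt x) * ‖x‖⁻¹ ^ 5) • ro (Gf x) (Gf x)
  + (p.H1 (tt x) * ‖x‖⁻¹ ^ 2) • BC x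

lemma hasFDerivAt_gfun {x : E 5} (hx : x ≠ 0) : HasFDerivAt (gfun p) (Tfun p x) x := by
  have ht := hasFDerivAt_tt hx
  have h1 := (((p.hasDerivAt_P (tt x)).comp_hasFDerivAt x ht).mul (hasFDerivAt_inv_norm hx)).smul (hasFDerivAt_id x)
  have h2 := (((p.d2 (tt x)).comp_hasFDerivAt x ht).mul ((hasFDerivAt_inv_norm hx).pow 2)).smul (hasFDerivAt_Gf x)
  have h3 := h1.add h2
  refine h3.congr_fderiv ?_
  ext v : 1
  simp only [Tfun, Pi.mul_apply, smul_apply, add_apply, sub_apply, ContinuousLinearMap.smulRight_apply, ro_apply, 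
    ContinuousLinearMap.id_apply, innerSL_apply_apply, smul_eq_mul, BC_apply, Function.comp_apply, id, 
    nsmul_eq_mul, Nat.cast_ofNat, Prof.P1, smul_smul]
  have e : (‖x‖ ^ 3)⁻¹ = ‖x‖⁻¹ ^ 3 := by rw [inv_pow]
  rw [e]
  module

lemma Tfun_symm (x v w : E 5) : ⟪Tfun p x v, w⟫ = ⟪v, Tfun p x w⟫ := by
  simp only [Tfun, add_apply, smul_apply, ro_apply, ContinuousLinearMap.id_apply, BC_apply,
    inner_add_left, inner_add_right, inner_smul_left, inner_smul_right, conj_trivial, Bl_symm]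
  rw [real_inner_comm v x, real_inner_comm v (Gf x)]
  ring

lemma Tfun_ker {x : E 5} (hx : x ≠ 0) : Tfun p x x = 0 := by
  have hpos : 0 < ‖x‖ := norm_pos_iff.2 hx
  have hF : Ff x = tt x * ‖x‖ ^ 3 := by rw [tt]; field_simp
  simp only [Tfun, add_apply, smul_apply, ro_apply, ContinuousLinearMap.id_apply, BC_apply]
  rw [real_inner_comm x (Gf x), Gf_inner, real_inner_self_eq_norm_sq, Bl_self, hF, Prof.P1]
  set t := tt x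
  have e1 : p.P t * ‖x‖⁻¹ + (-(p.P t) - 3 * t * (-2 * p.H1 t - 3 * t * p.H2 t)) * ‖x‖⁻¹ ^ 3 * ‖x‖ ^ 2 
    + (-2 * p.H1 t - 3 * t * p.H2 t) * ‖x‖⁻¹ ^ 4 * (3 * (t * ‖x‖ ^ 3)) = 0 := by field_simp; ring
  have e2 : (-2 * p.H1 t - 3 * t * p.H2 t) * ‖x‖⁻¹ ^ 4 * ‖x‖ ^ 2 + p.H2 t * ‖x‖⁻¹ ^ 5 * (3 * (t * ‖x‖ ^ 3)) 
    + p.H1 t * ‖x‖⁻¹ ^ 2 * 2 = 0 := by field_simp; ring
  calc _ = (p.P t * ‖x‖⁻¹ + (-(p.P t) - 3 * t * (-2 * p.H1 t - 3 * t * p.H2 t)) * ‖x‖⁻¹ ^ 3 * ‖x‖ ^ 2 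
    + (-2 * p.H1 t - 3 * t * p.H2 t) * ‖x‖⁻¹ ^ 4 * (3 * (t * ‖x‖ ^ 3))) • x + 
      ((-2 * p.H1 t - 3 * t * p.H2 t) * ‖x‖⁻¹ ^ 4 * ‖x‖ ^ 2 + p.H2 t * ‖x‖⁻¹ ^ 5 * (3 * (t * ‖x‖ ^ 3)) 
    + p.H1 t * ‖x‖⁻¹ ^ 2 * 2) • Gf x := by module
    _ = 0 := by rw [e1, e2, zero_smul, zero_smul, zero_add]

lemma Tfun_pd_orth {x : E 5} (hx : x ≠ 0) (w : E 5) (hw : w ≠ 0) (how : ⟪x, w⟫ = 0) : 
    0 < ⟪Tfun p x w, w⟫ := by
  have hpos : 0 < ‖x‖ := norm_pos_iff.2 hx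
  have hwpos : 0 < ‖w‖ := norm_pos_iff.2 hw
  have ht := abs_tt_le x
  have ht2 : (tt x) ^ 2 ≤ 1 := by rw [← sq_abs]; exact pow_le_one₀ (abs_nonneg _) ht
  have hF : Ff x = tt x * ‖x‖ ^ 3 := by rw [tt]; field_simp
  have e0 : ⟪Tfun p x w, w⟫ = p.P (tt x) * ‖x‖⁻¹ * ‖w‖ ^ 2 + p.H2 (tt x) * ‖x‖⁻¹ ^ 5 * ⟪Gf x, w⟫ ^ 2 
      + p.H1 (tt x) * ‖x‖⁻¹ ^ 2 * (2 * ⟪x, Gf w⟫) := by
    simp only [Tfun, add_apply, smul_apply, ro_apply, ContinuousLinearMap.id_apply, BC_apply,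
      inner_add_left, inner_smul_left, conj_trivial, Bl_inner_ww, how, real_inner_self_eq_norm_sq]
    ring
  have h1 : ⟪Gf x, w⟫ ^ 2 ≤ 9 * (1 - (tt x) ^ 2) * ‖x‖ ^ 4 * ‖w‖ ^ 2 := by
    have e1 : ⟪Gf x, w⟫ = ⟪Gf x - (3 * tt x * ‖x‖) • x, w⟫ := by
      rw [inner_sub_left, inner_smul_left, how, mul_zero, sub_zero]
    have e2 : ‖Gf x - (3 * tt x * ‖x‖) • x‖ ^ 2 = 9 * (1 - (tt x) ^ 2) * ‖x‖ ^ 4 := by
      rw [← real_inner_self_eq_norm_sq, inner_sub_left, inner_sub_right, inner_sub_right, inner_smul_left,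
        inner_smul_right, inner_smul_left, inner_smul_right, real_inner_self_eq_norm_sq, real_inner_self_eq_norm_sq,
        real_inner_comm x (Gf x), Gf_inner, Gf_normsq, hF]
      simp only [conj_trivial]
      ring
    rw [e1, ← e2, ← mul_pow, ← sq_abs]
    exact pow_le_pow_left₀ (abs_nonneg _) (abs_real_inner_le_norm _ _) 2
  have h2 : |2 * ⟪x, Gf w⟫| ≤ 6 * ‖x‖ * ‖w‖ ^ 2 := by
    rw [abs_mul, abs_of_pos (by norm_num : (0:ℝ) < 2)]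
    have := abs_real_inner_le_norm x (Gf w)
    rw [norm_Gf] at this
    linarith
  have h3 : - (|p.H2 (tt x)| * ‖x‖⁻¹ ^ 5 * (9 * (1 - (tt x) ^ 2) * ‖x‖ ^ 4 * ‖w‖ ^ 2)) 
      ≤ p.H2 (tt x) * ‖x‖⁻¹ ^ 5 * ⟪Gf x, w⟫ ^ 2 := by
    have a1 : |p.H2 (tt x)| * ‖x‖⁻¹ ^ 5 * ⟪Gf x, w⟫ ^ 2 ≤ |p.H2 (tt x)| * ‖x‖⁻¹ ^ 5 * (9 * (1 - (tt x) ^ 2) * ‖x‖ ^ 4 * ‖w‖ ^ 2) :=
      mul_le_mul_of_nonneg_left h1 (by positivity)
    have a2 : -(|p.H2 (tt x)| * (‖x‖⁻¹ ^ 5 * ⟪Gf x, w⟫ ^ 2)) ≤ p.H2 (tt x) * (‖x‖⁻¹ ^ 5 * ⟪Gf x, w⟫ ^ 2) := by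
      rw [← neg_mul]
      exact mul_le_mul_of_nonneg_right (neg_abs_le _) (by positivity)
    linarith
  have h4 : - (|p.H1 (tt x)| * ‖x‖⁻¹ ^ 2 * (6 * ‖x‖ * ‖w‖ ^ 2)) ≤ p.H1 (tt x) * ‖x‖⁻¹ ^ 2 * (2 * ⟪x, Gf w⟫) := by
    have a1 : |p.H1 (tt x) * ‖x‖⁻¹ ^ 2 * (2 * ⟪x, Gf w⟫)| ≤ |p.H1 (tt x)| * ‖x‖⁻¹ ^ 2 * (6 * ‖x‖ * ‖w‖ ^ 2) := by
      rw [abs_mul, abs_mul, abs_of_nonneg (by positivity : 0 ≤ ‖x‖⁻¹ ^ 2)]
      exact mul_le_mul_of_nonneg_left h2 (by positivity)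
    linarith [neg_abs_le (p.H1 (tt x) * ‖x‖⁻¹ ^ 2 * (2 * ⟪x, Gf w⟫))]
  have hpd := p.pd (tt x) ht
  have h5 : 0 < (p.H (tt x) - 3 * (tt x) * p.H1 (tt x) - 9 * (1 - (tt x) ^ 2) * |p.H2 (tt x)| - 6 * |p.H1 (tt x)|) * (‖x‖⁻¹ * ‖w‖ ^ 2) :=
    mul_pos hpd (by positivity)
  rw [e0, Prof.P]
  have e5 : (p.H (tt x) - 3 * (tt x) * p.H1 (tt x) - 9 * (1 - (tt x) ^ 2) * |p.H2 (tt x)| - 6 * |p.H1 (tt x)|) * (‖x‖⁻¹ * ‖w‖ ^ 2) 
    = (p.H (tt x) - 3 * (tt x) * p.H1 (tt x)) * ‖x‖⁻¹ * ‖w‖ ^ 2 - (|p.H2 (tt x)| * ‖x‖⁻¹ ^ 5 * (9 * (1 - (tt x) ^ 2) * ‖x‖ ^ 4 * ‖w‖ ^ 2))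
     - (|p.H1 (tt x)| * ‖x‖⁻¹ ^ 2 * (6 * ‖x‖ * ‖w‖ ^ 2)) := by field_simp
  linarith

/-- the smooth support function attached to a profile -/
noncomputable def ssOf : SS (E 5) where
  h x := ‖x‖ * p.H (tt x)
  g := gfun p
  T := Tfun p
  hh x hx := by
    have hpos : 0 < ‖x‖ := norm_pos_iff.2 hx
    have hF : Ff x = tt x * ‖x‖ ^ 3 := by rw [tt]; field_simp
    rw [gfun, inner_add_left, inner_smul_left, inner_smul_left, real_inner_comm x (Gf x), Gf_inner,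
      real_inner_self_eq_norm_sq, hF, Prof.P]
    simp only [conj_trivial]
    field_simp
    ring
  h0 := by simp
  pos x hx := mul_pos (norm_pos_iff.2 hx) (p.pos _ (abs_tt_le x))
  hg x hx := hasFDerivAt_gfun p hx
  symm x _ v w := Tfun_symm p x v w
  ker x hx := Tfun_ker p hx
  pd x hx v hv := by
    have hpos : 0 < ‖x‖ := norm_pos_iff.2 hx
    set a := ⟪x, v⟫ / ‖x‖ ^ 2
    have hw : v - a • x ≠ 0 := sub_ne_zero.2 (hv a)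
    have how : ⟪x, v - a • x⟫ = 0 := by
      rw [inner_sub_right, inner_smul_right, real_inner_self_eq_norm_sq]
      simp only [a]
      field_simp
      ring
    have := Tfun_pd_orth p hx _ hw how
    have e1 : Tfun p x (v - a • x) = Tfun p x v := by
      rw [map_sub, map_smul, Tfun_ker p hx, smul_zero, sub_zero]
    rw [e1, inner_sub_right, inner_smul_right, Tfun_symm p x v x, Tfun_ker p hx, inner_zero_right, mul_zero, sub_zero] at this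
    exact this

lemma trace_ro (a b : E 5) : LinearMap.trace ℝ (E 5) (ro a b).toLinearMap = ⟪a, b⟫ := by
  have := LinearMap.trace_smulRight (R := ℝ) (M := E 5) (innerSL ℝ a : E 5 →L[ℝ] ℝ).toLinearMap b
  exact this

/-- second elementary symmetric function of the eigenvalues, normalised -/
def Prof.N (t : ℝ) : ℝ := 3 * ((9 * (1 - t ^ 2) * p.H2 t - 9 * t * p.H1 t + p.H t) * (p.H t - 3 * t * p.H1 t) 
  + p.H t ^ 2 - 6 * t * p.H t * p.H1 t - 9 * (1 - t ^ 2) * p.H1 t ^ 2)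

lemma trace_T_general (x : E 5) (al be ga de ep : ℝ) (T : E 5 →L[ℝ] E 5) 
    (hT : T = al • ContinuousLinearMap.id ℝ (E 5) + be • ro x x + ga • (ro (Gf x) x + ro x (Gf x)) 
      + de • ro (Gf x) (Gf x) + ep • BC x) :
    LinearMap.trace ℝ (E 5) T.toLinearMap = 5 * al + be * ‖x‖ ^ 2 + 6 * ga * Ff x + 9 * de * ‖x‖ ^ 4 ∧
    LinearMap.trace ℝ (E 5) (T.toLinearMap ∘ₗ T.toLinearMap) = 
      5 * al ^ 2 + be ^ 2 * ‖x‖ ^ 4 + ga ^ 2 * (18 * ‖x‖ ^ 6 + 18 * Ff x ^ 2) + 81 * de ^ 2 * ‖x‖ ^ 8 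
      + 126 * ep ^ 2 * ‖x‖ ^ 2 + 2 * al * be * ‖x‖ ^ 2 + 12 * al * ga * Ff x + 18 * al * de * ‖x‖ ^ 4 
      + 12 * be * ga * ‖x‖ ^ 2 * Ff x + 18 * be * de * Ff x ^ 2 + 12 * be * ep * Ff x 
      + 108 * ga * de * Ff x * ‖x‖ ^ 4 + 72 * ga * ep * ‖x‖ ^ 4 + 108 * de * ep * ‖x‖ ^ 2 * Ff x := by
  have hTv : ∀ v, T v = al • v + (be * ⟪x, v⟫) • x + (ga * ⟪Gf x, v⟫) • x + (ga * ⟪x, v⟫) • Gf x 
      + (de * ⟪Gf x, v⟫) • Gf x + ep • Bl x v := by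
    intro v
    rw [hT]
    simp only [add_apply, smul_apply, ro_apply, ContinuousLinearMap.id_apply, BC_apply]
    module
  have hxG : ⟪x, Gf x⟫ = 3 * Ff x := Gf_inner x
  have hGx : ⟪Gf x, x⟫ = 3 * Ff x := by rw [real_inner_comm, Gf_inner]
  have hxx : ⟪x, x⟫ = ‖x‖ ^ 2 := real_inner_self_eq_norm_sq x
  have hGG : ⟪Gf x, Gf x⟫ = 9 * ‖x‖ ^ 4 := by rw [real_inner_self_eq_norm_sq, Gf_normsq]
  have hTx : T x = (al + be * ‖x‖ ^ 2 + 3 * ga * Ff x) • x + (ga * ‖x‖ ^ 2 + 3 * de * Ff x + 2 * ep) • Gf x := by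
    rw [hTv, hGx, hxx, Bl_self]; module
  have hTG : T (Gf x) = (3 * be * Ff x + 9 * ga * ‖x‖ ^ 4 + 18 * ep * ‖x‖ ^ 2) • x 
      + (al + 3 * ga * Ff x + 9 * de * ‖x‖ ^ 4) • Gf x := by
    rw [hTv, hxG, hGG, Bl_Gf]; module
  have e1 : T.toLinearMap = al • LinearMap.id + be • (ro x x).toLinearMap + ga • (ro (Gf x) x).toLinearMap 
      + ga • (ro x (Gf x)).toLinearMap + de • (ro (Gf x) (Gf x)).toLinearMap + ep • Bl x := by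
    ext1 v
    simp only [LinearMap.add_apply, LinearMap.smul_apply, LinearMap.id_apply, ContinuousLinearMap.coe_coe, ro_apply]
    rw [hTv]; module
  have e2 : T.toLinearMap ∘ₗ T.toLinearMap = al • T.toLinearMap + be • (ro x (T x)).toLinearMap 
      + ga • (ro (Gf x) (T x)).toLinearMap 
      + ga • (ro x (T (Gf x))).toLinearMap + de • (ro (Gf x) (T (Gf x))).toLinearMap + ep • (T.toLinearMap ∘ₗ Bl x) := by
    ext1 v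
    simp only [LinearMap.add_apply, LinearMap.smul_apply, ContinuousLinearMap.coe_coe, ro_apply, 
      LinearMap.comp_apply]
    conv_lhs => rw [hTv v]
    simp only [map_add, map_smul]
    module
  have e3 : T.toLinearMap ∘ₗ Bl x = al • Bl x + be • (ro (Bl x x) x).toLinearMap + ga • (ro (Bl x (Gf x)) x).toLinearMap 
      + ga • (ro (Bl x x) (Gf x)).toLinearMap + de • (ro (Bl x (Gf x)) (Gf x)).toLinearMap + ep • (Bl x ∘ₗ Bl x) := by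
    ext1 v
    simp only [LinearMap.add_apply, LinearMap.smul_apply, ContinuousLinearMap.coe_coe, ro_apply, 
      LinearMap.comp_apply]
    rw [hTv, Bl_symm, Bl_symm]; module
  have t1 : LinearMap.trace ℝ (E 5) T.toLinearMap = 5 * al + be * ‖x‖ ^ 2 + 6 * ga * Ff x + 9 * de * ‖x‖ ^ 4 := by
    rw [e1]
    simp only [map_add, map_smul, trace_ro, trace_Bl, hxx, hxG, hGx, hGG, smul_eq_mul, LinearMap.trace_id, 
      finrank_euclideanSpace, Fintype.card_fin]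
    push_cast
    ring
  have t3 : LinearMap.trace ℝ (E 5) (T.toLinearMap ∘ₗ Bl x) = be * (6 * Ff x) + ga * (18 * ‖x‖ ^ 4) + ga * (18 * ‖x‖ ^ 4) 
      + de * (54 * ‖x‖ ^ 2 * Ff x) + ep * (126 * ‖x‖ ^ 2) := by
    rw [e3]
    simp only [map_add, map_smul, trace_ro, trace_Bl, trace_Bl_Bl, smul_eq_mul, Bl_self, Bl_Gf, inner_smul_left, 
      conj_trivial, hxx, hxG, hGx, hGG]
    ring
  refine ⟨t1, ?_⟩
  rw [e2]
  simp only [map_add, map_smul, trace_ro, t1, t3, smul_eq_mul]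
  rw [hTx, hTG]
  simp only [inner_add_right, inner_smul_right, hxx, hxG, hGx, hGG]
  ring

lemma sigma2_T {x : E 5} (hx : x ≠ 0) :
    (LinearMap.trace ℝ (E 5) (Tfun p x).toLinearMap ^ 2 - 
      LinearMap.trace ℝ (E 5) ((Tfun p x).toLinearMap ∘ₗ (Tfun p x).toLinearMap)) / 2 = (‖x‖ ^ 2)⁻¹ * p.N (tt x) := by
  have hpos : 0 < ‖x‖ := norm_pos_iff.2 hx
  have hF : Ff x = tt x * ‖x‖ ^ 3 := by rw [tt]; field_simp
  obtain ⟨h1, h2⟩ := trace_T_general x _ _ _ _ _ (Tfun p x) rfl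
  rw [h1, h2, hF, Prof.P, Prof.P1, Prof.N]
  field_simp
  ring

end Pool.Agent.Helper104.GirthVol
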