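import Mathlib
import Pool.Agent.Helper104.GirthHess

open MeasureTheory Set Filter Topology
open scoped RealInnerProductSpace ENNReal NNReal Pointwise

namespace Pool.Agent.Helper104.GirthVol

/-- The convex set with support function `h` -/
def bd (h : E 5 → ℝ) : Set (E 5) := {x | ∀ y, ⟪x, y⟫ ≤ h y}

/-- the parallel set of the projection -/
noncomputable def AA (h : E 5 → ℝ) (ι : E 4 →ₗᵢ[ℝ] E 5) (s : ℝ) : Set (E 4) := 
  ad ι '' bd h + Metric.closedBall (0 : E 4) s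

noncomputable def Vol (h : E 5 → ℝ) (ι : E 4 →ₗᵢ[ℝ] E 5) (s : ℝ) : ℝ := (volume (AA h ι s)).toReal

variable (S : SS (E 5)) {ι : E 4 →ₗᵢ[ℝ] E 5} {u : E 5}

lemma range_sub (hu : ‖u‖ = 1) (hort : ∀ y, ⟪ι y, u⟫ = 0) (s : ℝ) (hs : 0 ≤ s) : 
    range (G (S.addNorm s hs) ι u) ⊆ AA S.h ι s := by
  rintro _ ⟨y, rfl⟩
  have hne := chart_ne hu hort y
  have hpos : 0 < ‖ι y + u‖ := norm_pos_iff.2 hne
  refine ⟨ad ι (S.g (ι y + u)), ⟨_, fun z => S.grad_le hne z, rfl⟩, ad ι ((s * ‖ι y + u‖⁻¹) • (ι y + u)), ?_, ?_⟩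
  · rw [mem_closedBall_zero_iff]
    refine (norm_ad_le _ _).trans ?_
    rw [norm_smul, Real.norm_eq_abs, abs_of_nonneg (by positivity), mul_assoc, inv_mul_cancel₀ hpos.ne', mul_one]
  · exact ((ad ι).map_add _ _).symm

lemma sub_M (s : ℝ) (hs : 0 ≤ s) : AA S.h ι s ⊆ M (S.addNorm s hs) ι := by
  rintro _ ⟨_, ⟨k, hk, rfl⟩, b, hb, rfl⟩ y
  change ⟪ad ι k + b, y⟫ ≤ S.h (ι y) + s * ‖ι y‖
  rw [inner_add_left, ad_inner, LinearIsometry.norm_map]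
  rw [mem_closedBall_zero_iff] at hb
  have h1 := hk (ι y)
  have h2 : ⟪b, y⟫ ≤ s * ‖y‖ := (real_inner_le_norm b y).trans (by gcongr)
  linarith

lemma vol_AA (hu : ‖u‖ = 1) (hort : ∀ y, ⟪ι y, u⟫ = 0) (s : ℝ) (hs : 0 ≤ s) :
    volume (AA S.h ι s) = ∫⁻ y : E 4, ENNReal.ofReal (DG (S.addNorm s hs) ι u y).det :=
  volume_eq (S.addNorm s hs) hu hort _ (range_sub S hu hort s hs) (sub_M S s hs)

lemma bd_bounded {h : E 5 → ℝ} {C : ℝ} (hC : ∀ y, h y ≤ C * ‖y‖) : bd h ⊆ Metric.closedBall 0 C := by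
  intro x hx
  rw [mem_closedBall_zero_iff]
  have h1 := (hx x).trans (hC x)
  rw [real_inner_self_eq_norm_sq] at h1
  by_contra hcon
  push Not at hcon
  rcases eq_or_lt_of_le (norm_nonneg x) with h0 | h0
  · -- x = 0, C < 0
    rw [← h0] at hcon
    have := hx (EuclideanSpace.single 0 1)
    have h2 := this.trans (hC _)
    rw [norm_eq_zero.1 h0.symm] at h2
    simp at h2
    linarith
  · nlinarith

lemma AA_bounded {h : E 5 → ℝ} {C : ℝ} (hC : ∀ y, h y ≤ C * ‖y‖) (s : ℝ) : 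
    AA h ι s ⊆ Metric.closedBall 0 (C + s) := by
  rintro _ ⟨_, ⟨k, hk, rfl⟩, b, hb, rfl⟩
  have h1 := bd_bounded hC hk
  rw [mem_closedBall_zero_iff] at h1 hb ⊢
  exact (norm_add_le _ _).trans (add_le_add ((norm_ad_le _ _).trans h1) hb)

lemma AA_lt_top {h : E 5 → ℝ} {C : ℝ} (hC : ∀ y, h y ≤ C * ‖y‖) (s : ℝ) : volume (AA h ι s) < ⊤ :=
  lt_of_le_of_lt (measure_mono (AA_bounded hC s)) (isCompact_closedBall _ _).measure_lt_top

lemma measurable_det (hu : ‖u‖ = 1) (hort : ∀ y, ⟪ι y, u⟫ = 0) : 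
    Measurable (fun y : E 4 => (DG S ι u y).det) := by
  have h1 : (fun y : E 4 => (DG S ι u y).det) = fun y => (fderiv ℝ (G S ι u) y).det := by
    funext y
    rw [(G_hasFDerivAt S hu hort y).fderiv]
  rw [h1]
  exact ContinuousLinearMap.continuous_det.measurable.comp (measurable_fderiv ℝ _)

lemma integrable_det {C : ℝ} (hC : ∀ y, S.h y ≤ C * ‖y‖) (hu : ‖u‖ = 1) (hort : ∀ y, ⟪ι y, u⟫ = 0) (s : ℝ) (hs : 0 ≤ s) :
    Integrable (fun y : E 4 => (DG (S.addNorm s hs) ι u y).det) := by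
  refine ⟨(measurable_det _ hu hort).aestronglyMeasurable, ?_⟩
  rw [hasFiniteIntegral_iff_ofReal (Eventually.of_forall fun y => det_DG_nonneg _ hu hort y), 
    ← vol_AA S hu hort s hs]
  exact AA_lt_top hC s

lemma Vol_eq (hu : ‖u‖ = 1) (hort : ∀ y, ⟪ι y, u⟫ = 0) (s : ℝ) (hs : 0 ≤ s) :
    Vol S.h ι s = ∫ y : E 4, (DG (S.addNorm s hs) ι u y).det := by
  rw [Vol, vol_AA S hu hort s hs, integral_eq_lintegral_of_nonneg_ae 
    (Eventually.of_forall fun y => det_DG_nonneg _ hu hort y) (measurable_det _ hu hort).aestronglyMeasurable]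

/-- Lagrange interpolation at 0,1,2,3,4 -/
noncomputable def interp (v : ℕ → ℝ) (s : ℝ) : ℝ := 
  (s-1)*(s-2)*(s-3)*(s-4)/24 * v 0 - s*(s-2)*(s-3)*(s-4)/6 * v 1 + s*(s-1)*(s-3)*(s-4)/4 * v 2 
   - s*(s-1)*(s-2)*(s-4)/6 * v 3 + s*(s-1)*(s-2)*(s-3)/24 * v 4

noncomputable def L2 (v : ℕ → ℝ) : ℝ := 35/24 * v 0 - 26/6 * v 1 + 19/4 * v 2 - 14/6 * v 3 + 11/24 * v 4

lemma interp_poly (c0 c1 c2 c3 c4 : ℝ) (v : ℕ → ℝ) (hv : ∀ n, v n = c4 * n ^ 4 + c3 * n ^ 3 + c2 * n ^ 2 + c1 * n + c0) (s : ℝ) :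
    c4 * s ^ 4 + c3 * s ^ 3 + c2 * s ^ 2 + c1 * s + c0 = interp v s := by
  rw [interp, hv, hv, hv, hv, hv]; push_cast; ring

lemma L2_poly (c0 c1 c2 c3 c4 : ℝ) (v : ℕ → ℝ) (hv : ∀ n, v n = c4 * n ^ 4 + c3 * n ^ 3 + c2 * n ^ 2 + c1 * n + c0) :
    c2 = L2 v := by
  rw [L2, hv, hv, hv, hv, hv]; push_cast; ring

lemma int5 {f0 f1 f2 f3 f4 : E 4 → ℝ} (h0 : Integrable f0) (h1 : Integrable f1) (h2 : Integrable f2) 
    (h3 : Integrable f3) (h4 : Integrable f4) (a0 a1 a2 a3 a4 : ℝ) : 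
    Integrable (fun y => a0 * f0 y - a1 * f1 y + a2 * f2 y - a3 * f3 y + a4 * f4 y) ∧ 
    ∫ y, (a0 * f0 y - a1 * f1 y + a2 * f2 y - a3 * f3 y + a4 * f4 y) = 
      a0 * (∫ y, f0 y) - a1 * (∫ y, f1 y) + a2 * (∫ y, f2 y) - a3 * (∫ y, f3 y) + a4 * (∫ y, f4 y) := by
  have i0 : Integrable (fun y => a0 * f0 y) := h0.const_mul _
  have i1 : Integrable (fun y => a1 * f1 y) := h1.const_mul _
  have i2 : Integrable (fun y => a2 * f2 y) := h2.const_mul _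
  have i3 : Integrable (fun y => a3 * f3 y) := h3.const_mul _
  have i4 : Integrable (fun y => a4 * f4 y) := h4.const_mul _
  have i01 : Integrable (fun y => a0 * f0 y - a1 * f1 y) := i0.sub i1
  have i012 : Integrable (fun y => a0 * f0 y - a1 * f1 y + a2 * f2 y) := i01.add i2
  have i0123 : Integrable (fun y => a0 * f0 y - a1 * f1 y + a2 * f2 y - a3 * f3 y) := i012.sub i3
  refine ⟨i0123.add i4, ?_⟩
  rw [integral_add i0123 i4, integral_sub i012 i3, integral_add i01 i2, integral_sub i0 i1, 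
    integral_const_mul, integral_const_mul, integral_const_mul, integral_const_mul, integral_const_mul]

theorem steiner_interp (S : SS (E 5)) {C : ℝ} (hC : ∀ y, S.h y ≤ C * ‖y‖) (ι : E 4 →ₗᵢ[ℝ] E 5) (s : ℝ) (hs : 0 ≤ s) :
    Vol S.h ι s = interp (fun n => Vol S.h ι n) s := by
  obtain ⟨u, hu, hort, hsp⟩ := exists_normal ι (by simp)
  have hI : ∀ n : ℕ, Integrable (fun y : E 4 => (DG (S.addNorm n (Nat.cast_nonneg n)) ι u y).det) := fun n =>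
    integrable_det S hC hu hort n (Nat.cast_nonneg n)
  simp only [interp]
  rw [Vol_eq S hu hort s hs, Vol_eq S hu hort _ (Nat.cast_nonneg 0), Vol_eq S hu hort _ (Nat.cast_nonneg 1), 
    Vol_eq S hu hort _ (Nat.cast_nonneg 2), Vol_eq S hu hort _ (Nat.cast_nonneg 3), Vol_eq S hu hort _ (Nat.cast_nonneg 4)]
  rw [← (int5 (hI 0) (hI 1) (hI 2) (hI 3) (hI 4) _ _ _ _ _).2]
  apply integral_congr_ae
  refine Eventually.of_forall fun y => ?_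
  obtain ⟨c0, c1, c3, c4, h⟩ := det_addNorm S (by simp) hu hort hsp y
  have h1 := interp_poly c0 c1 _ c3 c4 (fun n : ℕ => (DG (S.addNorm n (Nat.cast_nonneg n)) ι u y).det) 
    (fun n => h n (Nat.cast_nonneg n)) s
  simp only [interp] at h1
  change (DG (S.addNorm s hs) ι u y).det = _
  rw [h s hs, h1]

theorem steiner_L2 (S : SS (E 5)) {C : ℝ} (hC : ∀ y, S.h y ≤ C * ‖y‖) {ι : E 4 →ₗᵢ[ℝ] E 5} {u : E 5}
    (hu : ‖u‖ = 1) (hort : ∀ y, ⟪ι y, u⟫ = 0) (hsp : ∀ z, ι (ad ι z) + ⟪u, z⟫ • u = z) :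
    Integrable (fun y : E 4 => ((‖ι y + u‖ ^ 4)⁻¹ * ((LinearMap.trace ℝ (E 5) (S.T (ι y + u)).toLinearMap ^ 2 - 
        LinearMap.trace ℝ (E 5) ((S.T (ι y + u)).toLinearMap ∘ₗ (S.T (ι y + u)).toLinearMap)) / 2))) ∧
    L2 (fun n => Vol S.h ι n) = ∫ y : E 4, ((‖ι y + u‖ ^ 4)⁻¹ * ((LinearMap.trace ℝ (E 5) (S.T (ι y + u)).toLinearMap ^ 2 - 
        LinearMap.trace ℝ (E 5) ((S.T (ι y + u)).toLinearMap ∘ₗ (S.T (ι y + u)).toLinearMap)) / 2)) := by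
  have hI : ∀ n : ℕ, Integrable (fun y : E 4 => (DG (S.addNorm n (Nat.cast_nonneg n)) ι u y).det) := fun n =>
    integrable_det S hC hu hort n (Nat.cast_nonneg n)
  have key : ∀ y : E 4, ((‖ι y + u‖ ^ 4)⁻¹ * ((LinearMap.trace ℝ (E 5) (S.T (ι y + u)).toLinearMap ^ 2 - 
        LinearMap.trace ℝ (E 5) ((S.T (ι y + u)).toLinearMap ∘ₗ (S.T (ι y + u)).toLinearMap)) / 2)) = 
        35/24 * (DG (S.addNorm (0:ℕ) (Nat.cast_nonneg 0)) ι u y).det - 26/6 * (DG (S.addNorm (1:ℕ) (Nat.cast_nonneg 1)) ι u y).det 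
        + 19/4 * (DG (S.addNorm (2:ℕ) (Nat.cast_nonneg 2)) ι u y).det - 14/6 * (DG (S.addNorm (3:ℕ) (Nat.cast_nonneg 3)) ι u y).det 
        + 11/24 * (DG (S.addNorm (4:ℕ) (Nat.cast_nonneg 4)) ι u y).det := by
    intro y
    obtain ⟨c0, c1, c3, c4, h⟩ := det_addNorm S (by simp) hu hort hsp y
    exact L2_poly c0 c1 _ c3 c4 (fun n : ℕ => (DG (S.addNorm n (Nat.cast_nonneg n)) ι u y).det) 
      (fun n => h n (Nat.cast_nonneg n))
  simp only [key]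
  have h5 := int5 (hI 0) (hI 1) (hI 2) (hI 3) (hI 4) (35/24) (26/6) (19/4) (14/6) (11/24)
  refine ⟨h5.1, ?_⟩
  simp only [L2]
  rw [Vol_eq S hu hort _ (Nat.cast_nonneg 0), Vol_eq S hu hort _ (Nat.cast_nonneg 1), 
    Vol_eq S hu hort _ (Nat.cast_nonneg 2), Vol_eq S hu hort _ (Nat.cast_nonneg 3), Vol_eq S hu hort _ (Nat.cast_nonneg 4)]
  exact h5.2.symm

end Pool.Agent.Helper104.GirthVol
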