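import Mathlib
import Pool.Agent.Helper104.GirthSteiner

open MeasureTheory Set Filter Topology
open scoped RealInnerProductSpace ENNReal NNReal Pointwise

namespace Pool.Agent.Helper104.GirthVol

lemma Gf_neg (x : E 5) : Gf (-x) = Gf x := by simp [Gf]

lemma Ff_neg (x : E 5) : Ff (-x) = -Ff x := by
  rw [Ff, Gf_neg, Ff, inner_neg_right]; ring

lemma tt_neg (x : E 5) : tt (-x) = - tt x := by
  rw [tt, tt, Ff_neg, norm_neg]; ring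

lemma ssOf_h (p : Prof) (y : E 5) : (ssOf p).h y = ‖y‖ * p.H (tt y) := rfl

lemma ssOf_bound (p : Prof) (hb : ∀ t, |t| ≤ 1 → p.H t ≤ 2) (y : E 5) : (ssOf p).h y ≤ 2 * ‖y‖ := by
  rw [ssOf_h, mul_comm]
  exact mul_le_mul_of_nonneg_right (hb _ (abs_tt_le y)) (norm_nonneg _)

lemma normx_sq {ι : E 4 →ₗᵢ[ℝ] E 5} {u : E 5} (hu : ‖u‖ = 1) (hort : ∀ y, ⟪ι y, u⟫ = 0) (y : E 4) :
    ‖ι y + u‖ ^ 2 = 1 + ‖y‖ ^ 2 := by
  rw [← real_inner_self_eq_norm_sq, inner_add_left, inner_add_right, inner_add_right, hort,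
      real_inner_comm (ι y) u, hort, LinearIsometry.inner_map_map, real_inner_self_eq_norm_sq, real_inner_self_eq_norm_sq, hu]
  ring

lemma L2_profile (p : Prof) (hb : ∀ t, |t| ≤ 1 → p.H t ≤ 2) {ι : E 4 →ₗᵢ[ℝ] E 5} {u : E 5}
    (hu : ‖u‖ = 1) (hort : ∀ y, ⟪ι y, u⟫ = 0) (hsp : ∀ z, ι (ad ι z) + ⟪u, z⟫ • u = z) :
    Integrable (fun y : E 4 => ((1 + ‖y‖ ^ 2) ^ 3)⁻¹ * p.N (tt (ι y + u))) ∧
    L2 (fun n => Vol (ssOf p).h ι n) = ∫ y : E 4, ((1 + ‖y‖ ^ 2) ^ 3)⁻¹ * p.N (tt (ι y + u)) := by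
  have h := steiner_L2 (ssOf p) (ssOf_bound p hb) hu hort hsp
  have key : ∀ y : E 4, ((‖ι y + u‖ ^ 4)⁻¹ * ((LinearMap.trace ℝ (E 5) ((ssOf p).T (ι y + u)).toLinearMap ^ 2 - 
        LinearMap.trace ℝ (E 5) (((ssOf p).T (ι y + u)).toLinearMap ∘ₗ ((ssOf p).T (ι y + u)).toLinearMap)) / 2)) = 
        ((1 + ‖y‖ ^ 2) ^ 3)⁻¹ * p.N (tt (ι y + u)) := by
    intro y
    have h1 := sigma2_T p (chart_ne hu hort y)
    have h2 : (ssOf p).T (ι y + u) = Tfun p (ι y + u) := rfl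
    rw [h2, h1, ← normx_sq hu hort y, ← mul_assoc, ← mul_inv]
    congr 2
    ring
  simp only [key] at h
  exact h

lemma L2_profile_sym (p : Prof) (hb : ∀ t, |t| ≤ 1 → p.H t ≤ 2) {ι : E 4 →ₗᵢ[ℝ] E 5} {u : E 5}
    (hu : ‖u‖ = 1) (hort : ∀ y, ⟪ι y, u⟫ = 0) (hsp : ∀ z, ι (ad ι z) + ⟪u, z⟫ • u = z) :
    Integrable (fun y : E 4 => ((1 + ‖y‖ ^ 2) ^ 3)⁻¹ * (p.N (tt (ι y + u)) + p.N (- tt (ι y + u)))) ∧
    2 * L2 (fun n => Vol (ssOf p).h ι n) = 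
      ∫ y : E 4, ((1 + ‖y‖ ^ 2) ^ 3)⁻¹ * (p.N (tt (ι y + u)) + p.N (- tt (ι y + u))) := by
  have h1 := L2_profile p hb hu hort hsp
  have h2 := L2_profile p hb (ι := ι) (u := -u) (by rw [norm_neg, hu]) (fun y => by rw [inner_neg_right, hort, neg_zero])
    (fun z => by rw [inner_neg_left, neg_smul, smul_neg, neg_neg, hsp])
  have e : ∀ y : E 4, ((1 + ‖-y‖ ^ 2) ^ 3)⁻¹ * p.N (tt (ι (-y) + -u)) = ((1 + ‖y‖ ^ 2) ^ 3)⁻¹ * p.N (- tt (ι y + u)) := by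
    intro y
    rw [norm_neg, map_neg, ← neg_add, tt_neg]
  have i2 : Integrable (fun y : E 4 => ((1 + ‖y‖ ^ 2) ^ 3)⁻¹ * p.N (- tt (ι y + u))) := by
    have := h2.1.comp_neg
    simpa only [e] using this
  have h3 : ∫ y : E 4, ((1 + ‖y‖ ^ 2) ^ 3)⁻¹ * p.N (tt (ι y + -u)) = ∫ y : E 4, ((1 + ‖y‖ ^ 2) ^ 3)⁻¹ * p.N (- tt (ι y + u)) := by
    rw [← integral_neg_eq_self]
    simp only [e]
  have h4 : ∀ y : E 4, ((1 + ‖y‖ ^ 2) ^ 3)⁻¹ * (p.N (tt (ι y + u)) + p.N (- tt (ι y + u))) = 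
     ((1 + ‖y‖ ^ 2) ^ 3)⁻¹ * p.N (tt (ι y + u)) + ((1 + ‖y‖ ^ 2) ^ 3)⁻¹ * p.N (- tt (ι y + u)) := fun y => mul_add _ _ _
  simp only [h4]
  refine ⟨h1.1.add i2, ?_⟩
  rw [integral_add h1.1 i2, ← h1.2, ← h3, ← h2.2]
  ring

/-- the constant -/
noncomputable def C4 : ℝ := ∫ y : E 4, ((1 + ‖y‖ ^ 2) ^ 3)⁻¹

lemma integrable_W : Integrable (fun y : E 4 => ((1 + ‖y‖ ^ 2) ^ 3)⁻¹) := by
  have h := integrable_rpow_neg_one_add_norm_sq (E := E 4) (μ := volume) (r := 6) (by simp; norm_num)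
  refine h.congr (Eventually.of_forall fun y => ?_)
  have hpos : (0:ℝ) < 1 + ‖y‖ ^ 2 := by positivity
  change (1 + ‖y‖ ^ 2) ^ (-(6:ℝ) / 2) = ((1 + ‖y‖ ^ 2) ^ 3)⁻¹
  rw [show (-(6:ℝ) / 2) = -(3:ℕ) by norm_num, Real.rpow_neg hpos.le, Real.rpow_natCast]

lemma L2_bound (p : Prof) (hb : ∀ t, |t| ≤ 1 → p.H t ≤ 2) (c η : ℝ) 
    (hN : ∀ t, |t| ≤ 1 → |p.N t + p.N (-t) - 2 * c| ≤ 2 * η) (ι : E 4 →ₗᵢ[ℝ] E 5) :
    |L2 (fun n => Vol (ssOf p).h ι n) - c * C4| ≤ η * C4 := by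
  obtain ⟨u, hu, hort, hsp⟩ := exists_normal ι (by simp)
  obtain ⟨hI, h⟩ := L2_profile_sym p hb hu hort hsp
  have e1 : 2 * (L2 (fun n => Vol (ssOf p).h ι n) - c * C4) = 
      ∫ y : E 4, (((1 + ‖y‖ ^ 2) ^ 3)⁻¹ * (p.N (tt (ι y + u)) + p.N (- tt (ι y + u))) - (2 * c) * ((1 + ‖y‖ ^ 2) ^ 3)⁻¹) := by
    rw [integral_sub hI (integrable_W.const_mul _), ← h, integral_const_mul, C4]; ring
  have e2 : ∀ y : E 4, ‖((1 + ‖y‖ ^ 2) ^ 3)⁻¹ * (p.N (tt (ι y + u)) + p.N (- tt (ι y + u))) - (2 * c) * ((1 + ‖y‖ ^ 2) ^ 3)⁻¹‖ ≤ 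
      2 * η * ((1 + ‖y‖ ^ 2) ^ 3)⁻¹ := by
    intro y
    have hpos : (0:ℝ) < ((1 + ‖y‖ ^ 2) ^ 3)⁻¹ := by positivity
    have e3 : ((1 + ‖y‖ ^ 2) ^ 3)⁻¹ * (p.N (tt (ι y + u)) + p.N (- tt (ι y + u))) - (2 * c) * ((1 + ‖y‖ ^ 2) ^ 3)⁻¹ = 
      (p.N (tt (ι y + u)) + p.N (- tt (ι y + u)) - 2 * c) * ((1 + ‖y‖ ^ 2) ^ 3)⁻¹ := by ring
    rw [e3, norm_mul, Real.norm_eq_abs, Real.norm_eq_abs, abs_of_pos hpos]
    exact mul_le_mul_of_nonneg_right (hN _ (abs_tt_le _)) hpos.le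
  have e4 := norm_integral_le_of_norm_le (integrable_W.const_mul (2 * η)) (Eventually.of_forall e2)
  rw [← e1, integral_const_mul, Real.norm_eq_abs, abs_mul, abs_of_pos (by norm_num : (0:ℝ) < 2)] at e4
  change 2 * |L2 (fun n => Vol (ssOf p).h ι n) - c * C4| ≤ 2 * η * C4 at e4
  linarith

lemma AA_subset_smul {h h' : E 5 → ℝ} {a : ℝ} (ha : 1 ≤ a) (hh : ∀ y, h y ≤ a * h' y) (ι : E 4 →ₗᵢ[ℝ] E 5) (s : ℝ) 
    (hs : 0 ≤ s) : AA h ι s ⊆ a • AA h' ι s := by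
  have hpos : 0 < a := by linarith
  rintro _ ⟨_, ⟨k, hk, rfl⟩, b, hb, rfl⟩
  rw [mem_smul_set]
  refine ⟨ad ι (a⁻¹ • k) + a⁻¹ • b, ⟨_, ⟨a⁻¹ • k, ?_, rfl⟩, a⁻¹ • b, ?_, rfl⟩, ?_⟩
  · intro y
    rw [inner_smul_left]
    simp only [conj_trivial]
    rw [inv_mul_le_iff₀ hpos]
    exact (hk y).trans (hh y)
  · rw [mem_closedBall_zero_iff] at hb ⊢
    rw [norm_smul, norm_inv, Real.norm_eq_abs, abs_of_pos hpos, inv_mul_le_iff₀ hpos]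
    nlinarith
  · rw [map_smul, ← smul_add, smul_smul, mul_inv_cancel₀ hpos.ne', one_smul]

lemma smul_AA_subset {h h' : E 5 → ℝ} {a : ℝ} (ha0 : 0 ≤ a) (ha : a ≤ 1) (hh : ∀ y, a * h' y ≤ h y) (ι : E 4 →ₗᵢ[ℝ] E 5) (s : ℝ) : 
    a • AA h' ι s ⊆ AA h ι s := by
  rintro _ ⟨_, ⟨_, ⟨k, hk, rfl⟩, b, hb, rfl⟩, rfl⟩
  refine ⟨ad ι (a • k), ⟨a • k, ?_, rfl⟩, a • b, ?_, ?_⟩
  · intro y
    rw [inner_smul_left]
    simp only [conj_trivial]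
    exact (mul_le_mul_of_nonneg_left (hk y) ha0).trans (hh y)
  · rw [mem_closedBall_zero_iff] at hb ⊢
    rw [norm_smul, Real.norm_eq_abs, abs_of_nonneg ha0]
    calc a * ‖b‖ ≤ 1 * ‖b‖ := by gcongr
      _ ≤ s := by rw [one_mul]; exact hb
  · simp only [map_smul, smul_add]

lemma vol_smul (A : Set (E 4)) {a : ℝ} (ha : 0 ≤ a) : (volume (a • A)).toReal = a ^ 4 * (volume A).toReal := by
  rw [Measure.addHaar_smul_of_nonneg volume ha, ENNReal.toReal_mul]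
  simp [ENNReal.toReal_ofReal (pow_nonneg ha _)]

section lim

variable {p : ℕ → Prof} {Hinf : ℝ → ℝ} {δ : ℕ → ℝ}

lemma hinf_bound (hH : ∀ j t, |t| ≤ 1 → |(p j).H t - Hinf t| ≤ δ j) 
    (hb : ∀ j t, |t| ≤ 1 → 1 / 2 ≤ (p j).H t ∧ (p j).H t ≤ 2) (y : E 5) : ‖y‖ * Hinf (tt y) ≤ (2 + δ 0) * ‖y‖ := by
  have h1 := abs_le.1 (hH 0 _ (abs_tt_le y))
  have h2 := (hb 0 _ (abs_tt_le y)).2
  have : Hinf (tt y) ≤ 2 + δ 0 := by linarith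
  rw [mul_comm]
  exact mul_le_mul_of_nonneg_right this (norm_nonneg _)

lemma Vol_tendsto (hδ : Tendsto δ atTop (𝓝 0)) (hH : ∀ j t, |t| ≤ 1 → |(p j).H t - Hinf t| ≤ δ j) 
    (hb : ∀ j t, |t| ≤ 1 → 1 / 2 ≤ (p j).H t ∧ (p j).H t ≤ 2) (ι : E 4 →ₗᵢ[ℝ] E 5) (s : ℝ) (hs : 0 ≤ s) :
    Tendsto (fun j => Vol (ssOf (p j)).h ι s) atTop (𝓝 (Vol (fun y => ‖y‖ * Hinf (tt y)) ι s)) := by
  set h : E 5 → ℝ := fun y => ‖y‖ * Hinf (tt y) with hh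
  have hδ0 : ∀ j, 0 ≤ δ j := fun j => (abs_nonneg _).trans (hH j 0 (by simp))
  have hfin : volume (AA h ι s) ≠ ⊤ := (AA_lt_top (hinf_bound hH hb) s).ne
  have hfinj : ∀ j, volume (AA (ssOf (p j)).h ι s) ≠ ⊤ := fun j => 
    (AA_lt_top (ssOf_bound (p j) (fun t ht => (hb j t ht).2)) s).ne
  have up : ∀ j, Vol h ι s ≤ (1 + 2 * δ j) ^ 4 * Vol (ssOf (p j)).h ι s := by
    intro j
    have hsub : AA h ι s ⊆ (1 + 2 * δ j) • AA (ssOf (p j)).h ι s := by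
      apply AA_subset_smul (by linarith [hδ0 j]) _ ι s hs
      intro y
      have h1 := abs_le.1 (hH j _ (abs_tt_le y))
      have h2 := (hb j _ (abs_tt_le y)).1
      have h3 : Hinf (tt y) ≤ (1 + 2 * δ j) * (p j).H (tt y) := by nlinarith [hδ0 j]
      rw [ssOf_h, hh]
      calc ‖y‖ * Hinf (tt y) ≤ ‖y‖ * ((1 + 2 * δ j) * (p j).H (tt y)) := by gcongr
        _ = _ := by ring
    rw [Vol, Vol, ← vol_smul _ (by linarith [hδ0 j])]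
    apply ENNReal.toReal_mono _ (measure_mono hsub)
    rw [Measure.addHaar_smul_of_nonneg volume (by linarith [hδ0 j])]
    exact ENNReal.mul_ne_top ENNReal.ofReal_ne_top (hfinj j)
  have lo : ∀ j, 2 * δ j < 1 → (1 - 2 * δ j) ^ 4 * Vol (ssOf (p j)).h ι s ≤ Vol h ι s := by
    intro j hj
    have hsub : (1 - 2 * δ j) • AA (ssOf (p j)).h ι s ⊆ AA h ι s := by
      apply smul_AA_subset (by linarith) (by linarith [hδ0 j]) _ ι s 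
      intro y
      have h1 := abs_le.1 (hH j _ (abs_tt_le y))
      have h2 := (hb j _ (abs_tt_le y)).1
      have h3 : (1 - 2 * δ j) * (p j).H (tt y) ≤ Hinf (tt y) := by nlinarith [hδ0 j]
      rw [ssOf_h, hh]
      calc (1 - 2 * δ j) * (‖y‖ * (p j).H (tt y)) = ‖y‖ * ((1 - 2 * δ j) * (p j).H (tt y)) := by ring
        _ ≤ _ := mul_le_mul_of_nonneg_left h3 (norm_nonneg y)
    rw [Vol, Vol, ← vol_smul _ (by linarith)]
    exact ENNReal.toReal_mono hfin (measure_mono hsub)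
  have hev : ∀ᶠ j in atTop, 2 * δ j < 1 := by
    have : Tendsto (fun j => 2 * δ j) atTop (𝓝 0) := by simpa using hδ.const_mul 2
    exact this.eventually_lt_const (by norm_num)
  have t1 : Tendsto (fun j => Vol h ι s / (1 + 2 * δ j) ^ 4) atTop (𝓝 (Vol h ι s)) := by
    have : Tendsto (fun j => Vol h ι s / (1 + 2 * δ j) ^ 4) atTop (𝓝 (Vol h ι s / (1 + 2 * 0) ^ 4)) := 
      tendsto_const_nhds.div (((hδ.const_mul 2).const_add 1).pow 4) (by norm_num)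
    simpa using this
  have t2 : Tendsto (fun j => Vol h ι s / (1 - 2 * δ j) ^ 4) atTop (𝓝 (Vol h ι s)) := by
    have : Tendsto (fun j => Vol h ι s / (1 - 2 * δ j) ^ 4) atTop (𝓝 (Vol h ι s / (1 - 2 * 0) ^ 4)) := 
      tendsto_const_nhds.div (((hδ.const_mul 2).const_sub 1).pow 4) (by norm_num)
    simpa using this
  refine tendsto_of_tendsto_of_tendsto_of_le_of_le' t1 t2 (Eventually.of_forall fun j => ?_) ?_
  · rw [div_le_iff₀ (by have := hδ0 j; positivity)]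
    linarith [up j]
  · filter_upwards [hev] with j hj
    have : 0 < 1 - 2 * δ j := by linarith
    rw [le_div_iff₀ (by positivity)]
    linarith [lo j hj]

theorem limit_body (hδ : Tendsto δ atTop (𝓝 0)) (hH : ∀ j t, |t| ≤ 1 → |(p j).H t - Hinf t| ≤ δ j) 
    (hb : ∀ j t, |t| ≤ 1 → 1 / 2 ≤ (p j).H t ∧ (p j).H t ≤ 2) {c η : ℕ → ℝ} {cinf : ℝ} (hη : Tendsto η atTop (𝓝 0)) 
    (hc : Tendsto c atTop (𝓝 cinf)) (hN : ∀ j t, |t| ≤ 1 → |(p j).N t + (p j).N (-t) - 2 * c j| ≤ 2 * η j)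
    (ι : E 4 →ₗᵢ[ℝ] E 5) : 
    (∀ s, 0 ≤ s → Vol (fun y => ‖y‖ * Hinf (tt y)) ι s = interp (fun n => Vol (fun y => ‖y‖ * Hinf (tt y)) ι n) s) ∧ 
    L2 (fun n => Vol (fun y => ‖y‖ * Hinf (tt y)) ι n) = cinf * C4 := by
  have hT := fun s hs => Vol_tendsto (ι := ι) hδ hH hb s hs
  have hTn : ∀ n : ℕ, Tendsto (fun j => Vol (ssOf (p j)).h ι n) atTop (𝓝 (Vol (fun y => ‖y‖ * Hinf (tt y)) ι n)) := 
    fun n => hT n (Nat.cast_nonneg n)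
  constructor
  · intro s hs
    refine tendsto_nhds_unique (hT s hs) ?_
    have h1 : ∀ j, Vol (ssOf (p j)).h ι s = interp (fun n => Vol (ssOf (p j)).h ι n) s := fun j =>
      steiner_interp _ (ssOf_bound (p j) (fun t ht => (hb j t ht).2)) ι s hs
    simp only [h1, interp]
    exact (((((hTn 0).const_mul _).sub ((hTn 1).const_mul _)).add ((hTn 2).const_mul _)).sub ((hTn 3).const_mul _)).add ((hTn 4).const_mul _)
  · have h2 : Tendsto (fun j => L2 (fun n => Vol (ssOf (p j)).h ι n)) atTop (𝓝 (L2 (fun n => Vol (fun y => ‖y‖ * Hinf (tt y)) ι n))) := by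
      simp only [L2]
      exact (((((hTn 0).const_mul _).sub ((hTn 1).const_mul _)).add ((hTn 2).const_mul _)).sub ((hTn 3).const_mul _)).add ((hTn 4).const_mul _)
    have h3 : Tendsto (fun j => L2 (fun n => Vol (ssOf (p j)).h ι n) - c j * C4) atTop (𝓝 0) := by
      refine squeeze_zero_norm (fun j => ?_) (by simpa using hη.mul_const C4 : Tendsto (fun j => η j * C4) atTop (𝓝 0))
      exact L2_bound (p j) (fun t ht => (hb j t ht).2) (c j) (η j) (hN j) ι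
    have h4 := h3.add (hc.mul_const C4)
    simp only [sub_add_cancel, zero_add] at h4
    exact tendsto_nhds_unique h2 h4

end lim

end Pool.Agent.Helper104.GirthVol
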