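import Mathlib
import Pool.Agent.Helper104.GirthHess

open Polynomial Finset

namespace Pool.Agent.Helper104.GirthPoly

/-- sum of absolute values of the coefficients -/
noncomputable def l1 (f : ℝ[X]) : ℝ := ∑ k ∈ f.support, |f.coeff k|

lemma l1_eq_sum (f : ℝ[X]) (s : Finset ℕ) (hs : f.support ⊆ s) : l1 f = ∑ k ∈ s, |f.coeff k| := by
  apply sum_subset hs
  intro k _ hk
  rw [notMem_support_iff.1 hk, abs_zero]

lemma l1_nonneg (f : ℝ[X]) : 0 ≤ l1 f := sum_nonneg fun _ _ => abs_nonneg _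

lemma l1_zero : l1 0 = 0 := by simp [l1]

lemma l1_add_le (f g : ℝ[X]) : l1 (f + g) ≤ l1 f + l1 g := by
  have h1 : (f + g).support ⊆ f.support ∪ g.support := support_add
  rw [l1_eq_sum _ _ h1, l1_eq_sum f _ subset_union_left, l1_eq_sum g _ subset_union_right, ← sum_add_distrib]
  apply sum_le_sum
  intro k _
  rw [coeff_add]
  exact abs_add_le _ _

lemma l1_smul (a : ℝ) (f : ℝ[X]) : l1 (a • f) = |a| * l1 f := by
  have h1 : (a • f).support ⊆ f.support := support_smul a f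
  rw [l1_eq_sum _ _ h1, l1, mul_sum]
  apply sum_congr rfl
  intro k _
  rw [coeff_smul, smul_eq_mul, abs_mul]

lemma l1_neg (f : ℝ[X]) : l1 (-f) = l1 f := by
  have : -f = (-1 : ℝ) • f := by simp
  rw [this, l1_smul]; simp

lemma l1_sub_le (f g : ℝ[X]) : l1 (f - g) ≤ l1 f + l1 g := by
  rw [sub_eq_add_neg, ← l1_neg g]
  exact l1_add_le _ _

lemma l1_X_pow (k : ℕ) : l1 (X ^ k : ℝ[X]) = 1 := by
  rw [l1, support_X_pow, sum_singleton]
  simp

lemma l1_sum_le {α : Type} (s : Finset α) (f : α → ℝ[X]) : l1 (∑ i ∈ s, f i) ≤ ∑ i ∈ s, l1 (f i) := by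
  classical
  induction s using Finset.induction_on with
  | empty => simp [l1_zero]
  | insert a s ha ih =>
    rw [sum_insert ha, sum_insert ha]
    exact (l1_add_le _ _).trans (by linarith)

lemma l1_lin (L : ℝ[X] →ₗ[ℝ] ℝ[X]) (C : ℝ) (h : ∀ k, l1 (L (X ^ k)) ≤ C) (f : ℝ[X]) : l1 (L f) ≤ C * l1 f := by
  conv_lhs => rw [f.as_sum_support_C_mul_X_pow]
  simp only [← smul_eq_C_mul, map_sum, map_smul]
  refine (l1_sum_le _ _).trans ?_
  rw [l1, mul_sum]
  apply sum_le_sum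
  intro k _
  rw [l1_smul, mul_comm]
  exact mul_le_mul_of_nonneg_right (h k) (abs_nonneg _)

lemma l1_X_pow_mul_le (k : ℕ) (g : ℝ[X]) : l1 (X ^ k * g) ≤ l1 g := by
  have := l1_lin (LinearMap.mulLeft ℝ (X ^ k)) 1 (by
    intro m
    rw [LinearMap.mulLeft_apply, ← pow_add, l1_X_pow]) g
  simpa using this

lemma l1_mul_le (f g : ℝ[X]) : l1 (f * g) ≤ l1 f * l1 g := by
  have := l1_lin (LinearMap.mulRight ℝ g) (l1 g) (by
    intro m
    rw [LinearMap.mulRight_apply]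
    exact l1_X_pow_mul_le m g) f
  rw [LinearMap.mulRight_apply] at this
  linarith

lemma abs_eval_le (f : ℝ[X]) (z : ℝ) (hz : |z| ≤ 1) : |f.eval z| ≤ l1 f := by
  rw [eval_eq_sum, Polynomial.sum, l1]
  refine (abs_sum_le_sum_abs _ _).trans (sum_le_sum fun k _ => ?_)
  rw [abs_mul, abs_pow]
  calc |f.coeff k| * |z| ^ k ≤ |f.coeff k| * 1 := by
        gcongr
        exact pow_le_one₀ (abs_nonneg _) hz
    _ = _ := mul_one _

/-- linear extension -/
noncomputable def ext (τ : ℕ → ℝ[X]) : ℝ[X] →ₗ[ℝ] ℝ[X] := (Polynomial.basisMonomials ℝ).constr ℝ τ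

lemma ext_X_pow (τ : ℕ → ℝ[X]) (k : ℕ) : ext τ (X ^ k) = τ k := by
  have := (Polynomial.basisMonomials ℝ).constr_basis ℝ τ k
  rw [Polynomial.coe_basisMonomials] at this
  rw [X_pow_eq_monomial]
  exact this

noncomputable def tau (k : ℕ) : ℝ[X] := (-(1 / (2 * (k:ℝ) + 1))) • ∑ i ∈ range k, (1 / (2 * ((i:ℝ) + 1))) • X ^ (i + 1)

/-- solution operator of the Legendre equation -/
noncomputable def TT : ℝ[X] →ₗ[ℝ] ℝ[X] := ext tau

/-- mean value -/
noncomputable def mn : ℝ[X] →ₗ[ℝ] ℝ[X] := ext (fun k => C (1 / (2 * (k:ℝ) + 1)))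

lemma harm_bound (k : ℕ) (hk : 1 ≤ k) : 3 * ∑ i ∈ range k, (1 / ((i:ℝ) + 1)) ≤ 2 * k + 1 := by
  induction k, hk using Nat.le_induction with
  | base => norm_num
  | succ n hn ih =>
    rw [sum_range_succ, mul_add]
    have h1 : (1:ℝ) ≤ n := by exact_mod_cast hn
    have : 3 * (1 / ((n:ℝ) + 1)) ≤ 2 := by
      rw [mul_one_div, div_le_iff₀ (by linarith)]; linarith
    push_cast
    linarith

lemma l1_tau (k : ℕ) : l1 (tau k) ≤ 1 / 6 := by
  rcases Nat.eq_zero_or_pos k with rfl | hk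
  · simp [tau, l1_zero]
  rw [tau, l1_smul, abs_neg, abs_of_pos (by positivity)]
  have h1 : l1 (∑ i ∈ range k, (1 / (2 * ((i:ℝ) + 1))) • (X ^ (i + 1) : ℝ[X])) ≤ (1 / 2) * ∑ i ∈ range k, (1 / ((i:ℝ) + 1)) := by
    refine (l1_sum_le _ _).trans ?_
    rw [mul_sum]
    apply sum_le_sum
    intro i _
    rw [l1_smul, l1_X_pow, mul_one, abs_of_pos (by positivity)]
    apply le_of_eq
    field_simp
  have h2 := harm_bound k hk
  calc 1 / (2 * (k:ℝ) + 1) * l1 _ ≤ 1 / (2 * (k:ℝ) + 1) * ((1 / 2) * ∑ i ∈ range k, (1 / ((i:ℝ) + 1))) := by gcongr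
    _ ≤ 1 / (2 * (k:ℝ) + 1) * ((1 / 2) * ((2 * k + 1) / 3)) := by gcongr; linarith
    _ = 1 / 6 := by field_simp; norm_num

lemma l1_TT (f : ℝ[X]) : l1 (TT f) ≤ 1 / 6 * l1 f := l1_lin _ _ (fun k => by rw [TT, ext_X_pow]; exact l1_tau k) f

lemma derivative_tau (k : ℕ) : derivative (tau k) = (-(1 / (2 * (2 * (k:ℝ) + 1)))) • ∑ i ∈ range k, (X ^ i : ℝ[X]) := by
  rw [tau, derivative_smul, derivative_sum, smul_sum, smul_sum]
  apply sum_congr rfl
  intro i _
  rw [derivative_smul, derivative_X_pow, smul_smul, Nat.add_sub_cancel]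
  push_cast
  rw [← smul_eq_C_mul, smul_smul]
  congr 1
  field_simp

lemma l1_dTT (f : ℝ[X]) : l1 (derivative (TT f)) ≤ 1 / 4 * l1 f := by
  refine l1_lin (Polynomial.derivative ∘ₗ TT) _ (fun k => ?_) f
  rw [LinearMap.comp_apply, TT, ext_X_pow, derivative_tau, l1_smul, abs_neg, abs_of_pos (by positivity)]
  have h1 : l1 (∑ i ∈ range k, (X ^ i : ℝ[X])) ≤ k := by
    refine (l1_sum_le _ _).trans ?_
    simp [l1_X_pow]
  calc 1 / (2 * (2 * (k:ℝ) + 1)) * l1 _ ≤ 1 / (2 * (2 * (k:ℝ) + 1)) * k := by gcongr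
    _ ≤ 1 / 4 := by
      rw [one_div_mul_eq_div, div_le_div_iff₀ (by positivity) (by norm_num)]
      linarith

lemma l1_mn (f : ℝ[X]) : l1 (mn f) ≤ l1 f := by
  have := l1_lin mn 1 (fun k => by
    rw [mn, ext_X_pow]
    have : (C (1 / (2 * (k:ℝ) + 1)) : ℝ[X]) = (1 / (2 * (k:ℝ) + 1)) • X ^ 0 := by
      rw [smul_eq_C_mul, pow_zero, mul_one]
    rw [this, l1_smul, l1_X_pow, mul_one, abs_of_pos (by positivity), div_le_one (by positivity)]
    linarith [(Nat.cast_nonneg k : (0:ℝ) ≤ k)]) f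
  linarith

lemma mn_const (f : ℝ[X]) : ∃ c : ℝ, mn f = C c := by
  induction f using Polynomial.induction_on' with
  | add p q hp hq =>
    obtain ⟨a, ha⟩ := hp
    obtain ⟨b, hb⟩ := hq
    exact ⟨a + b, by rw [map_add, ha, hb, C_add]⟩
  | monomial n a =>
    refine ⟨a * (1 / (2 * (n:ℝ) + 1)), ?_⟩
    rw [← smul_X_eq_monomial, map_smul, mn, ext_X_pow, smul_eq_C_mul, C_mul]

/-- Legendre identity -/
lemma legendre (f : ℝ[X]) : 2 * (1 - X) * derivative (TT f) + 4 * X * derivative ((1 - X) * derivative (TT f)) = f - mn f := by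
  induction f using Polynomial.induction_on' with
  | add p q hp hq =>
    simp only [map_add, mul_add] at hp hq ⊢
    linear_combination hp + hq
  | monomial n a =>
    rw [← smul_X_eq_monomial]
    simp only [map_smul, mul_smul_comm, ← smul_add, ← smul_sub]
    congr 1
    rw [TT, mn, ext_X_pow, ext_X_pow, derivative_tau, mul_smul_comm, mul_smul_comm]
    have h1 : (1 - X) * ∑ i ∈ range n, (X ^ i : ℝ[X]) = 1 - X ^ n := by
      have := mul_neg_geom_sum (X : ℝ[X]) n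
      exact this
    rw [h1, mul_assoc 2, h1]
    rw [derivative_smul, derivative_sub, derivative_one, derivative_X_pow]
    rcases Nat.eq_zero_or_pos n with rfl | hn
    · simp
    · have h2 : (X : ℝ[X]) * X ^ (n - 1) = X ^ n := by
        rw [← pow_succ']; congr 1; omega
      have h3 : (4 * X * ((-(1 / (2 * (2 * (n:ℝ) + 1)))) • (0 - C (n:ℝ) * X ^ (n - 1))) : ℝ[X]) 
        = C (2 * n / (2 * (n:ℝ) + 1)) * X ^ n := by
        rw [smul_eq_C_mul, ← h2]
        have : (2 * n / (2 * (n:ℝ) + 1)) = 4 * (1 / (2 * (2 * (n:ℝ) + 1))) * n := by field_simp; norm_num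
        rw [this, C_mul, C_mul, C_neg]
        have : (C (4:ℝ) : ℝ[X]) = 4 := rfl
        rw [this]; ring
      rw [h3, smul_eq_C_mul]
      have h4 : (C (-(1 / (2 * (2 * (n:ℝ) + 1)))) * (2 * (1 - X ^ n)) : ℝ[X]) = - C (1 / (2 * (n:ℝ) + 1)) * (1 - X ^ n) := by
        have : -(1 / (2 * (2 * (n:ℝ) + 1))) = -(1 / (2 * (n:ℝ) + 1)) * (1 / 2) := by field_simp
        rw [this, C_mul, C_neg]
        have : (C (1/2:ℝ) : ℝ[X]) * 2 = 1 := by
          rw [show (2 : ℝ[X]) = C 2 from rfl, ← C_mul]; norm_num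
        linear_combination (-C (1 / (2 * (n:ℝ) + 1)) * (1 - X ^ n)) * this
      rw [h4]
      have h5 : (C (2 * n / (2 * (n:ℝ) + 1)) : ℝ[X]) + C (1 / (2 * (n:ℝ) + 1)) = 1 := by
        rw [← C_add, ← C_1]; congr 1; field_simp
      linear_combination (X ^ n) * h5

noncomputable def D (f : ℝ[X]) : ℝ[X] := derivative (TT f)

noncomputable def A1 (f : ℝ[X]) : ℝ[X] := 9 * f - 9 * mn f + 18 * (X * D f) + TT f
noncomputable def A2 (f : ℝ[X]) : ℝ[X] := TT f - 6 * (X * D f)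
noncomputable def QQ (f : ℝ[X]) : ℝ[X] := A1 f * A2 f + TT f * TT f - 12 * (X * D f * TT f) - 36 * (X * (1 - X)) * (D f * D f)

lemma D_sub (f g : ℝ[X]) : D (f - g) = D f - D g := by simp [D]
lemma A1_sub (f g : ℝ[X]) : A1 (f - g) = A1 f - A1 g := by simp only [A1, D_sub, map_sub]; ring
lemma A2_sub (f g : ℝ[X]) : A2 (f - g) = A2 f - A2 g := by simp only [A2, D_sub, map_sub]; ring

lemma l1_natCast_mul (n : ℕ) (f : ℝ[X]) : l1 ((n : ℝ[X]) * f) ≤ n * l1 f := by
  have : ((n : ℝ[X]) * f) = (n : ℝ) • f := by rw [smul_eq_C_mul]; simp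
  rw [this, l1_smul, Nat.abs_cast]

lemma l1_D (f : ℝ[X]) : l1 (D f) ≤ 1 / 4 * l1 f := l1_dTT f

lemma l1_XD (f : ℝ[X]) : l1 (X * D f) ≤ 1 / 4 * l1 f := by
  have := l1_X_pow_mul_le 1 (D f)
  rw [pow_one] at this
  exact this.trans (l1_D f)

lemma l1_A1 (f : ℝ[X]) : l1 (A1 f) ≤ 23 * l1 f := by
  have h1 := l1_natCast_mul 9 f
  have h2 := l1_natCast_mul 9 (mn f)
  have h3 := l1_natCast_mul 18 (X * D f)
  have h4 := l1_TT f
  have h5 := l1_mn f
  have h6 := l1_XD f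
  have h7 := l1_nonneg f
  push_cast at h1 h2 h3
  calc l1 (A1 f) ≤ l1 (9 * f - 9 * mn f + 18 * (X * D f)) + l1 (TT f) := l1_add_le _ _
    _ ≤ (l1 (9 * f - 9 * mn f) + l1 (18 * (X * D f))) + l1 (TT f) := by gcongr; exact l1_add_le _ _
    _ ≤ ((l1 (9 * f) + l1 (9 * mn f)) + l1 (18 * (X * D f))) + l1 (TT f) := by gcongr; exact l1_sub_le _ _
    _ ≤ _ := by linarith

lemma l1_A2 (f : ℝ[X]) : l1 (A2 f) ≤ 2 * l1 f := by
  have h3 := l1_natCast_mul 6 (X * D f)
  have h4 := l1_TT f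
  have h6 := l1_XD f
  have h7 := l1_nonneg f
  push_cast at h3
  calc l1 (A2 f) ≤ l1 (TT f) + l1 (6 * (X * D f)) := l1_sub_le _ _
    _ ≤ _ := by linarith

lemma l1_X : l1 (X : ℝ[X]) = 1 := by simpa using l1_X_pow 1
lemma l1_one : l1 (1 : ℝ[X]) = 1 := by simpa using l1_X_pow 0

lemma l1_mul_le' {f g : ℝ[X]} {a b : ℝ} (hf : l1 f ≤ a) (hg : l1 g ≤ b) : l1 (f * g) ≤ a * b :=
  (l1_mul_le f g).trans (mul_le_mul hf hg (l1_nonneg g) ((l1_nonneg f).trans hf))

lemma QQ_sub (f g : ℝ[X]) : l1 (QQ f - QQ g) ≤ 52 * (l1 f + l1 g) * l1 (f - g) := by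
  have e : QQ f - QQ g = A1 (f - g) * A2 f + A1 g * A2 (f - g) + (TT (f - g) * TT f + TT g * TT (f - g))
     - 12 * (X * D (f - g) * TT f + X * D g * TT (f - g)) 
     - 36 * ((X * (1 - X)) * (D (f - g) * D f + D g * D (f - g))) := by
    simp only [QQ, A1_sub, A2_sub, D_sub, map_sub]
    ring
  set d := f - g
  have hf := l1_nonneg f
  have hg := l1_nonneg g
  have hd := l1_nonneg d
  have t1 : l1 (A1 d * A2 f + A1 g * A2 d) ≤ 46 * (l1 f + l1 g) * l1 d := by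
    refine (l1_add_le _ _).trans ?_
    have a1 := l1_mul_le' (l1_A1 d) (l1_A2 f)
    have a2 := l1_mul_le' (l1_A1 g) (l1_A2 d)
    linarith
  have t2 : l1 (TT d * TT f + TT g * TT d) ≤ 1 / 36 * (l1 f + l1 g) * l1 d := by
    refine (l1_add_le _ _).trans ?_
    have a1 := l1_mul_le' (l1_TT d) (l1_TT f)
    have a2 := l1_mul_le' (l1_TT g) (l1_TT d)
    linarith
  have t3 : l1 (12 * (X * D d * TT f + X * D g * TT d)) ≤ 1 / 2 * (l1 f + l1 g) * l1 d := by
    have b := l1_natCast_mul 12 (X * D d * TT f + X * D g * TT d)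
    have a0 := l1_add_le (X * D d * TT f) (X * D g * TT d)
    have a1 := l1_mul_le' (l1_XD d) (l1_TT f)
    have a2 := l1_mul_le' (l1_XD g) (l1_TT d)
    push_cast at b
    linarith
  have t4 : l1 (36 * ((X * (1 - X)) * (D d * D f + D g * D d))) ≤ 9 / 2 * (l1 f + l1 g) * l1 d := by
    have b := l1_natCast_mul 36 ((X * (1 - X)) * (D d * D f + D g * D d))
    have a0 := l1_add_le (D d * D f) (D g * D d)
    have a1 := l1_mul_le' (l1_D d) (l1_D f)
    have a2 := l1_mul_le' (l1_D g) (l1_D d)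
    have a3 : l1 (X * (1 - X) : ℝ[X]) ≤ 2 := by
      have := l1_mul_le' (le_of_eq l1_X) ((l1_sub_le (1 : ℝ[X]) X).trans (by rw [l1_X, l1_one]) : l1 (1 - X : ℝ[X]) ≤ 1 + 1)
      linarith
    have a4 : l1 (D d * D f + D g * D d) ≤ 1 / 16 * (l1 f + l1 g) * l1 d := by linarith
    have a5 := l1_mul_le' a3 a4
    push_cast at b
    linarith
  rw [e]
  have s1 := l1_sub_le (A1 d * A2 f + A1 g * A2 d + (TT d * TT f + TT g * TT d)
     - 12 * (X * D d * TT f + X * D g * TT d)) (36 * ((X * (1 - X)) * (D d * D f + D g * D d)))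
  have s2 := l1_sub_le (A1 d * A2 f + A1 g * A2 d + (TT d * TT f + TT g * TT d)) (12 * (X * D d * TT f + X * D g * TT d))
  have s3 := l1_add_le (A1 d * A2 f + A1 g * A2 d) (TT d * TT f + TT g * TT d)
  refine s1.trans ((add_le_add (s2.trans (add_le_add (s3.trans (add_le_add t1 t2)) t3)) t4).trans ?_)
  have : 0 ≤ (l1 f + l1 g) * l1 d := by positivity
  linarith

lemma QQ_zero : QQ 0 = 0 := by simp [QQ, A1, A2, D]

/-- the small parameter -/
noncomputable def eps : ℝ := 1 / 1000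

noncomputable def Phi (f : ℝ[X]) : ℝ[X] := (1 / 9 : ℝ) • (-((20 * eps ^ 2) • X) - 4 * TT f - QQ f)

noncomputable def rr : ℝ := 5 / 2 * eps ^ 2

lemma Phi_sub (f g : ℝ[X]) (hf : l1 f ≤ rr) (hg : l1 g ≤ rr) : l1 (Phi f - Phi g) ≤ 1 / 2 * l1 (f - g) := by
  have e : Phi f - Phi g = (-(1 / 9) : ℝ) • (4 * TT (f - g) + (QQ f - QQ g)) := by
    simp only [Phi, map_sub, smul_eq_C_mul, C_neg]
    ring
  rw [e, l1_smul]
  have h1 := l1_add_le (4 * TT (f - g)) (QQ f - QQ g)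
  have h2 := l1_natCast_mul 4 (TT (f - g))
  have h3 := l1_TT (f - g)
  have h4 := QQ_sub f g
  have h5 := l1_nonneg (f - g)
  have h6 : 52 * (l1 f + l1 g) * l1 (f - g) ≤ 1 * l1 (f - g) := by
    apply mul_le_mul_of_nonneg_right _ h5
    have : rr ≤ 1 / 104 := by rw [rr, eps]; norm_num
    linarith
  push_cast at h2
  rw [abs_neg, abs_of_pos (by norm_num : (0:ℝ) < 1 / 9)]
  linarith

noncomputable def fs : ℕ → ℝ[X]
  | 0 => 0
  | n + 1 => Phi (fs n)

lemma l1_Phi_zero : l1 (Phi 0) ≤ 20 / 9 * eps ^ 2 := by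
  rw [Phi, QQ_zero, map_zero, mul_zero, sub_zero, sub_zero, l1_smul, l1_neg, l1_smul, l1_X]
  rw [abs_of_pos (by norm_num), abs_of_nonneg (by positivity)]
  linarith

lemma l1_fs (n : ℕ) : l1 (fs n) ≤ rr := by
  induction n with
  | zero => rw [fs, l1_zero, rr]; positivity
  | succ n ih =>
    rw [fs]
    have h0 : l1 (0 : ℝ[X]) ≤ rr := by rw [l1_zero, rr]; positivity
    have e : Phi (fs n) = Phi 0 + (Phi (fs n) - Phi 0) := by abel
    rw [e]
    have h1 := l1_add_le (Phi 0) (Phi (fs n) - Phi 0)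
    have h2 := l1_Phi_zero
    -- finer estimate
    have e2 : Phi (fs n) - Phi 0 = (-(1 / 9) : ℝ) • (4 * TT (fs n) + (QQ (fs n) - QQ 0)) := by
      simp only [Phi, map_zero, smul_eq_C_mul, C_neg]
      ring
    rw [e2, l1_smul, abs_neg, abs_of_pos (by norm_num : (0:ℝ) < 1 / 9)] at h1
    have h3 := l1_add_le (4 * TT (fs n)) (QQ (fs n) - QQ 0)
    have h4 := l1_natCast_mul 4 (TT (fs n))
    have h5 := l1_TT (fs n)
    have h6 := QQ_sub (fs n) 0
    rw [sub_zero, l1_zero, add_zero] at h6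
    push_cast at h4
    have h7 := l1_nonneg (fs n)
    have hrr : 0 ≤ rr := by rw [rr]; positivity
    have h8 : 52 * l1 (fs n) * l1 (fs n) ≤ 52 * rr * rr := by gcongr
    rw [e2]
    have h9 : 52 * rr * rr ≤ 1 / 100 * eps ^ 2 := by rw [rr, eps]; norm_num
    have h10 : rr = 5 / 2 * eps ^ 2 := rfl
    have h11 : 0 < eps ^ 2 := by rw [eps]; norm_num
    linarith

lemma l1_fs_succ_sub (n : ℕ) : l1 (fs (n + 1) - fs n) ≤ rr * (1 / 2) ^ n := by
  induction n with
  | zero =>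
    rw [pow_zero, mul_one]
    have : fs (0 + 1) - fs 0 = Phi 0 := by simp [fs]
    rw [this]
    refine l1_Phi_zero.trans ?_
    rw [rr]
    have : 0 < eps ^ 2 := by rw [eps]; norm_num
    linarith
  | succ n ih =>
    have := Phi_sub (fs (n + 1)) (fs n) (l1_fs _) (l1_fs _)
    have e : fs (n + 1 + 1) - fs (n + 1) = Phi (fs (n + 1)) - Phi (fs n) := rfl
    rw [e, pow_succ]
    linarith

open GirthVol

section profile

variable (f : ℝ[X]) 

lemma key_b (z : ℝ) : (1 - z) * (2 * (D f).eval z + 4 * z * (derivative (D f)).eval z) = (f - mn f + 4 * (X * D f)).eval z := by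
  have h := congrArg (eval z) (legendre f)
  simp only [derivative_mul, derivative_sub, derivative_one, derivative_X, eval_add, eval_mul, eval_sub, eval_one, 
    eval_X, eval_ofNat, eval_zero] at h
  simp only [D, eval_add, eval_sub, eval_mul, eval_X, eval_ofNat]
  linear_combination h

lemma abs_b_le (z : ℝ) (hz : |z| ≤ 1) : |(f - mn f + 4 * (X * D f)).eval z| ≤ 3 * l1 f := by
  refine (abs_eval_le _ _ hz).trans ?_
  have h1 := l1_add_le (f - mn f) (4 * (X * D f))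
  have h2 := l1_sub_le f (mn f)
  have h3 := l1_mn f
  have h4 := l1_natCast_mul 4 (X * D f)
  have h5 := l1_XD f
  push_cast at h4
  linarith

noncomputable def profOf (hf : l1 f ≤ rr) : Prof where
  H t := 1 + eps * t + (TT f).eval (t ^ 2)
  H1 t := eps + 2 * t * (D f).eval (t ^ 2)
  H2 t := 2 * (D f).eval (t ^ 2) + 4 * t ^ 2 * (derivative (D f)).eval (t ^ 2)
  d1 t := by
    have h1 := ((TT f).hasDerivAt (t ^ 2)).comp t (hasDerivAt_pow 2 t)
    have h2 : HasDerivAt (fun t : ℝ => 1 + eps * t) eps t := by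
      simpa using ((hasDerivAt_id t).const_mul eps).const_add 1
    have h3 := h2.add h1
    refine h3.congr_deriv ?_
    simp [D]; ring
  d2 t := by
    have h1 := ((D f).hasDerivAt (t ^ 2)).comp t (hasDerivAt_pow 2 t)
    have h2 : HasDerivAt (fun t : ℝ => 2 * t) 2 t := by
      simpa using (hasDerivAt_id t).const_mul 2
    have h3 := (h2.mul h1).const_add eps
    refine h3.congr_deriv ?_
    simp; ring
  pos t ht := by
    have ht2 : |t ^ 2| ≤ 1 := by rw [abs_pow]; exact pow_le_one₀ (abs_nonneg _) ht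
    have h1 := (abs_eval_le (TT f) _ ht2).trans (l1_TT f)
    have h2 := abs_le.1 h1
    have h3 : |eps * t| ≤ 1 / 1000 := by
      rw [abs_mul, eps, abs_of_pos (by norm_num)]; linarith
    have h4 := abs_le.1 h3
    have h5 : rr ≤ 1 / 1000 := by rw [rr, eps]; norm_num
    linarith
  pd t ht := by
    have ht2 : |t ^ 2| ≤ 1 := by rw [abs_pow]; exact pow_le_one₀ (abs_nonneg _) ht
    have ht3 : t ^ 2 ≤ 1 := (le_abs_self _).trans ht2
    have h1 := (abs_eval_le (TT f) _ ht2).trans (l1_TT f)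
    have h2 := abs_le.1 h1
    have h3 : |eps * t| ≤ 1 / 1000 := by
      rw [abs_mul, eps, abs_of_pos (by norm_num)]; linarith
    have h4 := abs_le.1 h3
    have h5 : rr ≤ 1 / 1000 := by rw [rr, eps]; norm_num
    have h0 := l1_nonneg f
    have hD := (abs_eval_le (D f) _ ht2).trans (l1_D f)
    have hH1 : |eps + 2 * t * (D f).eval (t ^ 2)| ≤ 1 / 500 := by
      have a1 : |2 * t * (D f).eval (t ^ 2)| ≤ 2 * 1 * (1 / 4 * l1 f) := by
        rw [abs_mul, abs_mul, abs_of_pos (by norm_num : (0:ℝ) < 2)]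
        gcongr
      have a2 := abs_add_le eps (2 * t * (D f).eval (t ^ 2))
      have a3 : |eps| = 1 / 1000 := by rw [eps, abs_of_pos (by norm_num)]
      linarith
    have hH1t : |3 * t * (eps + 2 * t * (D f).eval (t ^ 2))| ≤ 3 / 500 := by
      rw [abs_mul, abs_mul, abs_of_pos (by norm_num : (0:ℝ) < 3)]
      calc 3 * |t| * |eps + 2 * t * (D f).eval (t ^ 2)| ≤ 3 * 1 * (1 / 500) := by gcongr
        _ = _ := by norm_num
    have hb : 9 * (1 - t ^ 2) * |2 * (D f).eval (t ^ 2) + 4 * t ^ 2 * (derivative (D f)).eval (t ^ 2)| ≤ 27 / 1000 := by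
      have a0 := abs_b_le f (t ^ 2) ht2
      rw [← key_b, abs_mul, abs_of_nonneg (by linarith : (0:ℝ) ≤ 1 - t ^ 2)] at a0
      linarith
    have h6 := abs_le.1 hH1t
    linarith

lemma N_sum (hf : l1 f ≤ rr) (t : ℝ) : (profOf f hf).N t + (profOf f hf).N (-t) = 
    6 * (2 - 9 * eps ^ 2 - 9 * (mn f).eval (t ^ 2) + 9 * (f - Phi f).eval (t ^ 2)) := by
  have hb := key_b f (t ^ 2)
  have e1 : 9 * (f - Phi f) = 9 * f + (20 * eps ^ 2) • X + 4 * TT f + QQ f := by
    rw [Phi]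
    have : (9 : ℝ[X]) = C 9 := rfl
    rw [this, smul_eq_C_mul, mul_sub, ← mul_assoc (C (9:ℝ)), ← C_mul]
    norm_num
    ring
  have e2 : 9 * (f - Phi f).eval (t ^ 2) = 9 * f.eval (t ^ 2) + 20 * eps ^ 2 * t ^ 2 + 4 * (TT f).eval (t ^ 2) + (QQ f).eval (t ^ 2) := by
    have := congrArg (eval (t ^ 2)) e1
    simp only [eval_add, eval_mul, eval_ofNat, eval_smul, eval_X, smul_eq_mul] at this
    exact this
  rw [e2]
  simp only [Prof.N, profOf, neg_sq, QQ, A1, A2, eval_add, eval_sub, eval_mul, eval_ofNat, eval_X, eval_one] at hb ⊢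
  linear_combination (54 * (1 + eval (t ^ 2) (TT f) - 6 * t ^ 2 * eval (t ^ 2) (D f))) * hb

end profile

lemma eval_zero_TT (f : ℝ[X]) : (TT f).eval 0 = 0 := by
  induction f using Polynomial.induction_on' with
  | add p q hp hq => rw [map_add, eval_add, hp, hq, add_zero]
  | monomial n a =>
    rw [← smul_X_eq_monomial, map_smul, TT, ext_X_pow, eval_smul, tau, eval_smul, eval_finsetSum]
    simp

open Filter Topology

theorem exists_seq : ∃ (p : ℕ → Prof) (Hinf : ℝ → ℝ) (c : ℕ → ℝ) (cinf : ℝ) (δ η : ℕ → ℝ),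
    Tendsto δ atTop (𝓝 0) ∧ Tendsto η atTop (𝓝 0) ∧ Tendsto c atTop (𝓝 cinf) ∧
    (∀ j t, |t| ≤ 1 → |(p j).H t - Hinf t| ≤ δ j) ∧
    (∀ j t, |t| ≤ 1 → |(p j).N t + (p j).N (-t) - 2 * c j| ≤ 2 * η j) ∧
    (∀ j t, |t| ≤ 1 → 1 / 2 ≤ (p j).H t ∧ (p j).H t ≤ 2) ∧
    (∀ j, (p j).P 0 = 1 ∧ (p j).H1 0 = eps) ∧ 
    (∀ t, |t| ≤ 1 → Hinf t ≤ 1 + eps * t + 0.45 * eps ^ 2) := by
  set p : ℕ → Prof := fun n => profOf (fs n) (l1_fs n) with hp
  have hHdiff : ∀ t, |t| ≤ 1 → ∀ n, dist ((p n).H t) ((p (n + 1)).H t) ≤ rr * (1 / 2) ^ n := by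
    intro t ht n
    have ht2 : |t ^ 2| ≤ 1 := by rw [abs_pow]; exact pow_le_one₀ (abs_nonneg _) ht
    rw [dist_comm, Real.dist_eq]
    have e : (p (n + 1)).H t - (p n).H t = (TT (fs (n + 1) - fs n)).eval (t ^ 2) := by
      simp only [hp, profOf, map_sub, eval_sub]; ring
    rw [e]
    have h1 := (abs_eval_le (TT (fs (n + 1) - fs n)) _ ht2).trans (l1_TT _)
    have h2 := l1_fs_succ_sub n
    have h3 := l1_nonneg (fs (n + 1) - fs n)
    linarith
  have hcau : ∀ t, |t| ≤ 1 → CauchySeq (fun n => (p n).H t) := fun t ht =>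
    cauchySeq_of_le_geometric (1 / 2) rr (by norm_num) (hHdiff t ht)
  set mm : ℕ → ℝ := fun n => (mn (fs n)).eval 0 with hmm
  have hmmdiff : ∀ n, dist (mm n) (mm (n + 1)) ≤ rr * (1 / 2) ^ n := by
    intro n
    rw [dist_comm, Real.dist_eq]
    have e : mm (n + 1) - mm n = (mn (fs (n + 1) - fs n)).eval 0 := by
      simp only [hmm, map_sub, eval_sub]
    rw [e]
    have h1 := (abs_eval_le (mn (fs (n + 1) - fs n)) 0 (by simp)).trans (l1_mn _)
    have h2 := l1_fs_succ_sub n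
    linarith
  have hmmcau : CauchySeq mm := cauchySeq_of_le_geometric (1 / 2) rr (by norm_num) hmmdiff
  have hpow : Tendsto (fun n : ℕ => rr * (1 / 2 : ℝ) ^ n) atTop (𝓝 0) := by
    have := (tendsto_pow_atTop_nhds_zero_of_lt_one (by norm_num : (0:ℝ) ≤ 1 / 2) (by norm_num)).const_mul rr
    simpa using this
  have hHbd : ∀ j t, |t| ≤ 1 → |(p j).H t - (1 + eps * t)| ≤ 1 / 6 * rr := by
    intro j t ht
    have ht2 : |t ^ 2| ≤ 1 := by rw [abs_pow]; exact pow_le_one₀ (abs_nonneg _) ht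
    have e : (p j).H t - (1 + eps * t) = (TT (fs j)).eval (t ^ 2) := by
      simp only [hp, profOf]; ring
    rw [e]
    have h1 := (abs_eval_le (TT (fs j)) _ ht2).trans (l1_TT _)
    have := l1_fs j
    linarith
  refine ⟨p, fun t => limUnder atTop (fun n => (p n).H t), fun n => 3 * (2 - 9 * eps ^ 2 - 9 * mm n), 
    3 * (2 - 9 * eps ^ 2 - 9 * limUnder atTop mm), fun n => rr * (1 / 2) ^ n / (1 - 1 / 2), fun n => 27 * (rr * (1 / 2) ^ n), 
    ?_, ?_, ?_, ?_, ?_, ?_, ?_, ?_⟩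
  · simpa using hpow.div_const (1 - 1 / 2)
  · simpa using hpow.const_mul 27
  · exact ((hmmcau.tendsto_limUnder.const_mul 9).const_sub _).const_mul 3
  · intro j t ht
    have := dist_le_of_le_geometric_of_tendsto (1 / 2) rr (by norm_num) (hHdiff t ht) (hcau t ht).tendsto_limUnder j
    rwa [Real.dist_eq] at this
  · intro j t ht
    have ht2 : |t ^ 2| ≤ 1 := by rw [abs_pow]; exact pow_le_one₀ (abs_nonneg _) ht
    have h1 := N_sum (fs j) (l1_fs j) t
    obtain ⟨c, hc⟩ := mn_const (fs j)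
    have h2 : (mn (fs j)).eval (t ^ 2) = mm j := by simp only [hmm]; rw [hc, eval_C, eval_C]
    rw [h2] at h1
    change |(profOf (fs j) (l1_fs j)).N t + (profOf (fs j) (l1_fs j)).N (-t) - 2 * (3 * (2 - 9 * eps ^ 2 - 9 * mm j))| ≤ _
    rw [h1]
    have e : 6 * (2 - 9 * eps ^ 2 - 9 * mm j + 9 * eval (t ^ 2) (fs j - Phi (fs j))) - 2 * (3 * (2 - 9 * eps ^ 2 - 9 * mm j)) 
      = 54 * eval (t ^ 2) (fs j - Phi (fs j)) := by ring
    rw [e, abs_mul, abs_of_pos (by norm_num : (0:ℝ) < 54)]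
    have h3 := abs_eval_le (fs j - Phi (fs j)) _ ht2
    have h4 := l1_fs_succ_sub j
    have h5 : l1 (fs j - Phi (fs j)) = l1 (fs (j + 1) - fs j) := by
      rw [← l1_neg, neg_sub]; rfl
    rw [h5] at h3
    linarith
  · intro j t ht
    have h1 := abs_le.1 (hHbd j t ht)
    have h3 : |eps * t| ≤ 1 / 1000 := by
      rw [abs_mul, eps, abs_of_pos (by norm_num)]; linarith
    have h4 := abs_le.1 h3
    have h5 : rr ≤ 1 / 1000 := by rw [rr, eps]; norm_num
    have h6 : 0 ≤ rr := by rw [rr]; positivity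
    constructor <;> linarith
  · intro j
    constructor
    · simp only [hp, profOf, Prof.P]
      rw [show ((0:ℝ) ^ 2) = 0 by norm_num, eval_zero_TT]; ring
    · simp only [hp, profOf]; ring
  · intro t ht
    refine le_of_tendsto (hcau t ht).tendsto_limUnder (Eventually.of_forall fun j => ?_)
    have h1 := abs_le.1 (hHbd j t ht)
    have h2 : rr = 5 / 2 * eps ^ 2 := rfl
    have h3 : 0 < eps ^ 2 := by rw [eps]; norm_num
    norm_num
    linarith

end Pool.Agent.Helper104.GirthPoly
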