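import Mathlib
import Pool.Agent.Helper104.GirthLimit
import Pool.Agent.Helper104.GirthPoly

open MeasureTheory Set Filter Topology
open scoped RealInnerProductSpace ENNReal NNReal Pointwise

namespace Pool.Agent.Helper104.GirthVol

open GirthPoly (eps)

/-- the coordinate plane where the cubic vanishes -/
noncomputable def ι0 : E 2 →ₗᵢ[ℝ] E 5 where
  toFun y := !₂[0, 0, 0, y 0, y 1]
  map_add' a b := by ext i; fin_cases i <;> simp
  map_smul' c a := by ext i; fin_cases i <;> simp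
  norm_map' y := by
    have h : ‖(!₂[0, 0, 0, y 0, y 1] : E 5)‖ ^ 2 = ‖y‖ ^ 2 := by
      rw [normsq5, EuclideanSpace.norm_sq_eq, Fin.sum_univ_two]; simp
    exact (pow_left_inj₀ (norm_nonneg _) (norm_nonneg _) (by norm_num)).1 h

/-- the coordinate plane where the cubic is `cos 3θ` -/
noncomputable def ι1 : E 2 →ₗᵢ[ℝ] E 5 where
  toFun y := !₂[y 0, y 1, 0, 0, 0]
  map_add' a b := by ext i; fin_cases i <;> simp
  map_smul' c a := by ext i; fin_cases i <;> simp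
  norm_map' y := by
    have h : ‖(!₂[y 0, y 1, 0, 0, 0] : E 5)‖ ^ 2 = ‖y‖ ^ 2 := by
      rw [normsq5, EuclideanSpace.norm_sq_eq, Fin.sum_univ_two]; simp
    exact (pow_left_inj₀ (norm_nonneg _) (norm_nonneg _) (by norm_num)).1 h

lemma ι0_apply (y : E 2) : ι0 y = !₂[0, 0, 0, y 0, y 1] := rfl
lemma ι1_apply (y : E 2) : ι1 y = !₂[y 0, y 1, 0, 0, 0] := rfl

lemma Gf_0 (x : E 5) : Gf x 0 = 3 * x 0 ^ 2 - 3 * x 1 ^ 2 - 3 * x 2 ^ 2 + 3 / 2 * (x 3 ^ 2 + x 4 ^ 2) := by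
  simp only [Gf, PiLp.smul_apply, smul_eq_mul, Bl_0]; ring
lemma Gf_1 (x : E 5) : Gf x 1 = -6 * x 0 * x 1 + 3 / 2 * √3 * (x 3 ^ 2 - x 4 ^ 2) := by
  simp only [Gf, PiLp.smul_apply, smul_eq_mul, Bl_1]; ring
lemma Gf_2 (x : E 5) : Gf x 2 = -6 * x 0 * x 2 + 3 * √3 * x 3 * x 4 := by
  simp only [Gf, PiLp.smul_apply, smul_eq_mul, Bl_2]; ring
lemma Gf_3 (x : E 5) : Gf x 3 = 3 * x 0 * x 3 + 3 * √3 * (x 1 * x 3 + x 2 * x 4) := by
  simp only [Gf, PiLp.smul_apply, smul_eq_mul, Bl_3]; ring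
lemma Gf_4 (x : E 5) : Gf x 4 = 3 * x 0 * x 4 + 3 * √3 * (x 2 * x 3 - x 1 * x 4) := by
  simp only [Gf, PiLp.smul_apply, smul_eq_mul, Bl_4]; ring

lemma tt_ι0 (y : E 2) : tt (ι0 y) = 0 := by
  have : Ff (ι0 y) = 0 := by
    rw [Ff, inner5, Gf_0, Gf_1, Gf_2, Gf_3, Gf_4, ι0_apply]
    simp
  rw [tt, this, zero_mul]

lemma ad_Gf_ι0 (y : E 2) : ad ι0 (Gf (ι0 y)) = 0 := by
  refine ext_inner_right ℝ fun w => ?_
  rw [ad_inner, inner5, Gf_0, Gf_1, Gf_2, Gf_3, Gf_4, ι0_apply, ι0_apply, inner_zero_left]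
  simp

lemma closedBall_subset_profile (p : Prof) (hP : p.P 0 = 1) : 
    Metric.closedBall (0 : E 2) 1 ⊆ ad ι0 '' bd (ssOf p).h := by
  intro z hz
  rw [mem_closedBall_zero_iff] at hz
  by_cases hz0 : z = 0
  · subst hz0
    refine ⟨0, fun y => ?_, map_zero _⟩
    rw [inner_zero_left]
    by_cases hy : y = 0
    · subst hy; rw [(ssOf p).h0]
    · exact ((ssOf p).pos y hy).le
  have hpos : 0 < ‖z‖ := norm_pos_iff.2 hz0
  have hne : ι0 z ≠ 0 := by
    intro h
    have := ι0.norm_map z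
    rw [h, norm_zero] at this
    linarith
  refine ⟨‖z‖ • (ssOf p).g (ι0 z), fun y => ?_, ?_⟩
  · have h1 := (ssOf p).grad_le hne y
    rw [inner_smul_left]
    simp only [conj_trivial]
    have h2 : 0 ≤ (ssOf p).h y := by
      by_cases hy : y = 0
      · subst hy; rw [(ssOf p).h0]
      · exact ((ssOf p).pos y hy).le
    calc ‖z‖ * ⟪(ssOf p).g (ι0 z), y⟫ ≤ ‖z‖ * (ssOf p).h y := by gcongr
      _ ≤ 1 * (ssOf p).h y := by gcongr
      _ = _ := one_mul _
  · have : (ssOf p).g (ι0 z) = gfun p (ι0 z) := rfl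
    rw [this, gfun, tt_ι0, hP, map_smul, map_add, map_smul, map_smul, ad_Gf_ι0, smul_zero, add_zero, ad_ι,
      LinearIsometry.norm_map, one_mul, smul_smul, mul_inv_cancel₀ hpos.ne', one_smul]

section lim

variable {p : ℕ → Prof} {Hinf : ℝ → ℝ} {δ : ℕ → ℝ}

lemma ball_subset_limit (hδ : Tendsto δ atTop (𝓝 0)) (hH : ∀ j t, |t| ≤ 1 → |(p j).H t - Hinf t| ≤ δ j) 
    (hb : ∀ j t, |t| ≤ 1 → 1 / 2 ≤ (p j).H t ∧ (p j).H t ≤ 2) (hP : ∀ j, (p j).P 0 = 1) : 
    Metric.ball (0 : E 2) 1 ⊆ ad ι0 '' bd (fun y => ‖y‖ * Hinf (tt y)) := by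
  have hδ0 : ∀ j, 0 ≤ δ j := fun j => (abs_nonneg _).trans (hH j 0 (by simp))
  intro z hz
  rw [mem_ball_zero_iff] at hz
  have hev : ∀ᶠ j in atTop, 2 * δ j < 1 - ‖z‖ := by
    have : Tendsto (fun j => 2 * δ j) atTop (𝓝 0) := by simpa using hδ.const_mul 2
    exact this.eventually_lt_const (by linarith)
  obtain ⟨j, hj⟩ := hev.exists
  have hpos : 0 < 1 - 2 * δ j := by linarith [norm_nonneg z]
  have hz2 : (1 - 2 * δ j)⁻¹ • z ∈ Metric.closedBall (0 : E 2) 1 := by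
    rw [mem_closedBall_zero_iff, norm_smul, norm_inv, Real.norm_eq_abs, abs_of_pos hpos, inv_mul_le_iff₀ hpos]
    linarith
  obtain ⟨k, hk, hk2⟩ := closedBall_subset_profile (p j) (hP j) hz2
  refine ⟨(1 - 2 * δ j) • k, fun y => ?_, ?_⟩
  · rw [inner_smul_left]
    simp only [conj_trivial]
    have h1 := abs_le.1 (hH j _ (abs_tt_le y))
    have h2 := (hb j _ (abs_tt_le y)).1
    have h3 : (1 - 2 * δ j) * (p j).H (tt y) ≤ Hinf (tt y) := by nlinarith [hδ0 j]
    calc (1 - 2 * δ j) * ⟪k, y⟫ ≤ (1 - 2 * δ j) * (‖y‖ * (p j).H (tt y)) := by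
          gcongr; exact hk y
      _ = ‖y‖ * ((1 - 2 * δ j) * (p j).H (tt y)) := by ring
      _ ≤ _ := mul_le_mul_of_nonneg_left h3 (norm_nonneg y)
  · rw [map_smul, hk2, smul_smul, mul_inv_cancel₀ hpos.ne', one_smul]

end lim

/-- trigonometric bound of the radial function -/
noncomputable def Rf (φ : ℝ) : ℝ := (1 - 4.05 * eps ^ 2 + 50 * eps ^ 3) + eps * Real.cos (3 * φ) + 4.5 * eps ^ 2 * Real.cos (3 * φ) ^ 2

lemma sin_mul_bound (s e : ℝ) (he : 0 ≤ e) : e * s ^ 2 - e ^ 3 * s ^ 4 / 6 ≤ s * Real.sin (e * s) := by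
  rcases lt_trichotomy s 0 with h | h | h
  · rcases eq_or_lt_of_le he with h0 | h0
    · subst h0; simp
    have h1 := Real.sin_gt_sub_cube (x := e * (-s)) (by nlinarith)
    have h2 : Real.sin (e * s) = - Real.sin (e * (-s)) := by rw [← Real.sin_neg]; congr 1; ring
    rw [h2]
    nlinarith
  · subst h; simp
  · rcases eq_or_lt_of_le he with h0 | h0
    · subst h0; simp
    have h1 := Real.sin_gt_sub_cube (x := e * s) (by positivity)
    nlinarith

lemma radial_bound (r φ : ℝ) (hr : 0 ≤ r) (h : ∀ α : ℝ, r * Real.cos α ≤ 1 + eps * Real.cos (3 * (φ + α)) + 0.45 * eps ^ 2) :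
    r ≤ Rf φ := by
  set s := Real.sin (3 * φ) with hs
  set w := Real.cos (3 * φ) with hw
  have hsw : s ^ 2 = 1 - w ^ 2 := by rw [hs, hw]; linarith [Real.sin_sq_add_cos_sq (3 * φ)]
  have hs1 : s ^ 2 ≤ 1 := by rw [hsw]; nlinarith [sq_nonneg w]
  have hw1 : |w| ≤ 1 := Real.abs_cos_le_one _
  have hα := h (3 * eps * s)
  have e1 : 3 * (φ + 3 * eps * s) = 3 * φ + (9 * eps) * s := by ring
  rw [e1, Real.cos_add, ← hs, ← hw] at hα
  have heps : (0:ℝ) ≤ 9 * eps := by rw [eps]; norm_num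
  have b1 := sin_mul_bound s (9 * eps) heps
  have b2 : w * Real.cos ((9 * eps) * s) ≤ w + (81 / 2) * eps ^ 2 := by
    have c1 := Real.one_sub_sq_div_two_le_cos (x := (9 * eps) * s)
    have c2 := Real.cos_le_one ((9 * eps) * s)
    have c3 : w * (Real.cos ((9 * eps) * s) - 1) ≤ (81 / 2) * eps ^ 2 := by
      have d1 : |w * (Real.cos ((9 * eps) * s) - 1)| ≤ 1 * ((81 / 2) * eps ^ 2) := by
        rw [abs_mul]
        apply mul_le_mul hw1 _ (abs_nonneg _) (by norm_num)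
        rw [abs_of_nonpos (by linarith)]
        nlinarith [sq_nonneg eps]
      linarith [le_abs_self (w * (Real.cos ((9 * eps) * s) - 1))]
    linarith
  have b3 := Real.one_sub_sq_div_two_le_cos (x := 3 * eps * s)
  have b4 : r * (1 - 4.5 * eps ^ 2 * s ^ 2) ≤ 1 + eps * w - 9 * eps ^ 2 * s ^ 2 + 0.45 * eps ^ 2 + 41 * eps ^ 3 := by
    have c1 : r * (1 - 4.5 * eps ^ 2 * s ^ 2) ≤ r * Real.cos (3 * eps * s) := by
      apply mul_le_mul_of_nonneg_left _ hr
      nlinarith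
    have hs4 : s ^ 4 ≤ 1 := by nlinarith [sq_nonneg s]
    have c2 : Real.sin (3 * φ) * Real.sin (9 * eps * s) ≥ 9 * eps * s ^ 2 - (9 * eps) ^ 3 / 6 := by
      rw [← hs]
      have : (9 * eps) ^ 3 * s ^ 4 / 6 ≤ (9 * eps) ^ 3 / 6 := by
        have : 0 ≤ (9 * eps) ^ 3 := by positivity
        nlinarith
      linarith
    rw [← hs] at c2
    have heps0 : (0:ℝ) ≤ eps := by rw [eps]; norm_num
    have c3 : eps * (w * Real.cos (9 * eps * s) - s * Real.sin (9 * eps * s)) ≤ 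
        eps * (w + (81 / 2) * eps ^ 2 - (9 * eps * s ^ 2 - (9 * eps) ^ 3 / 6)) :=
      mul_le_mul_of_nonneg_left (by linarith) heps0
    have c4 : eps * ((9 * eps) ^ 3 / 6) ≤ 1 / 2 * eps ^ 3 := by rw [eps]; norm_num
    linarith
  have hw2 := abs_le.1 hw1
  have hR : Rf φ = (1 - 4.05 * eps ^ 2 + 50 * eps ^ 3) + eps * w + 4.5 * eps ^ 2 * w ^ 2 := rfl
  by_contra hcon
  push Not at hcon
  have hpos : 0 < 1 - 4.5 * eps ^ 2 * s ^ 2 := by rw [eps]; norm_num; nlinarith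
  have h5 : Rf φ * (1 - 4.5 * eps ^ 2 * s ^ 2) < r * (1 - 4.5 * eps ^ 2 * s ^ 2) := by
    exact mul_lt_mul_of_pos_right hcon hpos
  have h6 := h5.trans_le b4
  rw [hR, hsw] at h6
  have e0 : eps = 1 / 1000 := rfl
  rw [e0] at h6
  norm_num at h6
  nlinarith [sq_nonneg w, sq_nonneg (w ^ 2), mul_nonneg (by linarith [hw2.1] : (0:ℝ) ≤ 1 + w) (by linarith [hw2.2] : (0:ℝ) ≤ 1 - w)]

lemma Ff_ι1 (a b : ℝ) (h : a ^ 2 + b ^ 2 = 1) : tt (ι1 !₂[a, b]) = 4 * a ^ 3 - 3 * a := by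
  have hn : ‖ι1 !₂[a, b]‖ = 1 := by
    rw [LinearIsometry.norm_map, EuclideanSpace.norm_eq, Fin.sum_univ_two]
    simp [h]
  rw [tt, hn, Ff, inner5, Gf_0, Gf_1, Gf_2, Gf_3, Gf_4, ι1_apply]
  simp
  linear_combination (-3 * a) * h

lemma support_radial {Hinf : ℝ → ℝ} (hup : ∀ t, |t| ≤ 1 → Hinf t ≤ 1 + eps * t + 0.45 * eps ^ 2) 
    (r φ : ℝ) (hr : 0 ≤ r) (hz : (!₂[r * Real.cos φ, r * Real.sin φ] : E 2) ∈ ad ι1 '' bd (fun y => ‖y‖ * Hinf (tt y))) :
    r ≤ Rf φ := by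
  apply radial_bound r φ hr
  intro α
  obtain ⟨k, hk, hk2⟩ := hz
  have h1 := hk (ι1 !₂[Real.cos (φ + α), Real.sin (φ + α)])
  rw [← ad_inner, hk2] at h1
  have hn : ‖ι1 !₂[Real.cos (φ + α), Real.sin (φ + α)]‖ = 1 := by
    rw [LinearIsometry.norm_map, EuclideanSpace.norm_eq, Fin.sum_univ_two]
    simp
  have h2 : ⟪(!₂[r * Real.cos φ, r * Real.sin φ] : E 2), !₂[Real.cos (φ + α), Real.sin (φ + α)]⟫ = r * Real.cos α := by
    rw [PiLp.inner_apply, Fin.sum_univ_two]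
    simp
    have : Real.cos α = Real.cos ((φ + α) - φ) := by congr 1; ring
    rw [this, Real.cos_sub]; ring
  rw [h2] at h1
  simp only [hn, one_mul] at h1
  have h3 := Ff_ι1 (Real.cos (φ + α)) (Real.sin (φ + α)) (Real.cos_sq_add_sin_sq _)
  rw [h3, ← Real.cos_three_mul] at h1
  exact h1.trans (hup _ (Real.abs_cos_le_one _))

lemma Rf_continuous : Continuous Rf := by
  unfold Rf; fun_prop

lemma Rf_pos (φ : ℝ) : 0 < Rf φ := by
  have h := abs_le.1 (Real.abs_cos_le_one (3 * φ))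
  rw [Rf, eps]
  norm_num
  nlinarith [sq_nonneg (Real.cos (3 * φ))]

lemma inner_lint (R : ℝ) (hR : 0 ≤ R) : ∫⁻ x in Ioc 0 R, ENNReal.ofReal x = ENNReal.ofReal (R ^ 2 / 2) := by
  rw [← ofReal_integral_eq_lintegral_ofReal]
  · congr 1
    rw [← intervalIntegral.integral_of_le hR, integral_id]; ring
  · exact (intervalIntegrable_iff_integrableOn_Ioc_of_le hR).1 (continuous_id.intervalIntegrable _ _)
  · filter_upwards [ae_restrict_mem measurableSet_Ioc] with x hx using hx.1.le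

lemma int_bound : ∫ y in (-Real.pi)..Real.pi, Rf y ^ 2 / 2 < Real.pi := by
  set q : ℝ → ℝ := fun y => (0.999996 ^ 2 + 9e-9) / 2 + 0.000999996 * Real.cos (3 * y) + 0.000005 * Real.cos (3 * y) ^ 2 with hq
  have h1 : ∀ y, Rf y ^ 2 / 2 ≤ q y := by
    intro y
    have h := abs_le.1 (Real.abs_cos_le_one (3 * y))
    simp only [hq, Rf, eps]
    set w := Real.cos (3 * y)
    norm_num
    have h2 : w ^ 2 ≤ 1 := by nlinarith
    have h3 : w ^ 3 ≤ 1 := by nlinarith
    have h4 : w ^ 4 ≤ w ^ 2 := by nlinarith [sq_nonneg w]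
    nlinarith
  have h2 : ∫ y in (-Real.pi)..Real.pi, Rf y ^ 2 / 2 ≤ ∫ y in (-Real.pi)..Real.pi, q y := by
    apply intervalIntegral.integral_mono (by linarith [Real.pi_pos])
    · exact ((Rf_continuous.pow 2).div_const 2).intervalIntegrable _ _
    · exact (by fun_prop : Continuous q).intervalIntegrable _ _
    · exact h1
  have h3 : ∫ y in (-Real.pi)..Real.pi, q y = 2 * Real.pi * ((0.999996 ^ 2 + 9e-9) / 2) + 0.000005 * Real.pi := by
    have hd : ∀ y ∈ uIcc (-Real.pi) Real.pi, HasDerivAt (fun y => (0.999996 ^ 2 + 9e-9) / 2 * y + 0.000999996 * (Real.sin (3 * y) / 3) 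
      + 0.000005 * (y / 2 + Real.sin (6 * y) / 12)) (q y) y := by
      intro y _
      have a1 : HasDerivAt (fun y : ℝ => 3 * y) 3 y := by simpa using (hasDerivAt_id y).const_mul 3
      have a2 : HasDerivAt (fun y : ℝ => 6 * y) 6 y := by simpa using (hasDerivAt_id y).const_mul 6
      have b1 := (a1.sin.div_const 3).const_mul 0.000999996
      have b2 := (((hasDerivAt_id y).div_const 2).add (a2.sin.div_const 12)).const_mul 0.000005
      have b0 := (hasDerivAt_id y).const_mul ((0.999996 ^ 2 + 9e-9) / 2 : ℝ)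
      have b3 := (b0.add b1).add b2
      refine b3.congr_deriv ?_
      have e6 : Real.cos (6 * y) = 2 * Real.cos (3 * y) ^ 2 - 1 := by
        rw [← Real.cos_two_mul]; congr 1; ring
      simp only [hq, e6]
      ring
    rw [intervalIntegral.integral_eq_sub_of_hasDerivAt hd ((by fun_prop : Continuous q).intervalIntegrable _ _)]
    have s3 : Real.sin (3 * Real.pi) = 0 := by simpa using Real.sin_nat_mul_pi 3
    have s6 : Real.sin (6 * Real.pi) = 0 := by simpa using Real.sin_nat_mul_pi 6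
    have s3' : Real.sin (3 * (-Real.pi)) = 0 := by rw [mul_neg, Real.sin_neg, s3, neg_zero]
    have s6' : Real.sin (6 * (-Real.pi)) = 0 := by rw [mul_neg, Real.sin_neg, s6, neg_zero]
    rw [s3, s6, s3', s6']
    ring
  rw [h3] at h2
  have hpi := Real.pi_pos
  have h4 : 2 * Real.pi * ((0.999996 ^ 2 + 9e-9) / 2) + 0.000005 * Real.pi < Real.pi := by
    have h5 : (0.999996 ^ 2 + 9e-9 : ℝ) + 0.000005 < 1 := by norm_num
    have h6 : 2 * Real.pi * ((0.999996 ^ 2 + 9e-9) / 2) + 0.000005 * Real.pi = ((0.999996 ^ 2 + 9e-9) + 0.000005) * Real.pi := by ring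
    rw [h6]
    calc ((0.999996 ^ 2 + 9e-9 : ℝ) + 0.000005) * Real.pi < 1 * Real.pi := mul_lt_mul_of_pos_right h5 hpi
      _ = Real.pi := one_mul _
  exact lt_of_le_of_lt h2 h4

/-- the measurable equivalence from the plane to `E 2` -/
noncomputable def eqv : ℝ × ℝ ≃ᵐ E 2 := (MeasurableEquiv.finTwoArrow (α := ℝ)).symm.trans (MeasurableEquiv.toLp 2 (Fin 2 → ℝ))

lemma eqv_apply (q : ℝ × ℝ) : eqv q = !₂[q.1, q.2] := by
  ext i; fin_cases i <;> simp [eqv]

lemma eqv_mp : MeasurePreserving eqv := by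
  have h1 : MeasurePreserving (MeasurableEquiv.toLp 2 (Fin 2 → ℝ)) := 
    (EuclideanSpace.volume_preserving_symm_measurableEquiv_toLp (Fin 2)).symm
  exact h1.comp ((volume_preserving_finTwoArrow ℝ).symm _)

theorem area_lt {A : Set (E 2)} (hA : MeasurableSet A) 
    (h : ∀ r φ : ℝ, 0 ≤ r → (!₂[r * Real.cos φ, r * Real.sin φ] : E 2) ∈ A → r ≤ Rf φ) : 
    volume A < ENNReal.ofReal Real.pi := by
  set B : Set (ℝ × ℝ) := eqv ⁻¹' A with hB
  have hBm : MeasurableSet B := eqv.measurable hA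
  have e1 : volume A = volume B := (eqv_mp.measure_preimage_equiv A).symm
  rw [e1, ← lintegral_indicator_one hBm, ← lintegral_comp_polarCoord_symm]
  have hDm : MeasurableSet {p : ℝ × ℝ | p.1 ≤ Rf p.2} := 
    (isClosed_le continuous_fst (Rf_continuous.comp continuous_snd)).measurableSet
  have step1 : ∫⁻ p in polarCoord.target, ENNReal.ofReal p.1 • B.indicator 1 (polarCoord.symm p) ≤ 
      ∫⁻ p in polarCoord.target, {p : ℝ × ℝ | p.1 ≤ Rf p.2}.indicator (fun p => ENNReal.ofReal p.1) p := by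
    apply setLIntegral_mono' polarCoord.open_target.measurableSet
    intro p hp
    by_cases hpB : polarCoord.symm p ∈ B
    · have h1 : p.1 ≤ Rf p.2 := by
        apply h _ _ (le_of_lt hp.1)
        have : eqv (polarCoord.symm p) ∈ A := hpB
        rw [eqv_apply] at this
        exact this
      rw [indicator_of_mem hpB, indicator_of_mem (show p ∈ {p : ℝ × ℝ | p.1 ≤ Rf p.2} from h1)]
      simp
    · rw [indicator_of_notMem hpB]
      simp
  refine lt_of_le_of_lt step1 ?_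
  have step2 : ∫⁻ p in polarCoord.target, {p : ℝ × ℝ | p.1 ≤ Rf p.2}.indicator (fun p => ENNReal.ofReal p.1) p = 
      ∫⁻ y in Ioo (-Real.pi) Real.pi, ENNReal.ofReal (Rf y ^ 2 / 2) := by
    have : (volume.restrict polarCoord.target : Measure (ℝ × ℝ)) = (volume.restrict (Ioi (0:ℝ))).prod (volume.restrict (Ioo (-Real.pi) Real.pi)) := by
      rw [Measure.prod_restrict]; rfl
    rw [this, lintegral_prod_symm']
    · apply lintegral_congr
      intro y
      rw [← inner_lint (Rf y) (Rf_pos y).le]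
      have e2 : ∀ x : ℝ, {p : ℝ × ℝ | p.1 ≤ Rf p.2}.indicator (fun p => ENNReal.ofReal p.1) (x, y) = 
        (Iic (Rf y)).indicator (fun x => ENNReal.ofReal x) x := by
        intro x
        by_cases hx : x ≤ Rf y
        · rw [indicator_of_mem (show (x, y) ∈ {p : ℝ × ℝ | p.1 ≤ Rf p.2} from hx), indicator_of_mem (show x ∈ Iic (Rf y) from hx)]
        · rw [indicator_of_notMem (show (x, y) ∉ {p : ℝ × ℝ | p.1 ≤ Rf p.2} from hx), indicator_of_notMem (show x ∉ Iic (Rf y) from hx)]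
      simp only [e2]
      rw [lintegral_indicator measurableSet_Iic, Measure.restrict_restrict measurableSet_Iic, inter_comm, Ioi_inter_Iic]
    · exact (Measurable.indicator (by fun_prop) hDm)
  rw [step2]
  have hle : -Real.pi ≤ Real.pi := by linarith [Real.pi_pos]
  have step3 : ∫⁻ y in Ioo (-Real.pi) Real.pi, ENNReal.ofReal (Rf y ^ 2 / 2) ≤ ENNReal.ofReal (∫ y in (-Real.pi)..Real.pi, Rf y ^ 2 / 2) := by
    rw [intervalIntegral.integral_of_le hle, ofReal_integral_eq_lintegral_ofReal]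
    · exact lintegral_mono_set Ioo_subset_Ioc_self
    · exact (intervalIntegrable_iff_integrableOn_Ioc_of_le hle).1 
        (((Rf_continuous.pow 2).div_const 2).intervalIntegrable _ _)
    · exact Filter.Eventually.of_forall fun y => by positivity
  exact lt_of_le_of_lt step3 ((ENNReal.ofReal_lt_ofReal_iff Real.pi_pos).2 int_bound)

end Pool.Agent.Helper104.GirthVol
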