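import Mathlib
import Pool.Agent.Helper104.GirthBright

open MeasureTheory Set Filter Topology
open scoped RealInnerProductSpace ENNReal NNReal Pointwise

namespace Pool.Agent.Helper104.GirthVol
open GirthPoly (eps exists_seq)

lemma bd_convex (h : E 5 → ℝ) : Convex ℝ (bd h) := by
  intro x hx y hy a b ha hb hab z
  rw [inner_add_left, inner_smul_left, inner_smul_left]
  simp only [conj_trivial]
  calc a * ⟪x, z⟫ + b * ⟪y, z⟫ ≤ a * h z + b * h z := by
        gcongr
        · exact hx z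
        · exact hy z
    _ = h z := by rw [← add_mul, hab, one_mul]

lemma bd_closed (h : E 5 → ℝ) : IsClosed (bd h) := by
  have : bd h = ⋂ y, {x | ⟪x, y⟫ ≤ h y} := by ext x; simp [bd]
  rw [this]
  exact isClosed_iInter fun y => isClosed_le (by fun_prop) continuous_const

/-- Steiner coefficients of the interpolating polynomial -/
noncomputable def coef (v : ℕ → ℝ) : ℕ → ℝ
  | 0 => v 0
  | 1 => -25/12 * v 0 + 4 * v 1 - 3 * v 2 + 4/3 * v 3 - 1/4 * v 4
  | 2 => L2 v
  | 3 => -10/24 * v 0 + 9/6 * v 1 - 8/4 * v 2 + 7/6 * v 3 - 6/24 * v 4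
  | 4 => 1/24 * v 0 - 1/6 * v 1 + 1/4 * v 2 - 1/6 * v 3 + 1/24 * v 4
  | _ => 0

lemma interp_coef (v : ℕ → ℝ) (s : ℝ) : interp v s = ∑ k ∈ Finset.range 5, coef v k * s ^ k := by
  simp only [Finset.sum_range_succ, Finset.sum_range_zero, coef, interp, L2]
  ring

theorem main_body : ∃ K : Set (E 5), Convex ℝ K ∧ IsCompact K ∧ (interior K).Nonempty ∧ 
    (∃ c : ℝ, ∀ ι : E 4 →ₗᵢ[ℝ] E 5, ∃ a : ℕ → ℝ, 
      (∀ s, 0 ≤ s → (volume (ad ι '' K + Metric.closedBall (0 : E 4) s)).toReal = ∑ k ∈ Finset.range 5, a k * s ^ k) ∧ a 2 = c) ∧ 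
    volume (ad ι1 '' K) < volume (ad ι0 '' K) := by
  obtain ⟨p, Hinf, c, cinf, δ, η, hδ, hη, hc, hH, hN, hb, hP, hup⟩ := exists_seq
  set h : E 5 → ℝ := fun y => ‖y‖ * Hinf (tt y) with hh
  have hcpt : IsCompact (bd h) := 
    Metric.isCompact_of_isClosed_isBounded (bd_closed h) 
      (Metric.isBounded_closedBall.subset (bd_bounded (hinf_bound hH hb)))
  refine ⟨bd h, bd_convex h, hcpt, ?_, ⟨cinf * C4, fun ι => ?_⟩, ?_⟩
  · have hev : ∀ᶠ j in atTop, δ j < 1 / 4 := hδ.eventually_lt_const (by norm_num)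
    obtain ⟨j, hj⟩ := hev.exists
    have hsub : Metric.ball (0 : E 5) (1 / 4) ⊆ bd h := by
      intro x hx y
      rw [mem_ball_zero_iff] at hx
      have h1 := abs_le.1 (hH j _ (abs_tt_le y))
      have h2 := (hb j _ (abs_tt_le y)).1
      have h3 : 1 / 4 ≤ Hinf (tt y) := by linarith
      calc ⟪x, y⟫ ≤ ‖x‖ * ‖y‖ := real_inner_le_norm x y
        _ ≤ 1 / 4 * ‖y‖ := by gcongr
        _ ≤ ‖y‖ * Hinf (tt y) := by nlinarith [norm_nonneg y]
    exact ⟨0, mem_interior.2 ⟨_, hsub, Metric.isOpen_ball, Metric.mem_ball_self (by norm_num)⟩⟩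
  · have hl := limit_body hδ hH hb hη hc hN ι
    refine ⟨coef (fun n => Vol h ι n), fun s hs => ?_, hl.2⟩
    rw [← interp_coef]
    exact hl.1 s hs
  · have h1 : volume (ad ι1 '' bd h) < ENNReal.ofReal Real.pi := by
      apply area_lt (hcpt.image (ad ι1).continuous).measurableSet
      intro r φ hr hz
      exact support_radial hup r φ hr hz
    have h2 : ENNReal.ofReal Real.pi ≤ volume (ad ι0 '' bd h) := by
      have h3 := measure_mono (μ := volume) (ball_subset_limit hδ hH hb (fun j => (hP j).1))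
      rw [EuclideanSpace.volume_ball_fin_two] at h3
      simpa using h3
    exact lt_of_lt_of_le h1 h2

end Pool.Agent.Helper104.GirthVol
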