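import Mathlib

set_option autoImplicit false
open scoped ContDiff Manifold Topology
open Filter Metric

noncomputable section
namespace Pool.Agent.Helper775.Hairy

theorem exists_lift (P : ℝ × ℝ → ℂ) (hP : Continuous P) (h0 : ∀ p, P p ≠ 0) :
    ∃ Θ : ℝ × ℝ → ℝ, Continuous Θ ∧ ∀ p, P p = (‖P p‖ : ℂ) * Complex.exp (Θ p * Complex.I) := by
  have hnorm : ∀ p, ‖P p / (‖P p‖ : ℂ)‖ = 1 := by
    intro p
    rw [norm_div, Complex.norm_real, norm_norm]
    exact div_self (norm_ne_zero_iff.2 (h0 p))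
  let U : C(ℝ × ℝ, Circle) :=
    ⟨fun p => ⟨P p / (‖P p‖ : ℂ), mem_sphere_zero_iff_norm.2 (hnorm p)⟩, by
      apply Continuous.subtype_mk
      apply Continuous.div hP
      · exact Complex.continuous_ofReal.comp hP.norm
      · intro p
        exact_mod_cast norm_ne_zero_iff.2 (h0 p)⟩
  obtain ⟨e0, he0⟩ : ∃ e0 : ℝ, Circle.exp e0 = U (0, 0) :=
    ⟨Complex.arg (U (0, 0)), Circle.exp_arg (U (0, 0))⟩
  obtain ⟨Θ, ⟨_, hΘ⟩, _⟩ :=
    Circle.isCoveringMap_exp.existsUnique_continuousMap_lifts U (0, 0) e0 he0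
  refine ⟨Θ, Θ.continuous, fun p => ?_⟩
  have h1 : Circle.exp (Θ p) = U p := congrFun hΘ p
  have h2 : Complex.exp ((Θ p : ℝ) * Complex.I) = P p / (‖P p‖ : ℂ) := by
    have h4 : ((Circle.exp (Θ p) : Circle) : ℂ) = ((U p : Circle) : ℂ) := congrArg _ h1
    rw [Circle.coe_exp] at h4
    exact h4
  rw [h2, mul_div_cancel₀]
  exact_mod_cast norm_ne_zero_iff.2 (h0 p)

theorem const_of_exp {X : Type} [TopologicalSpace X] [PreconnectedSpace X] {h : X → ℝ}
    (hh : Continuous h) (he : ∀ x, Complex.exp (h x * Complex.I) = 1) (x y : X) : h x = h y := by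
  have h1 : ∀ x, ∃ n : ℤ, h x / (2 * Real.pi) = n := by
    intro x
    obtain ⟨n, hn⟩ := Complex.exp_eq_one_iff.mp (he x)
    refine ⟨n, ?_⟩
    have h2 : (h x : ℂ) = n * (2 * Real.pi) := by
      have := mul_right_cancel₀ Complex.I_ne_zero (hn.trans (mul_assoc _ _ _).symm)
      exact this
    have h3 : h x = n * (2 * Real.pi) := by exact_mod_cast h2
    rw [h3]
    field_simp
  choose n hn using h1
  have hc : Continuous n := by
    rw [Int.isClosedEmbedding_coe_real.continuous_iff]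
    have : ((↑) : ℤ → ℝ) ∘ n = fun x => h x / (2 * Real.pi) := by
      funext x
      exact (hn x).symm
    rw [this]
    exact hh.div_const _
  have := PreconnectedSpace.constant (inferInstance : PreconnectedSpace X) hc (x := x) (y := y)
  have h3 : h x / (2 * Real.pi) = h y / (2 * Real.pi) := by rw [hn, hn, this]
  have hpi : (2 * Real.pi) ≠ 0 := by positivity
  field_simp at h3
  exact h3

/-- exponentials of two angles of the same number -/
theorem exp_sub_eq_one {z : ℂ} {a b : ℝ} (hz : z ≠ 0)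
    (ha : z = (‖z‖ : ℂ) * Complex.exp (a * Complex.I))
    (hb : z = (‖z‖ : ℂ) * Complex.exp (b * Complex.I)) :
    Complex.exp (((a - b : ℝ) : ℂ) * Complex.I) = 1 := by
  have hn : (‖z‖ : ℂ) ≠ 0 := by exact_mod_cast norm_ne_zero_iff.mpr hz
  have h : Complex.exp (a * Complex.I) = Complex.exp (b * Complex.I) :=
    mul_left_cancel₀ hn (ha.symm.trans hb)
  rw [Complex.ofReal_sub, sub_mul, Complex.exp_sub, h, div_self (Complex.exp_ne_zero _)]

abbrev E3 := EuclideanSpace ℝ (Fin 3)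

/-- polar coordinates on the sphere -/
def pt (p : ℝ × ℝ) : sphere (0 : E3) 1 :=
  ⟨!₂[Real.cos p.1 * Real.cos p.2, Real.cos p.1 * Real.sin p.2, Real.sin p.1], by
    rw [mem_sphere_zero_iff_norm, EuclideanSpace.norm_eq, Real.sqrt_eq_one]
    simp [Fin.sum_univ_three]
    have h1 := Real.sin_sq_add_cos_sq p.1
    have h2 := Real.sin_sq_add_cos_sq p.2
    nlinarith [h1, h2]⟩

theorem continuous_pt : Continuous pt := by
  apply Continuous.subtype_mk
  apply (PiLp.continuous_toLp 2 _).comp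
  apply continuous_pi
  intro i
  fin_cases i <;> simp <;> fun_prop

theorem pt0 (p : ℝ × ℝ) : (pt p : E3) 0 = Real.cos p.1 * Real.cos p.2 := rfl
theorem pt1 (p : ℝ × ℝ) : (pt p : E3) 1 = Real.cos p.1 * Real.sin p.2 := rfl
theorem pt2 (p : ℝ × ℝ) : (pt p : E3) 2 = Real.sin p.1 := rfl

theorem algA {C S c s g0 g1 g2 : ℝ} (h2 : S ^ 2 + C ^ 2 = 1) (h3 : s ^ 2 + c ^ 2 = 1)
    (hS : 1 + S ≠ 0) (ht : C * c * g0 + C * s * g1 + S * g2 = 0)
    (e0 : g0 - g2 * (C * c) / (1 + S) = 0) (e1 : g1 - g2 * (C * s) / (1 + S) = 0) :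
    g0 = 0 ∧ g1 = 0 ∧ g2 = 0 := by
  have a0 : g0 = g2 * (C * c) / (1 + S) := by linarith
  have a1 : g1 = g2 * (C * s) / (1 + S) := by linarith
  have h : g2 = 0 := by
    rw [a0, a1] at ht
    field_simp at ht
    have : g2 * (1 + S) = 0 := by
      have h5 : C ^ 2 = 1 - S ^ 2 := by linarith
      have h6 : c ^ 2 + s ^ 2 = 1 := by linarith
      rw [h6, h5] at ht
      linear_combination ht
    rcases mul_eq_zero.mp this with h | h
    · exact h
    · exact absurd h hS
  refine ⟨?_, ?_, h⟩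
  · rw [a0, h]; simp
  · rw [a1, h]; simp

theorem algB {C S c s g0 g1 g2 : ℝ} (h2 : S ^ 2 + C ^ 2 = 1) (h3 : s ^ 2 + c ^ 2 = 1)
    (hS : 1 + S ≠ 0) (ht : C * c * g0 + C * s * g1 - S * g2 = 0)
    (e0 : g0 + g2 * (C * c) / (1 + S) = 0) (e1 : g1 + g2 * (C * s) / (1 + S) = 0) :
    g0 = 0 ∧ g1 = 0 ∧ g2 = 0 := by
  have := algA (g0 := g0) (g1 := g1) (g2 := -g2) h2 h3 hS (by linarith) (by rw [← e0]; ring)
    (by rw [← e1]; ring)
  exact ⟨this.1, this.2.1, neg_eq_zero.mp this.2.2⟩

theorem algP {c s g0 g1 g2 : ℝ} (h3 : s ^ 2 + c ^ 2 = 1) (ht : c * g0 + s * g1 = 0) :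
    (((g0 - g2 * c : ℝ) : ℂ) + ((g1 - g2 * s : ℝ) : ℂ) * Complex.I) *
      (((g0 + g2 * c : ℝ) : ℂ) + ((g1 + g2 * s : ℝ) : ℂ) * Complex.I) =
    (((g1 * c - g0 * s) ^ 2 + g2 ^ 2 : ℝ) : ℂ) * -(((c ^ 2 - s ^ 2 : ℝ) : ℂ) +
      ((2 * c * s : ℝ) : ℂ) * Complex.I) := by
  have a0 : g0 = -(g1 * c - g0 * s) * s := by linear_combination (-g0) * h3 + c * ht
  have a1 : g1 = (g1 * c - g0 * s) * c := by linear_combination (-g1) * h3 + s * ht
  set a := g1 * c - g0 * s
  rw [a0, a1]
  push_cast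
  linear_combination ((a : ℂ) ^ 2 * (c : ℂ) ^ 2 - (g2 : ℂ) ^ 2 * (s : ℂ) ^ 2) * Complex.I_sq

/-- the hairy ball theorem for the two-sphere -/
theorem hairy (G : sphere (0 : E3) 1 → E3) (hG : Continuous G) (hne : ∀ x, G x ≠ 0)
    (htan : ∀ x : sphere (0 : E3) 1, inner ℝ (x : E3) (G x) = 0) : False := by
  have hcoord : ∀ i, Continuous fun p : ℝ × ℝ => G (pt p) i := by
    intro i
    have h1 : Continuous fun p : ℝ × ℝ => G (pt p) := hG.comp continuous_pt
    exact (PiLp.continuous_apply 2 _ i).comp h1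
  have ht : ∀ p : ℝ × ℝ, Real.cos p.1 * Real.cos p.2 * G (pt p) 0 +
      Real.cos p.1 * Real.sin p.2 * G (pt p) 1 + Real.sin p.1 * G (pt p) 2 = 0 := by
    intro p
    have := htan (pt p)
    rw [PiLp.inner_apply, Fin.sum_univ_three, pt0, pt1, pt2] at this
    simp at this
    linarith
  have hz : ∀ p : ℝ × ℝ, G (pt p) 0 = 0 ∧ G (pt p) 1 = 0 ∧ G (pt p) 2 = 0 → False := by
    rintro p ⟨h0, h1, h2⟩
    apply hne (pt p)
    ext i
    fin_cases i
    · exact h0
    · exact h1
    · exact h2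
  let cl : ℝ → ℝ := fun a => max 0 (min a (Real.pi / 2))
  have hcl : Continuous cl := by fun_prop
  have hcl0 : ∀ a, 0 ≤ cl a := fun a => le_max_left _ _
  have hcl1 : ∀ a, cl a ≤ Real.pi / 2 := fun a =>
    max_le (by positivity) (min_le_right _ _)
  have hsin : ∀ a, 0 ≤ Real.sin (cl a) := fun a =>
    Real.sin_nonneg_of_nonneg_of_le_pi (hcl0 a) ((hcl1 a).trans (by linarith [Real.pi_pos]))
  let q : ℝ × ℝ → ℝ × ℝ := fun p => (cl p.1, p.2)
  let q' : ℝ × ℝ → ℝ × ℝ := fun p => (- cl p.1, p.2)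
  have hq : Continuous q := by fun_prop
  have hq' : Continuous q' := by fun_prop
  let A : ℝ × ℝ → ℂ := fun p =>
    ((G (pt (q p)) 0 - G (pt (q p)) 2 * (Real.cos (cl p.1) * Real.cos p.2) /
      (1 + Real.sin (cl p.1)) : ℝ) : ℂ) +
    ((G (pt (q p)) 1 - G (pt (q p)) 2 * (Real.cos (cl p.1) * Real.sin p.2) /
      (1 + Real.sin (cl p.1)) : ℝ) : ℂ) * Complex.I
  let B : ℝ × ℝ → ℂ := fun p =>
    ((G (pt (q' p)) 0 + G (pt (q' p)) 2 * (Real.cos (cl p.1) * Real.cos p.2) /
      (1 + Real.sin (cl p.1)) : ℝ) : ℂ) +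
    ((G (pt (q' p)) 1 + G (pt (q' p)) 2 * (Real.cos (cl p.1) * Real.sin p.2) /
      (1 + Real.sin (cl p.1)) : ℝ) : ℂ) * Complex.I
  have hsin' : ∀ p : ℝ × ℝ, 1 + Real.sin (cl p.1) ≠ 0 := fun p => by
    have := hsin p.1
    positivity
  have hA : Continuous A := by
    have c0 : Continuous fun p => G (pt (q p)) 0 := (hcoord 0).comp hq
    have c1 : Continuous fun p => G (pt (q p)) 1 := (hcoord 1).comp hq
    have c2 : Continuous fun p => G (pt (q p)) 2 := (hcoord 2).comp hq
    have d1 : Continuous fun p : ℝ × ℝ => Real.cos (cl p.1) := by fun_prop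
    have d2 : Continuous fun p : ℝ × ℝ => 1 + Real.sin (cl p.1) := by fun_prop
    exact (Complex.continuous_ofReal.comp (c0.sub ((c2.mul (d1.mul (by fun_prop))).div d2 hsin'))).add
      ((Complex.continuous_ofReal.comp
        (c1.sub ((c2.mul (d1.mul (by fun_prop))).div d2 hsin'))).mul continuous_const)
  have hB : Continuous B := by
    have c0 : Continuous fun p => G (pt (q' p)) 0 := (hcoord 0).comp hq'
    have c1 : Continuous fun p => G (pt (q' p)) 1 := (hcoord 1).comp hq'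
    have c2 : Continuous fun p => G (pt (q' p)) 2 := (hcoord 2).comp hq'
    have d1 : Continuous fun p : ℝ × ℝ => Real.cos (cl p.1) := by fun_prop
    have d2 : Continuous fun p : ℝ × ℝ => 1 + Real.sin (cl p.1) := by fun_prop
    exact (Complex.continuous_ofReal.comp (c0.add ((c2.mul (d1.mul (by fun_prop))).div d2 hsin'))).add
      ((Complex.continuous_ofReal.comp
        (c1.add ((c2.mul (d1.mul (by fun_prop))).div d2 hsin'))).mul continuous_const)
  have hA0 : ∀ p, A p ≠ 0 := by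
    intro p h
    have hre := congrArg Complex.re h
    have him := congrArg Complex.im h
    simp only [A, Complex.add_re, Complex.ofReal_re, Complex.mul_re, Complex.I_re, mul_zero,
      Complex.ofReal_im, Complex.I_im, mul_one, sub_self, add_zero, Complex.zero_re,
      Complex.add_im, Complex.mul_im, zero_add, Complex.zero_im] at hre him
    exact hz (q p) (algA (Real.sin_sq_add_cos_sq (cl p.1)) (Real.sin_sq_add_cos_sq p.2) (hsin' p)
      (ht (q p)) hre him)
  have hB0 : ∀ p, B p ≠ 0 := by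
    intro p h
    have hre := congrArg Complex.re h
    have him := congrArg Complex.im h
    simp only [B, Complex.add_re, Complex.ofReal_re, Complex.mul_re, Complex.I_re, mul_zero,
      Complex.ofReal_im, Complex.I_im, mul_one, sub_self, add_zero, Complex.zero_re,
      Complex.add_im, Complex.mul_im, zero_add, Complex.zero_im] at hre him
    have h1 := ht (q' p)
    simp only [q', Real.cos_neg, Real.sin_neg] at h1
    exact hz (q' p) (algB (Real.sin_sq_add_cos_sq (cl p.1)) (Real.sin_sq_add_cos_sq p.2) (hsin' p)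
      (by simp only [q']; linarith) hre him)
  obtain ⟨Θ, hΘ, hP⟩ := exists_lift (fun p => A p * B p) (hA.mul hB)
    (fun p => mul_ne_zero (hA0 p) (hB0 p))
  have hne' : ∀ p, A p * B p ≠ 0 := fun p => mul_ne_zero (hA0 p) (hB0 p)
  -- at the pole
  have cpi : cl (Real.pi / 2) = Real.pi / 2 := by
    simp only [cl, min_self]
    exact max_eq_right (by positivity)
  have c0 : cl 0 = 0 := by
    simp only [cl]
    rw [min_eq_left (by positivity), max_self]
  have pole : ∀ θ, A (Real.pi / 2, θ) * B (Real.pi / 2, θ) =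
      A (Real.pi / 2, 0) * B (Real.pi / 2, 0) := by
    intro θ
    have e1 : pt (q (Real.pi / 2, θ)) = pt (q (Real.pi / 2, 0)) := by
      apply Subtype.ext
      ext i
      fin_cases i <;> simp [pt, q, cpi]
    have e2 : pt (q' (Real.pi / 2, θ)) = pt (q' (Real.pi / 2, 0)) := by
      apply Subtype.ext
      ext i
      fin_cases i <;> simp [pt, q', cpi]
    simp only [A, B, e1, e2, cpi, Real.cos_pi_div_two, zero_mul, mul_zero, zero_div, sub_zero]
  have j1 : Θ (Real.pi / 2, 2 * Real.pi) = Θ (Real.pi / 2, 0) := by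
    have := const_of_exp (X := ℝ) (h := fun θ => Θ (Real.pi / 2, θ) - Θ (Real.pi / 2, 0))
      (by fun_prop) (fun θ => by
        have h1 := hP (Real.pi / 2, θ)
        have h2 := hP (Real.pi / 2, 0)
        rw [pole] at h1
        exact exp_sub_eq_one (hne' _) h1 h2) (2 * Real.pi) 0
    simp only [sub_self, sub_eq_zero] at this
    exact this
  have per : ∀ a, A (a, 2 * Real.pi) * B (a, 2 * Real.pi) = A (a, 0) * B (a, 0) := by
    intro a
    have e1 : pt (q (a, 2 * Real.pi)) = pt (q (a, 0)) := by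
      apply Subtype.ext
      ext i
      fin_cases i <;> simp [pt, q]
    have e2 : pt (q' (a, 2 * Real.pi)) = pt (q' (a, 0)) := by
      apply Subtype.ext
      ext i
      fin_cases i <;> simp [pt, q']
    simp only [A, B, e1, e2, Real.cos_two_pi, Real.sin_two_pi, Real.cos_zero, Real.sin_zero]
  have j2 : Θ (0, 2 * Real.pi) - Θ (0, 0) = Θ (Real.pi / 2, 2 * Real.pi) - Θ (Real.pi / 2, 0) :=
    const_of_exp (X := ℝ) (h := fun a => Θ (a, 2 * Real.pi) - Θ (a, 0))
      (by fun_prop) (fun a => by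
        have h1 := hP (a, 2 * Real.pi)
        have h2 := hP (a, 0)
        rw [per] at h1
        exact exp_sub_eq_one (hne' _) h1 h2) 0 (Real.pi / 2)
  -- at the equator
  have equ : ∀ θ : ℝ, ∃ r : ℝ, 0 < r ∧ A (0, θ) * B (0, θ) =
      (r : ℂ) * Complex.exp (((2 * θ + Real.pi : ℝ) : ℂ) * Complex.I) := by
    intro θ
    have e0 : q (0, θ) = (0, θ) := by simp only [q, c0]
    have e1 : q' (0, θ) = (0, θ) := by simp only [q', c0, neg_zero]
    have h1 := ht (0, θ)
    simp only [Real.cos_zero, Real.sin_zero, one_mul, zero_mul, add_zero] at h1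
    have h2 := algP (g2 := G (pt (0, θ)) 2) (Real.sin_sq_add_cos_sq θ) h1
    refine ⟨(G (pt (0, θ)) 1 * Real.cos θ - G (pt (0, θ)) 0 * Real.sin θ) ^ 2 +
      G (pt (0, θ)) 2 ^ 2, ?_, ?_⟩
    · rcases eq_or_ne (G (pt (0, θ)) 2) 0 with h | h
      · have : G (pt (0, θ)) 1 * Real.cos θ - G (pt (0, θ)) 0 * Real.sin θ ≠ 0 := by
          intro h3
          have h4 := Real.sin_sq_add_cos_sq θ
          have h5 : G (pt (0, θ)) 0 = 0 := by
            linear_combination (-(G (pt (0, θ)) 0)) * h4 + Real.cos θ * h1 - Real.sin θ * h3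
          have h6 : G (pt (0, θ)) 1 = 0 := by
            linear_combination (-(G (pt (0, θ)) 1)) * h4 + Real.sin θ * h1 + Real.cos θ * h3
          exact hz (0, θ) ⟨h5, h6, h⟩
        positivity
      · positivity
    · simp only [A, B, e0, e1, c0, Real.cos_zero, Real.sin_zero, one_mul, add_zero, div_one]
      rw [h2]
      congr 1
      rw [Complex.ofReal_add, add_mul, Complex.exp_add, Complex.exp_pi_mul_I, Complex.exp_mul_I,
        ← Complex.ofReal_cos, ← Complex.ofReal_sin, Real.cos_two_mul', Real.sin_two_mul]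
      push_cast
      ring
  have j3 : Θ (0, 2 * Real.pi) - (2 * (2 * Real.pi) + Real.pi) = Θ (0, 0) - (2 * 0 + Real.pi) :=
    const_of_exp (X := ℝ) (h := fun θ => Θ (0, θ) - (2 * θ + Real.pi))
      (by fun_prop) (fun θ => by
        obtain ⟨r, hr, h2⟩ := equ θ
        have h1 := hP (0, θ)
        have h3 : ‖A (0, θ) * B (0, θ)‖ = r := by
          rw [h2, norm_mul, Complex.norm_real, Complex.norm_exp_ofReal_mul_I, mul_one,
            Real.norm_of_nonneg hr.le]
        refine exp_sub_eq_one (hne' (0, θ)) h1 ?_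
        rw [h3]
        exact h2) (2 * Real.pi) 0
  have := Real.pi_pos
  linarith

end Pool.Agent.Helper775.Hairy
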