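import Mathlib

open MeasureTheory Set Filter Topology
open scoped RealInnerProductSpace

namespace Pool.Agent.Helper104.TrSec

variable {V : Type} [NormedAddCommGroup V] [InnerProductSpace ℝ V]

/-- A continuous positively homogeneous function, positive away from the origin. -/
structure Gauge (V : Type) [NormedAddCommGroup V] [InnerProductSpace ℝ V] where
  g : V → ℝ
  cont : Continuous g
  homog : ∀ t : ℝ, 0 ≤ t → ∀ y, g (t • y) = t * g y
  pos : ∀ y, y ≠ 0 → 0 < g y

namespace Gauge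

variable (G : Gauge V)

lemma zero : G.g 0 = 0 := by
  have := G.homog 0 le_rfl 0
  simpa using this

lemma nonneg (y : V) : 0 ≤ G.g y := by
  by_cases h : y = 0
  · rw [h, G.zero]
  · exact (G.pos y h).le

lemma eq_zero {y : V} (h : G.g y = 0) : y = 0 := by
  by_contra h'
  exact (G.pos y h').ne' h

variable [FiniteDimensional ℝ V]

lemma exists_bounds : ∃ c C : ℝ, 0 < c ∧ 0 < C ∧ ∀ y, c * ‖y‖ ≤ G.g y ∧ G.g y ≤ C * ‖y‖ := by
  by_cases hne : (Metric.sphere (0 : V) 1).Nonempty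
  · have hcpt : IsCompact (Metric.sphere (0 : V) 1) := isCompact_sphere 0 1
    obtain ⟨a, ha, hamin⟩ := hcpt.exists_isMinOn hne G.cont.continuousOn
    obtain ⟨b, hb, hbmax⟩ := hcpt.exists_isMaxOn hne G.cont.continuousOn
    have ha0 : a ≠ 0 := by
      rintro rfl
      simp at ha
    have hb0 : b ≠ 0 := by
      rintro rfl
      simp at hb
    refine ⟨G.g a, G.g b, G.pos a ha0, G.pos b hb0, fun y => ?_⟩
    by_cases hy : y = 0
    · subst hy; simp [G.zero]
    · have hn : 0 < ‖y‖ := norm_pos_iff.2 hy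
      have hy1 : ‖y‖⁻¹ • y ∈ Metric.sphere (0 : V) 1 := by
        rw [mem_sphere_zero_iff_norm, norm_smul, norm_inv, norm_norm, inv_mul_cancel₀ hn.ne']
      have h1 : G.g y = ‖y‖ * G.g (‖y‖⁻¹ • y) := by
        rw [← G.homog _ hn.le, smul_smul, mul_inv_cancel₀ hn.ne', one_smul]
      rw [h1]
      have h2 : G.g a ≤ G.g (‖y‖⁻¹ • y) := hamin hy1
      have h3 : G.g (‖y‖⁻¹ • y) ≤ G.g b := hbmax hy1
      constructor <;> nlinarith
  · refine ⟨1, 1, one_pos, one_pos, fun y => ?_⟩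
    have : y = 0 := by
      by_contra hy
      apply hne
      refine ⟨‖y‖⁻¹ • y, ?_⟩
      have hn : 0 < ‖y‖ := norm_pos_iff.2 hy
      rw [mem_sphere_zero_iff_norm, norm_smul, norm_inv, norm_norm, inv_mul_cancel₀ hn.ne']
    subst this
    simp [G.zero]

end Gauge

/-- On the hyperplane orthogonal to `u`, the body of `G` is the body of `H` translated by `x`. -/
def Tr (G H : Gauge V) (u x : V) : Prop :=
  ⟪u, x⟫ = 0 ∧ ∀ y, ⟪u, y⟫ = 0 → (H.g y ≤ 1 ↔ G.g (y + x) ≤ 1)

section tr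

variable {G H : Gauge V} {u x : V}

lemma Tr.symm (h : Tr G H u x) : Tr H G u (-x) := by
  refine ⟨by rw [inner_neg_right, h.1, neg_zero], fun y hy => ?_⟩
  have := h.2 (y + -x) (by rw [inner_add_right, inner_neg_right, h.1, hy]; simp)
  rw [neg_add_cancel_right] at this
  exact this.symm

lemma Tr.scale (h : Tr G H u x) {t : ℝ} (ht : 0 < t) {y : V} (hy : ⟪u, y⟫ = 0) : 
    H.g y ≤ t ↔ G.g (y + t • x) ≤ t := by
  have h1 := h.2 (t⁻¹ • y) (by rw [inner_smul_right, hy, mul_zero])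
  rw [H.homog _ (inv_nonneg.2 ht.le), inv_mul_le_iff₀ ht, mul_one] at h1
  rw [h1]
  have h2 : y + t • x = t • (t⁻¹ • y + x) := by
    rw [smul_add, smul_smul, mul_inv_cancel₀ ht.ne', one_smul]
  rw [h2, G.homog _ ht.le]
  constructor
  · intro h3
    calc t * G.g (t⁻¹ • y + x) ≤ t * 1 := by gcongr
      _ = t := mul_one t
  · intro h3
    by_contra h4
    push Not at h4
    nlinarith

/-- E1 -/
lemma Tr.eq (h : Tr G H u x) {y : V} (hy : ⟪u, y⟫ = 0) : G.g (y + H.g y • x) = H.g y := by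
  by_cases hy0 : y = 0
  · subst hy0; simp [H.zero, G.zero]
  have hpos := H.pos y hy0
  apply le_antisymm
  · exact (h.scale hpos hy).1 le_rfl
  · by_contra hlt
    push Not at hlt
    -- by continuity G (y + t x) < t for some t < H y
    have hc : Continuous fun t : ℝ => t - G.g (y + t • x) := by
      have := G.cont
      fun_prop
    have hev : ∀ᶠ t in 𝓝 (H.g y), 0 < t - G.g (y + t • x) := by
      apply hc.continuousAt.eventually_const_lt
      linarith
    have hev2 : ∀ᶠ t in 𝓝[<] (H.g y), 0 < t - G.g (y + t • x) := hev.filter_mono nhdsWithin_le_nhds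
    have hev3 : ∀ᶠ t in 𝓝[<] (H.g y), t ∈ Ioo 0 (H.g y) := Ioo_mem_nhdsLT hpos
    obtain ⟨t, ht1, ht2⟩ := (hev2.and hev3).exists
    have := (h.scale ht2.1 hy).2 (by linarith)
    linarith [ht2.2]

/-- G1 -/
lemma Tr.star (h : Tr G H u x) {y : V} (hy : ⟪u, y⟫ = 0) {s : ℝ} (hs : 0 ≤ s) : 
    G.g (y + s • x) ≤ G.g y + s := by
  -- H (y - G y x) = G y
  have h1 := h.symm.eq hy
  set t := G.g y with ht
  have ht0 : 0 ≤ t := G.nonneg y
  rcases eq_or_lt_of_le ht0 with h0 | h0
  · have hy0 : y = 0 := G.eq_zero (by rw [← ht, ← h0])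
    subst hy0
    rw [zero_add, ← h0, zero_add, G.homog _ hs]
    have h2 : G.g x ≤ 1 := by
      have := (h.2 0 (by simp)).1 (by rw [H.zero]; exact zero_le_one)
      simpa using this
    calc s * G.g x ≤ s * 1 := by gcongr
      _ = s := mul_one s
  · have h2 : H.g (y + t • -x) ≤ t + s := by rw [h1]; linarith
    have h3 := (h.scale (by linarith : 0 < t + s) (y := y + t • -x) 
      (by rw [inner_add_right, inner_smul_right, inner_neg_right, h.1, hy]; simp)).1 h2
    have h4 : y + t • -x + (t + s) • x = y + s • x := by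
      rw [add_smul, smul_neg]; abel
    rwa [h4] at h3

lemma Tr.le_one (h : Tr G H u x) : G.g x ≤ 1 := by
  have := (h.2 0 (by simp)).1 (by rw [H.zero]; exact zero_le_one)
  simpa using this

lemma Tr.smul (h : Tr G H u x) {c : ℝ} (hc : c ≠ 0) : Tr G H (c • u) x := by
  refine ⟨by rw [inner_smul_left, h.1, mul_zero], fun y hy => h.2 y ?_⟩
  rw [inner_smul_left] at hy
  simpa [hc] using hy

lemma Tr.unique (h : Tr G H u x) {x' : V} (h' : Tr G H u x') [FiniteDimensional ℝ V] : x = x' := by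
  by_contra hne
  set d := x' - x with hd
  have hd0 : d ≠ 0 := by rw [hd, sub_ne_zero]; exact Ne.symm hne
  have hud : ⟪u, d⟫ = 0 := by rw [hd, inner_sub_right, h.1, h'.1, sub_zero]
  -- K_S invariant by d
  have hstep : ∀ n : ℕ, G.g (x + (n : ℝ) • d) ≤ 1 := by
    intro n
    induction n with
    | zero => simpa using h.le_one
    | succ n ih =>
      have hu1 : ⟪u, (n : ℝ) • d⟫ = 0 := by rw [inner_smul_right, hud, mul_zero]
      have h1 := (h.2 ((n : ℝ) • d) hu1).2 (by rw [add_comm]; exact ih)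
      have h2 := (h'.2 ((n : ℝ) • d) hu1).1 h1
      have h3 : x + ((n + 1 : ℕ) : ℝ) • d = (n : ℝ) • d + x' := by
        push_cast
        rw [add_smul, one_smul, hd]; abel
      rw [h3]
      exact h2
  obtain ⟨c, C, hc, hC, hb⟩ := G.exists_bounds
  obtain ⟨n, hn⟩ := exists_nat_gt ((c⁻¹ + ‖x‖) / ‖d‖)
  have hdn : 0 < ‖d‖ := norm_pos_iff.2 hd0
  rw [div_lt_iff₀ hdn] at hn
  have h1 := (hb (x + (n : ℝ) • d)).1.trans (hstep n)
  have h2 : ‖x + (n : ℝ) • d‖ ≤ c⁻¹ := by
    rw [← one_div, le_div_iff₀ hc]; linarith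
  have h3 : (n : ℝ) * ‖d‖ ≤ ‖x + (n : ℝ) • d‖ + ‖x‖ := by
    have : ‖(n : ℝ) • d‖ ≤ ‖x + (n : ℝ) • d‖ + ‖x‖ := by
      have h4 : (n : ℝ) • d = (x + (n : ℝ) • d) - x := by abel
      calc ‖(n : ℝ) • d‖ = ‖(x + (n : ℝ) • d) - x‖ := by rw [← h4]
        _ ≤ _ := norm_sub_le _ _
    rwa [norm_smul, Real.norm_natCast] at this
  linarith

/-- the chord formula -/
lemma Tr.chord (h : Tr G H u x) {v : V} (hv : ⟪u, v⟫ = 0) (hv0 : v ≠ 0) {t : ℝ} (hx : x = t • v) : 
    t = 1 / G.g v - 1 / H.g v := by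
  have hG := G.pos v hv0
  have hH := H.pos v hv0
  have h1 : 0 ≤ 1 + H.g v * t := by
    rcases le_or_gt 0 t with ht | ht
    · positivity
    · have h2 := h.symm.le_one
      rw [hx, ← neg_smul, H.homog _ (by linarith)] at h2
      nlinarith
  have h2 := h.eq hv
  have h3 : v + H.g v • x = (1 + H.g v * t) • v := by
    rw [hx, add_smul, one_smul, smul_smul]
  rw [h3, G.homog _ h1] at h2
  field_simp
  nlinarith

end tr

end Pool.Agent.Helper104.TrSec
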