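import Mathlib
import Pool.Agent.Helper104.TrBasic

open MeasureTheory Set Filter Topology
open scoped RealInnerProductSpace

namespace Pool.Agent.Helper104.TrSec

variable {V : Type} [NormedAddCommGroup V] [InnerProductSpace ℝ V]

/-- orthogonal correction of `y` into the hyperplane orthogonal to `u` -/
noncomputable def corr (y u : V) : V := y - (⟪u, y⟫ / ‖u‖ ^ 2) • u

lemma inner_corr (y : V) {u : V} (hu : u ≠ 0) : ⟪u, corr y u⟫ = 0 := by
  have : ‖u‖ ^ 2 ≠ 0 := pow_ne_zero 2 (norm_ne_zero_iff.2 hu)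
  rw [corr, inner_sub_right, inner_smul_right, real_inner_self_eq_norm_sq, div_mul_cancel₀ _ this, sub_self]

lemma tendsto_corr {u0 y : V} (hu0 : u0 ≠ 0) (hy : ⟪u0, y⟫ = 0) : Tendsto (fun u => corr y u) (𝓝 u0) (𝓝 y) := by
  have h0 : ‖u0‖ ^ 2 ≠ 0 := pow_ne_zero 2 (norm_ne_zero_iff.2 hu0)
  have h1 : Tendsto (fun u => corr y u) (𝓝 u0) (𝓝 (corr y u0)) := by
    have : ContinuousAt (fun u => corr y u) u0 := by
      unfold corr
      fun_prop (disch := assumption)
    exact this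
  have h2 : corr y u0 = y := by rw [corr, hy, zero_div, zero_smul, sub_zero]
  rwa [h2] at h1

variable [FiniteDimensional ℝ V] {G H : Gauge V} {X : V → V}

theorem continuousAt_X (hX : ∀ u, u ≠ 0 → Tr G H u (X u)) {u0 : V} (hu0 : u0 ≠ 0) : ContinuousAt X u0 := by
  obtain ⟨c, C, hc, hC, hb⟩ := G.exists_bounds
  have hne : ∀ᶠ u in 𝓝 u0, u ≠ 0 := isOpen_ne.mem_nhds hu0
  have hbd : ∀ u, u ≠ 0 → X u ∈ Metric.closedBall (0 : V) (1 / c) := by
    intro u hu
    rw [mem_closedBall_zero_iff, le_div_iff₀ hc]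
    linarith [(hb (X u)).1, (hX u hu).le_one]
  refine IsCompact.tendsto_nhds_of_unique_mapClusterPt (isCompact_closedBall (0 : V) (1 / c)) 
    (hne.mono hbd) ?_
  intro x' _ hx'
  obtain ⟨U, hU1, hU2⟩ := mapClusterPt_iff_ultrafilter.1 hx'
  have hneU : ∀ᶠ u in (U : Filter V), u ≠ 0 := hU1 hne
  have hid : Tendsto (fun u : V => u) U (𝓝 u0) := tendsto_id.mono_left hU1
  have o1 : ⟪u0, x'⟫ = 0 := by
    have h1 : Tendsto (fun u => ⟪u, X u⟫) U (𝓝 ⟪u0, x'⟫) := hid.inner hU2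
    have h2 : Tendsto (fun u => ⟪u, X u⟫) U (𝓝 0) := by
      refine tendsto_const_nhds.congr' ?_
      filter_upwards [hneU] with u hu using ((hX u hu).1).symm
    exact tendsto_nhds_unique h1 h2
  have key : ∀ (A B : Gauge V) (Z : V → V) (z : V), (∀ u, u ≠ 0 → Tr A B u (Z u)) → Tendsto Z U (𝓝 z) → 
      ∀ y, ⟪u0, y⟫ = 0 → B.g y ≤ 1 → A.g (y + z) ≤ 1 := by
    intro A B Z z hZ hZt y hy hB
    have t1 : Tendsto (fun u => corr y u) U (𝓝 y) := (tendsto_corr hu0 hy).mono_left hU1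
    have t2 : Tendsto (fun u => max 1 (B.g (corr y u))) U (𝓝 (max 1 (B.g y))) := 
      tendsto_const_nhds.max ((B.cont.tendsto y).comp t1)
    rw [max_eq_left hB] at t2
    have t3 : Tendsto (fun u => A.g (corr y u + max 1 (B.g (corr y u)) • Z u)) U (𝓝 (A.g (y + (1:ℝ) • z))) :=
      (A.cont.tendsto _).comp (t1.add (t2.smul hZt))
    rw [one_smul] at t3
    refine le_of_tendsto_of_tendsto t3 t2 ?_
    filter_upwards [hneU] with u hu
    exact ((hZ u hu).scale (lt_of_lt_of_le one_pos (le_max_left _ _)) (inner_corr y hu)).1 (le_max_right _ _)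
  have hTr : Tr G H u0 x' := by
    refine ⟨o1, fun y hy => ⟨fun h => key G H X x' hX hU2 y hy h, fun h => ?_⟩⟩
    have h2 := key H G (fun u => -X u) (-x') (fun u hu => (hX u hu).symm) hU2.neg (y + x') 
      (by rw [inner_add_right, hy, o1, add_zero]) h
    rwa [add_neg_cancel_right] at h2
  exact hTr.unique (hX u0 hu0)

lemma X_smul (hX : ∀ u, u ≠ 0 → Tr G H u (X u)) {u : V} (hu : u ≠ 0) {c : ℝ} (hc : c ≠ 0) : X (c • u) = X u :=
  (hX (c • u) (smul_ne_zero hc hu)).unique ((hX u hu).smul hc)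

end Pool.Agent.Helper104.TrSec
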