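import Mathlib
import Pool.Agent.Helper104.TrCont

open MeasureTheory Set Filter Topology
open scoped RealInnerProductSpace

namespace Pool.Agent.Helper104.TrSec

variable {V : Type} [NormedAddCommGroup V] [InnerProductSpace ℝ V] [FiniteDimensional ℝ V] {G H : Gauge V} {X : V → V}

omit [FiniteDimensional ℝ V] in
lemma Tr.zero_eq {u : V} (h : Tr G H u 0) {y : V} (hy : ⟪u, y⟫ = 0) : G.g y = H.g y := by
  have := h.eq hy
  simpa using this

lemma sign_ne (hX : ∀ u, u ≠ 0 → Tr G H u (X u)) {u0 u : V} (hu0 : u0 ≠ 0) (h0 : X u0 = 0) (hu : u ≠ 0) (hx : X u ≠ 0) :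
    ⟪u0, X u⟫ ≠ 0 := by
  intro h
  have h1 := hX u0 hu0
  rw [h0] at h1
  have h2 := h1.zero_eq h
  have h3 := (hX u hu).chord (hX u hu).1 hx (t := 1) (by rw [one_smul])
  rw [h2, sub_self] at h3
  exact one_ne_zero h3

lemma exists_orth_pair (hdim : 3 ≤ Module.finrank ℝ V) (a b : V) : ∃ u : V, u ≠ 0 ∧ ⟪u, a⟫ = 0 ∧ ⟪u, b⟫ = 0 := by
  classical
  have h1 : Module.finrank ℝ (Submodule.span ℝ ({a, b} : Set V)) ≤ 2 := by
    have := finrank_span_finset_le_card (R := ℝ) ({a, b} : Finset V)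
    rw [Set.finrank] at this
    rw [Finset.coe_pair] at this
    exact this.trans Finset.card_le_two
  have h2 : Submodule.span ℝ ({a, b} : Set V) ≠ ⊤ := by
    intro h
    rw [h, finrank_top] at h1
    omega
  obtain ⟨u, hu, hu0⟩ := Submodule.exists_mem_ne_zero_of_ne_bot 
    (show (Submodule.span ℝ ({a, b} : Set V))ᗮ ≠ ⊥ from fun h => h2 (Submodule.orthogonal_eq_bot_iff.1 h))
  refine ⟨u, hu0, ?_, ?_⟩
  · rw [real_inner_comm]
    exact hu a (Submodule.subset_span (by simp))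
  · rw [real_inner_comm]
    exact hu b (Submodule.subset_span (by simp))

omit [FiniteDimensional ℝ V] in
lemma path_ne {u u' : V} (hu : u ≠ 0) (hu' : u' ≠ 0) (hdep : ¬ ∃ c : ℝ, c ≠ 0 ∧ u' = c • u) (s : ℝ) : 
    (1 - s) • u + s • u' ≠ 0 := by
  intro h
  by_cases hs : s = 0
  · subst hs
    simp at h
    exact hu h
  · apply hdep
    have h1 : s • u' = (-(1 - s)) • u := by
      rw [neg_smul]
      exact eq_neg_of_add_eq_zero_right h
    have h2 : u' = (s⁻¹ * (-(1 - s))) • u := by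
      rw [← smul_smul, ← h1, smul_smul, inv_mul_cancel₀ hs, one_smul]
    refine ⟨_, ?_, h2⟩
    intro h3
    rw [h3, zero_smul] at h2
    exact hu' h2

lemma sign_path (hX : ∀ u, u ≠ 0 → Tr G H u (X u)) {u0 u u' w : V} (hu : u ≠ 0) (hu' : u' ≠ 0) (h1 : ⟪u, w⟫ = 0) 
    (h2 : ⟪u', w⟫ = 0) (P : ∀ v, v ≠ 0 → ⟪v, w⟫ = 0 → ⟪u0, X v⟫ ≠ 0) : 0 < ⟪u0, X u⟫ * ⟪u0, X u'⟫ := by
  by_cases hdep : ∃ c : ℝ, c ≠ 0 ∧ u' = c • u
  · obtain ⟨c, hc, rfl⟩ := hdep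
    rw [X_smul hX hu hc]
    exact mul_self_pos.2 (P u hu h1)
  · have hne := path_ne hu hu' hdep
    have hc : ContinuousOn (fun s : ℝ => ⟪u0, X ((1 - s) • u + s • u')⟫) (uIcc 0 1) := by
      intro s _
      apply ContinuousAt.continuousWithinAt
      have h3 : ContinuousAt (fun s : ℝ => X ((1 - s) • u + s • u')) s :=
        ContinuousAt.comp (f := fun s : ℝ => (1 - s) • u + s • u') (continuousAt_X hX (hne s)) (by fun_prop)
      exact continuousAt_const.inner h3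
    have hiv := intermediate_value_uIcc hc
    by_contra hcon
    push Not at hcon
    have h0 : (0:ℝ) ∈ uIcc (⟪u0, X ((1 - (0:ℝ)) • u + (0:ℝ) • u')⟫) (⟪u0, X ((1 - (1:ℝ)) • u + (1:ℝ) • u')⟫) := by
      simp only [sub_zero, one_smul, zero_smul, add_zero, sub_self, zero_add]
      rw [mem_uIcc]
      rcases le_total 0 ⟪u0, X u⟫ with h | h
      · rcases eq_or_lt_of_le h with h' | h'
        · exact absurd h'.symm (P u hu h1)
        · right; exact ⟨by nlinarith, h⟩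
      · rcases eq_or_lt_of_le h with h' | h'
        · exact absurd h' (P u hu h1)
        · left; exact ⟨h, by nlinarith⟩
    obtain ⟨s, _, hs⟩ := hiv h0
    refine P _ (hne s) ?_ hs
    rw [inner_add_left, inner_smul_left, inner_smul_left, h1, h2]; simp

/-- if `X` vanishes at some plane, all other translation vectors are on one side of that plane -/
theorem same_sign (hdim : 3 ≤ Module.finrank ℝ V) (hX : ∀ u, u ≠ 0 → Tr G H u (X u)) {u0 u1 u2 : V} (hu0 : u0 ≠ 0) (h0 : X u0 = 0) 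
    (hu1 : u1 ≠ 0) (hx1 : X u1 ≠ 0) (hu2 : u2 ≠ 0) (hx2 : X u2 ≠ 0) : 0 < ⟪u0, X u1⟫ * ⟪u0, X u2⟫ := by
  obtain ⟨u3, hu3, ho1, ho2⟩ := exists_orth_pair hdim (X u1) (X u2)
  have P : ∀ w : V, (∃ u, u ≠ 0 ∧ X u ≠ 0 ∧ X u = w) → ∀ v, v ≠ 0 → ⟪v, w⟫ = 0 → ⟪u0, X v⟫ ≠ 0 := by
    rintro w ⟨u, hu, hxu, rfl⟩ v hv hvw
    apply sign_ne hX hu0 h0 hv
    intro h
    exact sign_ne hX hv h hu hxu hvw
  have a1 := sign_path hX (u0 := u0) hu1 hu3 (hX u1 hu1).1 ho1 (P _ ⟨u1, hu1, hx1, rfl⟩)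
  have a2 := sign_path hX (u0 := u0) hu2 hu3 (hX u2 hu2).1 ho2 (P _ ⟨u2, hu2, hx2, rfl⟩)
  have a3 : 0 < (⟪u0, X u1⟫ * ⟪u0, X u2⟫) * ⟪u0, X u3⟫ ^ 2 := by
    have := mul_pos a1 a2
    calc 0 < (⟪u0, X u1⟫ * ⟪u0, X u3⟫) * (⟪u0, X u2⟫ * ⟪u0, X u3⟫) := this
      _ = _ := by ring
  exact pos_of_mul_pos_left a3 (sq_nonneg _)

/-- non-one-sidedness at `θ` -/
def TwoSided (X : V → V) (θ : V) : Prop := 
  ∀ ν : V, ν ≠ 0 → ⟪θ, ν⟫ = 0 → ∃ u, u ≠ 0 ∧ ⟪u, θ⟫ = 0 ∧ ⟪X u, ν⟫ < 0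

lemma TwoSided.ne_zero (hdim : 3 ≤ Module.finrank ℝ V) (hX : ∀ u, u ≠ 0 → Tr G H u (X u)) {θ : V} (h : TwoSided X θ) 
    {u0 : V} (hu0 : u0 ≠ 0) (hθ : ⟪u0, θ⟫ = 0) : X u0 ≠ 0 := by
  intro h0
  obtain ⟨u1, hu1, -, hn1⟩ := h u0 hu0 (by rw [real_inner_comm]; exact hθ)
  obtain ⟨u2, hu2, -, hn2⟩ := h (-u0) (neg_ne_zero.2 hu0) (by rw [inner_neg_right, real_inner_comm, hθ, neg_zero])
  rw [inner_neg_right] at hn2
  have hx1 : X u1 ≠ 0 := by
    intro h; rw [h, inner_zero_left] at hn1; exact lt_irrefl _ hn1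
  have hx2 : X u2 ≠ 0 := by
    intro h; rw [h, inner_zero_left, neg_zero] at hn2; exact lt_irrefl _ hn2
  have := same_sign hdim hX hu0 h0 hu1 hx1 hu2 hx2
  rw [real_inner_comm u0 (X u1), real_inner_comm u0 (X u2)] at *
  nlinarith

end Pool.Agent.Helper104.TrSec
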