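import Mathlib
import Pool.Agent.Helper104.TrSign

open MeasureTheory Set Filter Topology
open scoped RealInnerProductSpace

namespace Pool.Agent.Helper104.TrSec

variable {V : Type} [NormedAddCommGroup V] [InnerProductSpace ℝ V]

/-- the gauge multiplied by `exp s` -/
noncomputable def Gauge.ex (G : Gauge V) (s : ℝ) : Gauge V where
  g := fun y => Real.exp s * G.g y
  cont := continuous_const.mul G.cont
  homog := fun t ht y => by rw [G.homog t ht]; ring
  pos := fun y hy => mul_pos (Real.exp_pos _) (G.pos y hy)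

lemma Gauge.ex_g (G : Gauge V) (s : ℝ) (y : V) : (G.ex s).g y = Real.exp s * G.g y := rfl

lemma Gauge.ext' {G H : Gauge V} (h : ∀ y, G.g y = H.g y) : G = H := by
  cases G; cases H
  congr
  funext y
  exact h y

lemma Gauge.ex_ex (G : Gauge V) (s t : ℝ) : (G.ex s).ex t = G.ex (s + t) := by
  apply Gauge.ext'
  intro y
  rw [Gauge.ex_g, Gauge.ex_g, Gauge.ex_g, Real.exp_add]; ring

lemma Gauge.ex_zero (G : Gauge V) : G.ex 0 = G := by
  apply Gauge.ext'
  intro y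
  rw [Gauge.ex_g, Real.exp_zero, one_mul]

lemma Tr.ex {G H : Gauge V} {u x : V} (h : Tr G H u x) (r : ℝ) : Tr (G.ex r) (H.ex r) u (Real.exp (-r) • x) := by
  refine ⟨by rw [inner_smul_right, h.1, mul_zero], fun y hy => ?_⟩
  have h1 := h.2 (Real.exp r • y) (by rw [inner_smul_right, hy, mul_zero])
  rw [H.homog _ (Real.exp_pos r).le] at h1
  rw [Gauge.ex_g, Gauge.ex_g, h1]
  have h2 : Real.exp r • y + x = Real.exp r • (y + Real.exp (-r) • x) := by
    rw [smul_add, smul_smul, ← Real.exp_add, add_neg_cancel, Real.exp_zero, one_smul]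
  rw [h2, G.homog _ (Real.exp_pos r).le]

lemma Tr.swap {G H : Gauge V} {u x : V} {s : ℝ} (h : Tr G (H.ex s) u x) : Tr H (G.ex (-s)) u (-(Real.exp s • x)) := by
  have h1 := h.symm.ex (-s)
  rw [Gauge.ex_ex, add_neg_cancel, Gauge.ex_zero, neg_neg, smul_neg] at h1
  exact h1

variable [FiniteDimensional ℝ V] {G H : Gauge V} {X : V → V} {σ : V → ℝ}

lemma exists_orth_one (hdim : 2 ≤ Module.finrank ℝ V) (a : V) : ∃ v : V, v ≠ 0 ∧ ⟪a, v⟫ = 0 := by
  classical
  have h1 : Module.finrank ℝ (Submodule.span ℝ ({a} : Set V)) ≤ 1 := by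
    have := finrank_span_finset_le_card (R := ℝ) ({a} : Finset V)
    rw [Set.finrank] at this
    rw [Finset.coe_singleton] at this
    simpa using this
  have h2 : Submodule.span ℝ ({a} : Set V) ≠ ⊤ := by
    intro h
    rw [h, finrank_top] at h1
    omega
  obtain ⟨u, hu, hu0⟩ := Submodule.exists_mem_ne_zero_of_ne_bot 
    (show (Submodule.span ℝ ({a} : Set V))ᗮ ≠ ⊥ from fun h => h2 (Submodule.orthogonal_eq_bot_iff.1 h))
  refine ⟨u, hu0, ?_⟩
  exact hu a (Submodule.subset_span (by simp))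

lemma Gauge.isCompact_sec (G : Gauge V) (u : V) : IsCompact {y | ⟪u, y⟫ = 0 ∧ G.g y ≤ 1} := by
  obtain ⟨c, C, hc, hC, hb⟩ := G.exists_bounds
  apply Metric.isCompact_of_isClosed_isBounded
  · apply IsClosed.inter
    · exact isClosed_eq (by fun_prop) continuous_const
    · exact isClosed_le G.cont continuous_const
  · rw [isBounded_iff_forall_norm_le]
    refine ⟨1 / c, fun y hy => ?_⟩
    rw [le_div_iff₀ hc]
    linarith [(hb y).1, hy.2]

/-- comparison of homothety ratios -/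
lemma ratio_le (hdim : 2 ≤ Module.finrank ℝ V) {u x x' : V} {s s' : ℝ} (h : Tr G (H.ex s) u x) (h' : Tr G (H.ex s') u x') : s ≤ s' := by
  set A : Set V := {y | ⟪u, y⟫ = 0 ∧ (H.ex s').g y ≤ 1} with hA
  have hAc : IsCompact A := (H.ex s').isCompact_sec u
  have h0A : (0 : V) ∈ A := ⟨inner_zero_right _, by rw [Gauge.zero]; exact zero_le_one⟩
  obtain ⟨⟨a, b⟩, hab, hmax⟩ := (hAc.prod hAc).exists_isMaxOn ⟨(0, 0), h0A, h0A⟩ 
    (f := fun z : V × V => ‖z.1 - z.2‖) (by fun_prop)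
  have hmax' : ∀ a' ∈ A, ∀ b' ∈ A, ‖a' - b'‖ ≤ ‖a - b‖ := fun a' ha' b' hb' => hmax (mk_mem_prod ha' hb')
  obtain ⟨v, hv, huv⟩ := exists_orth_one hdim u
  have hpos : 0 < ‖a - b‖ := by
    have hv' := (H.ex s').pos v hv
    have h1 : ((H.ex s').g v)⁻¹ • v ∈ A := by
      refine ⟨by rw [inner_smul_right, huv, mul_zero], ?_⟩
      rw [Gauge.homog _ _ (inv_nonneg.2 hv'.le), inv_mul_cancel₀ hv'.ne']
    refine lt_of_lt_of_le ?_ (hmax' _ h1 _ h0A)
    rw [sub_zero, norm_pos_iff]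
    exact smul_ne_zero (inv_ne_zero hv'.ne') hv
  -- map a point of A by the second homothety and back by the first
  have key : ∀ y ∈ A, Real.exp (s - s') • (y + x' - x) ∈ A := by
    intro y hy
    have h1 := (h'.2 y hy.1).1 hy.2
    have h2 : ⟪u, y + x' - x⟫ = 0 := by rw [inner_sub_right, inner_add_right, hy.1, h'.1, h.1]; ring
    have h3 := (h.2 (y + x' - x) h2).2 (by rw [sub_add_cancel]; exact h1)
    refine ⟨by rw [inner_smul_right, h2, mul_zero], ?_⟩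
    rw [Gauge.homog _ _ (Real.exp_pos _).le, Gauge.ex_g, ← mul_assoc, ← Real.exp_add, sub_add_cancel]
    exact h3
  have h1 := hmax' _ (key a hab.1) _ (key b hab.2)
  have h2 : Real.exp (s - s') • (a + x' - x) - Real.exp (s - s') • (b + x' - x) = Real.exp (s - s') • (a - b) := by
    rw [← smul_sub]; congr 1; abel
  rw [h2, norm_smul, Real.norm_eq_abs, abs_of_pos (Real.exp_pos _)] at h1
  by_contra hcon
  push Not at hcon
  have h3 : 1 < Real.exp (s - s') := Real.one_lt_exp_iff.2 (by linarith)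
  nlinarith

lemma hm_unique (hdim : 2 ≤ Module.finrank ℝ V) {u x x' : V} {s s' : ℝ} (h : Tr G (H.ex s) u x) (h' : Tr G (H.ex s') u x') : 
    s = s' ∧ x = x' := by
  have h1 : s = s' := le_antisymm (ratio_le hdim h h') (ratio_le hdim h' h)
  subst h1
  exact ⟨rfl, h.unique h'⟩

omit [FiniteDimensional ℝ V] in
lemma exp_lower {u x v : V} {s c C' : ℝ} (hc : 0 < c) (hC' : 0 < C') (hG : ∀ y, c * ‖y‖ ≤ G.g y) (hH : ∀ y, H.g y ≤ C' * ‖y‖) 
    (hv : v ≠ 0) (huv : ⟪u, v⟫ = 0) (h : Tr G (H.ex s) u x) : c / (2 * C') ≤ Real.exp s := by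
  have h1 := h.eq huv
  set m := (H.ex s).g v with hm
  have hm0 : 0 < m := (H.ex s).pos v hv
  have h2 := hG (v + m • x)
  rw [h1] at h2
  have h3 : c * ‖x‖ ≤ 1 := (hG x).trans h.le_one
  have h4 : ‖v‖ ≤ ‖v + m • x‖ + m * ‖x‖ := by
    calc ‖v‖ = ‖(v + m • x) - m • x‖ := by rw [add_sub_cancel_right]
      _ ≤ ‖v + m • x‖ + ‖m • x‖ := norm_sub_le _ _
      _ = _ := by rw [norm_smul, Real.norm_eq_abs, abs_of_pos hm0]
  have h5 : m ≤ Real.exp s * (C' * ‖v‖) := by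
    rw [hm, Gauge.ex_g]
    exact mul_le_mul_of_nonneg_left (hH v) (Real.exp_pos s).le
  have hn : 0 < ‖v‖ := norm_pos_iff.2 hv
  rw [div_le_iff₀ (by positivity)]
  have h6 : c * ‖v‖ ≤ 2 * m := by nlinarith
  have h7 : c * ‖v‖ ≤ (Real.exp s * (2 * C')) * ‖v‖ := by nlinarith
  exact le_of_mul_le_mul_right h7 hn

theorem continuousAt_XS (hdim : 2 ≤ Module.finrank ℝ V) (hX : ∀ u, u ≠ 0 → Tr G (H.ex (σ u)) u (X u)) {u0 : V} (hu0 : u0 ≠ 0) : 
    ContinuousAt (fun u => (X u, σ u)) u0 := by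
  obtain ⟨c, C, hc, hC, hb⟩ := G.exists_bounds
  obtain ⟨c', C', hc', hC', hb'⟩ := H.exists_bounds
  have hne : ∀ᶠ u in 𝓝 u0, u ≠ 0 := isOpen_ne.mem_nhds hu0
  have hbd : ∀ u, u ≠ 0 → (X u, σ u) ∈ Metric.closedBall (0 : V) (1 / c) ×ˢ Icc (Real.log (c / (2 * C'))) (-Real.log (c' / (2 * C))) := by
    intro u hu
    obtain ⟨v, hv, huv⟩ := exists_orth_one hdim u
    refine ⟨?_, ?_, ?_⟩
    · rw [mem_closedBall_zero_iff, le_div_iff₀ hc]
      linarith [(hb (X u)).1, (hX u hu).le_one]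
    · have := exp_lower hc hC' (fun y => (hb y).1) (fun y => (hb' y).2) hv huv (hX u hu)
      exact (Real.log_le_iff_le_exp (by positivity)).2 this
    · have := exp_lower hc' hC (fun y => (hb' y).1) (fun y => (hb y).2) hv huv (hX u hu).swap
      have := (Real.log_le_iff_le_exp (by positivity)).2 this
      simp only
      linarith
  refine IsCompact.tendsto_nhds_of_unique_mapClusterPt ((isCompact_closedBall (0 : V) (1 / c)).prod isCompact_Icc)
    (hne.mono hbd) ?_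
  rintro ⟨x', s'⟩ _ hx'
  obtain ⟨U, hU1, hU2⟩ := mapClusterPt_iff_ultrafilter.1 hx'
  have hU2x : Tendsto X U (𝓝 x') := (continuous_fst.tendsto _).comp hU2
  have hU2s : Tendsto σ U (𝓝 s') := (continuous_snd.tendsto _).comp hU2
  have hneU : ∀ᶠ u in (U : Filter V), u ≠ 0 := hU1 hne
  have hid : Tendsto (fun u : V => u) U (𝓝 u0) := tendsto_id.mono_left hU1
  have o1 : ⟪u0, x'⟫ = 0 := by
    have h1 : Tendsto (fun u => ⟪u, X u⟫) U (𝓝 ⟪u0, x'⟫) := hid.inner hU2x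
    have h2 : Tendsto (fun u => ⟪u, X u⟫) U (𝓝 0) := by
      refine tendsto_const_nhds.congr' ?_
      filter_upwards [hneU] with u hu using ((hX u hu).1).symm
    exact tendsto_nhds_unique h1 h2
  have key : ∀ (A B : Gauge V) (Z : V → V) (τ1 τ2 : V → ℝ) (z : V) (t1 t2 : ℝ), (∀ u, u ≠ 0 → Tr (A.ex (τ1 u)) (B.ex (τ2 u)) u (Z u)) → 
      Tendsto Z U (𝓝 z) → Tendsto τ1 U (𝓝 t1) → Tendsto τ2 U (𝓝 t2) → 
      ∀ y, ⟪u0, y⟫ = 0 → (B.ex t2).g y ≤ 1 → (A.ex t1).g (y + z) ≤ 1 := by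
    intro A B Z τ1 τ2 z t1 t2 hZ hZt hτ1 hτ2 y hy hB
    have e1 : Tendsto (fun u => corr y u) U (𝓝 y) := (tendsto_corr hu0 hy).mono_left hU1
    have e2' : Tendsto (fun u => (B.ex (τ2 u)).g (corr y u)) U (𝓝 ((B.ex t2).g y)) := by
      simp only [Gauge.ex_g]
      exact ((Real.continuous_exp.tendsto _).comp hτ2).mul ((B.cont.tendsto y).comp e1)
    have e2 : Tendsto (fun u => max 1 ((B.ex (τ2 u)).g (corr y u))) U (𝓝 (max 1 ((B.ex t2).g y))) := 
      tendsto_const_nhds.max e2'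
    rw [max_eq_left hB] at e2
    have e3 : Tendsto (fun u => (A.ex (τ1 u)).g (corr y u + max 1 ((B.ex (τ2 u)).g (corr y u)) • Z u)) U (𝓝 ((A.ex t1).g (y + (1:ℝ) • z))) := by
      simp only [Gauge.ex_g] at e2 ⊢
      exact ((Real.continuous_exp.tendsto _).comp hτ1).mul ((A.cont.tendsto _).comp (e1.add (e2.smul hZt)))
    rw [one_smul] at e3
    refine le_of_tendsto_of_tendsto e3 e2 ?_
    filter_upwards [hneU] with u hu
    exact ((hZ u hu).scale (lt_of_lt_of_le one_pos (le_max_left _ _)) (inner_corr y hu)).1 (le_max_right _ _)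
  have hTr : Tr G (H.ex s') u0 x' := by
    refine ⟨o1, fun y hy => ⟨fun h => ?_, fun h => ?_⟩⟩
    · have := key G H X (fun _ => 0) σ x' 0 s' (fun u hu => by rw [Gauge.ex_zero]; exact hX u hu) hU2x tendsto_const_nhds hU2s y hy h
      rwa [Gauge.ex_zero] at this
    · have h2 := key H G (fun u => -X u) σ (fun _ => 0) (-x') s' 0 (fun u hu => by rw [Gauge.ex_zero]; exact (hX u hu).symm) hU2x.neg 
        hU2s tendsto_const_nhds (y + x') (by rw [inner_add_right, hy, o1, add_zero]) (by rw [Gauge.ex_zero]; exact h)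
      rwa [add_neg_cancel_right] at h2
  obtain ⟨h1, h2⟩ := hm_unique hdim hTr (hX u0 hu0)
  rw [h1, h2]

lemma contX (hdim : 2 ≤ Module.finrank ℝ V) (hX : ∀ u, u ≠ 0 → Tr G (H.ex (σ u)) u (X u)) {u0 : V} (hu0 : u0 ≠ 0) : ContinuousAt X u0 :=
  (continuousAt_XS hdim hX hu0).fst

lemma contS (hdim : 2 ≤ Module.finrank ℝ V) (hX : ∀ u, u ≠ 0 → Tr G (H.ex (σ u)) u (X u)) {u0 : V} (hu0 : u0 ≠ 0) : ContinuousAt σ u0 :=
  (continuousAt_XS hdim hX hu0).snd

lemma hX_smul (hdim : 2 ≤ Module.finrank ℝ V) (hX : ∀ u, u ≠ 0 → Tr G (H.ex (σ u)) u (X u)) {u : V} (hu : u ≠ 0) {c : ℝ} (hc : c ≠ 0) : 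
    X (c • u) = X u :=
  (hm_unique hdim (hX (c • u) (smul_ne_zero hc hu)) ((hX u hu).smul hc)).2

lemma hσ_smul (hdim : 2 ≤ Module.finrank ℝ V) (hX : ∀ u, u ≠ 0 → Tr G (H.ex (σ u)) u (X u)) {u : V} (hu : u ≠ 0) {c : ℝ} (hc : c ≠ 0) : 
    σ (c • u) = σ u :=
  (hm_unique hdim (hX (c • u) (smul_ne_zero hc hu)) ((hX u hu).smul hc)).1

/-- width of the body in direction `v`, relative to `v` -/
noncomputable def wid (G : Gauge V) (v : V) : ℝ := 1 / G.g v + 1 / G.g (-v)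

omit [FiniteDimensional ℝ V] in
lemma wid_pos (G : Gauge V) {v : V} (hv : v ≠ 0) : 0 < wid G v := by
  have h1 := G.pos v hv
  have h2 := G.pos (-v) (neg_ne_zero.2 hv)
  unfold wid; positivity

omit [FiniteDimensional ℝ V] in
/-- chord formula, both ends -/
lemma Tr.chord2 {u x v : V} {s t : ℝ} (h : Tr G (H.ex s) u x) (hv : ⟪u, v⟫ = 0) (hv0 : v ≠ 0) (hx : x = t • v) : 
    Real.exp s = wid H v / wid G v ∧ t = 1 / G.g v - 1 / (Real.exp s * H.g v) := by
  have h1 := h.chord hv hv0 hx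
  have h2 := h.chord (v := -v) (by rw [inner_neg_right, hv, neg_zero]) (neg_ne_zero.2 hv0) (t := -t) (by rw [hx]; simp)
  rw [Gauge.ex_g] at h1 h2
  refine ⟨?_, h1⟩
  have hG1 := G.pos v hv0
  have hG2 := G.pos (-v) (neg_ne_zero.2 hv0)
  have hH1 := H.pos v hv0
  have hH2 := H.pos (-v) (neg_ne_zero.2 hv0)
  have he := Real.exp_pos s
  rw [eq_div_iff (wid_pos G hv0).ne']
  unfold wid
  have h3 : 1 / G.g v + 1 / G.g (-v) = 1 / (Real.exp s * H.g v) + 1 / (Real.exp s * H.g (-v)) := by linarith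
  rw [h3]
  field_simp

end Pool.Agent.Helper104.TrSec
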