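import Mathlib

open MeasureTheory Set Filter Topology

namespace Pool.Agent.Helper104.TrSec

/-- `g` is affine along the segment `w + s (c,1)`, `|s| ≤ s0` -/
def AffSlope (g : ℝ × ℝ → ℝ) (s0 : ℝ) (w : ℝ × ℝ) (c : ℝ) : Prop := 
  ∃ L : ℝ, ∀ s, |s| ≤ s0 → g (w + s • (c, 1)) = g w + s * L

lemma slope_const {g : ℝ × ℝ → ℝ} {s0 x0 : ℝ} (hx : ∀ x, |x| ≤ x0 → g (x, 0) = 0) {w : ℝ × ℝ} {c : ℝ} 
    (h : AffSlope g s0 w c) (hy : |w.2| ≤ s0) (hy0 : w.2 ≠ 0) (hx0 : |w.1 - c * w.2| ≤ x0) {s : ℝ} (hs : |s| ≤ s0) : 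
    g (w + s • (c, 1)) = g w / w.2 * (w.2 + s) := by
  obtain ⟨L, hL⟩ := h
  have h1 := hL (-w.2) (by rwa [abs_neg])
  have h2 : w + (-w.2) • ((c, 1) : ℝ × ℝ) = (w.1 - c * w.2, 0) := by
    ext
    · simp; ring
    · simp
  rw [h2, hx _ hx0] at h1
  rw [hL s hs]
  have h3 : g w = w.2 * L := by linarith
  rw [h3, mul_div_cancel_left₀ _ hy0]
  ring

/-- upper half of the three families argument -/
lemma upper_half {g : ℝ × ℝ → ℝ} {s0 x0 R m2 M2 m3 M3 : ℝ} (hs0 : 0 < s0) (hx0 : 0 < x0) (hR : 0 < R) (hM : M3 < m2) 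
    (hx : ∀ x, |x| ≤ x0 → g (x, 0) = 0) 
    (h2 : ∀ w : ℝ × ℝ, |w.1| ≤ R → |w.2| ≤ R → ∃ c ∈ Icc m2 M2, AffSlope g s0 w c) 
    (h3 : ∀ w : ℝ × ℝ, |w.1| ≤ R → |w.2| ≤ R → ∃ c ∈ Icc m3 M3, AffSlope g s0 w c) : 
    ∃ ρ > 0, ∃ σ : ℝ, ∀ w : ℝ × ℝ, |w.1| ≤ ρ → 0 < w.2 → w.2 ≤ ρ → g w = σ * w.2 := by
  -- bounds
  obtain ⟨c2', hc2', -⟩ := h2 0 (by simp [hR.le]) (by simp [hR.le])
  obtain ⟨c3', hc3', -⟩ := h3 0 (by simp [hR.le]) (by simp [hR.le])
  set Λ : ℝ := |m2| + |M2| + |m3| + |M3| + 1 with hΛ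
  have hΛ1 : 1 ≤ Λ := by
    rw [hΛ]; linarith [abs_nonneg m2, abs_nonneg M2, abs_nonneg m3, abs_nonneg M3]
  have bd : ∀ c, (c ∈ Icc m2 M2 ∨ c ∈ Icc m3 M3) → |c| ≤ Λ := by
    intro c hc
    rw [abs_le]
    have a1 := neg_abs_le m2; have a2 := le_abs_self M2; have a3 := neg_abs_le m3; have a4 := le_abs_self M3
    have b1 := abs_nonneg m2; have b2 := abs_nonneg M2; have b3 := abs_nonneg m3; have b4 := abs_nonneg M3
    rcases hc with h | h <;> constructor <;> linarith [h.1, h.2]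
  set c0 : ℝ := (M3 + m2) / 2 with hc0
  have hc0Λ : |c0| ≤ Λ := by
    rw [abs_le, hc0]
    have a1 := neg_abs_le m2; have a2 := le_abs_self m2; have a3 := neg_abs_le M3; have a4 := le_abs_self M3
    have b1 := abs_nonneg m2; have b2 := abs_nonneg M2; have b3 := abs_nonneg m3; have b4 := abs_nonneg M3
    constructor <;> linarith
  set Hh : ℝ := min s0 (min x0 R) / (2 * Λ) with hHh
  have hmin : 0 < min s0 (min x0 R) := lt_min hs0 (lt_min hx0 hR)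
  have hHpos : 0 < Hh := by positivity
  have hHΛ : 2 * Λ * Hh = min s0 (min x0 R) := by rw [hHh]; field_simp
  have hm1 : min s0 (min x0 R) ≤ s0 := min_le_left _ _
  have hm2 : min s0 (min x0 R) ≤ x0 := (min_le_right _ _).trans (min_le_left _ _)
  have hm3 : min s0 (min x0 R) ≤ R := (min_le_right _ _).trans (min_le_right _ _)
  have hHs : Hh ≤ s0 := by nlinarith
  have hHR : Λ * Hh ≤ R := by nlinarith
  have hHx : 2 * Λ * Hh ≤ x0 := by linarith
  have hHR' : Hh ≤ R := by nlinarith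
  -- apex
  set p : ℝ × ℝ := (c0 * Hh, Hh) with hp
  have hp1 : |p.1| ≤ R := by
    rw [hp]; simp only [abs_mul, abs_of_pos hHpos]
    exact (mul_le_mul_of_nonneg_right hc0Λ hHpos.le).trans hHR
  have hp2 : |p.2| ≤ R := by rw [hp]; simp only [abs_of_pos hHpos]; exact hHR'
  obtain ⟨c2, hc2, hA2⟩ := h2 p hp1 hp2
  obtain ⟨c3, hc3, hA3⟩ := h3 p hp1 hp2
  have side : ∀ c, |c| ≤ Λ → AffSlope g s0 p c → ∀ s, |s| ≤ s0 → g (p + s • (c, 1)) = g p / Hh * (Hh + s) := by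
    intro c hc hA s hs
    apply slope_const hx hA _ hHpos.ne' _ hs
    · rw [hp]; simp only [abs_of_pos hHpos]; exact hHs
    · rw [hp]
      simp only
      have e : c0 * Hh - c * Hh = (c0 - c) * Hh := by ring
      rw [e, abs_mul, abs_of_pos hHpos]
      have : |c0 - c| ≤ 2 * Λ := (abs_sub _ _).trans (by linarith)
      exact (mul_le_mul_of_nonneg_right this hHpos.le).trans hHx
  set γ : ℝ := (m2 - M3) / 2 with hγ
  have hγpos : 0 < γ := by rw [hγ]; linarith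
  refine ⟨min (Hh / 2) (γ * Hh / (4 * Λ)), by positivity, g p / Hh, ?_⟩
  intro q hq1 hq2 hq3
  have hqH : q.2 < Hh := by linarith [hq3.trans (min_le_left _ _)]
  have hqρ : q.2 ≤ γ * Hh / (4 * Λ) := hq3.trans (min_le_right _ _)
  have hqρ1 : |q.1| ≤ γ * Hh / (4 * Λ) := hq1.trans (min_le_right _ _)
  have hqρ' : Λ * q.2 ≤ γ * Hh / 4 := by
    calc Λ * q.2 ≤ Λ * (γ * Hh / (4 * Λ)) := by gcongr
      _ = γ * Hh / 4 := by field_simp
  have hqρ1' : |q.1| ≤ γ * Hh / 4 := by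
    refine hqρ1.trans ?_
    apply div_le_div_of_nonneg_left (by positivity) (by norm_num) (by linarith)
  have hγΛ : γ ≤ Λ := by
    rw [hγ, hΛ]
    have a1 := neg_abs_le m2; have a2 := le_abs_self m2; have a3 := neg_abs_le M3; have a4 := le_abs_self M3
    have b1 := abs_nonneg m2; have b2 := abs_nonneg M2; have b3 := abs_nonneg m3; have b4 := abs_nonneg M3
    linarith
  have hq1R : |q.1| ≤ R := by nlinarith
  have hq2R : |q.2| ≤ R := by rw [abs_of_pos hq2]; linarith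
  obtain ⟨d, hd, hAq⟩ := h2 q hq1R hq2R
  have hdΛ : |d| ≤ Λ := bd d (Or.inl hd)
  have line : ∀ s, |s| ≤ s0 → g (q + s • (d, 1)) = g q / q.2 * (q.2 + s) := by
    intro s hs
    apply slope_const hx hAq _ hq2.ne' _ hs
    · rw [abs_of_pos hq2]; linarith
    · have h5 : |q.1 - d * q.2| ≤ |q.1| + Λ * q.2 := by
        refine (abs_sub _ _).trans ?_
        rw [abs_mul, abs_of_pos hq2]
        gcongr
      nlinarith
  -- crossing functions
  have cross : ∀ c, |c| ≤ Λ → AffSlope g s0 p c → ∀ s ∈ Icc (0:ℝ) (Hh - q.2), q.1 + s * d = p.1 + (q.2 + s - Hh) * c → g q = g p / Hh * q.2 := by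
    intro c hc hA s hs hcr
    have hs1 : |s| ≤ s0 := by rw [abs_of_nonneg hs.1]; linarith [hs.2]
    have hs2 : |q.2 + s - Hh| ≤ s0 := by
      rw [abs_le]; constructor <;> linarith [hs.1, hs.2]
    have e1 := line s hs1
    have e2 := side c hc hA _ hs2
    have e3 : q + s • ((d, 1) : ℝ × ℝ) = p + (q.2 + s - Hh) • (c, 1) := by
      ext
      · simpa using hcr
      · simp [hp]
    rw [e3, e2] at e1
    have e4 : 0 < q.2 + s := by linarith [hs.1]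
    have e5 : Hh + (q.2 + s - Hh) = q.2 + s := by ring
    rw [e5] at e1
    have e6 := mul_right_cancel₀ e4.ne' e1
    rw [e6, div_mul_cancel₀ _ hq2.ne']
  have hab := abs_le.1 hqρ1'
  -- φ2 s = q.1 + s d - (p.1 + (q.2 + s - Hh) c2)
  have f2 : Continuous fun s : ℝ => q.1 + s * d - (p.1 + (q.2 + s - Hh) * c2) := by fun_prop
  have f3 : Continuous fun s : ℝ => q.1 + s * d - (p.1 + (q.2 + s - Hh) * c3) := by fun_prop
  have hle : 0 ≤ Hh - q.2 := by linarith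
  have hc2abs := abs_le.1 (bd c2 (Or.inl hc2))
  have hc3abs := abs_le.1 (bd c3 (Or.inr hc3))
  have v2 : 0 ≤ q.1 + 0 * d - (p.1 + (q.2 + 0 - Hh) * c2) := by
    have e : q.1 + 0 * d - (p.1 + (q.2 + 0 - Hh) * c2) = q.1 - c2 * q.2 + (c2 - c0) * Hh := by rw [hp]; ring
    rw [e]
    have h6 : γ ≤ c2 - c0 := by rw [hγ, hc0]; linarith [hc2.1]
    nlinarith
  have v3 : q.1 + 0 * d - (p.1 + (q.2 + 0 - Hh) * c3) ≤ 0 := by
    have e : q.1 + 0 * d - (p.1 + (q.2 + 0 - Hh) * c3) = q.1 - c3 * q.2 - (c0 - c3) * Hh := by rw [hp]; ring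
    rw [e]
    have h6 : γ ≤ c0 - c3 := by rw [hγ, hc0]; linarith [hc3.2]
    nlinarith
  have vend : ∀ c : ℝ, q.1 + (Hh - q.2) * d - (p.1 + (q.2 + (Hh - q.2) - Hh) * c) = q.1 + (Hh - q.2) * d - p.1 := by
    intro c; ring
  rcases le_total (q.1 + (Hh - q.2) * d - p.1) 0 with hneg | hpos
  · have hiv := intermediate_value_Icc' hle f2.continuousOn
    have h0 : (0:ℝ) ∈ Icc (q.1 + (Hh - q.2) * d - (p.1 + (q.2 + (Hh - q.2) - Hh) * c2)) (q.1 + 0 * d - (p.1 + (q.2 + 0 - Hh) * c2)) := 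
      ⟨by rw [vend]; exact hneg, v2⟩
    obtain ⟨s, hs, hs0'⟩ := hiv h0
    exact cross c2 (bd c2 (Or.inl hc2)) hA2 s hs (by linarith [hs0'])
  · have hiv := intermediate_value_Icc hle f3.continuousOn
    have h0 : (0:ℝ) ∈ Icc (q.1 + 0 * d - (p.1 + (q.2 + 0 - Hh) * c3)) (q.1 + (Hh - q.2) * d - (p.1 + (q.2 + (Hh - q.2) - Hh) * c3)) := 
      ⟨v3, by rw [vend]; exact hpos⟩
    obtain ⟨s, hs, hs0'⟩ := hiv h0
    exact cross c3 (bd c3 (Or.inr hc3)) hA3 s hs (by linarith [hs0'])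

lemma AffSlope.neg {g : ℝ × ℝ → ℝ} {s0 : ℝ} {w : ℝ × ℝ} {c : ℝ} (h : AffSlope g s0 (-w) c) : 
    AffSlope (fun w => g (-w)) s0 w c := by
  obtain ⟨L, hL⟩ := h
  refine ⟨-L, fun s hs => ?_⟩
  have h1 := hL (-s) (by rwa [abs_neg])
  have e : -(w + s • ((c, 1) : ℝ × ℝ)) = -w + (-s) • (c, 1) := by rw [neg_add, neg_smul]
  change g (-(w + s • ((c, 1) : ℝ × ℝ))) = _
  rw [e, h1]; ring

/-- the three families argument, first family along the first axis -/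
theorem three_families {f : ℝ × ℝ → ℝ} {s0 x0 R m2 M2 m3 M3 α β : ℝ} (hs0 : 0 < s0) (hx0 : 0 < x0) (hR : 0 < R) (hM : M3 < m2) 
    (hx : ∀ x, |x| ≤ x0 → f (x, 0) = α + β * x) 
    (h2 : ∀ w : ℝ × ℝ, |w.1| ≤ R → |w.2| ≤ R → ∃ c ∈ Icc m2 M2, AffSlope f s0 w c) 
    (h3 : ∀ w : ℝ × ℝ, |w.1| ≤ R → |w.2| ≤ R → ∃ c ∈ Icc m3 M3, AffSlope f s0 w c) : 
    ∃ ρ > 0, ∃ σ : ℝ, ∀ w : ℝ × ℝ, |w.1| ≤ ρ → |w.2| ≤ ρ → f w = α + β * w.1 + σ * w.2 := by
  set g : ℝ × ℝ → ℝ := fun w => f w - α - β * w.1 with hg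
  have hgx : ∀ x, |x| ≤ x0 → g (x, 0) = 0 := by
    intro x hxx; simp only [hg]; rw [hx x hxx]; ring
  have conv : ∀ w c, AffSlope f s0 w c → AffSlope g s0 w c := by
    rintro w c ⟨L, hL⟩
    refine ⟨L - β * c, fun s hs => ?_⟩
    simp only [hg]
    rw [hL s hs]
    simp
    ring
  have h2' : ∀ w : ℝ × ℝ, |w.1| ≤ R → |w.2| ≤ R → ∃ c ∈ Icc m2 M2, AffSlope g s0 w c := fun w a b => by
    obtain ⟨c, hc, h⟩ := h2 w a b
    exact ⟨c, hc, conv w c h⟩
  have h3' : ∀ w : ℝ × ℝ, |w.1| ≤ R → |w.2| ≤ R → ∃ c ∈ Icc m3 M3, AffSlope g s0 w c := fun w a b => by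
    obtain ⟨c, hc, h⟩ := h3 w a b
    exact ⟨c, hc, conv w c h⟩
  obtain ⟨ρ1, hρ1, σ1, H1⟩ := upper_half hs0 hx0 hR hM hgx h2' h3'
  obtain ⟨ρ2, hρ2, σ2, H2⟩ := upper_half (g := fun w => g (-w)) hs0 hx0 hR hM 
    (fun x hxx => by
      have := hgx (-x) (by rwa [abs_neg])
      simpa using this) 
    (fun w a b => by
      obtain ⟨c, hc, h⟩ := h2' (-w) (by simpa using a) (by simpa using b)
      exact ⟨c, hc, h.neg⟩)
    (fun w a b => by
      obtain ⟨c, hc, h⟩ := h3' (-w) (by simpa using a) (by simpa using b)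
      exact ⟨c, hc, h.neg⟩)
  -- matching
  obtain ⟨c, hc, L, hL⟩ := h2' 0 (by simp [hR.le]) (by simp [hR.le])
  have hg0 : g 0 = 0 := hgx 0 (by simp [hx0.le])
  set s : ℝ := min (min s0 (min ρ1 ρ2)) (min ρ1 ρ2 / (|c| + 1)) with hs
  have hspos : 0 < s := by positivity
  have hs_s0 : s ≤ s0 := (min_le_left _ _).trans (min_le_left _ _)
  have hs_ρ : s ≤ min ρ1 ρ2 := (min_le_left _ _).trans (min_le_right _ _)
  have hsc : s * |c| ≤ min ρ1 ρ2 := by
    have h1 : s ≤ min ρ1 ρ2 / (|c| + 1) := min_le_right _ _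
    rw [le_div_iff₀ (by positivity)] at h1
    nlinarith [abs_nonneg c]
  have e1 := hL s (by rw [abs_of_pos hspos]; exact hs_s0)
  have e2 := hL (-s) (by rw [abs_neg, abs_of_pos hspos]; exact hs_s0)
  rw [zero_add, hg0] at e1 e2
  have e3 := H1 (s • (c, 1)) (by
    simp only [Prod.smul_mk, smul_eq_mul, abs_mul, abs_of_pos hspos]
    exact hsc.trans (min_le_left _ _)) (by simpa using hspos) (by simpa using hs_ρ.trans (min_le_left _ _))
  have e4 := H2 (s • (c, 1)) (by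
    simp only [Prod.smul_mk, smul_eq_mul, abs_mul, abs_of_pos hspos]
    exact hsc.trans (min_le_right _ _)) (by simpa using hspos) (by simpa using hs_ρ.trans (min_le_right _ _))
  have e5 : -(s • ((c, 1) : ℝ × ℝ)) = (-s) • (c, 1) := by rw [neg_smul]
  rw [e5, e2] at e4
  rw [e1] at e3
  simp at e3 e4
  have hσ : σ2 = -σ1 := by
    have : s * (σ1 + σ2) = 0 := by linarith
    rcases mul_eq_zero.1 this with h | h
    · exact absurd h hspos.ne'
    · linarith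
  refine ⟨min (min ρ1 ρ2) x0, by positivity, σ1, fun w hw1 hw2 => ?_⟩
  have hw11 : |w.1| ≤ ρ1 := hw1.trans ((min_le_left _ _).trans (min_le_left _ _))
  have hw12 : |w.1| ≤ ρ2 := hw1.trans ((min_le_left _ _).trans (min_le_right _ _))
  have hw21 : |w.2| ≤ ρ1 := hw2.trans ((min_le_left _ _).trans (min_le_left _ _))
  have hw22 : |w.2| ≤ ρ2 := hw2.trans ((min_le_left _ _).trans (min_le_right _ _))
  have hgw : g w = σ1 * w.2 := by
    rcases lt_trichotomy w.2 0 with h | h | h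
    · have := H2 (-w) (by simpa using hw12) (by simpa using h) (by 
        have := abs_le.1 hw22; simp; linarith)
      simp only [neg_neg] at this
      rw [this, hσ]; simp
    · have e6 : w = (w.1, 0) := by ext <;> simp [h]
      rw [e6, hgx _ (hw1.trans (min_le_right _ _))]; simp
    · exact H1 w hw11 h (by rw [abs_of_pos h] at hw21; exact hw21)
  simp only [hg] at hgw
  linarith

end Pool.Agent.Helper104.TrSec
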