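import Mathlib
import Pool.Agent.Helper104.TrAffine

open MeasureTheory Set Filter Topology

namespace Pool.Agent.Helper104.TrSec

/-- the functional relation along a direction -/
def E3 (f h : ℝ × ℝ → ℝ) (w e : ℝ × ℝ) : Prop := 
  ∀ r : ℝ, h (w + (r / (1 + (1 / h w - 1 / f w) * f (w + r • e))) • e) = 
    f (w + r • e) / (1 + (1 / h w - 1 / f w) * f (w + r • e))

lemma E3.neg {f h : ℝ × ℝ → ℝ} {w e : ℝ × ℝ} (H : E3 f h w e) : E3 f h w (-e) := by
  intro r
  have h1 := H (-r)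
  have e1 : w + (-r) • e = w + r • -e := by rw [neg_smul, smul_neg]
  rw [e1] at h1
  have e2 : ∀ D : ℝ, (-r / D) • e = (r / D) • -e := by intro D; rw [neg_div, neg_smul, smul_neg]
  rw [e2] at h1
  exact h1

lemma ratio_dir {f h : ℝ × ℝ → ℝ} (pf : ∀ w, 0 < f w) (hh : Continuous h) (ph : ∀ w, 0 < h w) {w e : ℝ × ℝ} (hgt : h w < f w) 
    {C ρ0 p : ℝ} (hρ0 : 0 < ρ0) (hlip : ∀ ρ, 0 < ρ → ρ ≤ ρ0 → |f (w + ρ • e) - f w| ≤ C * ρ) (hp : p < 0)
    (hub : ∀ ρ, 0 < ρ → ρ ≤ ρ0 → f (w + ρ • e) / h (w + ρ • e) ≤ f w / h w + p * ρ) (H : E3 f h w e) : False := by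
  set t : ℝ := 1 / h w - 1 / f w with ht
  have hfw := pf w
  have hhw := ph w
  have ht0 : 0 < t := by
    rw [ht, sub_pos]
    exact one_div_lt_one_div_of_lt hhw hgt
  obtain ⟨x0, hx0, hmin⟩ := (isCompact_Icc (a := (0:ℝ)) (b := ρ0)).exists_isMinOn ⟨0, by simp [hρ0.le]⟩ 
    (f := fun ρ => h (w + ρ • e)) (by fun_prop)
  set m : ℝ := h (w + x0 • e) with hm
  have hm0 : 0 < m := ph _
  have hmle : ∀ ρ, 0 ≤ ρ → ρ ≤ ρ0 → m ≤ h (w + ρ • e) := fun ρ h1 h2 => hmin ⟨h1, h2⟩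
  have hDpos : ∀ r : ℝ, 1 < 1 + t * f (w + r • e) := fun r => by
    have := mul_pos ht0 (pf (w + r • e)); linarith
  -- the step
  have step : ∀ r, 0 < r → r ≤ ρ0 → 0 < r / (1 + t * f (w + r • e)) ∧ r / (1 + t * f (w + r • e)) ≤ ρ0 ∧ 
      (f (w + (r / (1 + t * f (w + r • e))) • e) - f w) / (r / (1 + t * f (w + r • e))) ≤ (f (w + r • e) - f w) / r + p * m := by
    intro r hr hr0
    have hD := hDpos r
    have hD0 : 0 < 1 + t * f (w + r • e) := by linarith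
    have e3 := H r
    rw [← ht] at e3
    set D := 1 + t * f (w + r • e) with hDd
    set r' := r / D with hr'
    have hr'0 : 0 < r' := div_pos hr hD0
    have hr'1 : r' ≤ r := by rw [hr', div_le_iff₀ hD0]; nlinarith
    refine ⟨hr'0, hr'1.trans hr0, ?_⟩
    have h1 := hub r' hr'0 (hr'1.trans hr0)
    have h2 := ph (w + r' • e)
    rw [div_le_iff₀ h2] at h1
    have h3 := hmle r' hr'0.le (hr'1.trans hr0)
    have h4 : p * r' * h (w + r' • e) ≤ p * r' * m := by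
      apply mul_le_mul_of_nonpos_left h3
      nlinarith
    rw [div_le_iff₀ hr'0]
    have h5 : f (w + r' • e) ≤ f w / h w * h (w + r' • e) + p * r' * m := by nlinarith
    rw [e3] at h5
    have ht1 : t * f w = f w / h w - 1 := by rw [ht]; field_simp
    have h6 : f w / h w * (f (w + r • e) / D) - f w = (f (w + r • e) - f w) / D := by
      have hfD : f w * D = f w + (f w / h w - 1) * f (w + r • e) := by
        rw [hDd]; linear_combination f (w + r • e) * ht1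
      rw [eq_div_iff hD0.ne', sub_mul, hfD, mul_assoc, div_mul_cancel₀ _ hD0.ne']
      ring
    have h7 : ((f (w + r • e) - f w) / r + p * m) * r' = (f (w + r • e) - f w) / D + p * r' * m := by
      rw [hr']; field_simp
    rw [h7]
    linarith
  -- iterate
  have iter : ∀ k : ℕ, ∃ r, 0 < r ∧ r ≤ ρ0 ∧ (f (w + r • e) - f w) / r ≤ (f (w + ρ0 • e) - f w) / ρ0 + k * (p * m) := by
    intro k
    induction k with
    | zero => exact ⟨ρ0, hρ0, le_rfl, by simp⟩
    | succ k ih =>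
      obtain ⟨r, h1, h2, h3⟩ := ih
      obtain ⟨h4, h5, h6⟩ := step r h1 h2
      refine ⟨_, h4, h5, h6.trans ?_⟩
      push_cast
      linarith
  have hpm : 0 < -(p * m) := by nlinarith
  obtain ⟨k, hk⟩ := exists_nat_gt (((f (w + ρ0 • e) - f w) / ρ0 + C) / (-(p * m)))
  rw [div_lt_iff₀ hpm] at hk
  obtain ⟨r, h1, h2, h3⟩ := iter k
  have h4 := (abs_le.1 (hlip r h1 h2)).1
  have h5 : -C ≤ (f (w + r • e) - f w) / r := by
    rw [le_div_iff₀ h1]; linarith
  nlinarith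

theorem ratio_const {f h : ℝ × ℝ → ℝ} (hf : Continuous f) (hh : Continuous h) (pf : ∀ w, 0 < f w) (ph : ∀ w, 0 < h w) {R C : ℝ} 
    (hR : 0 < R) (hlip : ∀ w ∈ Metric.ball (0 : ℝ × ℝ) R, ∀ w' ∈ Metric.ball (0 : ℝ × ℝ) R, |f w' - f w| ≤ C * ‖w' - w‖)
    (hgt : ∀ w ∈ Metric.ball (0 : ℝ × ℝ) R, h w < f w)
    (hdir : ∀ w ∈ Metric.ball (0 : ℝ × ℝ) R, ∃ e1 e2 : ℝ × ℝ, e1.1 * e2.2 - e1.2 * e2.1 ≠ 0 ∧ E3 f h w e1 ∧ E3 f h w e2) : 
    ∀ w ∈ Metric.ball (0 : ℝ × ℝ) (R / 4), f w / h w = f 0 / h 0 := by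
  set κ : ℝ × ℝ → ℝ := fun w => f w / h w with hκ
  have hκc : Continuous κ := hf.div hh (fun w => (ph w).ne')
  have hκpos : ∀ w, 0 < κ w := fun w => div_pos (pf w) (ph w)
  obtain ⟨wm, -, hwm⟩ := (isCompact_closedBall (0 : ℝ × ℝ) R).exists_isMaxOn ⟨0, by simp [hR.le]⟩ hκc.continuousOn
  set Mk : ℝ := κ wm with hMk
  have hMk0 : 0 < Mk := hκpos _
  set C0 : ℝ := 4 * (Mk + 1) / R ^ 2 with hC0
  have hC0pos : 0 < C0 := by positivity
  have quad : ∀ a ∈ Metric.ball (0 : ℝ × ℝ) (R / 4), ∀ w ∈ Metric.closedBall a (R / 2), 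
      κ w ≤ κ a + C0 * ((w.1 - a.1) ^ 2 + (w.2 - a.2) ^ 2) := by
    intro a ha
    rw [mem_ball_zero_iff] at ha
    have hsub : Metric.closedBall a (R / 2) ⊆ Metric.ball 0 R := by
      intro w hw
      rw [mem_ball_zero_iff]
      rw [Metric.mem_closedBall, dist_eq_norm] at hw
      calc ‖w‖ = ‖(w - a) + a‖ := by rw [sub_add_cancel]
        _ ≤ ‖w - a‖ + ‖a‖ := norm_add_le _ _
        _ < R := by linarith
    set Φ : ℝ × ℝ → ℝ := fun w => κ w - C0 * ((w.1 - a.1) ^ 2 + (w.2 - a.2) ^ 2) with hΦ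
    have hΦc : Continuous Φ := by fun_prop
    obtain ⟨w0, hw0, hmax⟩ := (isCompact_closedBall a (R / 2)).exists_isMaxOn 
      ⟨a, Metric.mem_closedBall_self (by positivity)⟩ hΦc.continuousOn
    have hΦa : Φ a = κ a := by simp [hΦ]
    have hmax' : ∀ w ∈ Metric.closedBall a (R / 2), Φ w ≤ Φ w0 := fun w hw => hmax hw
    have ha_mem : a ∈ Metric.closedBall a (R / 2) := Metric.mem_closedBall_self (by positivity)
    have hint : w0 ∈ Metric.ball a (R / 2) := by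
      rw [Metric.mem_ball, dist_eq_norm]
      rw [Metric.mem_closedBall, dist_eq_norm] at hw0
      refine lt_of_le_of_ne hw0 fun heq => ?_
      have h1 : R ^ 2 / 4 ≤ (w0.1 - a.1) ^ 2 + (w0.2 - a.2) ^ 2 := by
        rw [Prod.norm_def] at heq
        rcases max_choice ‖(w0 - a).1‖ ‖(w0 - a).2‖ with h | h
        · rw [h] at heq
          have : (w0.1 - a.1) ^ 2 = (R / 2) ^ 2 := by
            rw [← heq, Real.norm_eq_abs, sq_abs]; rfl
          nlinarith [sq_nonneg (w0.2 - a.2)]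
        · rw [h] at heq
          have : (w0.2 - a.2) ^ 2 = (R / 2) ^ 2 := by
            rw [← heq, Real.norm_eq_abs, sq_abs]; rfl
          nlinarith [sq_nonneg (w0.1 - a.1)]
      have h2 : Mk + 1 ≤ C0 * ((w0.1 - a.1) ^ 2 + (w0.2 - a.2) ^ 2) := by
        calc Mk + 1 = C0 * (R ^ 2 / 4) := by rw [hC0]; field_simp
          _ ≤ _ := by gcongr
      have h3 : κ w0 ≤ Mk := hwm (Metric.ball_subset_closedBall (hsub (by rw [Metric.mem_closedBall, dist_eq_norm]; exact hw0)))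
      have h4 := hmax' a ha_mem
      rw [hΦa] at h4
      have h5 := hκpos a
      have h6 : Φ w0 = κ w0 - C0 * ((w0.1 - a.1) ^ 2 + (w0.2 - a.2) ^ 2) := rfl
      linarith
    have hw0R := hsub hw0
    -- directional criticality
    have crit1 : ∀ e : ℝ × ℝ, E3 f h w0 e → 0 ≤ (w0.1 - a.1) * e.1 + (w0.2 - a.2) * e.2 := by
      intro e he
      by_contra hneg
      push Not at hneg
      set p0 : ℝ := (w0.1 - a.1) * e.1 + (w0.2 - a.2) * e.2 with hp0
      -- small radius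
      have hopen : ∀ᶠ ρ in 𝓝 (0:ℝ), w0 + ρ • e ∈ Metric.ball a (R / 2) := by
        have hc : ContinuousAt (fun ρ : ℝ => w0 + ρ • e) 0 := by fun_prop
        apply hc.eventually_mem
        apply Metric.isOpen_ball.mem_nhds
        simpa using hint
      rw [Metric.eventually_nhds_iff] at hopen
      obtain ⟨ε, hε, hopen⟩ := hopen
      set ρ0 : ℝ := min (ε / 2) (-p0 / (e.1 ^ 2 + e.2 ^ 2 + 1)) with hρ0
      have hρ0pos : 0 < ρ0 := by
        apply lt_min (by linarith)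
        apply div_pos (by linarith) (by positivity)
      have hball : ∀ ρ, 0 < ρ → ρ ≤ ρ0 → w0 + ρ • e ∈ Metric.ball a (R / 2) := by
        intro ρ h1 h2
        apply hopen
        rw [Real.dist_eq, sub_zero, abs_of_pos h1]
        linarith [h2.trans (min_le_left _ _)]
      refine ratio_dir pf hh ph (w := w0) (e := e) (hgt w0 hw0R) (C := C * ‖e‖) (ρ0 := ρ0) (p := C0 * p0) hρ0pos ?_ (by nlinarith) ?_ he
      · intro ρ h1 h2
        have := hlip w0 hw0R _ (hsub (Metric.ball_subset_closedBall (hball ρ h1 h2)))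
        rw [add_sub_cancel_left, norm_smul, Real.norm_eq_abs, abs_of_pos h1] at this
        linarith
      · intro ρ h1 h2
        have h3 := hmax' _ (Metric.ball_subset_closedBall (hball ρ h1 h2))
        have h4 : Φ (w0 + ρ • e) = κ (w0 + ρ • e) - C0 * ((w0.1 + ρ * e.1 - a.1) ^ 2 + (w0.2 + ρ * e.2 - a.2) ^ 2) := rfl
        have h5 : Φ w0 = κ w0 - C0 * ((w0.1 - a.1) ^ 2 + (w0.2 - a.2) ^ 2) := rfl
        rw [h4, h5] at h3
        have h6 : ρ * (e.1 ^ 2 + e.2 ^ 2 + 1) ≤ -p0 := by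
          have := h2.trans (min_le_right _ _)
          rwa [le_div_iff₀ (by positivity)] at this
        have h7 : ρ * (ρ * (e.1 ^ 2 + e.2 ^ 2 + 1)) ≤ ρ * (-p0) := mul_le_mul_of_nonneg_left h6 h1.le
        have h8 : (w0.1 + ρ * e.1 - a.1) ^ 2 + (w0.2 + ρ * e.2 - a.2) ^ 2 - ((w0.1 - a.1) ^ 2 + (w0.2 - a.2) ^ 2) ≤ p0 * ρ := by
          have : (w0.1 + ρ * e.1 - a.1) ^ 2 + (w0.2 + ρ * e.2 - a.2) ^ 2 - ((w0.1 - a.1) ^ 2 + (w0.2 - a.2) ^ 2) = 
            2 * p0 * ρ + ρ * (ρ * (e.1 ^ 2 + e.2 ^ 2)) := by rw [hp0]; ring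
          rw [this]
          nlinarith [sq_nonneg ρ]
        have h9 := mul_le_mul_of_nonneg_left h8 hC0pos.le
        change κ (w0 + ρ • e) ≤ κ w0 + C0 * p0 * ρ
        nlinarith
    have crit : ∀ e : ℝ × ℝ, E3 f h w0 e → (w0.1 - a.1) * e.1 + (w0.2 - a.2) * e.2 = 0 := by
      intro e he
      have h1 := crit1 e he
      have h2 := crit1 (-e) he.neg
      simp only [Prod.fst_neg, Prod.snd_neg] at h2
      linarith
    obtain ⟨e1, e2, hdet, hE1, hE2⟩ := hdir w0 hw0R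
    have c1 := crit e1 hE1
    have c2 := crit e2 hE2
    have hx : w0.1 - a.1 = 0 := by
      have : (w0.1 - a.1) * (e1.1 * e2.2 - e1.2 * e2.1) = 0 := by linear_combination e2.2 * c1 - e1.2 * c2
      exact (mul_eq_zero.1 this).resolve_right hdet
    have hy : w0.2 - a.2 = 0 := by
      have : (w0.2 - a.2) * (e1.1 * e2.2 - e1.2 * e2.1) = 0 := by linear_combination e1.1 * c2 - e2.1 * c1
      exact (mul_eq_zero.1 this).resolve_right hdet
    have hwa : w0 = a := by ext <;> linarith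
    intro w hw
    have h1 := hmax' w hw
    rw [hwa, hΦa] at h1
    have h2 : Φ w = κ w - C0 * ((w.1 - a.1) ^ 2 + (w.2 - a.2) ^ 2) := rfl
    linarith
  have quad2 : ∀ a ∈ Metric.ball (0 : ℝ × ℝ) (R / 4), ∀ b ∈ Metric.ball (0 : ℝ × ℝ) (R / 4), |κ b - κ a| ≤ 2 * C0 * ‖b - a‖ ^ 2 := by
    intro a ha b hb
    have hab : ‖b - a‖ ≤ R / 2 := by
      rw [mem_ball_zero_iff] at ha hb
      calc ‖b - a‖ ≤ ‖b‖ + ‖a‖ := norm_sub_le _ _
        _ ≤ R / 2 := by linarith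
    have n1 : (b.1 - a.1) ^ 2 ≤ ‖b - a‖ ^ 2 := by
      rw [← sq_abs]
      exact pow_le_pow_left₀ (abs_nonneg _) (norm_fst_le (b - a)) 2
    have n2 : (b.2 - a.2) ^ 2 ≤ ‖b - a‖ ^ 2 := by
      rw [← sq_abs]
      exact pow_le_pow_left₀ (abs_nonneg _) (norm_snd_le (b - a)) 2
    have q1 := quad a ha b (by rw [Metric.mem_closedBall, dist_eq_norm]; exact hab)
    have q2 := quad b hb a (by rw [Metric.mem_closedBall, dist_eq_norm, norm_sub_rev]; exact hab)
    have m1 := mul_le_mul_of_nonneg_left (add_le_add n1 n2) hC0pos.le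
    rw [abs_le]
    constructor <;> nlinarith
  intro w hw
  have hw' := hw
  rw [mem_ball_zero_iff] at hw'
  -- constant along the segment
  have hseg : ∀ s ∈ Icc (0:ℝ) 1, s • w ∈ Metric.ball (0 : ℝ × ℝ) (R / 4) := by
    intro s hs
    rw [mem_ball_zero_iff, norm_smul, Real.norm_eq_abs, abs_of_nonneg hs.1]
    calc s * ‖w‖ ≤ 1 * ‖w‖ := by gcongr; exact hs.2
      _ < R / 4 := by linarith
  have hcst := constant_of_has_deriv_right_zero (f := fun s : ℝ => κ (s • w)) (a := 0) (b := 1) (by fun_prop) (by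
    intro s hs
    have hs' : s ∈ Icc (0:ℝ) 1 := ⟨hs.1, hs.2.le⟩
    rw [hasDerivWithinAt_iff_isLittleO]
    have hO : (fun x' : ℝ => κ (x' • w) - κ (s • w) - (x' - s) • (0:ℝ)) =O[𝓝[Ici s] s] fun x' => (x' - s) ^ 2 := by
      apply Asymptotics.IsBigO.of_bound (2 * C0 * ‖w‖ ^ 2)
      have hev : ∀ᶠ x' in 𝓝[Ici s] s, x' ∈ Icc (0:ℝ) 1 := by
        have h1 : ∀ᶠ x' in 𝓝[Ici s] s, x' < 1 := (tendsto_id.eventually_lt_const hs.2 : ∀ᶠ x' in 𝓝 s, x' < 1).filter_mono nhdsWithin_le_nhds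
        have h2 : ∀ᶠ x' in 𝓝[Ici s] s, s ≤ x' := eventually_mem_nhdsWithin
        filter_upwards [h1, h2] with x' h1 h2 using ⟨hs.1.trans h2, h1.le⟩
      filter_upwards [hev] with x' hx'
      rw [smul_zero, sub_zero, Real.norm_eq_abs, Real.norm_eq_abs]
      have h3 := quad2 _ (hseg s hs') _ (hseg x' hx')
      rw [← sub_smul, norm_smul, mul_pow, Real.norm_eq_abs, sq_abs] at h3
      rw [abs_of_nonneg (sq_nonneg (x' - s))]
      linarith
    refine hO.trans_isLittleO ?_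
    have : (fun x' : ℝ => (x' - s) ^ 2) =o[𝓝 s] fun x' => x' - s := by
      have h5 := Asymptotics.isLittleO_pow_id (𝕜 := ℝ) (n := 2) (by norm_num)
      have h6 : Tendsto (fun x' : ℝ => x' - s) (𝓝 s) (𝓝 0) := by
        have h7 : Continuous fun x' : ℝ => x' - s := by fun_prop
        simpa using h7.tendsto s
      exact h5.comp_tendsto h6
    exact this.mono nhdsWithin_le_nhds) 1 (by simp)
  simpa using hcst

end Pool.Agent.Helper104.TrSec
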