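import Mathlib
import Pool.Agent.Helper104.TrRatio

open MeasureTheory Set Filter Topology
open scoped NNReal

namespace Pool.Agent.Helper104.TrSec

/-- unit vector of angle `φ` -/
noncomputable def ev (φ : ℝ) : ℝ × ℝ := (Real.cos φ, Real.sin φ)

lemma norm_ev_le (φ : ℝ) : ‖ev φ‖ ≤ 1 := by
  rw [ev, Prod.norm_def]
  exact max_le (Real.abs_cos_le_one φ) (Real.abs_sin_le_one φ)

lemma ev_continuous : Continuous ev := by
  unfold ev; fun_prop

lemma dir_affine {f h : ℝ × ℝ → ℝ} (hf : Continuous f) (pf : ∀ w, 0 < f w) (ph : ∀ w, 0 < h w) {κ R : ℝ} (hκ : 1 < κ) 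
    (hratio : ∀ w ∈ Metric.ball (0 : ℝ × ℝ) R, f w = κ * h w) {w e : ℝ × ℝ} (he : ‖e‖ ≤ 1) (hE : E3 f h w e) {r0 : ℝ} 
    (hr0 : 0 < r0) (hw : ‖w‖ + r0 < R) (hd : DifferentiableAt ℝ f w) : 
    ∃ L, ∀ r, |r| ≤ r0 → f (w + r • e) = f w + r * L := by
  set L := fderiv ℝ f w e with hL
  have hder : HasDerivAt (fun r : ℝ => f (w + r • e)) L 0 := by
    have h1 : HasDerivAt (fun r : ℝ => w + r • e) e 0 := by
      have := ((hasDerivAt_id (0:ℝ)).smul_const e).const_add w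
      simpa using this
    have h2 : HasFDerivAt f (fderiv ℝ f w) (w + (0:ℝ) • e) := by
      rw [zero_smul, add_zero]; exact hd.hasFDerivAt
    exact h2.comp_hasDerivAt 0 h1
  have hin : ∀ r, |r| ≤ r0 → w + r • e ∈ Metric.ball (0 : ℝ × ℝ) R := by
    intro r hr
    rw [mem_ball_zero_iff]
    calc ‖w + r • e‖ ≤ ‖w‖ + ‖r • e‖ := norm_add_le _ _
      _ ≤ ‖w‖ + r0 := by
        rw [norm_smul, Real.norm_eq_abs]
        nlinarith [abs_nonneg r, norm_nonneg e]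
      _ < R := hw
  have hfw := pf w
  have hhw := ph w
  have hw0 : f w = κ * h w := hratio w (by
    have := hin 0 (by simpa using hr0.le)
    simpa using this)
  set t : ℝ := 1 / h w - 1 / f w with ht
  have htf : t * f w = κ - 1 := by
    rw [ht, hw0]
    field_simp
  have ht0 : 0 < t := by
    by_contra hcon
    push Not at hcon
    nlinarith
  obtain ⟨x0, hx0, hmin⟩ := (isCompact_Icc (a := -r0) (b := r0)).exists_isMinOn ⟨0, by simp [hr0.le]⟩ 
    (f := fun ρ => f (w + ρ • e)) (by fun_prop)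
  set m : ℝ := f (w + x0 • e) with hm
  have hm0 : 0 < m := pf _
  have hmle : ∀ ρ, |ρ| ≤ r0 → m ≤ f (w + ρ • e) := fun ρ h1 => hmin (abs_le.1 h1)
  set lam : ℝ := 1 + t * m with hlam
  have hlam1 : 1 < lam := by rw [hlam]; nlinarith [mul_pos ht0 hm0]
  have step : ∀ r, r ≠ 0 → |r| ≤ r0 → ∃ r', r' ≠ 0 ∧ |r'| ≤ |r| / lam ∧ |r'| ≤ r0 ∧ 
      (f (w + r' • e) - f w) / r' = (f (w + r • e) - f w) / r := by
    intro r hr hr1
    have e3 := hE r
    rw [← ht] at e3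
    have hDl : lam ≤ 1 + t * f (w + r • e) := by rw [hlam]; nlinarith [hmle r hr1]
    set D := 1 + t * f (w + r • e) with hD
    have hD0 : 0 < D := by linarith
    have hr' : |r / D| ≤ |r| / lam := by
      rw [abs_div, abs_of_pos hD0]
      exact div_le_div_of_nonneg_left (abs_nonneg r) (by linarith) hDl
    have hr'2 : |r / D| ≤ r0 := by
      refine hr'.trans ?_
      rw [div_le_iff₀ (by linarith)]
      nlinarith [abs_nonneg r]
    refine ⟨r / D, div_ne_zero hr hD0.ne', hr', hr'2, ?_⟩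
    have h1 := hratio _ (hin _ hr'2)
    rw [e3] at h1
    rw [h1]
    have h2 : κ * (f (w + r • e) / D) - f w = (f (w + r • e) - f w) / D := by
      have hfD : f w * D = f w + (κ - 1) * f (w + r • e) := by
        rw [hD]; linear_combination f (w + r • e) * htf
      rw [eq_div_iff hD0.ne', sub_mul, hfD, mul_assoc, div_mul_cancel₀ _ hD0.ne']
      ring
    rw [h2]
    field_simp
  have main : ∀ r, r ≠ 0 → |r| ≤ r0 → (f (w + r • e) - f w) / r = L := by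
    intro r hr hr1
    have iter : ∀ k : ℕ, ∃ s, s ≠ 0 ∧ |s| ≤ |r| / lam ^ k ∧ |s| ≤ r0 ∧ (f (w + s • e) - f w) / s = (f (w + r • e) - f w) / r := by
      intro k
      induction k with
      | zero => exact ⟨r, hr, by simp, hr1, rfl⟩
      | succ k ih =>
        obtain ⟨s, h1, h2, h3, h4⟩ := ih
        obtain ⟨s', g1, g2, g3, g4⟩ := step s h1 h3
        refine ⟨s', g1, g2.trans ?_, g3, g4.trans h4⟩
        rw [pow_succ, ← div_div]
        exact div_le_div_of_nonneg_right h2 (by linarith)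
    choose s hs1 hs2 hs3 hs4 using iter
    have t0 : Tendsto s atTop (𝓝[≠] 0) := by
      rw [tendsto_nhdsWithin_iff]
      refine ⟨?_, Eventually.of_forall fun k => hs1 k⟩
      have h1 : Tendsto (fun k : ℕ => |r| / lam ^ k) atTop (𝓝 0) :=
        (tendsto_const_nhds (x := |r|)).div_atTop (tendsto_pow_atTop_atTop_of_one_lt hlam1)
      exact squeeze_zero_norm (fun k => hs2 k) h1
    have t1 := (hasDerivAt_iff_tendsto_slope_zero.1 hder).comp t0
    have t2 : Tendsto (fun k : ℕ => (f (w + r • e) - f w) / r) atTop (𝓝 L) := by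
      refine t1.congr fun k => ?_
      rw [← hs4 k]
      simp only [Function.comp, zero_add, smul_eq_mul, zero_smul, add_zero]
      rw [div_eq_inv_mul]
    exact tendsto_nhds_unique tendsto_const_nhds t2
  refine ⟨L, fun r hr => ?_⟩
  by_cases h0 : r = 0
  · subst h0; simp
  · have := main r h0 hr
    rw [div_eq_iff h0] at this
    linarith

theorem aff_all {f h : ℝ × ℝ → ℝ} (hf : Continuous f) (pf : ∀ w, 0 < f w) (ph : ∀ w, 0 < h w) {κ R C : ℝ} (hκ : 1 < κ) (hR : 0 < R)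
    (hlip : ∀ w ∈ Metric.ball (0 : ℝ × ℝ) R, ∀ w' ∈ Metric.ball (0 : ℝ × ℝ) R, |f w' - f w| ≤ C * ‖w' - w‖)
    (hratio : ∀ w ∈ Metric.ball (0 : ℝ × ℝ) R, f w = κ * h w) {a b : ℝ} 
    (hdir : ∀ w ∈ Metric.ball (0 : ℝ × ℝ) R, ∃ φ ∈ Icc a b, E3 f h w (ev φ)) {w : ℝ × ℝ} (hw : ‖w‖ ≤ R / 4) : 
    ∃ φ ∈ Icc a b, ∃ L, ∀ r, |r| ≤ R / 4 → f (w + r • ev φ) = f w + r * L := by
  -- density of differentiability points
  have hL : LipschitzOnWith (Real.toNNReal C) f (Metric.ball (0 : ℝ × ℝ) R) := by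
    apply LipschitzOnWith.of_dist_le_mul
    intro x hx y hy
    rw [Real.dist_eq, dist_eq_norm]
    calc |f x - f y| ≤ C * ‖x - y‖ := hlip y hy x hx
      _ ≤ _ := by
        apply mul_le_mul_of_nonneg_right _ (norm_nonneg _)
        exact Real.le_coe_toNNReal C
  obtain ⟨F, hF1, hF2⟩ := hL.extend_real
  have hae : ∀ᵐ x : ℝ × ℝ, DifferentiableAt ℝ F x := hF1.ae_differentiableAt
  have hdense := Measure.dense_of_ae hae
  have hdiff : ∀ x ∈ Metric.ball (0 : ℝ × ℝ) R, DifferentiableAt ℝ F x → DifferentiableAt ℝ f x := by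
    intro x hx h
    refine h.congr_of_eventuallyEq ?_
    filter_upwards [Metric.isOpen_ball.mem_nhds hx] with y hy using hF2 hy
  have hseq : ∀ k : ℕ, ∃ x : ℝ × ℝ, ‖x - w‖ < min (1 / ((k : ℝ) + 1)) (R / 4) ∧ DifferentiableAt ℝ f x := by
    intro k
    have hpos : 0 < min (1 / ((k : ℝ) + 1)) (R / 4) := lt_min (by positivity) (by positivity)
    obtain ⟨x, hx1, hx2⟩ := hdense.exists_mem_open Metric.isOpen_ball ⟨w, Metric.mem_ball_self hpos⟩
    rw [Metric.mem_ball, dist_eq_norm] at hx2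
    refine ⟨x, hx2, hdiff x ?_ hx1⟩
    rw [mem_ball_zero_iff]
    calc ‖x‖ = ‖(x - w) + w‖ := by rw [sub_add_cancel]
      _ ≤ ‖x - w‖ + ‖w‖ := norm_add_le _ _
      _ < R := by linarith [hx2.trans_le (min_le_right _ _)]
  choose x hx1 hx2 using hseq
  have hxR : ∀ k, ‖x k‖ < R / 2 := by
    intro k
    calc ‖x k‖ = ‖(x k - w) + w‖ := by rw [sub_add_cancel]
      _ ≤ ‖x k - w‖ + ‖w‖ := norm_add_le _ _
      _ < R / 2 := by linarith [(hx1 k).trans_le (min_le_right _ _)]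
  have hφ : ∀ k, ∃ φ ∈ Icc a b, E3 f h (x k) (ev φ) := fun k => hdir _ (by rw [mem_ball_zero_iff]; linarith [hxR k])
  choose φ hφ1 hφ2 using hφ
  have haff : ∀ k, ∃ L, ∀ r, |r| ≤ R / 4 → f (x k + r • ev (φ k)) = f (x k) + r * L := fun k =>
    dir_affine hf pf ph hκ hratio (norm_ev_le _) (hφ2 k) (by positivity) (by linarith [hxR k]) (hx2 k)
  obtain ⟨φ0, hφ0, ψ, hψ, hlim⟩ := isCompact_Icc.tendsto_subseq hφ1
  have hxlim : Tendsto x atTop (𝓝 w) := by
    rw [tendsto_iff_norm_sub_tendsto_zero]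
    refine squeeze_zero (fun k => norm_nonneg _) (fun k => ((hx1 k).trans_le (min_le_left _ _)).le) ?_
    exact tendsto_one_div_add_atTop_nhds_zero_nat
  have hxlim2 : Tendsto (fun k => x (ψ k)) atTop (𝓝 w) := hxlim.comp hψ.tendsto_atTop
  have hlimr : ∀ r : ℝ, Tendsto (fun k => f (x (ψ k) + r • ev (φ (ψ k)))) atTop (𝓝 (f (w + r • ev φ0))) := by
    intro r
    have h1 : Tendsto (fun k => ev (φ (ψ k))) atTop (𝓝 (ev φ0)) := (ev_continuous.tendsto φ0).comp hlim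
    exact (hf.tendsto _).comp (hxlim2.add (h1.const_smul r))
  have hlim0 : Tendsto (fun k => f (x (ψ k))) atTop (𝓝 (f w)) := (hf.tendsto _).comp hxlim2
  refine ⟨φ0, hφ0, (f (w + (R / 4) • ev φ0) - f w) / (R / 4), fun r hr => ?_⟩
  have key : (R / 4) * (f (w + r • ev φ0) - f w) = r * (f (w + (R / 4) • ev φ0) - f w) := by
    have h1 := ((hlimr r).sub hlim0).const_mul (R / 4)
    have h2 := ((hlimr (R / 4)).sub hlim0).const_mul r
    refine tendsto_nhds_unique h1 (h2.congr fun k => ?_)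
    obtain ⟨L, hLk⟩ := haff (ψ k)
    rw [hLk r hr, hLk (R / 4) (by rw [abs_of_pos (by positivity)])]
    ring
  have hR4 : R / 4 ≠ 0 := by positivity
  field_simp at key ⊢
  linarith

/-- The planar theorem -/
theorem planar {f h : ℝ × ℝ → ℝ} (hf : Continuous f) (hh : Continuous h) (pf : ∀ w, 0 < f w) (ph : ∀ w, 0 < h w) {R C : ℝ} 
    (hR : 0 < R) (hlip : ∀ w ∈ Metric.ball (0 : ℝ × ℝ) R, ∀ w' ∈ Metric.ball (0 : ℝ × ℝ) R, |f w' - f w| ≤ C * ‖w' - w‖)
    (hgt : ∀ w ∈ Metric.ball (0 : ℝ × ℝ) R, h w < f w) {a1 b1 a2 b2 a3 b3 : ℝ} (h12 : b1 < a2) (h23 : b2 < a3) (h31 : b3 < a1 + Real.pi)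
    (hd1 : ∀ w ∈ Metric.ball (0 : ℝ × ℝ) R, ∃ φ ∈ Icc a1 b1, E3 f h w (ev φ)) 
    (hd2 : ∀ w ∈ Metric.ball (0 : ℝ × ℝ) R, ∃ φ ∈ Icc a2 b2, E3 f h w (ev φ)) 
    (hd3 : ∀ w ∈ Metric.ball (0 : ℝ × ℝ) R, ∃ φ ∈ Icc a3 b3, E3 f h w (ev φ)) : 
    ∃ κ ρ c0 c1 c2 : ℝ, 1 < κ ∧ 0 < ρ ∧ ∀ w ∈ Metric.ball (0 : ℝ × ℝ) ρ, f w = c0 + c1 * w.1 + c2 * w.2 ∧ f w = κ * h w := by
  have h0R : (0 : ℝ × ℝ) ∈ Metric.ball (0 : ℝ × ℝ) R := by simpa using hR
  obtain ⟨_, ⟨u1, u2⟩, -⟩ := hd1 0 h0R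
  obtain ⟨_, ⟨u3, u4⟩, -⟩ := hd2 0 h0R
  obtain ⟨_, ⟨u5, u6⟩, -⟩ := hd3 0 h0R
  have hconst := ratio_const hf hh pf ph hR hlip hgt (fun w hw => by
    obtain ⟨φ1, hφ1, e1⟩ := hd1 w hw
    obtain ⟨φ2, hφ2, e2⟩ := hd2 w hw
    refine ⟨ev φ1, ev φ2, ?_, e1, e2⟩
    have : (ev φ1).1 * (ev φ2).2 - (ev φ1).2 * (ev φ2).1 = Real.sin (φ2 - φ1) := by
      rw [Real.sin_sub]; simp only [ev]; ring
    rw [this]
    exact (Real.sin_pos_of_pos_of_lt_pi (by linarith [hφ1.2, hφ2.1]) (by linarith [hφ1.1, hφ2.2])).ne')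
  set κ : ℝ := f 0 / h 0 with hκ
  have hκ1 : 1 < κ := by
    rw [hκ, one_lt_div (ph 0)]
    exact hgt 0 h0R
  set R1 : ℝ := R / 4 with hR1
  have hR1pos : 0 < R1 := by positivity
  have hsub : Metric.ball (0 : ℝ × ℝ) R1 ⊆ Metric.ball (0 : ℝ × ℝ) R := Metric.ball_subset_ball (by linarith)
  have hratio : ∀ w ∈ Metric.ball (0 : ℝ × ℝ) R1, f w = κ * h w := by
    intro w hw
    have := hconst w hw
    rw [div_eq_iff (ph w).ne'] at this
    exact this
  have hlip1 : ∀ w ∈ Metric.ball (0 : ℝ × ℝ) R1, ∀ w' ∈ Metric.ball (0 : ℝ × ℝ) R1, |f w' - f w| ≤ C * ‖w' - w‖ := 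
    fun w hw w' hw' => hlip w (hsub hw) w' (hsub hw')
  have A1 := fun (w : ℝ × ℝ) (hw : ‖w‖ ≤ R1 / 4) => aff_all hf pf ph hκ1 hR1pos hlip1 hratio (fun w hw => hd1 w (hsub hw)) hw
  have A2 := fun (w : ℝ × ℝ) (hw : ‖w‖ ≤ R1 / 4) => aff_all hf pf ph hκ1 hR1pos hlip1 hratio (fun w hw => hd2 w (hsub hw)) hw
  have A3 := fun (w : ℝ × ℝ) (hw : ‖w‖ ≤ R1 / 4) => aff_all hf pf ph hκ1 hR1pos hlip1 hratio (fun w hw => hd3 w (hsub hw)) hw
  set r0 : ℝ := R1 / 4 with hr0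
  have hr0pos : 0 < r0 := by positivity
  obtain ⟨φ1, hφ1, β, hβ⟩ := A1 0 (by simpa using hr0pos.le)
  -- rotated function
  set cs := Real.cos φ1 with hcs
  set sn := Real.sin φ1 with hsn
  have hcsn : cs ^ 2 + sn ^ 2 = 1 := Real.cos_sq_add_sin_sq φ1
  set rot : ℝ × ℝ → ℝ × ℝ := fun w => (w.1 * cs - w.2 * sn, w.1 * sn + w.2 * cs) with hrot
  have hcs1 : |cs| ≤ 1 := Real.abs_cos_le_one φ1
  have hsn1 : |sn| ≤ 1 := Real.abs_sin_le_one φ1
  have hrotn : ∀ w : ℝ × ℝ, ‖rot w‖ ≤ |w.1| + |w.2| := by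
    intro w
    simp only [hrot, Prod.norm_def, Real.norm_eq_abs]
    apply max_le
    · calc |w.1 * cs - w.2 * sn| ≤ |w.1 * cs| + |w.2 * sn| := abs_sub _ _
        _ = |w.1| * |cs| + |w.2| * |sn| := by rw [abs_mul, abs_mul]
        _ ≤ |w.1| * 1 + |w.2| * 1 := by gcongr
        _ = _ := by ring
    · calc |w.1 * sn + w.2 * cs| ≤ |w.1 * sn| + |w.2 * cs| := abs_add_le _ _
        _ = |w.1| * |sn| + |w.2| * |cs| := by rw [abs_mul, abs_mul]
        _ ≤ |w.1| * 1 + |w.2| * 1 := by gcongr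
        _ = _ := by ring
  -- lower bound of sine
  obtain ⟨x0, hx0, hmin⟩ := (isCompact_Icc (a := a2 - φ1) (b := b3 - φ1)).exists_isMinOn ⟨a2 - φ1, by
    constructor <;> linarith⟩ (f := Real.sin) Real.continuous_sin.continuousOn
  set σ0 : ℝ := Real.sin x0 with hσ0
  have hσ0pos : 0 < σ0 := Real.sin_pos_of_pos_of_lt_pi (by linarith [hx0.1, hφ1.2]) (by linarith [hx0.2, hφ1.1])
  have hσle : ∀ φ, a2 ≤ φ → φ ≤ b3 → σ0 ≤ Real.sin (φ - φ1) := fun φ h1 h2 => hmin ⟨by linarith, by linarith⟩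
  have conv : ∀ w : ℝ × ℝ, ∀ φ, a2 ≤ φ → φ ≤ b3 → (∃ L, ∀ r, |r| ≤ r0 → f (rot w + r • ev φ) = f (rot w) + r * L) → 
      AffSlope (fun w => f (rot w)) (r0 * σ0) w (Real.cos (φ - φ1) / Real.sin (φ - φ1)) := by
    rintro w φ g1 g2 ⟨L, hL⟩
    have hs := hσle φ g1 g2
    have hspos : 0 < Real.sin (φ - φ1) := by linarith
    refine ⟨L / Real.sin (φ - φ1), fun s hs' => ?_⟩
    have h1 := hL (s / Real.sin (φ - φ1)) (by
      rw [abs_div, abs_of_pos hspos, div_le_iff₀ hspos]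
      calc |s| ≤ r0 * σ0 := hs'
        _ ≤ r0 * Real.sin (φ - φ1) := by gcongr)
    have h2 : rot (w + s • (Real.cos (φ - φ1) / Real.sin (φ - φ1), 1)) = rot w + (s / Real.sin (φ - φ1)) • ev φ := by
      have c1 : Real.cos φ = Real.cos (φ - φ1) * cs - Real.sin (φ - φ1) * sn := by
        rw [hcs, hsn, ← Real.cos_add]; congr 1; ring
      have c2 : Real.sin φ = Real.sin (φ - φ1) * cs + Real.cos (φ - φ1) * sn := by
        rw [hcs, hsn, ← Real.sin_add]; congr 1; ring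
      ext
      · simp only [hrot, ev, Prod.fst_add, Prod.snd_add, Prod.smul_mk, smul_eq_mul, c1]
        field_simp
        ring
      · simp only [hrot, ev, Prod.fst_add, Prod.snd_add, Prod.smul_mk, smul_eq_mul, c2]
        field_simp
        ring
    simp only
    rw [h2, h1]
    ring
  have cotmono : ∀ x y, 0 < x → x ≤ y → y < Real.pi → Real.cos y / Real.sin y ≤ Real.cos x / Real.sin x := by
    intro x y hx hxy hy
    have s1 := Real.sin_pos_of_pos_of_lt_pi hx (by linarith)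
    have s2 := Real.sin_pos_of_pos_of_lt_pi (by linarith : 0 < y) hy
    rw [div_le_div_iff₀ s2 s1]
    have := Real.sin_nonneg_of_nonneg_of_le_pi (by linarith : 0 ≤ y - x) (by linarith)
    rw [Real.sin_sub] at this
    linarith
  have cotlt : ∀ x y, 0 < x → x < y → y < Real.pi → Real.cos y / Real.sin y < Real.cos x / Real.sin x := by
    intro x y hx hxy hy
    have s1 := Real.sin_pos_of_pos_of_lt_pi hx (by linarith)
    have s2 := Real.sin_pos_of_pos_of_lt_pi (by linarith : 0 < y) hy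
    rw [div_lt_div_iff₀ s2 s1]
    have := Real.sin_pos_of_pos_of_lt_pi (by linarith : 0 < y - x) (by linarith)
    rw [Real.sin_sub] at this
    linarith
  obtain ⟨ρ, hρ, σ, hσ⟩ := three_families (f := fun w => f (rot w)) (s0 := r0 * σ0) (x0 := r0) (R := r0 / 2) 
    (m2 := Real.cos (b2 - φ1) / Real.sin (b2 - φ1)) (M2 := Real.cos (a2 - φ1) / Real.sin (a2 - φ1)) 
    (m3 := Real.cos (b3 - φ1) / Real.sin (b3 - φ1)) (M3 := Real.cos (a3 - φ1) / Real.sin (a3 - φ1)) (α := f 0) (β := β)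
    (by positivity) hr0pos (by positivity) 
    (cotlt _ _ (by linarith [hφ1.2]) (by linarith) (by linarith [hφ1.1]))
    (by
      intro x hx
      have h1 := hβ x hx
      rw [zero_add] at h1
      have h2 : rot (x, 0) = x • ev φ1 := by
        simp only [hrot, ev]; ext <;> simp [hcs, hsn]
      simp only [h2]
      rw [h1]; ring)
    (by
      intro w hw1 hw2
      obtain ⟨φ, hφ, hA⟩ := A2 (rot w) ((hrotn w).trans (by linarith))
      refine ⟨_, ⟨?_, ?_⟩, conv w φ hφ.1 (by linarith [hφ.2]) hA⟩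
      · exact cotmono _ _ (by linarith [hφ1.2, hφ.1]) (by linarith [hφ.2]) (by linarith [hφ1.1])
      · exact cotmono _ _ (by linarith [hφ1.2]) (by linarith [hφ.1]) (by linarith [hφ1.1, hφ.2]))
    (by
      intro w hw1 hw2
      obtain ⟨φ, hφ, hA⟩ := A3 (rot w) ((hrotn w).trans (by linarith))
      refine ⟨_, ⟨?_, ?_⟩, conv w φ (by linarith [hφ.1]) hφ.2 hA⟩
      · exact cotmono _ _ (by linarith [hφ1.2, hφ.1]) (by linarith [hφ.2]) (by linarith [hφ1.1])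
      · exact cotmono _ _ (by linarith [hφ1.2]) (by linarith [hφ.1]) (by linarith [hφ1.1, hφ.2]))
  refine ⟨κ, min (ρ / 2) R1, f 0, β * cs - σ * sn, β * sn + σ * cs, hκ1, lt_min (by positivity) hR1pos, fun w hw => ⟨?_, ?_⟩⟩
  · rw [mem_ball_zero_iff, Prod.norm_def] at hw
    have w1 : |w.1| ≤ ρ / 2 := (le_max_left _ _).trans (hw.le.trans (min_le_left _ _))
    have w2 : |w.2| ≤ ρ / 2 := (le_max_right _ _).trans (hw.le.trans (min_le_left _ _))
    have h1 := hσ (w.1 * cs + w.2 * sn, -w.1 * sn + w.2 * cs) (by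
      calc |w.1 * cs + w.2 * sn| ≤ |w.1 * cs| + |w.2 * sn| := abs_add_le _ _
        _ = |w.1| * |cs| + |w.2| * |sn| := by rw [abs_mul, abs_mul]
        _ ≤ |w.1| * 1 + |w.2| * 1 := by gcongr
        _ ≤ ρ := by linarith) (by
      calc |-w.1 * sn + w.2 * cs| ≤ |-w.1 * sn| + |w.2 * cs| := abs_add_le _ _
        _ = |w.1| * |sn| + |w.2| * |cs| := by rw [abs_mul, abs_mul, abs_neg]
        _ ≤ |w.1| * 1 + |w.2| * 1 := by gcongr
        _ ≤ ρ := by linarith)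
    have h2 : rot (w.1 * cs + w.2 * sn, -w.1 * sn + w.2 * cs) = w := by
      ext
      · simp only [hrot]; linear_combination w.1 * hcsn
      · simp only [hrot]; linear_combination w.2 * hcsn
    simp only [h2] at h1
    rw [h1]; ring
  · exact hratio w (Metric.ball_subset_ball (min_le_right _ _) hw)

end Pool.Agent.Helper104.TrSec
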