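import Mathlib
import Pool.Agent.Helper104.TrPlanar

open MeasureTheory Set Filter Topology
open scoped NNReal

namespace Pool.Agent.Helper104.TrSec

/-- the functional relation with a frozen scaling factor -/
def E3s (f h : ℝ × ℝ → ℝ) (w e : ℝ × ℝ) : Prop := 
  ∃ c : ℝ, 0 < c ∧ h w < c * f w ∧ E3 (fun z => c * f z) h w e

lemma E3s.neg {f h : ℝ × ℝ → ℝ} {w e : ℝ × ℝ} (H : E3s f h w e) : E3s f h w (-e) := by
  obtain ⟨c, hc, h1, h2⟩ := H
  exact ⟨c, hc, h1, h2.neg⟩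

theorem ratio_const_s {f h : ℝ × ℝ → ℝ} (hf : Continuous f) (hh : Continuous h) (pf : ∀ w, 0 < f w) (ph : ∀ w, 0 < h w) {R C : ℝ} 
    (hR : 0 < R) (hlip : ∀ w ∈ Metric.ball (0 : ℝ × ℝ) R, ∀ w' ∈ Metric.ball (0 : ℝ × ℝ) R, |f w' - f w| ≤ C * ‖w' - w‖)
    (hdir : ∀ w ∈ Metric.ball (0 : ℝ × ℝ) R, ∃ e1 e2 : ℝ × ℝ, e1.1 * e2.2 - e1.2 * e2.1 ≠ 0 ∧ E3s f h w e1 ∧ E3s f h w e2) : 
    ∀ w ∈ Metric.ball (0 : ℝ × ℝ) (R / 4), f w / h w = f 0 / h 0 := by
  set κ : ℝ × ℝ → ℝ := fun w => f w / h w with hκ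
  have hκc : Continuous κ := hf.div hh (fun w => (ph w).ne')
  have hκpos : ∀ w, 0 < κ w := fun w => div_pos (pf w) (ph w)
  obtain ⟨wm, -, hwm⟩ := (isCompact_closedBall (0 : ℝ × ℝ) R).exists_isMaxOn ⟨0, by simp [hR.le]⟩ hκc.continuousOn
  set Mk : ℝ := κ wm with hMk
  have hMk0 : 0 < Mk := hκpos _
  set C0 : ℝ := 4 * (Mk + 1) / R ^ 2 with hC0
  have hC0pos : 0 < C0 := by positivity
  have quad : ∀ a ∈ Metric.ball (0 : ℝ × ℝ) (R / 4), ∀ w ∈ Metric.closedBall a (R / 2), 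
      κ w ≤ κ a + C0 * ((w.1 - a.1) ^ 2 + (w.2 - a.2) ^ 2) := by
    intro a ha
    rw [mem_ball_zero_iff] at ha
    have hsub : Metric.closedBall a (R / 2) ⊆ Metric.ball 0 R := by
      intro w hw
      rw [mem_ball_zero_iff]
      rw [Metric.mem_closedBall, dist_eq_norm] at hw
      calc ‖w‖ = ‖(w - a) + a‖ := by rw [sub_add_cancel]
        _ ≤ ‖w - a‖ + ‖a‖ := norm_add_le _ _
        _ < R := by linarith
    set Φ : ℝ × ℝ → ℝ := fun w => κ w - C0 * ((w.1 - a.1) ^ 2 + (w.2 - a.2) ^ 2) with hΦ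
    have hΦc : Continuous Φ := by fun_prop
    obtain ⟨w0, hw0, hmax⟩ := (isCompact_closedBall a (R / 2)).exists_isMaxOn 
      ⟨a, Metric.mem_closedBall_self (by positivity)⟩ hΦc.continuousOn
    have hΦa : Φ a = κ a := by simp [hΦ]
    have hmax' : ∀ w ∈ Metric.closedBall a (R / 2), Φ w ≤ Φ w0 := fun w hw => hmax hw
    have ha_mem : a ∈ Metric.closedBall a (R / 2) := Metric.mem_closedBall_self (by positivity)
    have hint : w0 ∈ Metric.ball a (R / 2) := by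
      rw [Metric.mem_ball, dist_eq_norm]
      rw [Metric.mem_closedBall, dist_eq_norm] at hw0
      refine lt_of_le_of_ne hw0 fun heq => ?_
      have h1 : R ^ 2 / 4 ≤ (w0.1 - a.1) ^ 2 + (w0.2 - a.2) ^ 2 := by
        rw [Prod.norm_def] at heq
        rcases max_choice ‖(w0 - a).1‖ ‖(w0 - a).2‖ with h | h
        · rw [h] at heq
          have : (w0.1 - a.1) ^ 2 = (R / 2) ^ 2 := by
            rw [← heq, Real.norm_eq_abs, sq_abs]; rfl
          nlinarith [sq_nonneg (w0.2 - a.2)]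
        · rw [h] at heq
          have : (w0.2 - a.2) ^ 2 = (R / 2) ^ 2 := by
            rw [← heq, Real.norm_eq_abs, sq_abs]; rfl
          nlinarith [sq_nonneg (w0.1 - a.1)]
      have h2 : Mk + 1 ≤ C0 * ((w0.1 - a.1) ^ 2 + (w0.2 - a.2) ^ 2) := by
        calc Mk + 1 = C0 * (R ^ 2 / 4) := by rw [hC0]; field_simp
          _ ≤ _ := by gcongr
      have h3 : κ w0 ≤ Mk := hwm (Metric.ball_subset_closedBall (hsub (by rw [Metric.mem_closedBall, dist_eq_norm]; exact hw0)))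
      have h4 := hmax' a ha_mem
      rw [hΦa] at h4
      have h5 := hκpos a
      have h6 : Φ w0 = κ w0 - C0 * ((w0.1 - a.1) ^ 2 + (w0.2 - a.2) ^ 2) := rfl
      linarith
    have hw0R := hsub hw0
    -- directional criticality
    have crit1 : ∀ e : ℝ × ℝ, E3s f h w0 e → 0 ≤ (w0.1 - a.1) * e.1 + (w0.2 - a.2) * e.2 := by
      rintro e ⟨c, hc, hcgt, he⟩
      by_contra hneg
      push Not at hneg
      set p0 : ℝ := (w0.1 - a.1) * e.1 + (w0.2 - a.2) * e.2 with hp0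
      -- small radius
      have hopen : ∀ᶠ ρ in 𝓝 (0:ℝ), w0 + ρ • e ∈ Metric.ball a (R / 2) := by
        have hc : ContinuousAt (fun ρ : ℝ => w0 + ρ • e) 0 := by fun_prop
        apply hc.eventually_mem
        apply Metric.isOpen_ball.mem_nhds
        simpa using hint
      rw [Metric.eventually_nhds_iff] at hopen
      obtain ⟨ε, hε, hopen⟩ := hopen
      set ρ0 : ℝ := min (ε / 2) (-p0 / (e.1 ^ 2 + e.2 ^ 2 + 1)) with hρ0
      have hρ0pos : 0 < ρ0 := by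
        apply lt_min (by linarith)
        apply div_pos (by linarith) (by positivity)
      have hball : ∀ ρ, 0 < ρ → ρ ≤ ρ0 → w0 + ρ • e ∈ Metric.ball a (R / 2) := by
        intro ρ h1 h2
        apply hopen
        rw [Real.dist_eq, sub_zero, abs_of_pos h1]
        linarith [h2.trans (min_le_left _ _)]
      refine ratio_dir (f := fun z => c * f z) (fun w => mul_pos hc (pf w)) hh ph (w := w0) (e := e) hcgt (C := c * (C * ‖e‖)) (ρ0 := ρ0) (p := c * (C0 * p0)) hρ0pos ?_ 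
        (mul_neg_of_pos_of_neg hc (by nlinarith)) ?_ he
      · intro ρ h1 h2
        have := hlip w0 hw0R _ (hsub (Metric.ball_subset_closedBall (hball ρ h1 h2)))
        rw [add_sub_cancel_left, norm_smul, Real.norm_eq_abs, abs_of_pos h1] at this
        rw [← mul_sub, abs_mul, abs_of_pos hc]
        calc c * |f (w0 + ρ • e) - f w0| ≤ c * (C * (ρ * ‖e‖)) := mul_le_mul_of_nonneg_left this hc.le
          _ = c * (C * ‖e‖) * ρ := by ring
      · intro ρ h1 h2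
        have hsuff : κ (w0 + ρ • e) ≤ κ w0 + C0 * p0 * ρ → c * f (w0 + ρ • e) / h (w0 + ρ • e) ≤ c * f w0 / h w0 + c * (C0 * p0) * ρ := by
          intro hh
          have := mul_le_mul_of_nonneg_left hh hc.le
          calc c * f (w0 + ρ • e) / h (w0 + ρ • e) = c * κ (w0 + ρ • e) := by rw [hκ, mul_div_assoc]
            _ ≤ _ := this
            _ = c * f w0 / h w0 + c * (C0 * p0) * ρ := by rw [hκ]; ring
        apply hsuff
        have h3 := hmax' _ (Metric.ball_subset_closedBall (hball ρ h1 h2))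
        have h4 : Φ (w0 + ρ • e) = κ (w0 + ρ • e) - C0 * ((w0.1 + ρ * e.1 - a.1) ^ 2 + (w0.2 + ρ * e.2 - a.2) ^ 2) := rfl
        have h5 : Φ w0 = κ w0 - C0 * ((w0.1 - a.1) ^ 2 + (w0.2 - a.2) ^ 2) := rfl
        rw [h4, h5] at h3
        have h6 : ρ * (e.1 ^ 2 + e.2 ^ 2 + 1) ≤ -p0 := by
          have := h2.trans (min_le_right _ _)
          rwa [le_div_iff₀ (by positivity)] at this
        have h7 : ρ * (ρ * (e.1 ^ 2 + e.2 ^ 2 + 1)) ≤ ρ * (-p0) := mul_le_mul_of_nonneg_left h6 h1.le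
        have h8 : (w0.1 + ρ * e.1 - a.1) ^ 2 + (w0.2 + ρ * e.2 - a.2) ^ 2 - ((w0.1 - a.1) ^ 2 + (w0.2 - a.2) ^ 2) ≤ p0 * ρ := by
          have : (w0.1 + ρ * e.1 - a.1) ^ 2 + (w0.2 + ρ * e.2 - a.2) ^ 2 - ((w0.1 - a.1) ^ 2 + (w0.2 - a.2) ^ 2) = 
            2 * p0 * ρ + ρ * (ρ * (e.1 ^ 2 + e.2 ^ 2)) := by rw [hp0]; ring
          rw [this]
          nlinarith [sq_nonneg ρ]
        have h9 := mul_le_mul_of_nonneg_left h8 hC0pos.le
        change κ (w0 + ρ • e) ≤ κ w0 + C0 * p0 * ρ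
        nlinarith
    have crit : ∀ e : ℝ × ℝ, E3s f h w0 e → (w0.1 - a.1) * e.1 + (w0.2 - a.2) * e.2 = 0 := by
      intro e he
      have h1 := crit1 e he
      have h2 := crit1 (-e) he.neg
      simp only [Prod.fst_neg, Prod.snd_neg] at h2
      linarith
    obtain ⟨e1, e2, hdet, hE1, hE2⟩ := hdir w0 hw0R
    have c1 := crit e1 hE1
    have c2 := crit e2 hE2
    have hx : w0.1 - a.1 = 0 := by
      have : (w0.1 - a.1) * (e1.1 * e2.2 - e1.2 * e2.1) = 0 := by linear_combination e2.2 * c1 - e1.2 * c2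
      exact (mul_eq_zero.1 this).resolve_right hdet
    have hy : w0.2 - a.2 = 0 := by
      have : (w0.2 - a.2) * (e1.1 * e2.2 - e1.2 * e2.1) = 0 := by linear_combination e1.1 * c2 - e2.1 * c1
      exact (mul_eq_zero.1 this).resolve_right hdet
    have hwa : w0 = a := by ext <;> linarith
    intro w hw
    have h1 := hmax' w hw
    rw [hwa, hΦa] at h1
    have h2 : Φ w = κ w - C0 * ((w.1 - a.1) ^ 2 + (w.2 - a.2) ^ 2) := rfl
    linarith
  have quad2 : ∀ a ∈ Metric.ball (0 : ℝ × ℝ) (R / 4), ∀ b ∈ Metric.ball (0 : ℝ × ℝ) (R / 4), |κ b - κ a| ≤ 2 * C0 * ‖b - a‖ ^ 2 := by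
    intro a ha b hb
    have hab : ‖b - a‖ ≤ R / 2 := by
      rw [mem_ball_zero_iff] at ha hb
      calc ‖b - a‖ ≤ ‖b‖ + ‖a‖ := norm_sub_le _ _
        _ ≤ R / 2 := by linarith
    have n1 : (b.1 - a.1) ^ 2 ≤ ‖b - a‖ ^ 2 := by
      rw [← sq_abs]
      exact pow_le_pow_left₀ (abs_nonneg _) (norm_fst_le (b - a)) 2
    have n2 : (b.2 - a.2) ^ 2 ≤ ‖b - a‖ ^ 2 := by
      rw [← sq_abs]
      exact pow_le_pow_left₀ (abs_nonneg _) (norm_snd_le (b - a)) 2
    have q1 := quad a ha b (by rw [Metric.mem_closedBall, dist_eq_norm]; exact hab)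
    have q2 := quad b hb a (by rw [Metric.mem_closedBall, dist_eq_norm, norm_sub_rev]; exact hab)
    have m1 := mul_le_mul_of_nonneg_left (add_le_add n1 n2) hC0pos.le
    rw [abs_le]
    constructor <;> nlinarith
  intro w hw
  have hw' := hw
  rw [mem_ball_zero_iff] at hw'
  -- constant along the segment
  have hseg : ∀ s ∈ Icc (0:ℝ) 1, s • w ∈ Metric.ball (0 : ℝ × ℝ) (R / 4) := by
    intro s hs
    rw [mem_ball_zero_iff, norm_smul, Real.norm_eq_abs, abs_of_nonneg hs.1]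
    calc s * ‖w‖ ≤ 1 * ‖w‖ := by gcongr; exact hs.2
      _ < R / 4 := by linarith
  have hcst := constant_of_has_deriv_right_zero (f := fun s : ℝ => κ (s • w)) (a := 0) (b := 1) (by fun_prop) (by
    intro s hs
    have hs' : s ∈ Icc (0:ℝ) 1 := ⟨hs.1, hs.2.le⟩
    rw [hasDerivWithinAt_iff_isLittleO]
    have hO : (fun x' : ℝ => κ (x' • w) - κ (s • w) - (x' - s) • (0:ℝ)) =O[𝓝[Ici s] s] fun x' => (x' - s) ^ 2 := by
      apply Asymptotics.IsBigO.of_bound (2 * C0 * ‖w‖ ^ 2)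
      have hev : ∀ᶠ x' in 𝓝[Ici s] s, x' ∈ Icc (0:ℝ) 1 := by
        have h1 : ∀ᶠ x' in 𝓝[Ici s] s, x' < 1 := (tendsto_id.eventually_lt_const hs.2 : ∀ᶠ x' in 𝓝 s, x' < 1).filter_mono nhdsWithin_le_nhds
        have h2 : ∀ᶠ x' in 𝓝[Ici s] s, s ≤ x' := eventually_mem_nhdsWithin
        filter_upwards [h1, h2] with x' h1 h2 using ⟨hs.1.trans h2, h1.le⟩
      filter_upwards [hev] with x' hx'
      rw [smul_zero, sub_zero, Real.norm_eq_abs, Real.norm_eq_abs]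
      have h3 := quad2 _ (hseg s hs') _ (hseg x' hx')
      rw [← sub_smul, norm_smul, mul_pow, Real.norm_eq_abs, sq_abs] at h3
      rw [abs_of_nonneg (sq_nonneg (x' - s))]
      linarith
    refine hO.trans_isLittleO ?_
    have : (fun x' : ℝ => (x' - s) ^ 2) =o[𝓝 s] fun x' => x' - s := by
      have h5 := Asymptotics.isLittleO_pow_id (𝕜 := ℝ) (n := 2) (by norm_num)
      have h6 : Tendsto (fun x' : ℝ => x' - s) (𝓝 s) (𝓝 0) := by
        have h7 : Continuous fun x' : ℝ => x' - s := by fun_prop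
        simpa using h7.tendsto s
      exact h5.comp_tendsto h6
    exact this.mono nhdsWithin_le_nhds) 1 (by simp)
  simpa using hcst

theorem aff_all_s {f h : ℝ × ℝ → ℝ} (hf : Continuous f) (pf : ∀ w, 0 < f w) (ph : ∀ w, 0 < h w) {κ R C : ℝ} (hR : 0 < R)
    (hlip : ∀ w ∈ Metric.ball (0 : ℝ × ℝ) R, ∀ w' ∈ Metric.ball (0 : ℝ × ℝ) R, |f w' - f w| ≤ C * ‖w' - w‖)
    (hratio : ∀ w ∈ Metric.ball (0 : ℝ × ℝ) R, f w = κ * h w) {a b : ℝ} 
    (hdir : ∀ w ∈ Metric.ball (0 : ℝ × ℝ) R, ∃ φ ∈ Icc a b, E3s f h w (ev φ)) {w : ℝ × ℝ} (hw : ‖w‖ ≤ R / 4) : 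
    ∃ φ ∈ Icc a b, ∃ L, ∀ r, |r| ≤ R / 4 → f (w + r • ev φ) = f w + r * L := by
  -- density of differentiability points
  have hL : LipschitzOnWith (Real.toNNReal C) f (Metric.ball (0 : ℝ × ℝ) R) := by
    apply LipschitzOnWith.of_dist_le_mul
    intro x hx y hy
    rw [Real.dist_eq, dist_eq_norm]
    calc |f x - f y| ≤ C * ‖x - y‖ := hlip y hy x hx
      _ ≤ _ := by
        apply mul_le_mul_of_nonneg_right _ (norm_nonneg _)
        exact Real.le_coe_toNNReal C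
  obtain ⟨F, hF1, hF2⟩ := hL.extend_real
  have hae : ∀ᵐ x : ℝ × ℝ, DifferentiableAt ℝ F x := hF1.ae_differentiableAt
  have hdense := Measure.dense_of_ae hae
  have hdiff : ∀ x ∈ Metric.ball (0 : ℝ × ℝ) R, DifferentiableAt ℝ F x → DifferentiableAt ℝ f x := by
    intro x hx h
    refine h.congr_of_eventuallyEq ?_
    filter_upwards [Metric.isOpen_ball.mem_nhds hx] with y hy using hF2 hy
  have hseq : ∀ k : ℕ, ∃ x : ℝ × ℝ, ‖x - w‖ < min (1 / ((k : ℝ) + 1)) (R / 4) ∧ DifferentiableAt ℝ f x := by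
    intro k
    have hpos : 0 < min (1 / ((k : ℝ) + 1)) (R / 4) := lt_min (by positivity) (by positivity)
    obtain ⟨x, hx1, hx2⟩ := hdense.exists_mem_open Metric.isOpen_ball ⟨w, Metric.mem_ball_self hpos⟩
    rw [Metric.mem_ball, dist_eq_norm] at hx2
    refine ⟨x, hx2, hdiff x ?_ hx1⟩
    rw [mem_ball_zero_iff]
    calc ‖x‖ = ‖(x - w) + w‖ := by rw [sub_add_cancel]
      _ ≤ ‖x - w‖ + ‖w‖ := norm_add_le _ _
      _ < R := by linarith [hx2.trans_le (min_le_right _ _)]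
  choose x hx1 hx2 using hseq
  have hxR : ∀ k, ‖x k‖ < R / 2 := by
    intro k
    calc ‖x k‖ = ‖(x k - w) + w‖ := by rw [sub_add_cancel]
      _ ≤ ‖x k - w‖ + ‖w‖ := norm_add_le _ _
      _ < R / 2 := by linarith [(hx1 k).trans_le (min_le_right _ _)]
  have hφ : ∀ k, ∃ φ ∈ Icc a b, E3s f h (x k) (ev φ) := fun k => hdir _ (by rw [mem_ball_zero_iff]; linarith [hxR k])
  choose φ hφ1 hφ2 using hφ
  have haff : ∀ k, ∃ L, ∀ r, |r| ≤ R / 4 → f (x k + r • ev (φ k)) = f (x k) + r * L := by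
    intro k
    obtain ⟨c, hc, hcgt, hE⟩ := hφ2 k
    have hxk : x k ∈ Metric.ball (0 : ℝ × ℝ) R := by rw [mem_ball_zero_iff]; linarith [hxR k]
    have hκ : 1 < c * κ := by
      rw [hratio _ hxk] at hcgt
      have := ph (x k)
      nlinarith
    obtain ⟨L, hL⟩ := dir_affine (f := fun z => c * f z) (h := h) (κ := c * κ) (continuous_const.mul hf) (fun w => mul_pos hc (pf w)) ph hκ 
      (fun w hw => by rw [hratio w hw]; ring) (norm_ev_le _) hE (r0 := R / 4) (by positivity) (by linarith [hxR k]) ((hx2 k).const_mul c)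
    refine ⟨L / c, fun r hr => ?_⟩
    have := hL r hr
    have h1 : c * f (x k + r • ev (φ k)) = c * (f (x k) + r * (L / c)) := by
      rw [this]; field_simp
    exact mul_left_cancel₀ hc.ne' h1
  obtain ⟨φ0, hφ0, ψ, hψ, hlim⟩ := isCompact_Icc.tendsto_subseq hφ1
  have hxlim : Tendsto x atTop (𝓝 w) := by
    rw [tendsto_iff_norm_sub_tendsto_zero]
    refine squeeze_zero (fun k => norm_nonneg _) (fun k => ((hx1 k).trans_le (min_le_left _ _)).le) ?_
    exact tendsto_one_div_add_atTop_nhds_zero_nat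
  have hxlim2 : Tendsto (fun k => x (ψ k)) atTop (𝓝 w) := hxlim.comp hψ.tendsto_atTop
  have hlimr : ∀ r : ℝ, Tendsto (fun k => f (x (ψ k) + r • ev (φ (ψ k)))) atTop (𝓝 (f (w + r • ev φ0))) := by
    intro r
    have h1 : Tendsto (fun k => ev (φ (ψ k))) atTop (𝓝 (ev φ0)) := (ev_continuous.tendsto φ0).comp hlim
    exact (hf.tendsto _).comp (hxlim2.add (h1.const_smul r))
  have hlim0 : Tendsto (fun k => f (x (ψ k))) atTop (𝓝 (f w)) := (hf.tendsto _).comp hxlim2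
  refine ⟨φ0, hφ0, (f (w + (R / 4) • ev φ0) - f w) / (R / 4), fun r hr => ?_⟩
  have key : (R / 4) * (f (w + r • ev φ0) - f w) = r * (f (w + (R / 4) • ev φ0) - f w) := by
    have h1 := ((hlimr r).sub hlim0).const_mul (R / 4)
    have h2 := ((hlimr (R / 4)).sub hlim0).const_mul r
    refine tendsto_nhds_unique h1 (h2.congr fun k => ?_)
    obtain ⟨L, hLk⟩ := haff (ψ k)
    rw [hLk r hr, hLk (R / 4) (by rw [abs_of_pos (by positivity)])]
    ring
  have hR4 : R / 4 ≠ 0 := by positivity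
  field_simp at key ⊢
  linarith

/-- The planar theorem -/
theorem planar_s {f h : ℝ × ℝ → ℝ} (hf : Continuous f) (hh : Continuous h) (pf : ∀ w, 0 < f w) (ph : ∀ w, 0 < h w) {R C : ℝ} 
    (hR : 0 < R) (hlip : ∀ w ∈ Metric.ball (0 : ℝ × ℝ) R, ∀ w' ∈ Metric.ball (0 : ℝ × ℝ) R, |f w' - f w| ≤ C * ‖w' - w‖)
    {a1 b1 a2 b2 a3 b3 : ℝ} (h12 : b1 < a2) (h23 : b2 < a3) (h31 : b3 < a1 + Real.pi)
    (hd1 : ∀ w ∈ Metric.ball (0 : ℝ × ℝ) R, ∃ φ ∈ Icc a1 b1, E3s f h w (ev φ)) 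
    (hd2 : ∀ w ∈ Metric.ball (0 : ℝ × ℝ) R, ∃ φ ∈ Icc a2 b2, E3s f h w (ev φ)) 
    (hd3 : ∀ w ∈ Metric.ball (0 : ℝ × ℝ) R, ∃ φ ∈ Icc a3 b3, E3s f h w (ev φ)) : 
    ∃ κ ρ c0 c1 c2 : ℝ, 0 < κ ∧ 0 < ρ ∧ ∀ w ∈ Metric.ball (0 : ℝ × ℝ) ρ, f w = c0 + c1 * w.1 + c2 * w.2 ∧ f w = κ * h w := by
  have h0R : (0 : ℝ × ℝ) ∈ Metric.ball (0 : ℝ × ℝ) R := by simpa using hR
  obtain ⟨_, ⟨u1, u2⟩, -⟩ := hd1 0 h0R
  obtain ⟨_, ⟨u3, u4⟩, -⟩ := hd2 0 h0R
  obtain ⟨_, ⟨u5, u6⟩, -⟩ := hd3 0 h0R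
  have hconst := ratio_const_s hf hh pf ph hR hlip (fun w hw => by
    obtain ⟨φ1, hφ1, e1⟩ := hd1 w hw
    obtain ⟨φ2, hφ2, e2⟩ := hd2 w hw
    refine ⟨ev φ1, ev φ2, ?_, e1, e2⟩
    have : (ev φ1).1 * (ev φ2).2 - (ev φ1).2 * (ev φ2).1 = Real.sin (φ2 - φ1) := by
      rw [Real.sin_sub]; simp only [ev]; ring
    rw [this]
    exact (Real.sin_pos_of_pos_of_lt_pi (by linarith [hφ1.2, hφ2.1]) (by linarith [hφ1.1, hφ2.2])).ne')
  set κ : ℝ := f 0 / h 0 with hκ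
  have hκ1 : 0 < κ := by
    rw [hκ]
    exact div_pos (pf 0) (ph 0)
  set R1 : ℝ := R / 4 with hR1
  have hR1pos : 0 < R1 := by positivity
  have hsub : Metric.ball (0 : ℝ × ℝ) R1 ⊆ Metric.ball (0 : ℝ × ℝ) R := Metric.ball_subset_ball (by linarith)
  have hratio : ∀ w ∈ Metric.ball (0 : ℝ × ℝ) R1, f w = κ * h w := by
    intro w hw
    have := hconst w hw
    rw [div_eq_iff (ph w).ne'] at this
    exact this
  have hlip1 : ∀ w ∈ Metric.ball (0 : ℝ × ℝ) R1, ∀ w' ∈ Metric.ball (0 : ℝ × ℝ) R1, |f w' - f w| ≤ C * ‖w' - w‖ := 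
    fun w hw w' hw' => hlip w (hsub hw) w' (hsub hw')
  have A1 := fun (w : ℝ × ℝ) (hw : ‖w‖ ≤ R1 / 4) => aff_all_s hf pf ph hR1pos hlip1 hratio (fun w hw => hd1 w (hsub hw)) hw
  have A2 := fun (w : ℝ × ℝ) (hw : ‖w‖ ≤ R1 / 4) => aff_all_s hf pf ph hR1pos hlip1 hratio (fun w hw => hd2 w (hsub hw)) hw
  have A3 := fun (w : ℝ × ℝ) (hw : ‖w‖ ≤ R1 / 4) => aff_all_s hf pf ph hR1pos hlip1 hratio (fun w hw => hd3 w (hsub hw)) hw
  set r0 : ℝ := R1 / 4 with hr0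
  have hr0pos : 0 < r0 := by positivity
  obtain ⟨φ1, hφ1, β, hβ⟩ := A1 0 (by simpa using hr0pos.le)
  -- rotated function
  set cs := Real.cos φ1 with hcs
  set sn := Real.sin φ1 with hsn
  have hcsn : cs ^ 2 + sn ^ 2 = 1 := Real.cos_sq_add_sin_sq φ1
  set rot : ℝ × ℝ → ℝ × ℝ := fun w => (w.1 * cs - w.2 * sn, w.1 * sn + w.2 * cs) with hrot
  have hcs1 : |cs| ≤ 1 := Real.abs_cos_le_one φ1
  have hsn1 : |sn| ≤ 1 := Real.abs_sin_le_one φ1
  have hrotn : ∀ w : ℝ × ℝ, ‖rot w‖ ≤ |w.1| + |w.2| := by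
    intro w
    simp only [hrot, Prod.norm_def, Real.norm_eq_abs]
    apply max_le
    · calc |w.1 * cs - w.2 * sn| ≤ |w.1 * cs| + |w.2 * sn| := abs_sub _ _
        _ = |w.1| * |cs| + |w.2| * |sn| := by rw [abs_mul, abs_mul]
        _ ≤ |w.1| * 1 + |w.2| * 1 := by gcongr
        _ = _ := by ring
    · calc |w.1 * sn + w.2 * cs| ≤ |w.1 * sn| + |w.2 * cs| := abs_add_le _ _
        _ = |w.1| * |sn| + |w.2| * |cs| := by rw [abs_mul, abs_mul]
        _ ≤ |w.1| * 1 + |w.2| * 1 := by gcongr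
        _ = _ := by ring
  -- lower bound of sine
  obtain ⟨x0, hx0, hmin⟩ := (isCompact_Icc (a := a2 - φ1) (b := b3 - φ1)).exists_isMinOn ⟨a2 - φ1, by
    constructor <;> linarith⟩ (f := Real.sin) Real.continuous_sin.continuousOn
  set σ0 : ℝ := Real.sin x0 with hσ0
  have hσ0pos : 0 < σ0 := Real.sin_pos_of_pos_of_lt_pi (by linarith [hx0.1, hφ1.2]) (by linarith [hx0.2, hφ1.1])
  have hσle : ∀ φ, a2 ≤ φ → φ ≤ b3 → σ0 ≤ Real.sin (φ - φ1) := fun φ h1 h2 => hmin ⟨by linarith, by linarith⟩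
  have conv : ∀ w : ℝ × ℝ, ∀ φ, a2 ≤ φ → φ ≤ b3 → (∃ L, ∀ r, |r| ≤ r0 → f (rot w + r • ev φ) = f (rot w) + r * L) → 
      AffSlope (fun w => f (rot w)) (r0 * σ0) w (Real.cos (φ - φ1) / Real.sin (φ - φ1)) := by
    rintro w φ g1 g2 ⟨L, hL⟩
    have hs := hσle φ g1 g2
    have hspos : 0 < Real.sin (φ - φ1) := by linarith
    refine ⟨L / Real.sin (φ - φ1), fun s hs' => ?_⟩
    have h1 := hL (s / Real.sin (φ - φ1)) (by
      rw [abs_div, abs_of_pos hspos, div_le_iff₀ hspos]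
      calc |s| ≤ r0 * σ0 := hs'
        _ ≤ r0 * Real.sin (φ - φ1) := by gcongr)
    have h2 : rot (w + s • (Real.cos (φ - φ1) / Real.sin (φ - φ1), 1)) = rot w + (s / Real.sin (φ - φ1)) • ev φ := by
      have c1 : Real.cos φ = Real.cos (φ - φ1) * cs - Real.sin (φ - φ1) * sn := by
        rw [hcs, hsn, ← Real.cos_add]; congr 1; ring
      have c2 : Real.sin φ = Real.sin (φ - φ1) * cs + Real.cos (φ - φ1) * sn := by
        rw [hcs, hsn, ← Real.sin_add]; congr 1; ring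
      ext
      · simp only [hrot, ev, Prod.fst_add, Prod.snd_add, Prod.smul_mk, smul_eq_mul, c1]
        field_simp
        ring
      · simp only [hrot, ev, Prod.fst_add, Prod.snd_add, Prod.smul_mk, smul_eq_mul, c2]
        field_simp
        ring
    simp only
    rw [h2, h1]
    ring
  have cotmono : ∀ x y, 0 < x → x ≤ y → y < Real.pi → Real.cos y / Real.sin y ≤ Real.cos x / Real.sin x := by
    intro x y hx hxy hy
    have s1 := Real.sin_pos_of_pos_of_lt_pi hx (by linarith)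
    have s2 := Real.sin_pos_of_pos_of_lt_pi (by linarith : 0 < y) hy
    rw [div_le_div_iff₀ s2 s1]
    have := Real.sin_nonneg_of_nonneg_of_le_pi (by linarith : 0 ≤ y - x) (by linarith)
    rw [Real.sin_sub] at this
    linarith
  have cotlt : ∀ x y, 0 < x → x < y → y < Real.pi → Real.cos y / Real.sin y < Real.cos x / Real.sin x := by
    intro x y hx hxy hy
    have s1 := Real.sin_pos_of_pos_of_lt_pi hx (by linarith)
    have s2 := Real.sin_pos_of_pos_of_lt_pi (by linarith : 0 < y) hy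
    rw [div_lt_div_iff₀ s2 s1]
    have := Real.sin_pos_of_pos_of_lt_pi (by linarith : 0 < y - x) (by linarith)
    rw [Real.sin_sub] at this
    linarith
  obtain ⟨ρ, hρ, σ, hσ⟩ := three_families (f := fun w => f (rot w)) (s0 := r0 * σ0) (x0 := r0) (R := r0 / 2) 
    (m2 := Real.cos (b2 - φ1) / Real.sin (b2 - φ1)) (M2 := Real.cos (a2 - φ1) / Real.sin (a2 - φ1)) 
    (m3 := Real.cos (b3 - φ1) / Real.sin (b3 - φ1)) (M3 := Real.cos (a3 - φ1) / Real.sin (a3 - φ1)) (α := f 0) (β := β)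
    (by positivity) hr0pos (by positivity) 
    (cotlt _ _ (by linarith [hφ1.2]) (by linarith) (by linarith [hφ1.1]))
    (by
      intro x hx
      have h1 := hβ x hx
      rw [zero_add] at h1
      have h2 : rot (x, 0) = x • ev φ1 := by
        simp only [hrot, ev]; ext <;> simp [hcs, hsn]
      simp only [h2]
      rw [h1]; ring)
    (by
      intro w hw1 hw2
      obtain ⟨φ, hφ, hA⟩ := A2 (rot w) ((hrotn w).trans (by linarith))
      refine ⟨_, ⟨?_, ?_⟩, conv w φ hφ.1 (by linarith [hφ.2]) hA⟩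
      · exact cotmono _ _ (by linarith [hφ1.2, hφ.1]) (by linarith [hφ.2]) (by linarith [hφ1.1])
      · exact cotmono _ _ (by linarith [hφ1.2]) (by linarith [hφ.1]) (by linarith [hφ1.1, hφ.2]))
    (by
      intro w hw1 hw2
      obtain ⟨φ, hφ, hA⟩ := A3 (rot w) ((hrotn w).trans (by linarith))
      refine ⟨_, ⟨?_, ?_⟩, conv w φ (by linarith [hφ.1]) hφ.2 hA⟩
      · exact cotmono _ _ (by linarith [hφ1.2, hφ.1]) (by linarith [hφ.2]) (by linarith [hφ1.1])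
      · exact cotmono _ _ (by linarith [hφ1.2]) (by linarith [hφ.1]) (by linarith [hφ1.1, hφ.2]))
  refine ⟨κ, min (ρ / 2) R1, f 0, β * cs - σ * sn, β * sn + σ * cs, hκ1, lt_min (by positivity) hR1pos, fun w hw => ⟨?_, ?_⟩⟩
  · rw [mem_ball_zero_iff, Prod.norm_def] at hw
    have w1 : |w.1| ≤ ρ / 2 := (le_max_left _ _).trans (hw.le.trans (min_le_left _ _))
    have w2 : |w.2| ≤ ρ / 2 := (le_max_right _ _).trans (hw.le.trans (min_le_left _ _))
    have h1 := hσ (w.1 * cs + w.2 * sn, -w.1 * sn + w.2 * cs) (by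
      calc |w.1 * cs + w.2 * sn| ≤ |w.1 * cs| + |w.2 * sn| := abs_add_le _ _
        _ = |w.1| * |cs| + |w.2| * |sn| := by rw [abs_mul, abs_mul]
        _ ≤ |w.1| * 1 + |w.2| * 1 := by gcongr
        _ ≤ ρ := by linarith) (by
      calc |-w.1 * sn + w.2 * cs| ≤ |-w.1 * sn| + |w.2 * cs| := abs_add_le _ _
        _ = |w.1| * |sn| + |w.2| * |cs| := by rw [abs_mul, abs_mul, abs_neg]
        _ ≤ |w.1| * 1 + |w.2| * 1 := by gcongr
        _ ≤ ρ := by linarith)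
    have h2 : rot (w.1 * cs + w.2 * sn, -w.1 * sn + w.2 * cs) = w := by
      ext
      · simp only [hrot]; linear_combination w.1 * hcsn
      · simp only [hrot]; linear_combination w.2 * hcsn
    simp only [h2] at h1
    rw [h1]; ring
  · exact hratio w (Metric.ball_subset_ball (min_le_right _ _) hw)


end Pool.Agent.Helper104.TrSec
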