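import Mathlib
import Pool.Agent.Helper104.TrSign

open MeasureTheory Set Filter Topology
open scoped RealInnerProductSpace

namespace Pool.Agent.Helper104.TrSec

variable {V : Type} [NormedAddCommGroup V] [InnerProductSpace ℝ V]

theorem lip_crit {g : V → ℝ} (hg : Continuous g) {θ : V} {R δ M : ℝ} (hδ : 0 < δ) (hM : δ < M) (hRM : R ≤ M) 
    (hmove : ∀ y ∈ Metric.ball θ R, ∀ d : V, ‖d‖ = 1 → ∃ ξ : V, ‖ξ‖ ≤ M ∧ δ ≤ ⟪ξ, d⟫ ∧ ∀ s ∈ Icc (0:ℝ) 1, g (y + s • ξ) ≤ g y + M * s) : 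
    ∃ C, 0 ≤ C ∧ ∀ y ∈ Metric.ball θ (R / 3), ∀ y' ∈ Metric.ball θ (R / 3), g y' ≤ g y + C * ‖y' - y‖ := by
  have hM0 : 0 < M := hδ.trans hM
  set q : ℝ := √(1 - δ ^ 2 / M ^ 2) with hq
  have hlt : δ ^ 2 / M ^ 2 < 1 := by
    rw [div_lt_one (by positivity)]
    exact pow_lt_pow_left₀ hM hδ.le (by norm_num)
  have hq0 : 0 ≤ q := Real.sqrt_nonneg _
  have hqsq : q ^ 2 = 1 - δ ^ 2 / M ^ 2 := Real.sq_sqrt (by linarith)
  have hq1 : q < 1 := by
    rw [hq, Real.sqrt_lt' one_pos]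
    have : 0 < δ ^ 2 / M ^ 2 := by positivity
    linarith
  have step : ∀ z ∈ Metric.ball θ R, ∀ y' : V, ‖y' - z‖ ≤ M → 
      ∃ z', ‖y' - z'‖ ≤ q * ‖y' - z‖ ∧ g z' ≤ g z + ‖y' - z‖ := by
    intro z hz y' hy'
    by_cases h0 : y' - z = 0
    · exact ⟨z, by rw [h0]; simp, by linarith [norm_nonneg (y' - z)]⟩
    have hD : 0 < ‖y' - z‖ := norm_pos_iff.2 h0
    set D := ‖y' - z‖ with hDdef
    obtain ⟨ξ, hξ1, hξ2, hξ3⟩ := hmove z hz (D⁻¹ • (y' - z)) (by rw [norm_smul, norm_inv, norm_norm, inv_mul_cancel₀ hD.ne'])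
    rw [inner_smul_right] at hξ2
    have hξ2' : δ * D ≤ ⟪ξ, y' - z⟫ := by
      have := mul_le_mul_of_nonneg_right hξ2 hD.le
      rw [mul_comm D⁻¹, mul_assoc, inv_mul_cancel₀ hD.ne', mul_one] at this
      exact this
    set s := δ * D / M ^ 2 with hs
    have hs0 : 0 ≤ s := by positivity
    have hsM : s * M ≤ D := by
      rw [hs, div_mul_eq_mul_div, div_le_iff₀ (by positivity)]
      nlinarith [mul_pos hD hM0]
    have hs1 : s ≤ 1 := by
      rw [hs, div_le_one (by positivity)]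
      nlinarith
    refine ⟨z + s • ξ, ?_, ?_⟩
    · have e1 : y' - (z + s • ξ) = (y' - z) - s • ξ := by abel
      have e2 : ‖y' - (z + s • ξ)‖ ^ 2 ≤ (q * D) ^ 2 := by
        rw [e1, norm_sub_sq_real, inner_smul_right, norm_smul, Real.norm_eq_abs, abs_of_nonneg hs0, mul_pow, mul_pow, hqsq,
          real_inner_comm, ← hDdef]
        have e3 : ‖ξ‖ ^ 2 ≤ M ^ 2 := pow_le_pow_left₀ (norm_nonneg _) hξ1 2
        have e4 : s * (δ * D) ≤ s * ⟪ξ, y' - z⟫ := mul_le_mul_of_nonneg_left hξ2' hs0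
        have e5 : s ^ 2 * ‖ξ‖ ^ 2 ≤ s ^ 2 * M ^ 2 := mul_le_mul_of_nonneg_left e3 (sq_nonneg s)
        have e6 : s * M ^ 2 = δ * D := by rw [hs, div_mul_cancel₀ _ (by positivity)]
        have e7 : s ^ 2 * M ^ 2 = s * (δ * D) := by rw [sq, mul_assoc, e6]
        have e8 : s * (δ * D) = δ ^ 2 / M ^ 2 * D ^ 2 := by rw [hs]; ring
        nlinarith
      exact (pow_le_pow_iff_left₀ (norm_nonneg _) (by positivity) (by norm_num)).1 e2
    · have := hξ3 s ⟨hs0, hs1⟩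
      linarith
  refine ⟨1 / (1 - q), by rw [one_div]; exact inv_nonneg.2 (by linarith), fun y hy y' hy' => ?_⟩
  have hR : 0 < R := by
    have := dist_nonneg.trans_lt (Metric.mem_ball.1 hy)
    linarith
  set D := ‖y' - y‖ with hD
  have hD2 : D < 2 * R / 3 := by
    rw [hD]
    calc ‖y' - y‖ = dist y' y := (dist_eq_norm _ _).symm
      _ ≤ dist y' θ + dist y θ := dist_triangle_right _ _ _
      _ < R / 3 + R / 3 := add_lt_add hy' hy
      _ = _ := by ring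
  have key : ∀ k : ℕ, ∃ z, ‖y' - z‖ ≤ q ^ k * D ∧ g z ≤ g y + D * ((1 - q ^ k) / (1 - q)) := by
    intro k
    induction k with
    | zero => exact ⟨y, by simp [hD], by simp⟩
    | succ k ih =>
      obtain ⟨z, hz1, hz2⟩ := ih
      have hqk : q ^ k ≤ 1 := pow_le_one₀ hq0 hq1.le
      have hqk0 : 0 ≤ q ^ k := pow_nonneg hq0 k
      have hzD : ‖y' - z‖ ≤ D := hz1.trans (by nlinarith [norm_nonneg (y' - y)])
      have hzR : z ∈ Metric.ball θ R := by
        rw [Metric.mem_ball]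
        calc dist z θ ≤ dist z y' + dist y' θ := dist_triangle _ _ _
          _ < 2 * R / 3 + R / 3 := by
            apply add_lt_add _ hy'
            rw [dist_comm, dist_eq_norm]
            linarith
          _ = R := by ring
      obtain ⟨z', h1, h2⟩ := step z hzR y' (by linarith)
      refine ⟨z', ?_, ?_⟩
      · calc ‖y' - z'‖ ≤ q * ‖y' - z‖ := h1
          _ ≤ q * (q ^ k * D) := by gcongr
          _ = q ^ (k + 1) * D := by ring
      · have h3 : g z' ≤ g y + D * ((1 - q ^ k) / (1 - q)) + q ^ k * D := by linarith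
        have h4 : D * ((1 - q ^ k) / (1 - q)) + q ^ k * D = D * ((1 - q ^ (k + 1)) / (1 - q)) := by
          have : 1 - q ≠ 0 := by linarith
          field_simp
          ring
        linarith
  choose z hz1 hz2 using key
  have t1 : Tendsto z atTop (𝓝 y') := by
    rw [tendsto_iff_norm_sub_tendsto_zero]
    have t2 : Tendsto (fun k => q ^ k * D) atTop (𝓝 0) := by
      simpa using (tendsto_pow_atTop_nhds_zero_of_lt_one hq0 hq1).mul_const D
    refine squeeze_zero (fun k => norm_nonneg _) (fun k => ?_) t2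
    rw [norm_sub_rev]; exact hz1 k
  have t2 : Tendsto (fun k => g (z k)) atTop (𝓝 (g y')) := (hg.tendsto y').comp t1
  refine le_of_tendsto t2 (Eventually.of_forall fun k => (hz2 k).trans ?_)
  have h1q : 0 < 1 - q := by linarith
  have hqk0 : 0 ≤ q ^ k := pow_nonneg hq0 k
  have : (1 - q ^ k) / (1 - q) ≤ 1 / (1 - q) := by
    apply div_le_div_of_nonneg_right _ h1q.le
    linarith
  have := mul_le_mul_of_nonneg_left this (norm_nonneg (y' - y))
  linarith [mul_comm (1 / (1 - q)) D]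

variable [FiniteDimensional ℝ V] {G H : Gauge V} {X : V → V}

theorem exists_moves (hX : ∀ u, u ≠ 0 → Tr G H u (X u)) {θ : V} (hθ : θ ≠ 0) (hT : TwoSided X θ) : 
    ∃ R δ M : ℝ, 0 < R ∧ 0 < δ ∧ δ < M ∧ R ≤ M ∧ ∀ y ∈ Metric.ball θ R, ∀ d : V, ‖d‖ = 1 → 
      ∃ ξ : V, ‖ξ‖ ≤ M ∧ δ ≤ ⟪ξ, d⟫ ∧ ∀ s ∈ Icc (0:ℝ) 1, G.g (y + s • ξ) ≤ G.g y + M * s := by
  obtain ⟨c, C, hc, hC, hb⟩ := G.exists_bounds
  set M : ℝ := max 1 (max (1 / c) (max (‖θ‖ + 1) (G.g θ + 1))) with hM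
  have hM1 : 1 ≤ M := le_max_left _ _
  have hM2 : 1 / c ≤ M := (le_max_left _ _).trans (le_max_right _ _)
  have hM3 : ‖θ‖ + 1 ≤ M := (le_max_left _ _).trans ((le_max_right _ _).trans (le_max_right _ _))
  have hM4 : G.g θ + 1 ≤ M := (le_max_right _ _).trans ((le_max_right _ _).trans (le_max_right _ _))
  let P : V × ℝ → V → Prop := fun p d => ∃ ξ : V, ‖ξ‖ ≤ M ∧ p.2 ≤ ⟪ξ, d⟫ ∧ ∀ s ∈ Icc (0:ℝ) 1, G.g (p.1 + s • ξ) ≤ G.g p.1 + M * s
  have hP : ∀ᶠ p in 𝓝 ((θ, 0) : V × ℝ), ∀ d ∈ Metric.sphere (0:V) 1, P p d := by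
    apply IsCompact.eventually_forall_of_forall_eventually (isCompact_sphere (0:V) 1)
    intro d0 hd0
    rw [nhds_prod_eq]
    -- general principle: a continuous move
    have gen : ∀ ξ : V → V, ContinuousAt ξ θ → 0 < ⟪ξ θ, d0⟫ → (∀ᶠ y in 𝓝 θ, ‖ξ y‖ ≤ M ∧ ∀ s ∈ Icc (0:ℝ) 1, G.g (y + s • ξ y) ≤ G.g y + M * s) → 
        ∀ᶠ z in 𝓝 ((θ, 0) : V × ℝ) ×ˢ 𝓝 d0, P z.1 z.2 := by
      intro ξ hξ1 hξ2 hξ3
      have t1 : Tendsto (fun z : (V × ℝ) × V => z.1.1) (𝓝 ((θ, 0) : V × ℝ) ×ˢ 𝓝 d0) (𝓝 θ) := by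
        exact (continuous_fst.tendsto _).comp tendsto_fst
      have t2 : Tendsto (fun z : (V × ℝ) × V => z.1.2) (𝓝 ((θ, 0) : V × ℝ) ×ˢ 𝓝 d0) (𝓝 0) := by
        exact (continuous_snd.tendsto _).comp tendsto_fst
      have t3 : Tendsto (fun z : (V × ℝ) × V => ⟪ξ z.1.1, z.2⟫) (𝓝 ((θ, 0) : V × ℝ) ×ˢ 𝓝 d0) (𝓝 ⟪ξ θ, d0⟫) := 
        (hξ1.tendsto.comp t1).inner tendsto_snd
      filter_upwards [t2.eventually_lt t3 hξ2, t1.eventually hξ3] with z h1 h2
      exact ⟨ξ z.1.1, h2.1, h1.le, h2.2⟩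
    have hnorm : ∀ᶠ y in 𝓝 θ, ‖y‖ ≤ M := by
      have : ∀ᶠ y in 𝓝 θ, ‖y‖ < ‖θ‖ + 1 := continuous_norm.continuousAt.eventually_lt_const (by linarith)
      filter_upwards [this] with y hy using by linarith
    have hgM : ∀ᶠ y in 𝓝 θ, G.g y ≤ M := by
      have : ∀ᶠ y in 𝓝 θ, G.g y < G.g θ + 1 := G.cont.continuousAt.eventually_lt_const (by linarith)
      filter_upwards [this] with y hy using by linarith
    rcases lt_trichotomy ⟪θ, d0⟫ 0 with h | h | h
    · apply gen (fun y => -y) continuous_neg.continuousAt (by rw [inner_neg_left]; linarith)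
      filter_upwards [hnorm] with y hy
      refine ⟨by rwa [norm_neg], fun s hs => ?_⟩
      have e : y + s • -y = (1 - s) • y := by rw [smul_neg, sub_smul, one_smul]; abel
      rw [e, G.homog _ (by linarith [hs.2])]
      nlinarith [G.nonneg y, hs.1]
    · obtain ⟨u0, hu0, huθ, hneg⟩ := hT (-d0) (by
        rw [neg_ne_zero]; rintro rfl; simp at hd0) (by rw [inner_neg_right, h, neg_zero])
      rw [inner_neg_right] at hneg
      have hθu : ⟪θ, u0⟫ = 0 := by rw [real_inner_comm]; exact huθ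
      have tc := tendsto_corr (u0 := θ) (y := u0) hθ hθu
      have hc0 : corr u0 θ = u0 := by rw [corr, hθu, zero_div, zero_smul, sub_zero]
      apply gen (fun y => X (corr u0 y))
      · have h1 : ContinuousAt X (corr u0 θ) := by rw [hc0]; exact continuousAt_X hX hu0
        have h2 : ContinuousAt (fun y => corr u0 y) θ := by rw [ContinuousAt, hc0]; exact tc
        exact ContinuousAt.comp (f := fun y => corr u0 y) h1 h2
      · simp only [hc0]; linarith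
      · have hne : ∀ᶠ y in 𝓝 θ, corr u0 y ≠ 0 := tc.eventually_ne hu0
        have hne2 : ∀ᶠ y in 𝓝 θ, y ≠ 0 := isOpen_ne.mem_nhds hθ
        filter_upwards [hne, hne2] with y hy hy2
        have hTr := hX _ hy
        refine ⟨?_, fun s hs => ?_⟩
        · refine le_trans ?_ hM2
          rw [le_div_iff₀ hc]
          linarith [(hb (X (corr u0 y))).1, hTr.le_one]
        · have h1 := hTr.star (y := y) (by rw [real_inner_comm]; exact inner_corr u0 hy2) hs.1
          nlinarith [hs.1]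
    · apply gen (fun y => y) continuousAt_id h
      filter_upwards [hnorm, hgM] with y hy hy2
      refine ⟨hy, fun s hs => ?_⟩
      have e : y + s • y = (1 + s) • y := by rw [add_smul, one_smul]
      rw [e, G.homog _ (by linarith [hs.1])]
      nlinarith [G.nonneg y, hs.1]
  rw [Metric.eventually_nhds_iff] at hP
  obtain ⟨ε, hε, hP⟩ := hP
  refine ⟨min ε 1, min (ε / 2) (1 / 2), M, lt_min hε one_pos, lt_min (by linarith) (by norm_num), ?_, ?_, ?_⟩
  · exact lt_of_le_of_lt (min_le_right _ _) (by linarith)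
  · exact (min_le_right _ _).trans hM1
  · intro y hy d hd
    have h1 : dist ((y, min (ε / 2) (1 / 2)) : V × ℝ) (θ, 0) < ε := by
      rw [Prod.dist_eq]
      apply max_lt
      · exact lt_of_lt_of_le hy (min_le_left _ _)
      · rw [Real.dist_eq, sub_zero, abs_of_pos (lt_min (by linarith) (by norm_num))]
        exact lt_of_le_of_lt (min_le_left _ _) (by linarith)
    exact hP h1 d (by rw [mem_sphere_zero_iff_norm]; exact hd)

theorem exists_lip (hX : ∀ u, u ≠ 0 → Tr G H u (X u)) {θ : V} (hθ : θ ≠ 0) (hT : TwoSided X θ) : 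
    ∃ R C : ℝ, 0 < R ∧ 0 ≤ C ∧ ∀ y ∈ Metric.ball θ R, ∀ y' ∈ Metric.ball θ R, |G.g y' - G.g y| ≤ C * ‖y' - y‖ := by
  obtain ⟨R, δ, M, hR, hδ, hM, hRM, hmove⟩ := exists_moves hX hθ hT
  obtain ⟨C, hC, h⟩ := lip_crit G.cont hδ hM hRM hmove
  refine ⟨R / 3, C, by positivity, hC, fun y hy y' hy' => ?_⟩
  rw [abs_le]
  have h1 := h y hy y' hy'
  have h2 := h y' hy' y hy
  rw [norm_sub_rev] at h2
  constructor <;> linarith

omit [FiniteDimensional ℝ V] in
lemma TwoSided.neg {θ : V} (h : TwoSided X θ) : TwoSided (fun u => -X u) θ := by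
  intro ν hν h0
  obtain ⟨u, hu, h1, h2⟩ := h (-ν) (neg_ne_zero.2 hν) (by rw [inner_neg_right, h0, neg_zero])
  refine ⟨u, hu, h1, ?_⟩
  rw [inner_neg_right] at h2
  rw [inner_neg_left]; exact h2

end Pool.Agent.Helper104.TrSec
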