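import Mathlib
import Pool.Agent.Helper104.HmBasic
import Pool.Agent.Helper104.TrLip

open MeasureTheory Set Filter Topology
open scoped RealInnerProductSpace

namespace Pool.Agent.Helper104.TrSec

variable {V : Type} [NormedAddCommGroup V] [InnerProductSpace ℝ V] [FiniteDimensional ℝ V] {G H : Gauge V} {X : V → V} {σ : V → ℝ}

omit [FiniteDimensional ℝ V] in
lemma hm_sign_ne (hX : ∀ u, u ≠ 0 → Tr G (H.ex (σ u)) u (X u)) {u0 u : V} (hu0 : u0 ≠ 0) (h0 : X u0 = 0) (hu : u ≠ 0) (hx : X u ≠ 0) :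
    ⟪u0, X u⟫ ≠ 0 := by
  intro h
  have h1 := (hX u0 hu0).chord2 h hx (t := 0) (by rw [h0, zero_smul])
  have h2 := (hX u hu).chord2 (hX u hu).1 hx (t := 1) (by rw [one_smul])
  have h3 := h1.1.trans h2.1.symm
  rw [← h3, ← h1.2] at h2
  exact one_ne_zero h2.2

lemma hm_sign_path (hdim : 2 ≤ Module.finrank ℝ V) (hX : ∀ u, u ≠ 0 → Tr G (H.ex (σ u)) u (X u)) {u0 u u' w : V} (hu : u ≠ 0) (hu' : u' ≠ 0) (h1 : ⟪u, w⟫ = 0) 
    (h2 : ⟪u', w⟫ = 0) (P : ∀ v, v ≠ 0 → ⟪v, w⟫ = 0 → ⟪u0, X v⟫ ≠ 0) : 0 < ⟪u0, X u⟫ * ⟪u0, X u'⟫ := by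
  by_cases hdep : ∃ c : ℝ, c ≠ 0 ∧ u' = c • u
  · obtain ⟨c, hc, rfl⟩ := hdep
    rw [hX_smul hdim hX hu hc]
    exact mul_self_pos.2 (P u hu h1)
  · have hne := path_ne hu hu' hdep
    have hc : ContinuousOn (fun s : ℝ => ⟪u0, X ((1 - s) • u + s • u')⟫) (uIcc 0 1) := by
      intro s _
      apply ContinuousAt.continuousWithinAt
      have h3 : ContinuousAt (fun s : ℝ => X ((1 - s) • u + s • u')) s :=
        ContinuousAt.comp (f := fun s : ℝ => (1 - s) • u + s • u') (contX hdim hX (hne s)) (by fun_prop)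
      exact continuousAt_const.inner h3
    have hiv := intermediate_value_uIcc hc
    by_contra hcon
    push Not at hcon
    have h0 : (0:ℝ) ∈ uIcc (⟪u0, X ((1 - (0:ℝ)) • u + (0:ℝ) • u')⟫) (⟪u0, X ((1 - (1:ℝ)) • u + (1:ℝ) • u')⟫) := by
      simp only [sub_zero, one_smul, zero_smul, add_zero, sub_self, zero_add]
      rw [mem_uIcc]
      rcases le_total 0 ⟪u0, X u⟫ with h | h
      · rcases eq_or_lt_of_le h with h' | h'
        · exact absurd h'.symm (P u hu h1)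
        · right; exact ⟨by nlinarith, h⟩
      · rcases eq_or_lt_of_le h with h' | h'
        · exact absurd h' (P u hu h1)
        · left; exact ⟨h, by nlinarith⟩
    obtain ⟨s, _, hs⟩ := hiv h0
    refine P _ (hne s) ?_ hs
    rw [inner_add_left, inner_smul_left, inner_smul_left, h1, h2]; simp

/-- if `X` vanishes at some plane, all other translation vectors are on one side of that plane -/
theorem hm_same_sign (hdim : 3 ≤ Module.finrank ℝ V) (hX : ∀ u, u ≠ 0 → Tr G (H.ex (σ u)) u (X u)) {u0 u1 u2 : V} (hu0 : u0 ≠ 0) (h0 : X u0 = 0) 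
    (hu1 : u1 ≠ 0) (hx1 : X u1 ≠ 0) (hu2 : u2 ≠ 0) (hx2 : X u2 ≠ 0) : 0 < ⟪u0, X u1⟫ * ⟪u0, X u2⟫ := by
  obtain ⟨u3, hu3, ho1, ho2⟩ := exists_orth_pair hdim (X u1) (X u2)
  have P : ∀ w : V, (∃ u, u ≠ 0 ∧ X u ≠ 0 ∧ X u = w) → ∀ v, v ≠ 0 → ⟪v, w⟫ = 0 → ⟪u0, X v⟫ ≠ 0 := by
    rintro w ⟨u, hu, hxu, rfl⟩ v hv hvw
    apply hm_sign_ne hX hu0 h0 hv
    intro h
    exact hm_sign_ne hX hv h hu hxu hvw
  have a1 := hm_sign_path (by omega) hX (u0 := u0) hu1 hu3 (hX u1 hu1).1 ho1 (P _ ⟨u1, hu1, hx1, rfl⟩)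
  have a2 := hm_sign_path (by omega) hX (u0 := u0) hu2 hu3 (hX u2 hu2).1 ho2 (P _ ⟨u2, hu2, hx2, rfl⟩)
  have a3 : 0 < (⟪u0, X u1⟫ * ⟪u0, X u2⟫) * ⟪u0, X u3⟫ ^ 2 := by
    have := mul_pos a1 a2
    calc 0 < (⟪u0, X u1⟫ * ⟪u0, X u3⟫) * (⟪u0, X u2⟫ * ⟪u0, X u3⟫) := this
      _ = _ := by ring
  exact pos_of_mul_pos_left a3 (sq_nonneg _)

lemma TwoSided.hm_ne_zero (hdim : 3 ≤ Module.finrank ℝ V) (hX : ∀ u, u ≠ 0 → Tr G (H.ex (σ u)) u (X u)) {θ : V} (h : TwoSided X θ) 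
    {u0 : V} (hu0 : u0 ≠ 0) (hθ : ⟪u0, θ⟫ = 0) : X u0 ≠ 0 := by
  intro h0
  obtain ⟨u1, hu1, -, hn1⟩ := h u0 hu0 (by rw [real_inner_comm]; exact hθ)
  obtain ⟨u2, hu2, -, hn2⟩ := h (-u0) (neg_ne_zero.2 hu0) (by rw [inner_neg_right, real_inner_comm, hθ, neg_zero])
  rw [inner_neg_right] at hn2
  have hx1 : X u1 ≠ 0 := by
    intro h; rw [h, inner_zero_left] at hn1; exact lt_irrefl _ hn1
  have hx2 : X u2 ≠ 0 := by
    intro h; rw [h, inner_zero_left, neg_zero] at hn2; exact lt_irrefl _ hn2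
  have := hm_same_sign hdim hX hu0 h0 hu1 hx1 hu2 hx2
  rw [real_inner_comm u0 (X u1), real_inner_comm u0 (X u2)] at *
  nlinarith

theorem hm_exists_moves (hdim : 2 ≤ Module.finrank ℝ V) (hX : ∀ u, u ≠ 0 → Tr G (H.ex (σ u)) u (X u)) {θ : V} (hθ : θ ≠ 0) (hT : TwoSided X θ) : 
    ∃ R δ M : ℝ, 0 < R ∧ 0 < δ ∧ δ < M ∧ R ≤ M ∧ ∀ y ∈ Metric.ball θ R, ∀ d : V, ‖d‖ = 1 → 
      ∃ ξ : V, ‖ξ‖ ≤ M ∧ δ ≤ ⟪ξ, d⟫ ∧ ∀ s ∈ Icc (0:ℝ) 1, G.g (y + s • ξ) ≤ G.g y + M * s := by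
  obtain ⟨c, C, hc, hC, hb⟩ := G.exists_bounds
  set M : ℝ := max 1 (max (1 / c) (max (‖θ‖ + 1) (G.g θ + 1))) with hM
  have hM1 : 1 ≤ M := le_max_left _ _
  have hM2 : 1 / c ≤ M := (le_max_left _ _).trans (le_max_right _ _)
  have hM3 : ‖θ‖ + 1 ≤ M := (le_max_left _ _).trans ((le_max_right _ _).trans (le_max_right _ _))
  have hM4 : G.g θ + 1 ≤ M := (le_max_right _ _).trans ((le_max_right _ _).trans (le_max_right _ _))
  let P : V × ℝ → V → Prop := fun p d => ∃ ξ : V, ‖ξ‖ ≤ M ∧ p.2 ≤ ⟪ξ, d⟫ ∧ ∀ s ∈ Icc (0:ℝ) 1, G.g (p.1 + s • ξ) ≤ G.g p.1 + M * s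
  have hP : ∀ᶠ p in 𝓝 ((θ, 0) : V × ℝ), ∀ d ∈ Metric.sphere (0:V) 1, P p d := by
    apply IsCompact.eventually_forall_of_forall_eventually (isCompact_sphere (0:V) 1)
    intro d0 hd0
    rw [nhds_prod_eq]
    -- general principle: a continuous move
    have gen : ∀ ξ : V → V, ContinuousAt ξ θ → 0 < ⟪ξ θ, d0⟫ → (∀ᶠ y in 𝓝 θ, ‖ξ y‖ ≤ M ∧ ∀ s ∈ Icc (0:ℝ) 1, G.g (y + s • ξ y) ≤ G.g y + M * s) → 
        ∀ᶠ z in 𝓝 ((θ, 0) : V × ℝ) ×ˢ 𝓝 d0, P z.1 z.2 := by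
      intro ξ hξ1 hξ2 hξ3
      have t1 : Tendsto (fun z : (V × ℝ) × V => z.1.1) (𝓝 ((θ, 0) : V × ℝ) ×ˢ 𝓝 d0) (𝓝 θ) := by
        exact (continuous_fst.tendsto _).comp tendsto_fst
      have t2 : Tendsto (fun z : (V × ℝ) × V => z.1.2) (𝓝 ((θ, 0) : V × ℝ) ×ˢ 𝓝 d0) (𝓝 0) := by
        exact (continuous_snd.tendsto _).comp tendsto_fst
      have t3 : Tendsto (fun z : (V × ℝ) × V => ⟪ξ z.1.1, z.2⟫) (𝓝 ((θ, 0) : V × ℝ) ×ˢ 𝓝 d0) (𝓝 ⟪ξ θ, d0⟫) := 
        (hξ1.tendsto.comp t1).inner tendsto_snd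
      filter_upwards [t2.eventually_lt t3 hξ2, t1.eventually hξ3] with z h1 h2
      exact ⟨ξ z.1.1, h2.1, h1.le, h2.2⟩
    have hnorm : ∀ᶠ y in 𝓝 θ, ‖y‖ ≤ M := by
      have : ∀ᶠ y in 𝓝 θ, ‖y‖ < ‖θ‖ + 1 := continuous_norm.continuousAt.eventually_lt_const (by linarith)
      filter_upwards [this] with y hy using by linarith
    have hgM : ∀ᶠ y in 𝓝 θ, G.g y ≤ M := by
      have : ∀ᶠ y in 𝓝 θ, G.g y < G.g θ + 1 := G.cont.continuousAt.eventually_lt_const (by linarith)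
      filter_upwards [this] with y hy using by linarith
    rcases lt_trichotomy ⟪θ, d0⟫ 0 with h | h | h
    · apply gen (fun y => -y) continuous_neg.continuousAt (by rw [inner_neg_left]; linarith)
      filter_upwards [hnorm] with y hy
      refine ⟨by rwa [norm_neg], fun s hs => ?_⟩
      have e : y + s • -y = (1 - s) • y := by rw [smul_neg, sub_smul, one_smul]; abel
      rw [e, G.homog _ (by linarith [hs.2])]
      nlinarith [G.nonneg y, hs.1]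
    · obtain ⟨u0, hu0, huθ, hneg⟩ := hT (-d0) (by
        rw [neg_ne_zero]; rintro rfl; simp at hd0) (by rw [inner_neg_right, h, neg_zero])
      rw [inner_neg_right] at hneg
      have hθu : ⟪θ, u0⟫ = 0 := by rw [real_inner_comm]; exact huθ
      have tc := tendsto_corr (u0 := θ) (y := u0) hθ hθu
      have hc0 : corr u0 θ = u0 := by rw [corr, hθu, zero_div, zero_smul, sub_zero]
      apply gen (fun y => X (corr u0 y))
      · have h1 : ContinuousAt X (corr u0 θ) := by rw [hc0]; exact contX hdim hX hu0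
        have h2 : ContinuousAt (fun y => corr u0 y) θ := by rw [ContinuousAt, hc0]; exact tc
        exact ContinuousAt.comp (f := fun y => corr u0 y) h1 h2
      · simp only [hc0]; linarith
      · have hne : ∀ᶠ y in 𝓝 θ, corr u0 y ≠ 0 := tc.eventually_ne hu0
        have hne2 : ∀ᶠ y in 𝓝 θ, y ≠ 0 := isOpen_ne.mem_nhds hθ
        filter_upwards [hne, hne2] with y hy hy2
        have hTr := hX _ hy
        refine ⟨?_, fun s hs => ?_⟩
        · refine le_trans ?_ hM2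
          rw [le_div_iff₀ hc]
          linarith [(hb (X (corr u0 y))).1, hTr.le_one]
        · have h1 := hTr.star (y := y) (by rw [real_inner_comm]; exact inner_corr u0 hy2) hs.1
          nlinarith [hs.1]
    · apply gen (fun y => y) continuousAt_id h
      filter_upwards [hnorm, hgM] with y hy hy2
      refine ⟨hy, fun s hs => ?_⟩
      have e : y + s • y = (1 + s) • y := by rw [add_smul, one_smul]
      rw [e, G.homog _ (by linarith [hs.1])]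
      nlinarith [G.nonneg y, hs.1]
  rw [Metric.eventually_nhds_iff] at hP
  obtain ⟨ε, hε, hP⟩ := hP
  refine ⟨min ε 1, min (ε / 2) (1 / 2), M, lt_min hε one_pos, lt_min (by linarith) (by norm_num), ?_, ?_, ?_⟩
  · exact lt_of_le_of_lt (min_le_right _ _) (by linarith)
  · exact (min_le_right _ _).trans hM1
  · intro y hy d hd
    have h1 : dist ((y, min (ε / 2) (1 / 2)) : V × ℝ) (θ, 0) < ε := by
      rw [Prod.dist_eq]
      apply max_lt
      · exact lt_of_lt_of_le hy (min_le_left _ _)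
      · rw [Real.dist_eq, sub_zero, abs_of_pos (lt_min (by linarith) (by norm_num))]
        exact lt_of_le_of_lt (min_le_left _ _) (by linarith)
    exact hP h1 d (by rw [mem_sphere_zero_iff_norm]; exact hd)

theorem hm_exists_lip (hdim : 2 ≤ Module.finrank ℝ V) (hX : ∀ u, u ≠ 0 → Tr G (H.ex (σ u)) u (X u)) {θ : V} (hθ : θ ≠ 0) (hT : TwoSided X θ) : 
    ∃ R C : ℝ, 0 < R ∧ 0 ≤ C ∧ ∀ y ∈ Metric.ball θ R, ∀ y' ∈ Metric.ball θ R, |G.g y' - G.g y| ≤ C * ‖y' - y‖ := by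
  obtain ⟨R, δ, M, hR, hδ, hM, hRM, hmove⟩ := hm_exists_moves hdim hX hθ hT
  obtain ⟨C, hC, h⟩ := lip_crit G.cont hδ hM hRM hmove
  refine ⟨R / 3, C, by positivity, hC, fun y hy y' hy' => ?_⟩
  rw [abs_le]
  have h1 := h y hy y' hy'
  have h2 := h y' hy' y hy
  rw [norm_sub_rev] at h2
  constructor <;> linarith

omit [FiniteDimensional ℝ V] in
lemma TwoSided.swap {θ : V} (h : TwoSided X θ) (σ : V → ℝ) : TwoSided (fun u => -(Real.exp (σ u) • X u)) θ := by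
  intro ν hν h0
  obtain ⟨u, hu, h1, h2⟩ := h (-ν) (neg_ne_zero.2 hν) (by rw [inner_neg_right, h0, neg_zero])
  refine ⟨u, hu, h1, ?_⟩
  rw [inner_neg_right] at h2
  rw [inner_neg_left, real_inner_smul_left]
  nlinarith [Real.exp_pos (σ u)]

end Pool.Agent.Helper104.TrSec
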