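import Mathlib
import Pool.Agent.Helper104.TrLip
import Pool.Agent.Helper104.TrPlanar

open MeasureTheory Set Filter Topology
open scoped RealInnerProductSpace

namespace Pool.Agent.Helper104.TrSec

variable {V : Type} [NormedAddCommGroup V] [InnerProductSpace ℝ V]

/-- orthonormal frame of a three dimensional space -/
structure Frame (θ p q : V) : Prop where
  tt : ⟪θ, θ⟫ = 1
  pp : ⟪p, p⟫ = 1
  qq : ⟪q, q⟫ = 1
  tp : ⟪θ, p⟫ = 0
  tq : ⟪θ, q⟫ = 0
  pq : ⟪p, q⟫ = 0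
  span : ∀ y : V, y = ⟪θ, y⟫ • θ + ⟪p, y⟫ • p + ⟪q, y⟫ • q

lemma exists_frame [FiniteDimensional ℝ V] (hdim : Module.finrank ℝ V = 3) {θ : V} (hθ : ‖θ‖ = 1) : 
    ∃ p q : V, Frame θ p q := by
  obtain ⟨b, hb⟩ := Orthonormal.exists_orthonormalBasis_extension_of_card_eq (𝕜 := ℝ) (E := V) (ι := Fin 3) 
    (by rw [hdim]; simp) (v := fun _ => θ) (s := {0}) (by
      constructor
      · intro i; simpa using hθ
      · intro i j hij
        exact absurd (Subsingleton.elim i j) hij)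
  have hb0 : b 0 = θ := hb 0 (by simp)
  have hon := b.orthonormal
  rw [orthonormal_iff_ite] at hon
  refine ⟨b 1, b 2, ⟨?_, ?_, ?_, ?_, ?_, ?_, ?_⟩⟩
  · rw [← hb0, hon]; simp
  · rw [hon]; simp
  · rw [hon]; simp
  · rw [← hb0, hon]; simp
  · rw [← hb0, hon]; simp
  · rw [hon]; simp
  · intro y
    have := b.sum_repr' y
    rw [Fin.sum_univ_three, hb0] at this
    exact this.symm

namespace Frame

variable {θ p q : V}

lemma pt' (hF : Frame θ p q) : ⟪p, θ⟫ = 0 := by rw [real_inner_comm]; exact hF.tp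
lemma qt' (hF : Frame θ p q) : ⟪q, θ⟫ = 0 := by rw [real_inner_comm]; exact hF.tq
lemma qp' (hF : Frame θ p q) : ⟪q, p⟫ = 0 := by rw [real_inner_comm]; exact hF.pq

lemma eq_zero (hF : Frame θ p q) {z : V} (h1 : ⟪θ, z⟫ = 0) (h2 : ⟪p, z⟫ = 0) (h3 : ⟪q, z⟫ = 0) : z = 0 := by
  rw [hF.span z, h1, h2, h3]; simp

end Frame

/-- point of the affine plane through `θ` -/
def ptw (θ p q : V) (w : ℝ × ℝ) : V := θ + w.1 • p + w.2 • q
/-- direction of angle `φ` -/
noncomputable def dirv (p q : V) (φ : ℝ) : V := Real.cos φ • p + Real.sin φ • q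
/-- normal of the plane spanned by `ptw w` and `dirv φ` -/
noncomputable def nrm (θ p q : V) (w : ℝ × ℝ) (φ : ℝ) : V := 
  (w.1 * Real.sin φ - w.2 * Real.cos φ) • θ - Real.sin φ • p + Real.cos φ • q

section geom

variable {θ p q : V}

lemma ptw_continuous : Continuous (ptw θ p q) := by
  unfold ptw; fun_prop

lemma ptw_add (w : ℝ × ℝ) (r φ : ℝ) : ptw θ p q (w + r • ev φ) = ptw θ p q w + r • dirv p q φ := by
  simp only [ptw, dirv, ev, Prod.fst_add, Prod.snd_add, Prod.smul_mk, smul_eq_mul, add_smul, smul_add, smul_smul]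
  abel

lemma ptw_ne (hF : Frame θ p q) (w : ℝ × ℝ) : ptw θ p q w ≠ 0 := by
  intro h
  have : ⟪θ, ptw θ p q w⟫ = 1 := by
    simp only [ptw, inner_add_right, inner_smul_right, hF.tt, hF.tp, hF.tq]; ring
  rw [h, inner_zero_right] at this
  exact zero_ne_one this

lemma nrm_ptw (hF : Frame θ p q) (w : ℝ × ℝ) (φ : ℝ) : ⟪nrm θ p q w φ, ptw θ p q w⟫ = 0 := by
  simp only [nrm, ptw, inner_add_left, inner_add_right, inner_sub_left, real_inner_smul_left, real_inner_smul_right, 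
    hF.tt, hF.tp, hF.tq, hF.pp, hF.pq, hF.qq, hF.pt', hF.qt', hF.qp']
  ring

lemma nrm_dirv (hF : Frame θ p q) (w : ℝ × ℝ) (φ : ℝ) : ⟪nrm θ p q w φ, dirv p q φ⟫ = 0 := by
  simp only [nrm, dirv, inner_add_left, inner_add_right, inner_sub_left, real_inner_smul_left, real_inner_smul_right, 
    hF.tt, hF.tp, hF.tq, hF.pp, hF.pq, hF.qq, hF.pt', hF.qt', hF.qp']
  ring

lemma nrm_ne (hF : Frame θ p q) (w : ℝ × ℝ) (φ : ℝ) : nrm θ p q w φ ≠ 0 := by
  intro h
  have h1 : ⟪p, nrm θ p q w φ⟫ = -Real.sin φ := by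
    simp only [nrm, inner_add_right, inner_sub_right, real_inner_smul_right, 
      hF.tt, hF.tp, hF.tq, hF.pp, hF.pq, hF.qq, hF.pt', hF.qt', hF.qp']
    ring
  have h2 : ⟪q, nrm θ p q w φ⟫ = Real.cos φ := by
    simp only [nrm, inner_add_right, inner_sub_right, real_inner_smul_right, 
      hF.tt, hF.tp, hF.tq, hF.pp, hF.pq, hF.qq, hF.pt', hF.qt', hF.qp']
    ring
  rw [h, inner_zero_right] at h1 h2
  have := Real.sin_sq_add_cos_sq φ
  nlinarith

lemma nrm_continuous : Continuous fun z : (ℝ × ℝ) × ℝ => nrm θ p q z.1 z.2 := by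
  unfold nrm; fun_prop

/-- decomposition -/
lemma eq_smul_of_zero (hF : Frame θ p q) {w : ℝ × ℝ} {φ : ℝ} {x : V} (h1 : ⟪nrm θ p q w φ, x⟫ = 0) 
    (h2 : ⟪x - ⟪θ, x⟫ • ptw θ p q w, dirv p q φ⟫ = 0) : x = ⟪θ, x⟫ • ptw θ p q w := by
  have h3 : x - ⟪θ, x⟫ • ptw θ p q w = 0 := by
    set z := x - ⟪θ, x⟫ • ptw θ p q w with hz
    have z1 : ⟪θ, z⟫ = 0 := by
      rw [hz, inner_sub_right, real_inner_smul_right]
      simp only [ptw, inner_add_right, real_inner_smul_right, hF.tt, hF.tp, hF.tq]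
      ring
    have z2 : ⟪nrm θ p q w φ, z⟫ = 0 := by
      rw [hz, inner_sub_right, real_inner_smul_right, h1, nrm_ptw hF]; ring
    simp only [nrm, inner_add_left, inner_sub_left, real_inner_smul_left, z1] at z2
    rw [real_inner_comm] at h2
    simp only [dirv, inner_add_left, real_inner_smul_left] at h2
    have hcs := Real.sin_sq_add_cos_sq φ
    refine hF.eq_zero z1 ?_ ?_
    · linear_combination Real.cos φ * h2 - Real.sin φ * z2 - ⟪p, z⟫ * hcs
    · linear_combination Real.sin φ * h2 + Real.cos φ * z2 - ⟪q, z⟫ * hcs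
  rwa [sub_eq_zero] at h3

variable {G H : Gauge V}

lemma E3_of_zero (hF : Frame θ p q) {w : ℝ × ℝ} {φ : ℝ} {x : V} (hx : Tr G H (nrm θ p q w φ) x)
    (h2 : ⟪x - ⟪θ, x⟫ • ptw θ p q w, dirv p q φ⟫ = 0) (hgt : G.g (ptw θ p q w) < H.g (ptw θ p q w)) : 
    E3 (fun w => H.g (ptw θ p q w)) (fun w => G.g (ptw θ p q w)) w (ev φ) := by
  intro r
  simp only
  have h3 := eq_smul_of_zero hF hx.1 h2
  have h4 := hx.chord (nrm_ptw hF w φ) (ptw_ne hF w) h3
  rw [h4] at h3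
  set t : ℝ := 1 / G.g (ptw θ p q w) - 1 / H.g (ptw θ p q w) with ht
  have ht0 : 0 < t := by
    rw [ht, sub_pos]
    exact one_div_lt_one_div_of_lt (G.pos _ (ptw_ne hF w)) hgt
  set F : ℝ := H.g (ptw θ p q (w + r • ev φ)) with hFF
  have hF0 : 0 < F := H.pos _ (ptw_ne hF _)
  have hD : 0 < 1 + t * F := by positivity
  have h5 := hx.eq (y := ptw θ p q (w + r • ev φ)) (by
    rw [ptw_add, inner_add_right, real_inner_smul_right, nrm_ptw hF, nrm_dirv hF]; ring)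
  rw [← hFF] at h5
  have h6 : ptw θ p q (w + r • ev φ) + F • x = (1 + t * F) • ptw θ p q (w + (r / (1 + t * F)) • ev φ) := by
    rw [ptw_add, ptw_add, h3, smul_add, smul_smul, smul_smul, mul_div_cancel₀ _ hD.ne', add_smul, one_smul, mul_comm F t]
    abel
  rw [h6, G.homog _ hD.le] at h5
  rw [eq_div_iff hD.ne', mul_comm]
  exact h5

end geom

lemma sign_pattern {b : ℝ → ℝ} (hb : ∀ φ, b (φ + Real.pi) = -b φ) (h : ∀ ψ, ∃ φ, b φ * Real.cos (φ - ψ) < 0) : 
    ∃ φ0 a c, φ0 < a ∧ a < c ∧ c < φ0 + Real.pi ∧ 0 < b φ0 ∧ b a < 0 ∧ 0 < b c := by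
  have hπ := Real.pi_pos
  obtain ⟨φ0, hφ0⟩ : ∃ φ0, 0 < b φ0 := by
    obtain ⟨φ, hφ⟩ := h 0
    rcases lt_trichotomy (b φ) 0 with h1 | h1 | h1
    · exact ⟨φ + Real.pi, by rw [hb]; linarith⟩
    · rw [h1, zero_mul] at hφ; exact absurd hφ (lt_irrefl _)
    · exact ⟨φ, h1⟩
  by_contra hcon
  push Not at hcon
  set S : Set ℝ := {φ | φ ∈ Icc φ0 (φ0 + Real.pi) ∧ b φ < 0} with hS
  have hSne : S.Nonempty := ⟨φ0 + Real.pi, ⟨by constructor <;> linarith, by rw [hb]; linarith⟩⟩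
  have hSb : BddBelow S := ⟨φ0, fun x hx => hx.1.1⟩
  set α := sInf S with hα
  have hα1 : φ0 ≤ α := le_csInf hSne fun x hx => hx.1.1
  have c1 : ∀ φ, φ0 ≤ φ → φ < α → 0 ≤ b φ := by
    intro φ h1 h2
    by_contra h3
    push Not at h3
    have h4 : α ≤ φ0 + Real.pi := csInf_le hSb ⟨by constructor <;> linarith, by rw [hb]; linarith⟩
    exact absurd (csInf_le hSb ⟨⟨h1, by linarith⟩, h3⟩) (not_le.2 h2)
  have c2 : ∀ φ, α < φ → φ ≤ φ0 + Real.pi → b φ ≤ 0 := by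
    intro φ h1 h2
    by_contra h3
    push Not at h3
    obtain ⟨a, ha, haφ⟩ := exists_lt_of_csInf_lt hSne h1
    have h4 : φ0 < a := by
      refine lt_of_le_of_ne ha.1.1 ?_
      rintro rfl
      linarith [ha.2]
    have h5 : φ < φ0 + Real.pi := by
      refine lt_of_le_of_ne h2 ?_
      rintro rfl
      rw [hb] at h3; linarith
    exact absurd (hcon φ0 a φ h4 haφ h5 hφ0 ha.2) (not_le.2 h3)
  have c3 : ∀ φ, α - Real.pi < φ → φ < α → 0 ≤ b φ := by
    intro φ h1 h2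
    rcases le_total φ0 φ with h3 | h3
    · exact c1 φ h3 h2
    · have := c2 (φ + Real.pi) (by linarith) (by linarith)
      rw [hb] at this
      linarith
  have hint : ∀ (k : ℕ) (φ ψ : ℝ), b (φ + k * Real.pi) * Real.cos (φ + k * Real.pi - ψ) = b φ * Real.cos (φ - ψ) := by
    intro k φ ψ
    induction k with
    | zero => simp
    | succ k ih =>
      have e1 : φ + ((k + 1 : ℕ) : ℝ) * Real.pi = φ + k * Real.pi + Real.pi := by push_cast; ring
      have e2 : φ + ((k + 1 : ℕ) : ℝ) * Real.pi - ψ = (φ + k * Real.pi - ψ) + Real.pi := by push_cast; ring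
      rw [e2, e1, hb, Real.cos_add_pi, ← ih]
      ring
  have hint' : ∀ (k : ℤ) (φ ψ : ℝ), b (φ + k * Real.pi) * Real.cos (φ + k * Real.pi - ψ) = b φ * Real.cos (φ - ψ) := by
    intro k φ ψ
    rcases Int.eq_nat_or_neg k with ⟨n, rfl | rfl⟩
    · simpa using hint n φ ψ
    · have h1 := hint n (φ + ((-(n:ℤ) : ℤ) : ℝ) * Real.pi) ψ
      have h2 : φ + ((-(n:ℤ) : ℤ) : ℝ) * Real.pi + n * Real.pi = φ := by push_cast; ring
      rw [h2] at h1
      exact h1.symm
  obtain ⟨φ, hφ⟩ := h (α - Real.pi / 2)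
  obtain ⟨k, hk, -⟩ := existsUnique_add_zsmul_mem_Ioc hπ φ (α - Real.pi)
  simp only [zsmul_eq_mul] at hk
  rw [← hint' k] at hφ
  have hle : φ + k * Real.pi ≤ α := by linarith [hk.2]
  rcases eq_or_lt_of_le hle with h1 | h1
  · rw [h1] at hφ
    have : α - (α - Real.pi / 2) = Real.pi / 2 := by ring
    rw [this, Real.cos_pi_div_two, mul_zero] at hφ
    exact lt_irrefl _ hφ
  · have h2 := c3 _ hk.1 h1
    have h3 : 0 < Real.cos (φ + k * Real.pi - (α - Real.pi / 2)) := 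
      Real.cos_pos_of_mem_Ioo ⟨by linarith [hk.1], by linarith⟩
    nlinarith

section main

variable [FiniteDimensional ℝ V] {G H : Gauge V} {X : V → V} {θ p q : V}

/-- the function whose zeros are the good directions -/
noncomputable def BB (X : V → V) (θ p q : V) (w : ℝ × ℝ) (φ : ℝ) : ℝ := 
  ⟪X (nrm θ p q w φ) - ⟪θ, X (nrm θ p q w φ)⟫ • ptw θ p q w, dirv p q φ⟫

lemma BB_continuous (hX : ∀ u, u ≠ 0 → Tr G H u (X u)) (hF : Frame θ p q) : 
    Continuous fun z : (ℝ × ℝ) × ℝ => BB X θ p q z.1 z.2 := by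
  have h1 : Continuous fun z : (ℝ × ℝ) × ℝ => X (nrm θ p q z.1 z.2) := by
    rw [continuous_iff_continuousAt]
    intro z
    exact ContinuousAt.comp (f := fun z : (ℝ × ℝ) × ℝ => nrm θ p q z.1 z.2) 
      (continuousAt_X hX (nrm_ne hF z.1 z.2)) nrm_continuous.continuousAt
  have h2 : Continuous fun z : (ℝ × ℝ) × ℝ => ptw θ p q z.1 := ptw_continuous.comp continuous_fst
  have h3 : Continuous fun z : (ℝ × ℝ) × ℝ => dirv p q z.2 := by unfold dirv; fun_prop
  exact ((h1.sub ((continuous_const.inner h1).smul h2)).inner h3)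

lemma nrm_zero (φ : ℝ) : nrm θ p q 0 φ = - Real.sin φ • p + Real.cos φ • q := by
  simp [nrm]

lemma BB_zero (hF : Frame θ p q) (φ : ℝ) : BB X θ p q 0 φ = ⟪X (nrm θ p q 0 φ), dirv p q φ⟫ := by
  have : ⟪ptw θ p q 0, dirv p q φ⟫ = 0 := by
    simp only [ptw, dirv, Prod.fst_zero, Prod.snd_zero, zero_smul, add_zero, inner_add_right, real_inner_smul_right, hF.tp, hF.tq]
    ring
  rw [BB, inner_sub_left, real_inner_smul_left, this]; ring

lemma BB_zero_pi (hX : ∀ u, u ≠ 0 → Tr G H u (X u)) (hF : Frame θ p q) (φ : ℝ) : 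
    BB X θ p q 0 (φ + Real.pi) = - BB X θ p q 0 φ := by
  have h1 : nrm θ p q 0 (φ + Real.pi) = (-1 : ℝ) • nrm θ p q 0 φ := by
    rw [nrm_zero, nrm_zero, Real.sin_add_pi, Real.cos_add_pi, smul_add, smul_smul, smul_smul]
    ring_nf
  have h2 : dirv p q (φ + Real.pi) = - dirv p q φ := by
    rw [dirv, dirv, Real.sin_add_pi, Real.cos_add_pi, neg_smul, neg_smul, neg_add]
  rw [BB_zero hF, BB_zero hF, h1, h2, X_smul hX (nrm_ne hF 0 φ) (by norm_num), inner_neg_right]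

/-- normal vectors orthogonal to `θ` -/
lemma eq_nrm (hF : Frame θ p q) {u : V} (hu : u ≠ 0) (hθ : ⟪u, θ⟫ = 0) : 
    ∃ c φ : ℝ, c ≠ 0 ∧ u = c • nrm θ p q 0 φ := by
  have h1 := hF.span u
  rw [real_inner_comm] at hθ
  rw [hθ, zero_smul, zero_add] at h1
  set a := ⟪p, u⟫ with ha
  set b := ⟪q, u⟫ with hb
  -- polar coordinates of (b, -a)
  set z : ℂ := ⟨b, -a⟩ with hz
  have hz0 : z ≠ 0 := by
    intro h
    have hb0 : b = 0 := by simpa [hz] using congrArg Complex.re h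
    have ha0 : a = 0 := by simpa [hz] using congrArg Complex.im h
    rw [ha0, hb0] at h1
    apply hu
    rw [h1]; simp
  refine ⟨‖z‖, Complex.arg z, by simpa using hz0, ?_⟩
  have e1 : ‖z‖ * Real.cos (Complex.arg z) = b := by
    rw [Complex.norm_mul_cos_arg]
  have e2 : ‖z‖ * Real.sin (Complex.arg z) = -a := by
    rw [Complex.norm_mul_sin_arg]
  rw [nrm_zero, smul_add, smul_smul, smul_smul, mul_neg, e1, e2, neg_neg]
  exact h1

theorem spatial (hdim : Module.finrank ℝ V = 3) (hX : ∀ u, u ≠ 0 → Tr G H u (X u)) {θ : V} (hθ : ‖θ‖ = 1) (hT : TwoSided X θ) : 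
    G.g θ ≠ H.g θ ∧ (G.g θ < H.g θ → ∃ (κ ρ : ℝ) (ℓ : V), 1 < κ ∧ 0 < ρ ∧ ∀ y ∈ Metric.ball θ ρ, H.g y = ⟪ℓ, y⟫ ∧ H.g y = κ * G.g y) := by
  obtain ⟨p, q, hF⟩ := exists_frame hdim hθ
  have hθ0 : θ ≠ 0 := by rintro rfl; simp at hθ
  have hBc := BB_continuous hX hF
  have hBφ : ∀ w, Continuous fun φ => BB X θ p q w φ := fun w => hBc.comp (by fun_prop : Continuous fun φ : ℝ => ((w, φ) : (ℝ × ℝ) × ℝ))
  have hBw : ∀ φ, Continuous fun w => BB X θ p q w φ := fun φ => hBc.comp (by fun_prop : Continuous fun w : ℝ × ℝ => ((w, φ) : (ℝ × ℝ) × ℝ))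
  obtain ⟨φ0, a, c, h1, h2, h3, s0, sa, sc⟩ := sign_pattern (b := BB X θ p q 0) (BB_zero_pi hX hF) (by
    intro ψ
    have hd : ⟪θ, dirv p q ψ⟫ = 0 := by
      simp only [dirv, inner_add_right, real_inner_smul_right, hF.tp, hF.tq]; ring
    have hdd : ∀ φ, ⟪dirv p q φ, dirv p q ψ⟫ = Real.cos (φ - ψ) := by
      intro φ
      simp only [dirv, inner_add_right, inner_add_left, real_inner_smul_right, real_inner_smul_left, hF.pp, hF.qq, hF.pq, hF.qp']
      rw [Real.cos_sub]; ring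
    have hd0 : dirv p q ψ ≠ 0 := by
      intro h
      have := hdd ψ
      rw [h, inner_zero_right, sub_self, Real.cos_zero] at this
      exact zero_ne_one this
    obtain ⟨u, hu, huθ, hneg⟩ := hT _ hd0 hd
    obtain ⟨c, φ, hc, rfl⟩ := eq_nrm hF hu huθ
    rw [X_smul hX (nrm_ne hF 0 φ) hc] at hneg
    refine ⟨φ, ?_⟩
    have hx := (hX _ (nrm_ne hF 0 φ)).1
    -- X is in the plane spanned by θ and dirv φ
    have hz : X (nrm θ p q 0 φ) = ⟪θ, X (nrm θ p q 0 φ)⟫ • θ + BB X θ p q 0 φ • dirv p q φ := by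
      rw [BB_zero hF]
      set x := X (nrm θ p q 0 φ) with hxdef
      have h4 : x - (⟪θ, x⟫ • θ + ⟪x, dirv p q φ⟫ • dirv p q φ) = 0 := by
        rw [nrm_zero, inner_add_left, real_inner_smul_left, real_inner_smul_left] at hx
        have hcs := Real.sin_sq_add_cos_sq φ
        have e0 : ⟪x, dirv p q φ⟫ = Real.cos φ * ⟪p, x⟫ + Real.sin φ * ⟪q, x⟫ := by
          rw [real_inner_comm, dirv, inner_add_left, real_inner_smul_left, real_inner_smul_left]
        apply hF.eq_zero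
        · simp only [inner_sub_right, inner_add_right, real_inner_smul_right, hF.tt, dirv, hF.tp, hF.tq]
          ring
        · rw [e0]
          simp only [inner_sub_right, inner_add_right, real_inner_smul_right, dirv, hF.pp, hF.pq, hF.pt']
          linear_combination (-Real.sin φ) * hx - ⟪p, x⟫ * hcs
        · rw [e0]
          simp only [inner_sub_right, inner_add_right, real_inner_smul_right, dirv, hF.qq, hF.qp', hF.qt']
          linear_combination (Real.cos φ) * hx - ⟪q, x⟫ * hcs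
      rwa [sub_eq_zero] at h4
    rw [hz, inner_add_left, real_inner_smul_left, real_inner_smul_left, hd, hdd, mul_zero, zero_add] at hneg
    exact hneg)
  have hfg : ∀ w φ, BB X θ p q w φ = 0 → ∀ hgt : G.g (ptw θ p q w) < H.g (ptw θ p q w), 
      E3 (fun w => H.g (ptw θ p q w)) (fun w => G.g (ptw θ p q w)) w (ev φ) := fun w φ h hgt =>
    E3_of_zero hF (hX _ (nrm_ne hF w φ)) h hgt
  have hpt0 : ptw θ p q 0 = θ := by simp [ptw]
  have ivt : ∀ w x y, x ≤ y → BB X θ p q w x * BB X θ p q w y < 0 → ∃ φ ∈ Icc x y, BB X θ p q w φ = 0 := by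
    intro w x y hxy hlt
    rcases lt_trichotomy (BB X θ p q w x) 0 with g | g | g
    · have g2 : 0 < BB X θ p q w y := by nlinarith
      exact intermediate_value_Icc hxy (hBφ w).continuousOn ⟨g.le, g2.le⟩
    · rw [g, zero_mul] at hlt; exact absurd hlt (lt_irrefl _)
    · have g2 : BB X θ p q w y < 0 := by nlinarith
      exact intermediate_value_Icc' hxy (hBφ w).continuousOn ⟨g2.le, g.le⟩
  constructor
  · obtain ⟨φ, -, hφ⟩ := ivt 0 φ0 a h1.le (by nlinarith)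
    intro heq
    have h4 := eq_smul_of_zero hF (hX _ (nrm_ne hF 0 φ)).1 hφ
    have h5 := (hX _ (nrm_ne hF 0 φ)).chord (nrm_ptw hF 0 φ) (ptw_ne hF 0) h4
    rw [hpt0, heq, sub_self] at h5
    rw [h5, zero_smul] at h4
    have h6 := nrm_ptw hF 0 φ
    rw [hpt0] at h6
    exact hT.ne_zero (by omega) hX (nrm_ne hF 0 φ) h6 h4
  · intro hgt
    -- epsilon
    have e1 : ∀ᶠ ε in 𝓝 (0:ℝ), 0 < BB X θ p q 0 (φ0 + ε) := by
      have : Continuous fun ε : ℝ => BB X θ p q 0 (φ0 + ε) := (hBφ 0).comp (by fun_prop)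
      exact this.continuousAt.eventually_const_lt (by simpa using s0)
    have e2 : ∀ᶠ ε in 𝓝 (0:ℝ), BB X θ p q 0 (a - ε) < 0 := by
      have : Continuous fun ε : ℝ => BB X θ p q 0 (a - ε) := (hBφ 0).comp (by fun_prop)
      exact this.continuousAt.eventually_lt_const (by simpa using sa)
    have e3 : ∀ᶠ ε in 𝓝 (0:ℝ), BB X θ p q 0 (a + ε) < 0 := by
      have : Continuous fun ε : ℝ => BB X θ p q 0 (a + ε) := (hBφ 0).comp (by fun_prop)
      exact this.continuousAt.eventually_lt_const (by simpa using sa)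
    have e4 : ∀ᶠ ε in 𝓝 (0:ℝ), 0 < BB X θ p q 0 (c - ε) := by
      have : Continuous fun ε : ℝ => BB X θ p q 0 (c - ε) := (hBφ 0).comp (by fun_prop)
      exact this.continuousAt.eventually_const_lt (by simpa using sc)
    have e5 : ∀ᶠ ε in 𝓝 (0:ℝ), 0 < BB X θ p q 0 (c + ε) := by
      have : Continuous fun ε : ℝ => BB X θ p q 0 (c + ε) := (hBφ 0).comp (by fun_prop)
      exact this.continuousAt.eventually_const_lt (by simpa using sc)
    have e6 : ∀ᶠ ε in 𝓝 (0:ℝ), BB X θ p q 0 (φ0 + Real.pi - ε) < 0 := by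
      have : Continuous fun ε : ℝ => BB X θ p q 0 (φ0 + Real.pi - ε) := (hBφ 0).comp (by fun_prop)
      refine this.continuousAt.eventually_lt_const ?_
      simp only [sub_zero]
      rw [BB_zero_pi hX hF]; linarith
    have e7 : ∀ᶠ ε in 𝓝 (0:ℝ), ε < (a - φ0) / 2 := continuousAt_id.eventually_lt_const (by simp only [id]; linarith)
    have e8 : ∀ᶠ ε in 𝓝 (0:ℝ), ε < (c - a) / 2 := continuousAt_id.eventually_lt_const (by simp only [id]; linarith)
    have e9 : ∀ᶠ ε in 𝓝 (0:ℝ), ε < (φ0 + Real.pi - c) / 2 := continuousAt_id.eventually_lt_const (by simp only [id]; linarith)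
    have eall := (e1.and (e2.and (e3.and (e4.and (e5.and (e6.and (e7.and (e8.and e9)))))))).filter_mono 
      (nhdsWithin_le_nhds (s := Ioi (0:ℝ)))
    obtain ⟨ε, ⟨f1, f2, f3, f4, f5, f6, f7, f8, f9⟩, hε⟩ := (eall.and self_mem_nhdsWithin).exists
    have hε : 0 < ε := hε
    obtain ⟨R1, C, hR1, hC, hlip⟩ := exists_lip (fun u hu => (hX u hu).symm) hθ0 hT.neg
    -- eventually in w
    have k1 : ∀ᶠ w in 𝓝 (0 : ℝ × ℝ), 0 < BB X θ p q w (φ0 + ε) := (hBw _).continuousAt.eventually_const_lt f1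
    have k2 : ∀ᶠ w in 𝓝 (0 : ℝ × ℝ), BB X θ p q w (a - ε) < 0 := (hBw _).continuousAt.eventually_lt_const f2
    have k3 : ∀ᶠ w in 𝓝 (0 : ℝ × ℝ), BB X θ p q w (a + ε) < 0 := (hBw _).continuousAt.eventually_lt_const f3
    have k4 : ∀ᶠ w in 𝓝 (0 : ℝ × ℝ), 0 < BB X θ p q w (c - ε) := (hBw _).continuousAt.eventually_const_lt f4
    have k5 : ∀ᶠ w in 𝓝 (0 : ℝ × ℝ), 0 < BB X θ p q w (c + ε) := (hBw _).continuousAt.eventually_const_lt f5
    have k6 : ∀ᶠ w in 𝓝 (0 : ℝ × ℝ), BB X θ p q w (φ0 + Real.pi - ε) < 0 := (hBw _).continuousAt.eventually_lt_const f6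
    have k7 : ∀ᶠ w in 𝓝 (0 : ℝ × ℝ), G.g (ptw θ p q w) < H.g (ptw θ p q w) := by
      refine ((G.cont.comp ptw_continuous).tendsto 0).eventually_lt ((H.cont.comp ptw_continuous).tendsto 0) ?_
      simpa [hpt0] using hgt
    have k8 : ∀ᶠ w in 𝓝 (0 : ℝ × ℝ), ptw θ p q w ∈ Metric.ball θ R1 := by
      refine (ptw_continuous (θ := θ) (p := p) (q := q)).continuousAt.eventually_mem ?_
      rw [hpt0]
      exact Metric.isOpen_ball.mem_nhds (Metric.mem_ball_self hR1)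
    have kall := k1.and (k2.and (k3.and (k4.and (k5.and (k6.and (k7.and k8))))))
    rw [Metric.eventually_nhds_iff] at kall
    obtain ⟨R, hR, hall⟩ := kall
    have hnp : ‖p‖ = 1 := by
      have := hF.pp; rw [real_inner_self_eq_norm_sq] at this
      nlinarith [norm_nonneg p]
    have hnq : ‖q‖ = 1 := by
      have := hF.qq; rw [real_inner_self_eq_norm_sq] at this
      nlinarith [norm_nonneg q]
    obtain ⟨κ, ρ, c0, c1, c2, hκ, hρ, hfin⟩ := planar (f := fun w => H.g (ptw θ p q w)) (h := fun w => G.g (ptw θ p q w)) 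
      (R := R) (C := 2 * C) (a1 := φ0 + ε) (b1 := a - ε) (a2 := a + ε) (b2 := c - ε) (a3 := c + ε) (b3 := φ0 + Real.pi - ε)
      (H.cont.comp ptw_continuous) (G.cont.comp ptw_continuous) (fun w => H.pos _ (ptw_ne hF w)) (fun w => G.pos _ (ptw_ne hF w)) hR
      (by
        intro w hw w' hw'
        have g1 := (hall hw).2.2.2.2.2.2.2
        have g2 := (hall hw').2.2.2.2.2.2.2
        have g3 := hlip _ g1 _ g2
        refine g3.trans ?_
        have g4 : ptw θ p q w' - ptw θ p q w = (w'.1 - w.1) • p + (w'.2 - w.2) • q := by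
          simp only [ptw, sub_smul]; abel
        have g5 : ‖ptw θ p q w' - ptw θ p q w‖ ≤ 2 * ‖w' - w‖ := by
          rw [g4]
          have n1 : |w'.1 - w.1| ≤ ‖w' - w‖ := by
            rw [Prod.norm_def]; exact le_max_left _ _
          have n2 : |w'.2 - w.2| ≤ ‖w' - w‖ := by
            rw [Prod.norm_def]; exact le_max_right _ _
          calc ‖(w'.1 - w.1) • p + (w'.2 - w.2) • q‖ ≤ ‖(w'.1 - w.1) • p‖ + ‖(w'.2 - w.2) • q‖ := norm_add_le _ _
            _ = |w'.1 - w.1| + |w'.2 - w.2| := by rw [norm_smul, norm_smul, hnp, hnq, mul_one, mul_one, Real.norm_eq_abs, Real.norm_eq_abs]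
            _ ≤ 2 * ‖w' - w‖ := by linarith
        calc C * ‖ptw θ p q w' - ptw θ p q w‖ ≤ C * (2 * ‖w' - w‖) := by gcongr
          _ = 2 * C * ‖w' - w‖ := by ring)
      (fun w hw => (hall hw).2.2.2.2.2.2.1) (by linarith) (by linarith) (by linarith)
      (fun w hw => by
        obtain ⟨φ, hφ, h0⟩ := ivt w (φ0 + ε) (a - ε) (by linarith) (by nlinarith [(hall hw).1, (hall hw).2.1])
        exact ⟨φ, hφ, hfg w φ h0 (hall hw).2.2.2.2.2.2.1⟩)
      (fun w hw => by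
        obtain ⟨φ, hφ, h0⟩ := ivt w (a + ε) (c - ε) (by linarith) (by nlinarith [(hall hw).2.2.1, (hall hw).2.2.2.1])
        exact ⟨φ, hφ, hfg w φ h0 (hall hw).2.2.2.2.2.2.1⟩)
      (fun w hw => by
        obtain ⟨φ, hφ, h0⟩ := ivt w (c + ε) (φ0 + Real.pi - ε) (by linarith) (by nlinarith [(hall hw).2.2.2.2.1, (hall hw).2.2.2.2.2.1])
        exact ⟨φ, hφ, hfg w φ h0 (hall hw).2.2.2.2.2.2.1⟩)
    -- back to V
    have hz : ∀ᶠ y in 𝓝 θ, 0 < ⟪θ, y⟫ := by
      have : Continuous fun y : V => ⟪θ, y⟫ := by fun_prop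
      refine this.continuousAt.eventually_const_lt ?_
      simp only [hF.tt]; exact one_pos
    have hw : ∀ᶠ y in 𝓝 θ, ((⟪p, y⟫ / ⟪θ, y⟫, ⟪q, y⟫ / ⟪θ, y⟫) : ℝ × ℝ) ∈ Metric.ball (0 : ℝ × ℝ) ρ := by
      have hc : ContinuousAt (fun y : V => ((⟪p, y⟫ / ⟪θ, y⟫, ⟪q, y⟫ / ⟪θ, y⟫) : ℝ × ℝ)) θ := by
        have h9 : ⟪θ, θ⟫ ≠ 0 := by rw [hF.tt]; exact one_ne_zero
        fun_prop (disch := assumption)
      refine hc.eventually_mem ?_
      rw [hF.pt', hF.qt', hF.tt]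
      simp only [zero_div]
      exact Metric.isOpen_ball.mem_nhds (Metric.mem_ball_self hρ)
    have hzw := hz.and hw
    rw [Metric.eventually_nhds_iff] at hzw
    obtain ⟨ρ', hρ', hzw⟩ := hzw
    refine ⟨κ, ρ', c0 • θ + c1 • p + c2 • q, hκ, hρ', fun y hy => ?_⟩
    obtain ⟨hy1, hy2⟩ := hzw hy
    obtain ⟨m1, m2⟩ := hfin _ hy2
    have hyy : y = ⟪θ, y⟫ • ptw θ p q (⟪p, y⟫ / ⟪θ, y⟫, ⟪q, y⟫ / ⟪θ, y⟫) := by
      simp only [ptw, smul_add, smul_smul, mul_div_cancel₀ _ hy1.ne']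
      exact hF.span y
    have g1 : H.g y = ⟪θ, y⟫ * H.g (ptw θ p q (⟪p, y⟫ / ⟪θ, y⟫, ⟪q, y⟫ / ⟪θ, y⟫)) := by
      conv_lhs => rw [hyy]
      exact H.homog _ hy1.le _
    have g2 : G.g y = ⟪θ, y⟫ * G.g (ptw θ p q (⟪p, y⟫ / ⟪θ, y⟫, ⟪q, y⟫ / ⟪θ, y⟫)) := by
      conv_lhs => rw [hyy]
      exact G.homog _ hy1.le _
    simp only at m1 m2
    constructor
    · rw [g1, m1, inner_add_left, inner_add_left, real_inner_smul_left, real_inner_smul_left, real_inner_smul_left]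
      field_simp
    · rw [g1, g2, m2]; ring

end main

end Pool.Agent.Helper104.TrSec
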