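import Mathlib
import Pool.Agent.Helper104.HmSign
import Pool.Agent.Helper104.HmPlanar
import Pool.Agent.Helper104.TrSpat

open MeasureTheory Set Filter Topology
open scoped RealInnerProductSpace

namespace Pool.Agent.Helper104.TrSec

variable {V : Type} [NormedAddCommGroup V] [InnerProductSpace ℝ V]

lemma E3s_of_zero {G H : Gauge V} {θ p q : V} (hF : Frame θ p q) {w : ℝ × ℝ} {φ s : ℝ} {x : V} (hx : Tr G (H.ex s) (nrm θ p q w φ) x)
    (h2 : ⟪x - ⟪θ, x⟫ • ptw θ p q w, dirv p q φ⟫ = 0) (hgt : G.g (ptw θ p q w) < Real.exp s * H.g (ptw θ p q w)) : 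
    E3s (fun w => H.g (ptw θ p q w)) (fun w => G.g (ptw θ p q w)) w (ev φ) := by
  have h := E3_of_zero (G := G) (H := H.ex s) hF hx h2 hgt
  exact ⟨Real.exp s, Real.exp_pos _, hgt, h⟩

section main

variable [FiniteDimensional ℝ V] {G H : Gauge V} {X : V → V} {σ : V → ℝ} {θ p q : V}

lemma hm_BB_continuous (hdim : 2 ≤ Module.finrank ℝ V) (hX : ∀ u, u ≠ 0 → Tr G (H.ex (σ u)) u (X u)) (hF : Frame θ p q) : 
    Continuous fun z : (ℝ × ℝ) × ℝ => BB X θ p q z.1 z.2 := by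
  have h1 : Continuous fun z : (ℝ × ℝ) × ℝ => X (nrm θ p q z.1 z.2) := by
    rw [continuous_iff_continuousAt]
    intro z
    exact ContinuousAt.comp (f := fun z : (ℝ × ℝ) × ℝ => nrm θ p q z.1 z.2) 
      (contX hdim hX (nrm_ne hF z.1 z.2)) nrm_continuous.continuousAt
  have h2 : Continuous fun z : (ℝ × ℝ) × ℝ => ptw θ p q z.1 := ptw_continuous.comp continuous_fst
  have h3 : Continuous fun z : (ℝ × ℝ) × ℝ => dirv p q z.2 := by unfold dirv; fun_prop
  exact ((h1.sub ((continuous_const.inner h1).smul h2)).inner h3)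

lemma hm_BB_zero_pi (hdim : 2 ≤ Module.finrank ℝ V) (hX : ∀ u, u ≠ 0 → Tr G (H.ex (σ u)) u (X u)) (hF : Frame θ p q) (φ : ℝ) : 
    BB X θ p q 0 (φ + Real.pi) = - BB X θ p q 0 φ := by
  have h1 : nrm θ p q 0 (φ + Real.pi) = (-1 : ℝ) • nrm θ p q 0 φ := by
    rw [nrm_zero, nrm_zero, Real.sin_add_pi, Real.cos_add_pi, smul_add, smul_smul, smul_smul]
    ring_nf
  have h2 : dirv p q (φ + Real.pi) = - dirv p q φ := by
    rw [dirv, dirv, Real.sin_add_pi, Real.cos_add_pi, neg_smul, neg_smul, neg_add]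
  rw [BB_zero hF, BB_zero hF, h1, h2, hX_smul hdim hX (nrm_ne hF 0 φ) (by norm_num), inner_neg_right]

theorem hm_spatial (hdim3 : Module.finrank ℝ V = 3) (hX : ∀ u, u ≠ 0 → Tr G (H.ex (σ u)) u (X u)) {θ : V} (hθ : ‖θ‖ = 1) (hT : TwoSided X θ) : 
    G.g θ ≠ wid H θ / wid G θ * H.g θ ∧ (G.g θ < wid H θ / wid G θ * H.g θ → 
      ∃ (κ ρ : ℝ) (ℓ : V), 0 < κ ∧ 0 < ρ ∧ ∀ y ∈ Metric.ball θ ρ, H.g y = ⟪ℓ, y⟫ ∧ H.g y = κ * G.g y) := by
  have hdim : 2 ≤ Module.finrank ℝ V := by omega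
  obtain ⟨p, q, hF⟩ := exists_frame hdim3 hθ
  have hθ0 : θ ≠ 0 := by rintro rfl; simp at hθ
  have hBc := hm_BB_continuous hdim hX hF
  have hBφ : ∀ w, Continuous fun φ => BB X θ p q w φ := fun w => hBc.comp (by fun_prop : Continuous fun φ : ℝ => ((w, φ) : (ℝ × ℝ) × ℝ))
  have hBw : ∀ φ, Continuous fun w => BB X θ p q w φ := fun φ => hBc.comp (by fun_prop : Continuous fun w : ℝ × ℝ => ((w, φ) : (ℝ × ℝ) × ℝ))
  obtain ⟨φ0, a, c, h1, h2, h3, s0, sa, sc⟩ := sign_pattern (b := BB X θ p q 0) (hm_BB_zero_pi hdim hX hF) (by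
    intro ψ
    have hd : ⟪θ, dirv p q ψ⟫ = 0 := by
      simp only [dirv, inner_add_right, real_inner_smul_right, hF.tp, hF.tq]; ring
    have hdd : ∀ φ, ⟪dirv p q φ, dirv p q ψ⟫ = Real.cos (φ - ψ) := by
      intro φ
      simp only [dirv, inner_add_right, inner_add_left, real_inner_smul_right, real_inner_smul_left, hF.pp, hF.qq, hF.pq, hF.qp']
      rw [Real.cos_sub]; ring
    have hd0 : dirv p q ψ ≠ 0 := by
      intro h
      have := hdd ψ
      rw [h, inner_zero_right, sub_self, Real.cos_zero] at this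
      exact zero_ne_one this
    obtain ⟨u, hu, huθ, hneg⟩ := hT _ hd0 hd
    obtain ⟨c, φ, hc, rfl⟩ := eq_nrm hF hu huθ
    rw [hX_smul hdim hX (nrm_ne hF 0 φ) hc] at hneg
    refine ⟨φ, ?_⟩
    have hx := (hX _ (nrm_ne hF 0 φ)).1
    -- X is in the plane spanned by θ and dirv φ
    have hz : X (nrm θ p q 0 φ) = ⟪θ, X (nrm θ p q 0 φ)⟫ • θ + BB X θ p q 0 φ • dirv p q φ := by
      rw [BB_zero hF]
      set x := X (nrm θ p q 0 φ) with hxdef
      have h4 : x - (⟪θ, x⟫ • θ + ⟪x, dirv p q φ⟫ • dirv p q φ) = 0 := by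
        rw [nrm_zero, inner_add_left, real_inner_smul_left, real_inner_smul_left] at hx
        have hcs := Real.sin_sq_add_cos_sq φ
        have e0 : ⟪x, dirv p q φ⟫ = Real.cos φ * ⟪p, x⟫ + Real.sin φ * ⟪q, x⟫ := by
          rw [real_inner_comm, dirv, inner_add_left, real_inner_smul_left, real_inner_smul_left]
        apply hF.eq_zero
        · simp only [inner_sub_right, inner_add_right, real_inner_smul_right, hF.tt, dirv, hF.tp, hF.tq]
          ring
        · rw [e0]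
          simp only [inner_sub_right, inner_add_right, real_inner_smul_right, dirv, hF.pp, hF.pq, hF.pt']
          linear_combination (-Real.sin φ) * hx - ⟪p, x⟫ * hcs
        · rw [e0]
          simp only [inner_sub_right, inner_add_right, real_inner_smul_right, dirv, hF.qq, hF.qp', hF.qt']
          linear_combination (Real.cos φ) * hx - ⟪q, x⟫ * hcs
      rwa [sub_eq_zero] at h4
    rw [hz, inner_add_left, real_inner_smul_left, real_inner_smul_left, hd, hdd, mul_zero, zero_add] at hneg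
    exact hneg)
  have hfg : ∀ w φ, BB X θ p q w φ = 0 → G.g (ptw θ p q w) < wid H (ptw θ p q w) / wid G (ptw θ p q w) * H.g (ptw θ p q w) → 
      E3s (fun w => H.g (ptw θ p q w)) (fun w => G.g (ptw θ p q w)) w (ev φ) := by
    intro w φ h hgt
    have g1 := eq_smul_of_zero hF (hX _ (nrm_ne hF w φ)).1 h
    have g2 := (hX _ (nrm_ne hF w φ)).chord2 (nrm_ptw hF w φ) (ptw_ne hF w) g1
    rw [← g2.1] at hgt
    exact E3s_of_zero hF (hX _ (nrm_ne hF w φ)) h hgt
  have hpt0 : ptw θ p q 0 = θ := by simp [ptw]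
  have ivt : ∀ w x y, x ≤ y → BB X θ p q w x * BB X θ p q w y < 0 → ∃ φ ∈ Icc x y, BB X θ p q w φ = 0 := by
    intro w x y hxy hlt
    rcases lt_trichotomy (BB X θ p q w x) 0 with g | g | g
    · have g2 : 0 < BB X θ p q w y := by nlinarith
      exact intermediate_value_Icc hxy (hBφ w).continuousOn ⟨g.le, g2.le⟩
    · rw [g, zero_mul] at hlt; exact absurd hlt (lt_irrefl _)
    · have g2 : BB X θ p q w y < 0 := by nlinarith
      exact intermediate_value_Icc' hxy (hBφ w).continuousOn ⟨g2.le, g.le⟩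
  constructor
  · obtain ⟨φ, -, hφ⟩ := ivt 0 φ0 a h1.le (by nlinarith)
    intro heq
    have h4 := eq_smul_of_zero hF (hX _ (nrm_ne hF 0 φ)).1 hφ
    have h5 := (hX _ (nrm_ne hF 0 φ)).chord2 (nrm_ptw hF 0 φ) (ptw_ne hF 0) h4
    rw [hpt0] at h5
    rw [← h5.1] at heq
    rw [← heq, sub_self] at h5
    rw [h5.2, zero_smul] at h4
    have h6 := nrm_ptw hF 0 φ
    rw [hpt0] at h6
    exact hT.hm_ne_zero (by omega) hX (nrm_ne hF 0 φ) h6 h4
  · intro hgt
    -- epsilon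
    have e1 : ∀ᶠ ε in 𝓝 (0:ℝ), 0 < BB X θ p q 0 (φ0 + ε) := by
      have : Continuous fun ε : ℝ => BB X θ p q 0 (φ0 + ε) := (hBφ 0).comp (by fun_prop)
      exact this.continuousAt.eventually_const_lt (by simpa using s0)
    have e2 : ∀ᶠ ε in 𝓝 (0:ℝ), BB X θ p q 0 (a - ε) < 0 := by
      have : Continuous fun ε : ℝ => BB X θ p q 0 (a - ε) := (hBφ 0).comp (by fun_prop)
      exact this.continuousAt.eventually_lt_const (by simpa using sa)
    have e3 : ∀ᶠ ε in 𝓝 (0:ℝ), BB X θ p q 0 (a + ε) < 0 := by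
      have : Continuous fun ε : ℝ => BB X θ p q 0 (a + ε) := (hBφ 0).comp (by fun_prop)
      exact this.continuousAt.eventually_lt_const (by simpa using sa)
    have e4 : ∀ᶠ ε in 𝓝 (0:ℝ), 0 < BB X θ p q 0 (c - ε) := by
      have : Continuous fun ε : ℝ => BB X θ p q 0 (c - ε) := (hBφ 0).comp (by fun_prop)
      exact this.continuousAt.eventually_const_lt (by simpa using sc)
    have e5 : ∀ᶠ ε in 𝓝 (0:ℝ), 0 < BB X θ p q 0 (c + ε) := by
      have : Continuous fun ε : ℝ => BB X θ p q 0 (c + ε) := (hBφ 0).comp (by fun_prop)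
      exact this.continuousAt.eventually_const_lt (by simpa using sc)
    have e6 : ∀ᶠ ε in 𝓝 (0:ℝ), BB X θ p q 0 (φ0 + Real.pi - ε) < 0 := by
      have : Continuous fun ε : ℝ => BB X θ p q 0 (φ0 + Real.pi - ε) := (hBφ 0).comp (by fun_prop)
      refine this.continuousAt.eventually_lt_const ?_
      simp only [sub_zero]
      rw [hm_BB_zero_pi hdim hX hF]; linarith
    have e7 : ∀ᶠ ε in 𝓝 (0:ℝ), ε < (a - φ0) / 2 := continuousAt_id.eventually_lt_const (by simp only [id]; linarith)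
    have e8 : ∀ᶠ ε in 𝓝 (0:ℝ), ε < (c - a) / 2 := continuousAt_id.eventually_lt_const (by simp only [id]; linarith)
    have e9 : ∀ᶠ ε in 𝓝 (0:ℝ), ε < (φ0 + Real.pi - c) / 2 := continuousAt_id.eventually_lt_const (by simp only [id]; linarith)
    have eall := (e1.and (e2.and (e3.and (e4.and (e5.and (e6.and (e7.and (e8.and e9)))))))).filter_mono 
      (nhdsWithin_le_nhds (s := Ioi (0:ℝ)))
    obtain ⟨ε, ⟨f1, f2, f3, f4, f5, f6, f7, f8, f9⟩, hε⟩ := (eall.and self_mem_nhdsWithin).exists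
    have hε : 0 < ε := hε
    obtain ⟨R1, C, hR1, hC, hlip⟩ := hm_exists_lip hdim (fun u hu => (hX u hu).swap) hθ0 (hT.swap σ)
    -- eventually in w
    have k1 : ∀ᶠ w in 𝓝 (0 : ℝ × ℝ), 0 < BB X θ p q w (φ0 + ε) := (hBw _).continuousAt.eventually_const_lt f1
    have k2 : ∀ᶠ w in 𝓝 (0 : ℝ × ℝ), BB X θ p q w (a - ε) < 0 := (hBw _).continuousAt.eventually_lt_const f2
    have k3 : ∀ᶠ w in 𝓝 (0 : ℝ × ℝ), BB X θ p q w (a + ε) < 0 := (hBw _).continuousAt.eventually_lt_const f3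
    have k4 : ∀ᶠ w in 𝓝 (0 : ℝ × ℝ), 0 < BB X θ p q w (c - ε) := (hBw _).continuousAt.eventually_const_lt f4
    have k5 : ∀ᶠ w in 𝓝 (0 : ℝ × ℝ), 0 < BB X θ p q w (c + ε) := (hBw _).continuousAt.eventually_const_lt f5
    have k6 : ∀ᶠ w in 𝓝 (0 : ℝ × ℝ), BB X θ p q w (φ0 + Real.pi - ε) < 0 := (hBw _).continuousAt.eventually_lt_const f6
    have k7 : ∀ᶠ w in 𝓝 (0 : ℝ × ℝ), G.g (ptw θ p q w) < wid H (ptw θ p q w) / wid G (ptw θ p q w) * H.g (ptw θ p q w) := by
      have hwc : ∀ A : Gauge V, ContinuousAt (fun w : ℝ × ℝ => wid A (ptw θ p q w)) 0 := by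
        intro A
        have a1 : ContinuousAt (fun w : ℝ × ℝ => A.g (ptw θ p q w)) 0 := (A.cont.comp ptw_continuous).continuousAt
        have a2 : ContinuousAt (fun w : ℝ × ℝ => A.g (-ptw θ p q w)) 0 := (A.cont.comp ptw_continuous.neg).continuousAt
        have b1 : A.g (ptw θ p q 0) ≠ 0 := (A.pos _ (ptw_ne hF 0)).ne'
        have b2 : A.g (-ptw θ p q 0) ≠ 0 := (A.pos _ (neg_ne_zero.2 (ptw_ne hF 0))).ne'
        exact (continuousAt_const.div a1 b1).add (continuousAt_const.div a2 b2)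
      have hr : ContinuousAt (fun w : ℝ × ℝ => wid H (ptw θ p q w) / wid G (ptw θ p q w) * H.g (ptw θ p q w)) 0 := 
        ((hwc H).div (hwc G) (wid_pos G (ptw_ne hF 0)).ne').mul (H.cont.comp ptw_continuous).continuousAt
      have hl : ContinuousAt (fun w : ℝ × ℝ => G.g (ptw θ p q w)) 0 := (G.cont.comp ptw_continuous).continuousAt
      refine hl.tendsto.eventually_lt hr.tendsto ?_
      simpa [hpt0] using hgt
    have k8 : ∀ᶠ w in 𝓝 (0 : ℝ × ℝ), ptw θ p q w ∈ Metric.ball θ R1 := by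
      refine (ptw_continuous (θ := θ) (p := p) (q := q)).continuousAt.eventually_mem ?_
      rw [hpt0]
      exact Metric.isOpen_ball.mem_nhds (Metric.mem_ball_self hR1)
    have kall := k1.and (k2.and (k3.and (k4.and (k5.and (k6.and (k7.and k8))))))
    rw [Metric.eventually_nhds_iff] at kall
    obtain ⟨R, hR, hall⟩ := kall
    have hnp : ‖p‖ = 1 := by
      have := hF.pp; rw [real_inner_self_eq_norm_sq] at this
      nlinarith [norm_nonneg p]
    have hnq : ‖q‖ = 1 := by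
      have := hF.qq; rw [real_inner_self_eq_norm_sq] at this
      nlinarith [norm_nonneg q]
    obtain ⟨κ, ρ, c0, c1, c2, hκ, hρ, hfin⟩ := planar_s (f := fun w => H.g (ptw θ p q w)) (h := fun w => G.g (ptw θ p q w)) 
      (R := R) (C := 2 * C) (a1 := φ0 + ε) (b1 := a - ε) (a2 := a + ε) (b2 := c - ε) (a3 := c + ε) (b3 := φ0 + Real.pi - ε)
      (H.cont.comp ptw_continuous) (G.cont.comp ptw_continuous) (fun w => H.pos _ (ptw_ne hF w)) (fun w => G.pos _ (ptw_ne hF w)) hR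
      (by
        intro w hw w' hw'
        have g1 := (hall hw).2.2.2.2.2.2.2
        have g2 := (hall hw').2.2.2.2.2.2.2
        have g3 := hlip _ g1 _ g2
        refine g3.trans ?_
        have g4 : ptw θ p q w' - ptw θ p q w = (w'.1 - w.1) • p + (w'.2 - w.2) • q := by
          simp only [ptw, sub_smul]; abel
        have g5 : ‖ptw θ p q w' - ptw θ p q w‖ ≤ 2 * ‖w' - w‖ := by
          rw [g4]
          have n1 : |w'.1 - w.1| ≤ ‖w' - w‖ := by
            rw [Prod.norm_def]; exact le_max_left _ _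
          have n2 : |w'.2 - w.2| ≤ ‖w' - w‖ := by
            rw [Prod.norm_def]; exact le_max_right _ _
          calc ‖(w'.1 - w.1) • p + (w'.2 - w.2) • q‖ ≤ ‖(w'.1 - w.1) • p‖ + ‖(w'.2 - w.2) • q‖ := norm_add_le _ _
            _ = |w'.1 - w.1| + |w'.2 - w.2| := by rw [norm_smul, norm_smul, hnp, hnq, mul_one, mul_one, Real.norm_eq_abs, Real.norm_eq_abs]
            _ ≤ 2 * ‖w' - w‖ := by linarith
        calc C * ‖ptw θ p q w' - ptw θ p q w‖ ≤ C * (2 * ‖w' - w‖) := by gcongr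
          _ = 2 * C * ‖w' - w‖ := by ring)
      (by linarith) (by linarith) (by linarith)
      (fun w hw => by
        obtain ⟨φ, hφ, h0⟩ := ivt w (φ0 + ε) (a - ε) (by linarith) (by nlinarith [(hall hw).1, (hall hw).2.1])
        exact ⟨φ, hφ, hfg w φ h0 (hall hw).2.2.2.2.2.2.1⟩)
      (fun w hw => by
        obtain ⟨φ, hφ, h0⟩ := ivt w (a + ε) (c - ε) (by linarith) (by nlinarith [(hall hw).2.2.1, (hall hw).2.2.2.1])
        exact ⟨φ, hφ, hfg w φ h0 (hall hw).2.2.2.2.2.2.1⟩)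
      (fun w hw => by
        obtain ⟨φ, hφ, h0⟩ := ivt w (c + ε) (φ0 + Real.pi - ε) (by linarith) (by nlinarith [(hall hw).2.2.2.2.1, (hall hw).2.2.2.2.2.1])
        exact ⟨φ, hφ, hfg w φ h0 (hall hw).2.2.2.2.2.2.1⟩)
    -- back to V
    have hz : ∀ᶠ y in 𝓝 θ, 0 < ⟪θ, y⟫ := by
      have : Continuous fun y : V => ⟪θ, y⟫ := by fun_prop
      refine this.continuousAt.eventually_const_lt ?_
      simp only [hF.tt]; exact one_pos
    have hw : ∀ᶠ y in 𝓝 θ, ((⟪p, y⟫ / ⟪θ, y⟫, ⟪q, y⟫ / ⟪θ, y⟫) : ℝ × ℝ) ∈ Metric.ball (0 : ℝ × ℝ) ρ := by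
      have hc : ContinuousAt (fun y : V => ((⟪p, y⟫ / ⟪θ, y⟫, ⟪q, y⟫ / ⟪θ, y⟫) : ℝ × ℝ)) θ := by
        have h9 : ⟪θ, θ⟫ ≠ 0 := by rw [hF.tt]; exact one_ne_zero
        fun_prop (disch := assumption)
      refine hc.eventually_mem ?_
      rw [hF.pt', hF.qt', hF.tt]
      simp only [zero_div]
      exact Metric.isOpen_ball.mem_nhds (Metric.mem_ball_self hρ)
    have hzw := hz.and hw
    rw [Metric.eventually_nhds_iff] at hzw
    obtain ⟨ρ', hρ', hzw⟩ := hzw
    refine ⟨κ, ρ', c0 • θ + c1 • p + c2 • q, hκ, hρ', fun y hy => ?_⟩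
    obtain ⟨hy1, hy2⟩ := hzw hy
    obtain ⟨m1, m2⟩ := hfin _ hy2
    have hyy : y = ⟪θ, y⟫ • ptw θ p q (⟪p, y⟫ / ⟪θ, y⟫, ⟪q, y⟫ / ⟪θ, y⟫) := by
      simp only [ptw, smul_add, smul_smul, mul_div_cancel₀ _ hy1.ne']
      exact hF.span y
    have g1 : H.g y = ⟪θ, y⟫ * H.g (ptw θ p q (⟪p, y⟫ / ⟪θ, y⟫, ⟪q, y⟫ / ⟪θ, y⟫)) := by
      conv_lhs => rw [hyy]
      exact H.homog _ hy1.le _
    have g2 : G.g y = ⟪θ, y⟫ * G.g (ptw θ p q (⟪p, y⟫ / ⟪θ, y⟫, ⟪q, y⟫ / ⟪θ, y⟫)) := by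
      conv_lhs => rw [hyy]
      exact G.homog _ hy1.le _
    simp only at m1 m2
    constructor
    · rw [g1, m1, inner_add_left, inner_add_left, real_inner_smul_left, real_inner_smul_left, real_inner_smul_left]
      field_simp
    · rw [g1, g2, m2]; ring

end main


end Pool.Agent.Helper104.TrSec
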