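import Mathlib
import Pool.Agent.Helper104.HmSpat

open MeasureTheory Set Filter Topology
open scoped RealInnerProductSpace

namespace Pool.Agent.Helper104.TrSec

variable {V : Type} [NormedAddCommGroup V] [InnerProductSpace ℝ V] [FiniteDimensional ℝ V] {G H : Gauge V} {X : V → V} {σ : V → ℝ}

lemma ev_scale {H : Gauge V} {ℓ p : V} (hp : ∀ᶠ y in 𝓝 p, H.g y = ⟪ℓ, y⟫) {c : ℝ} (hc : 0 < c) : ∀ᶠ y in 𝓝 (c • p), H.g y = ⟪ℓ, y⟫ := by
  have h1 : Tendsto (fun y : V => c⁻¹ • y) (𝓝 (c • p)) (𝓝 p) := by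
    have : Continuous (fun y : V => c⁻¹ • y) := by fun_prop
    have h := this.tendsto (c • p)
    simp only [smul_smul, inv_mul_cancel₀ hc.ne', one_smul] at h
    exact h
  filter_upwards [h1.eventually hp] with y hy
  rw [H.homog _ (inv_nonneg.2 hc.le), real_inner_smul_right] at hy
  exact mul_left_cancel₀ (inv_ne_zero hc.ne') hy

omit [FiniteDimensional ℝ V] in
lemma img_one {u x p : V} {s : ℝ} (h : Tr G (H.ex s) u x) (hup : ⟪u, p⟫ = 0) (hp1 : H.g p = 1) : G.g (Real.exp (-s) • p + x) = 1 := by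
  have h1 := h.eq (y := Real.exp (-s) • p) (by rw [real_inner_smul_right, hup, mul_zero])
  have h2 : (H.ex s).g (Real.exp (-s) • p) = 1 := by
    rw [Gauge.ex_g, H.homog _ (Real.exp_pos _).le, hp1, mul_one, ← Real.exp_add, add_neg_cancel, Real.exp_zero]
  rwa [h2, one_smul] at h1

lemma hm_local_pair (hdim : 2 ≤ Module.finrank ℝ V) (hX : ∀ u, u ≠ 0 → Tr G (H.ex (σ u)) u (X u)) {ℓ p u : V} 
    (hp : ∀ᶠ y in 𝓝 p, H.g y = ⟪ℓ, y⟫) (hp1 : H.g p = 1) (hu : u ≠ 0) (hup : ⟪u, p⟫ = 0) : 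
    ∀ᶠ z in 𝓝 ((Real.exp (-σ u) • p + X u, u) : V × V), ⟪z.2, z.1⟫ = 0 → 
      G.g z.1 * (Real.exp (-σ z.2) + ⟪ℓ, X z.2⟫) = ⟪ℓ, z.1⟫ := by
  have hGq := img_one (hX u hu) hup hp1
  have hXc : ContinuousAt (fun z : V × V => X z.2) (Real.exp (-σ u) • p + X u, u) := 
    ContinuousAt.comp (f := fun z : V × V => z.2) (contX hdim hX hu) continuousAt_snd
  have hσc : ContinuousAt (fun z : V × V => Real.exp (σ z.2)) (Real.exp (-σ u) • p + X u, u) := 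
    (ContinuousAt.comp (f := fun z : V × V => z.2) (contS hdim hX hu) continuousAt_snd).rexp
  have hGc : ContinuousAt (fun z : V × V => G.g z.1) (Real.exp (-σ u) • p + X u, u) := (G.cont.comp continuous_fst).continuousAt
  have hc : Tendsto (fun z : V × V => Real.exp (σ z.2) • (z.1 - G.g z.1 • X z.2)) (𝓝 (Real.exp (-σ u) • p + X u, u)) (𝓝 p) := by
    have h1 : ContinuousAt (fun z : V × V => Real.exp (σ z.2) • (z.1 - G.g z.1 • X z.2)) (Real.exp (-σ u) • p + X u, u) := 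
      hσc.smul (continuousAt_fst.sub (hGc.smul hXc))
    have h2 := h1.tendsto
    simp only [hGq, one_smul, add_sub_cancel_right, smul_smul, ← Real.exp_add, add_neg_cancel, Real.exp_zero] at h2
    exact h2
  have hne : ∀ᶠ z in 𝓝 ((Real.exp (-σ u) • p + X u, u) : V × V), z.2 ≠ 0 := continuousAt_snd.eventually_ne hu
  filter_upwards [hc.eventually hp, hne] with z h1 h2 h3
  have h4 := (hX z.2 h2).symm.eq h3
  rw [smul_neg, ← sub_eq_add_neg, Gauge.ex_g] at h4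
  rw [H.homog _ (Real.exp_pos _).le, h4, real_inner_smul_right, inner_sub_right, real_inner_smul_right] at h1
  have h5 : Real.exp (-σ z.2) * Real.exp (σ z.2) = 1 := by rw [← Real.exp_add, neg_add_cancel, Real.exp_zero]
  linear_combination Real.exp (-σ z.2) * h1 + (⟪ℓ, z.1⟫ - G.g z.1 * ⟪ℓ, X z.2⟫) * h5

lemma hm_local_flat (hdim : Module.finrank ℝ V = 3) (hX : ∀ u, u ≠ 0 → Tr G (H.ex (σ u)) u (X u)) {ℓ p u : V} 
    (hp : ∀ᶠ y in 𝓝 p, H.g y = ⟪ℓ, y⟫) (hp1 : H.g p = 1) (hu : u ≠ 0) (hup : ⟪u, p⟫ = 0) : 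
    ∀ᶠ y in 𝓝 (Real.exp (-σ u) • p + X u), G.g y * (Real.exp (-σ u) + ⟪ℓ, X u⟫) = ⟪ℓ, y⟫ := by
  have hpair := hm_local_pair (by omega) hX hp hp1 hu hup
  have hGq := img_one (hX u hu) hup hp1
  have huq : ⟪u, Real.exp (-σ u) • p + X u⟫ = 0 := by rw [inner_add_right, real_inner_smul_right, hup, (hX u hu).1, mul_zero, add_zero]
  set q := Real.exp (-σ u) • p + X u with hq
  have hq0 : q ≠ 0 := by
    intro h; rw [h, G.zero] at hGq; exact zero_ne_one hGq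
  obtain ⟨f, hf0, hfq, hfu⟩ := exists_orth_pair (by omega : 3 ≤ Module.finrank ℝ V) q u
  rw [Metric.eventually_nhds_iff] at hpair
  obtain ⟨ε0, hε0, hpair⟩ := hpair
  have hpair' : ∀ y u', ‖y - q‖ < ε0 → ‖u' - u‖ < ε0 → ⟪u', y⟫ = 0 → G.g y * (Real.exp (-σ u') + ⟪ℓ, X u'⟫) = ⟪ℓ, y⟫ := by
    intro y u' h1 h2 h3
    refine hpair (y := (y, u')) ?_ h3
    rw [Prod.dist_eq, dist_eq_norm, dist_eq_norm]
    exact max_lt h1 h2
  have hfn : 0 < ‖f‖ := norm_pos_iff.2 hf0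
  set ε : ℝ := ε0 / (2 * ‖f‖) with hε
  have hεpos : 0 < ε := by positivity
  set y2 := q + ε • f with hy2
  have hy2n : ‖y2 - q‖ < ε0 := by
    rw [hy2, add_sub_cancel_left, norm_smul, Real.norm_eq_abs, abs_of_pos hεpos, hε, div_mul_eq_mul_div, div_lt_iff₀ (by positivity)]
    nlinarith
  have hG2 : 0 < G.g y2 := by
    apply G.pos
    intro h
    have h1 : ⟪f, y2⟫ = ε * ‖f‖ ^ 2 := by
      rw [hy2, inner_add_right, hfq, real_inner_smul_right, real_inner_self_eq_norm_sq, zero_add]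
    rw [h, inner_zero_right] at h1
    have : 0 < ε * ‖f‖ ^ 2 := by positivity
    linarith
  have huy2 : ⟪u, y2⟫ = 0 := by
    rw [hy2, inner_add_right, huq, real_inner_smul_right, real_inner_comm, hfu]; ring
  have m1 := hpair' y2 u hy2n (by simpa using hε0) huy2
  -- the moving normal
  have hqn : 0 < ‖q‖ := norm_pos_iff.2 hq0
  set α : V → ℝ := fun y => -⟪u, y⟫ / (⟪q, y⟫ * (ε * ‖f‖ ^ 2) - ‖q‖ ^ 2 * ⟪f, y⟫) with hα
  set u2 : V → V := fun y => u + α y • ((ε * ‖f‖ ^ 2) • q - ‖q‖ ^ 2 • f) with hu2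
  have hden : ContinuousAt (fun y : V => ⟪q, y⟫ * (ε * ‖f‖ ^ 2) - ‖q‖ ^ 2 * ⟪f, y⟫) q := by fun_prop
  have hden0 : ⟪q, q⟫ * (ε * ‖f‖ ^ 2) - ‖q‖ ^ 2 * ⟪f, q⟫ ≠ 0 := by
    rw [hfq, mul_zero, sub_zero, real_inner_self_eq_norm_sq]
    positivity
  have hαc : ContinuousAt α q := by
    have h1 : ContinuousAt (fun y : V => -⟪u, y⟫) q := by fun_prop
    exact h1.div hden hden0
  have hα0 : α q = 0 := by simp only [hα, huq, neg_zero, zero_div]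
  have hu2c : Tendsto u2 (𝓝 q) (𝓝 u) := by
    have h1 : ContinuousAt u2 q := continuousAt_const.add (hαc.smul continuousAt_const)
    have h2 := h1.tendsto
    simp only [hu2, hα0, zero_smul, add_zero] at h2
    exact h2
  have ev1 : ∀ᶠ y in 𝓝 q, ‖u2 y - u‖ < ε0 := by
    have : Tendsto (fun y => ‖u2 y - u‖) (𝓝 q) (𝓝 0) := by
      rw [← tendsto_iff_norm_sub_tendsto_zero]; exact hu2c
    exact this.eventually_lt_const hε0
  have ev2 : ∀ᶠ y in 𝓝 q, ‖y - q‖ < ε0 := by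
    have : Tendsto (fun y : V => ‖y - q‖) (𝓝 q) (𝓝 0) := by
      rw [← tendsto_iff_norm_sub_tendsto_zero]; exact tendsto_id
    exact this.eventually_lt_const hε0
  have ev3 : ∀ᶠ y in 𝓝 q, ⟪q, y⟫ * (ε * ‖f‖ ^ 2) - ‖q‖ ^ 2 * ⟪f, y⟫ ≠ 0 := hden.eventually_ne hden0
  filter_upwards [ev1, ev2, ev3] with y h1 h2 h3
  have o1 : ⟪u2 y, y2⟫ = 0 := by
    simp only [hu2, hy2, inner_add_left, inner_add_right, inner_sub_left, real_inner_smul_left, real_inner_smul_right, huq, hfq,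
      real_inner_self_eq_norm_sq]
    rw [real_inner_comm f u, hfu, real_inner_comm f q, hfq]
    ring
  have o2 : ⟪u2 y, y⟫ = 0 := by
    simp only [hu2, inner_add_left, inner_sub_left, real_inner_smul_left]
    have : α y * (⟪q, y⟫ * (ε * ‖f‖ ^ 2) - ‖q‖ ^ 2 * ⟪f, y⟫) = -⟪u, y⟫ := by
      simp only [hα]; exact div_mul_cancel₀ _ h3
    linear_combination this
  have m2 := hpair' y2 (u2 y) hy2n h1 o1
  have m3 := hpair' y (u2 y) h2 h1 o2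
  have m4 : Real.exp (-σ (u2 y)) + ⟪ℓ, X (u2 y)⟫ = Real.exp (-σ u) + ⟪ℓ, X u⟫ := by
    have : G.g y2 * (Real.exp (-σ (u2 y)) + ⟪ℓ, X (u2 y)⟫) = G.g y2 * (Real.exp (-σ u) + ⟪ℓ, X u⟫) := by rw [m1, m2]
    exact mul_left_cancel₀ hG2.ne' this
  rw [m4] at m3
  exact m3

lemma hm_const_through (hdim : Module.finrank ℝ V = 3) (hX : ∀ u, u ≠ 0 → Tr G (H.ex (σ u)) u (X u)) {ℓ p : V} 
    (hp : ∀ᶠ y in 𝓝 p, H.g y = ⟪ℓ, y⟫) (hp1 : H.g p = 1) 
    {u u' : V} (hu : u ≠ 0) (hup : ⟪u, p⟫ = 0) (hu' : u' ≠ 0) (hup' : ⟪u', p⟫ = 0) : 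
    Real.exp (-σ u) + ⟪ℓ, X u⟫ = Real.exp (-σ u') + ⟪ℓ, X u'⟫ := by
  have hdim2 : 2 ≤ Module.finrank ℝ V := by omega
  have hℓp : ⟪ℓ, p⟫ = 1 := by rw [← hp.self_of_nhds, hp1]
  have loc : ∀ u, u ≠ 0 → ⟪u, p⟫ = 0 → ∀ᶠ v in 𝓝 u, ⟪v, p⟫ = 0 → Real.exp (-σ v) + ⟪ℓ, X v⟫ = Real.exp (-σ u) + ⟪ℓ, X u⟫ := by
    intro u hu hup
    have h1 := hm_local_flat hdim hX hp hp1 hu hup
    have h2 : Tendsto (fun v => Real.exp (-σ v) • p + X v) (𝓝 u) (𝓝 (Real.exp (-σ u) • p + X u)) := 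
      ((contS hdim2 hX hu).neg.rexp.smul continuousAt_const).add (contX hdim2 hX hu)
    have h3 : ∀ᶠ v in 𝓝 u, v ≠ 0 := isOpen_ne.mem_nhds hu
    filter_upwards [h2.eventually h1, h3] with v h4 h5 h6
    have h7 := img_one (hX v h5) h6 hp1
    rw [h7, inner_add_right, real_inner_smul_right, hℓp] at h4
    linarith
  by_cases hdep : ∃ c : ℝ, c ≠ 0 ∧ u' = c • u
  · obtain ⟨c, hc, rfl⟩ := hdep
    rw [hX_smul hdim2 hX hu hc, hσ_smul hdim2 hX hu hc]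
  · have hne := path_ne hu hu' hdep
    have hlc : IsLocallyConstant (fun s : ℝ => Real.exp (-σ ((1 - s) • u + s • u')) + ⟪ℓ, X ((1 - s) • u + s • u')⟫) := by
      rw [IsLocallyConstant.iff_eventually_eq]
      intro s
      have ho : ∀ s : ℝ, ⟪(1 - s) • u + s • u', p⟫ = 0 := by
        intro s
        rw [inner_add_left, real_inner_smul_left, real_inner_smul_left, hup, hup']; ring
      have h1 := loc _ (hne s) (ho s)
      have h2 : Tendsto (fun s : ℝ => (1 - s) • u + s • u') (𝓝 s) (𝓝 ((1 - s) • u + s • u')) := by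
        have : Continuous (fun s : ℝ => (1 - s) • u + s • u') := by fun_prop
        exact this.tendsto s
      filter_upwards [h2.eventually h1] with s' hs'
      exact hs' (ho s')
    have := hlc.apply_eq_of_preconnectedSpace 0 1
    simpa using this

/-- every line is a chord of some plane with parallel translation -/
lemma hm_exists_zero_plane (hdim : Module.finrank ℝ V = 3) (hX : ∀ u, u ≠ 0 → Tr G (H.ex (σ u)) u (X u)) {θ : V} (hθ : ‖θ‖ = 1) : 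
    ∃ u, u ≠ 0 ∧ ⟪u, θ⟫ = 0 ∧ X u = (1 / G.g θ - 1 / (Real.exp (σ u) * H.g θ)) • θ := by
  have hdim2 : 2 ≤ Module.finrank ℝ V := by omega
  obtain ⟨p, q, hF⟩ := exists_frame hdim hθ
  have hBc := hm_BB_continuous hdim2 hX hF
  have hBφ : Continuous fun φ => BB X θ p q 0 φ := hBc.comp (by fun_prop : Continuous fun φ : ℝ => ((0, φ) : (ℝ × ℝ) × ℝ))
  have hpt0 : ptw θ p q 0 = θ := by simp [ptw]
  obtain ⟨φ, hφ⟩ : ∃ φ, BB X θ p q 0 φ = 0 := by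
    have hpi := hm_BB_zero_pi hdim2 hX hF 0
    rw [zero_add] at hpi
    rcases le_total 0 (BB X θ p q 0 0) with g | g
    · obtain ⟨φ, -, h⟩ := intermediate_value_Icc' Real.pi_pos.le hBφ.continuousOn (show (0:ℝ) ∈ Icc _ _ from ⟨by rw [hpi]; linarith, g⟩)
      exact ⟨φ, h⟩
    · obtain ⟨φ, -, h⟩ := intermediate_value_Icc Real.pi_pos.le hBφ.continuousOn (show (0:ℝ) ∈ Icc _ _ from ⟨g, by rw [hpi]; linarith⟩)
      exact ⟨φ, h⟩
  have h4 := eq_smul_of_zero hF (hX _ (nrm_ne hF 0 φ)).1 hφ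
  have h5 := ((hX _ (nrm_ne hF 0 φ)).chord2 (nrm_ptw hF 0 φ) (ptw_ne hF 0) h4).2
  have h6 := nrm_ptw hF 0 φ
  rw [hpt0] at h4 h5 h6
  exact ⟨_, nrm_ne hF 0 φ, h6, by rw [← h5]; exact h4⟩

/-- forward map -/
lemma hm_flat_fwd (hdim : Module.finrank ℝ V = 3) (hX : ∀ u, u ≠ 0 → Tr G (H.ex (σ u)) u (X u)) {ℓ θ : V} {κ : ℝ} (hθ : ‖θ‖ = 1) 
    (h1 : ∀ᶠ y in 𝓝 θ, H.g y = ⟪ℓ, y⟫) (h2 : H.g θ = κ * G.g θ) {p : V} (hp : ∀ᶠ y in 𝓝 p, H.g y = ⟪ℓ, y⟫) (hp1 : H.g p = 1) {u : V} 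
    (hu : u ≠ 0) (hup : ⟪u, p⟫ = 0) : ∀ᶠ y in 𝓝 (Real.exp (-σ u) • p + X u), κ * G.g y = ⟪ℓ, y⟫ := by
  have key : Real.exp (-σ u) + ⟪ℓ, X u⟫ = κ := by
    have hθ0 : θ ≠ 0 := by rintro rfl; simp at hθ
    have hHθ := H.pos θ hθ0
    have hGθ := G.pos θ hθ0
    obtain ⟨u0, hu0, hu0θ, hXu0⟩ := hm_exists_zero_plane hdim hX hθ
    set p0 : V := (H.g θ)⁻¹ • θ with hp0
    have hHp0 : H.g p0 = 1 := by
      rw [hp0, H.homog _ (inv_nonneg.2 hHθ.le), inv_mul_cancel₀ hHθ.ne']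
    have hp0ev : ∀ᶠ y in 𝓝 p0, H.g y = ⟪ℓ, y⟫ := ev_scale h1 (inv_pos.2 hHθ)
    obtain ⟨u', hu', hu'p, hu'p0⟩ := exists_orth_pair (by omega : 3 ≤ Module.finrank ℝ V) p p0
    have e1 := hm_const_through hdim hX hp hp1 hu hup hu' hu'p
    have e2 := hm_const_through hdim hX hp0ev hHp0 hu' hu'p0 hu0 (by rw [hp0, real_inner_smul_right, hu0θ, mul_zero])
    rw [e1, e2, hXu0, real_inner_smul_right, ← h1.self_of_nhds, Real.exp_neg]
    have he := Real.exp_pos (σ u0)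
    have e3 : H.g θ / G.g θ = κ := by rw [h2]; field_simp
    rw [← e3]
    field_simp
    ring
  have := hm_local_flat hdim hX hp hp1 hu hup
  rw [key] at this
  filter_upwards [this] with y hy
  rw [← hy]; ring

/-- the facet contains two points -/
lemma two_points (hdim : Module.finrank ℝ V = 3) {H : Gauge V} {ℓ θ : V} (hθ : θ ≠ 0) (h1 : ∀ᶠ y in 𝓝 θ, H.g y = ⟪ℓ, y⟫) (a : V) : 
    ∃ p, ((∀ᶠ y in 𝓝 p, H.g y = ⟪ℓ, y⟫) ∧ H.g p = 1) ∧ p ≠ a := by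
  obtain ⟨v, hv0, hvθ, -⟩ := exists_orth_pair (by omega : 3 ≤ Module.finrank ℝ V) θ θ
  have hHθ := H.pos θ hθ
  have hnorm : ∀ z : V, 0 < H.g z → (∀ᶠ y in 𝓝 z, H.g y = ⟪ℓ, y⟫) → (∀ᶠ y in 𝓝 ((H.g z)⁻¹ • z), H.g y = ⟪ℓ, y⟫) ∧ H.g ((H.g z)⁻¹ • z) = 1 := by
    intro z hz hev
    exact ⟨ev_scale hev (inv_pos.2 hz), by rw [H.homog _ (inv_nonneg.2 hz.le), inv_mul_cancel₀ hz.ne']⟩
  have hev : ∀ᶠ s in 𝓝 (0:ℝ), ∀ᶠ y in 𝓝 (θ + s • v), H.g y = ⟪ℓ, y⟫ := by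
    have hc : Tendsto (fun s : ℝ => θ + s • v) (𝓝 0) (𝓝 θ) := by
      have : Continuous (fun s : ℝ => θ + s • v) := by fun_prop
      have h := this.tendsto 0
      simp only [zero_smul, add_zero] at h
      exact h
    exact hc.eventually (eventually_eventually_nhds.2 h1)
  obtain ⟨s, hs, hspos⟩ := ((hev.filter_mono (nhdsWithin_le_nhds (s := Ioi (0:ℝ)))).and self_mem_nhdsWithin).exists
  have hspos : 0 < s := hspos
  have hvv : 0 < ⟪v, v⟫ := real_inner_self_pos.2 hv0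
  have hz0 : θ + s • v ≠ 0 := by
    intro h
    have h3 : ⟪v, θ + s • v⟫ = s * ⟪v, v⟫ := by
      rw [inner_add_right, hvθ, real_inner_smul_right, zero_add]
    rw [h, inner_zero_right] at h3
    have : 0 < s * ⟪v, v⟫ := by positivity
    linarith
  have hHz := H.pos _ hz0
  obtain ⟨a1, a2⟩ := hnorm θ hHθ h1
  obtain ⟨b1, b2⟩ := hnorm _ hHz hs
  by_cases hc : (H.g θ)⁻¹ • θ = a
  · refine ⟨_, ⟨b1, b2⟩, fun h => ?_⟩
    have h3 : ⟪v, (H.g (θ + s • v))⁻¹ • (θ + s • v)⟫ = ⟪v, (H.g θ)⁻¹ • θ⟫ := by rw [h, hc]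
    rw [real_inner_smul_right, real_inner_smul_right, inner_add_right, hvθ, real_inner_smul_right, mul_zero, zero_add] at h3
    have : 0 < (H.g (θ + s • v))⁻¹ * (s * ⟪v, v⟫) := by positivity
    linarith
  · exact ⟨_, ⟨a1, a2⟩, hc⟩

omit [FiniteDimensional ℝ V] in
lemma far_transfer {A B : Set V} {ℓ a : V} (hA1 : ∀ p ∈ A, ⟪ℓ, p⟫ = 1) (hB1 : ∀ p ∈ B, ⟪ℓ, p⟫ = 1) 
    (hAB : ∀ p ∈ A, ∀ u, u ≠ 0 → ⟪u, p⟫ = 0 → ∃ q ∈ B, ⟪u, q⟫ = 0) (hmaxA : ∀ p ∈ A, ‖p‖ ≤ ‖a‖) (hmaxB : ∀ q ∈ B, ‖q‖ ≤ ‖a‖) 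
    (ha : a ∈ closure A) (hA2 : ∃ p ∈ A, p ≠ a) : a ∈ closure B := by
  rw [Metric.mem_closure_iff]
  intro ε hε
  have hc : Continuous fun p : V => 2 * ‖a‖ ^ 2 - 2 * ⟪p, a⟫ := by fun_prop
  have h0 : 2 * ‖a‖ ^ 2 - 2 * ⟪a, a⟫ < ε ^ 2 := by
    rw [real_inner_self_eq_norm_sq]
    have : 0 < ε ^ 2 := by positivity
    linarith
  have hev : ∀ᶠ p in 𝓝 a, 2 * ‖a‖ ^ 2 - 2 * ⟪p, a⟫ < ε ^ 2 := hc.continuousAt.eventually_lt_const h0
  rw [mem_closure_iff_frequently] at ha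
  obtain ⟨p, hpA, hp⟩ := (ha.and_eventually hev).exists
  have hu : a - ⟪p, a⟫ • ℓ ≠ 0 := by
    intro h
    have h1 : a = ⟪p, a⟫ • ℓ := sub_eq_zero.1 h
    have h2 : ∀ p' ∈ A, ⟪a, p'⟫ = ⟪p, a⟫ := by
      intro p' hp'
      conv_lhs => rw [h1]
      rw [real_inner_smul_left, hA1 p' hp', mul_one]
    have h3 : ⟪a, a⟫ = ⟪p, a⟫ := by
      have hcl : IsClosed {x : V | ⟪a, x⟫ = ⟪p, a⟫} := isClosed_eq (by fun_prop) continuous_const
      have hsub : closure A ⊆ {x : V | ⟪a, x⟫ = ⟪p, a⟫} := hcl.closure_subset_iff.2 fun x hx => h2 x hx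
      exact hsub (mem_closure_iff_frequently.2 ha)
    obtain ⟨p', hp', hne⟩ := hA2
    apply hne
    have h4 : ‖p' - a‖ ^ 2 ≤ 0 := by
      have h5 := hmaxA p' hp'
      rw [norm_sub_sq_real, real_inner_comm, h2 p' hp', ← h3, real_inner_self_eq_norm_sq]
      nlinarith [norm_nonneg p', norm_nonneg a]
    have h5 : ‖p' - a‖ = 0 := by nlinarith [norm_nonneg (p' - a)]
    exact sub_eq_zero.1 (norm_eq_zero.1 h5)
  obtain ⟨q, hq, hqu⟩ := hAB p hpA _ hu (by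
    rw [inner_sub_left, real_inner_smul_left, hA1 p hpA, real_inner_comm]; ring)
  refine ⟨q, hq, ?_⟩
  rw [inner_sub_left, real_inner_smul_left, hB1 q hq] at hqu
  have h5 := hmaxB q hq
  rw [dist_eq_norm]
  have h6 : ‖a - q‖ ^ 2 < ε ^ 2 := by
    rw [norm_sub_sq_real]
    nlinarith [norm_nonneg q, norm_nonneg a]
  exact lt_of_pow_lt_pow_left₀ 2 hε.le h6

theorem exists_total_of_flat (hdim : Module.finrank ℝ V = 3) (hX : ∀ u, u ≠ 0 → Tr G (H.ex (σ u)) u (X u)) {ℓ θ : V} {κ : ℝ} (hκ : 0 < κ) (hθ : ‖θ‖ = 1) 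
    (h1 : ∀ᶠ y in 𝓝 θ, H.g y = ⟪ℓ, y⟫) (h2 : ∀ᶠ y in 𝓝 θ, H.g y = κ * G.g y) : 
    ∃ a : V, a ≠ 0 ∧ ∀ u, u ≠ 0 → ⟪u, a⟫ = 0 → ∃ c : ℝ, X u = c • a := by
  have hdim2 : 2 ≤ Module.finrank ℝ V := by omega
  have hθ0 : θ ≠ 0 := by rintro rfl; simp at hθ
  set A : Set V := {p | (∀ᶠ y in 𝓝 p, H.g y = ⟪ℓ, y⟫) ∧ H.g p = 1} with hA
  set B : Set V := {q | (∀ᶠ y in 𝓝 q, κ * G.g y = ⟪ℓ, y⟫) ∧ G.g q = 1} with hB
  have fwd : ∀ p ∈ A, ∀ u, u ≠ 0 → ⟪u, p⟫ = 0 → Real.exp (-σ u) • p + X u ∈ B := by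
    intro p hp u hu hup
    exact ⟨hm_flat_fwd hdim hX hθ h1 h2.self_of_nhds hp.1 hp.2 hu hup, img_one (hX u hu) hup hp.2⟩
  have bwd : ∀ q ∈ B, ∀ u, u ≠ 0 → ⟪u, q⟫ = 0 → Real.exp (σ u) • (q - X u) ∈ A := by
    intro q hq u hu huq
    have e : Real.exp (-(-σ u)) • q + -(Real.exp (σ u) • X u) = Real.exp (σ u) • (q - X u) := by
      rw [neg_neg, smul_sub]; abel
    have h3 := hm_flat_fwd (G := H) (H := G) (X := fun u => -(Real.exp (σ u) • X u)) (σ := fun u => -σ u) (ℓ := κ⁻¹ • ℓ) (κ := κ⁻¹) hdim 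
      (fun u hu => (hX u hu).swap) hθ
      (by
        filter_upwards [h1, h2] with y e1 e2
        rw [real_inner_smul_left, ← e1, e2]; field_simp)
      (by rw [h2.self_of_nhds]; field_simp) (p := q)
      (by
        filter_upwards [hq.1] with y e1
        rw [real_inner_smul_left, ← e1]; field_simp) hq.2 hu huq
    have h4 := img_one (hX u hu).swap huq hq.2
    simp only [e] at h3 h4
    refine ⟨?_, h4⟩
    filter_upwards [h3] with y hy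
    rw [real_inner_smul_left] at hy
    exact mul_left_cancel₀ (inv_ne_zero hκ.ne') hy
  set B' : Set V := (fun q => κ⁻¹ • q) '' B with hB'
  have hA1 : ∀ p ∈ A, ⟪ℓ, p⟫ = 1 := fun p hp => by rw [← hp.1.self_of_nhds, hp.2]
  have hB1 : ∀ p ∈ B', ⟪ℓ, p⟫ = 1 := by
    rintro _ ⟨q, hq, rfl⟩
    rw [real_inner_smul_right, ← hq.1.self_of_nhds, hq.2]; field_simp
  have hAB : ∀ p ∈ A, ∀ u, u ≠ 0 → ⟪u, p⟫ = 0 → ∃ q ∈ B', ⟪u, q⟫ = 0 := by
    intro p hp u hu hup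
    refine ⟨_, ⟨_, fwd p hp u hu hup, rfl⟩, ?_⟩
    rw [real_inner_smul_right, inner_add_right, real_inner_smul_right, hup, (hX u hu).1]; ring
  have hBA : ∀ p ∈ B', ∀ u, u ≠ 0 → ⟪u, p⟫ = 0 → ∃ q ∈ A, ⟪u, q⟫ = 0 := by
    rintro _ ⟨q, hq, rfl⟩ u hu hup
    have huq : ⟪u, q⟫ = 0 := by
      rw [real_inner_smul_right] at hup
      rcases mul_eq_zero.1 hup with h | h
      · exact absurd h (inv_ne_zero hκ.ne')
      · exact h
    refine ⟨_, bwd q hq u hu huq, ?_⟩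
    rw [real_inner_smul_right, inner_sub_right, huq, (hX u hu).1]; ring
  have hA2 : ∀ a : V, ∃ p ∈ A, p ≠ a := fun a => two_points hdim hθ0 h1 a
  have hB2 : ∀ a : V, ∃ p ∈ B', p ≠ a := by
    intro a
    obtain ⟨q, ⟨g1, g2⟩, g3⟩ := two_points (H := G) (ℓ := κ⁻¹ • ℓ) hdim hθ0 (by
        filter_upwards [h1, h2] with y e1 e2
        rw [real_inner_smul_left, ← e1, e2]; field_simp) (κ • a)
    refine ⟨κ⁻¹ • q, ⟨q, ⟨?_, g2⟩, rfl⟩, fun h => g3 ?_⟩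
    · filter_upwards [g1] with y e1
      rw [e1, real_inner_smul_left]; field_simp
    · rw [← h, smul_smul, mul_inv_cancel₀ hκ.ne', one_smul]
  -- boundedness
  obtain ⟨c, C, hc, hC, hb⟩ := G.exists_bounds
  obtain ⟨c', C', hc', hC', hb'⟩ := H.exists_bounds
  set R0 : ℝ := max (1 / c') (κ⁻¹ * (1 / c)) with hR0
  have hAR : ∀ p ∈ A, ‖p‖ ≤ R0 := by
    intro p hp
    refine le_trans ?_ (le_max_left _ _)
    rw [le_div_iff₀ hc']
    linarith [(hb' p).1, hp.2]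
  have hBR : ∀ p ∈ B', ‖p‖ ≤ R0 := by
    rintro _ ⟨q, hq, rfl⟩
    refine le_trans ?_ (le_max_right _ _)
    rw [norm_smul, Real.norm_eq_abs, abs_of_pos (inv_pos.2 hκ)]
    apply mul_le_mul_of_nonneg_left _ (inv_pos.2 hκ).le
    rw [le_div_iff₀ hc]
    linarith [(hb q).1, hq.2]
  set K0 : Set V := closure (A ∪ B') with hK0
  have hK0c : IsCompact K0 := by
    apply Metric.isCompact_of_isClosed_isBounded isClosed_closure
    apply Bornology.IsBounded.closure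
    rw [isBounded_iff_forall_norm_le]
    refine ⟨R0, fun y hy => ?_⟩
    rcases hy with hy | hy
    · exact hAR y hy
    · exact hBR y hy
  obtain ⟨p0, hp0, -⟩ := hA2 0
  obtain ⟨a, haK, hamax⟩ := hK0c.exists_isMaxOn ⟨p0, subset_closure (Or.inl hp0)⟩ continuous_norm.continuousOn
  have hmaxA : ∀ p ∈ A, ‖p‖ ≤ ‖a‖ := fun p hp => hamax (subset_closure (Or.inl hp))
  have hmaxB : ∀ p ∈ B', ‖p‖ ≤ ‖a‖ := fun p hp => hamax (subset_closure (Or.inr hp))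
  have haAB : a ∈ closure A ∧ a ∈ closure B' := by
    rw [hK0, closure_union] at haK
    rcases haK with h | h
    · exact ⟨h, far_transfer hA1 hB1 hAB hmaxA hmaxB h (hA2 a)⟩
    · exact ⟨far_transfer hB1 hA1 hBA hmaxB hmaxA h (hB2 a), h⟩
  obtain ⟨haA, haB⟩ := haAB
  have hℓa : ⟪ℓ, a⟫ = 1 := by
    have hcl : IsClosed {x : V | ⟪ℓ, x⟫ = 1} := isClosed_eq (by fun_prop) continuous_const
    have hsub : closure A ⊆ {x : V | ⟪ℓ, x⟫ = 1} := hcl.closure_subset_iff.2 fun x hx => hA1 x hx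
    exact hsub haA
  have ha0 : a ≠ 0 := by
    rintro rfl; rw [inner_zero_right] at hℓa; exact zero_ne_one hℓa
  refine ⟨a, ha0, fun u hu hua => ?_⟩
  have hau : ⟪a, u⟫ = 0 := by rw [real_inner_comm]; exact hua
  have tc := tendsto_corr (u0 := a) (y := u) ha0 hau
  have hne : ∀ᶠ p in 𝓝 a, corr u p ≠ 0 := tc.eventually_ne hu
  have hne2 : ∀ᶠ p in 𝓝 a, p ≠ 0 := isOpen_ne.mem_nhds ha0
  have tX : Tendsto (fun p => X (corr u p)) (𝓝 a) (𝓝 (X u)) := (contX hdim2 hX hu).tendsto.comp tc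
  have tS : Tendsto (fun p => σ (corr u p)) (𝓝 a) (𝓝 (σ u)) := (contS hdim2 hX hu).tendsto.comp tc
  have n1 : ‖κ⁻¹ • (Real.exp (-σ u) • a + X u)‖ ≤ ‖a‖ := by
    have hnb : (𝓝[A] a).NeBot := mem_closure_iff_nhdsWithin_neBot.1 haA
    have t1 : Tendsto (fun p => ‖κ⁻¹ • (Real.exp (-σ (corr u p)) • p + X (corr u p))‖) (𝓝[A] a) (𝓝 ‖κ⁻¹ • (Real.exp (-σ u) • a + X u)‖) := by
      refine Tendsto.mono_left ?_ nhdsWithin_le_nhds
      exact ((((Real.continuous_exp.tendsto _).comp tS.neg).smul tendsto_id).add tX |>.const_smul κ⁻¹).norm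
    refine le_of_tendsto t1 ?_
    filter_upwards [hne.filter_mono nhdsWithin_le_nhds, hne2.filter_mono nhdsWithin_le_nhds, self_mem_nhdsWithin] with p g1 g2 g3
    exact hmaxB _ ⟨_, fwd p g3 _ g1 (by rw [real_inner_comm]; exact inner_corr u g2), rfl⟩
  have n2 : ‖Real.exp (σ u) • (κ • a - X u)‖ ≤ ‖a‖ := by
    have hnb : (𝓝[B'] a).NeBot := mem_closure_iff_nhdsWithin_neBot.1 haB
    have t1 : Tendsto (fun p => ‖Real.exp (σ (corr u p)) • (κ • p - X (corr u p))‖) (𝓝[B'] a) (𝓝 ‖Real.exp (σ u) • (κ • a - X u)‖) := by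
      refine Tendsto.mono_left ?_ nhdsWithin_le_nhds
      exact (((Real.continuous_exp.tendsto _).comp tS).smul ((tendsto_id.const_smul κ).sub tX)).norm
    refine le_of_tendsto t1 ?_
    filter_upwards [hne.filter_mono nhdsWithin_le_nhds, hne2.filter_mono nhdsWithin_le_nhds, self_mem_nhdsWithin] with p g1 g2 g3
    obtain ⟨q, hq, hqp⟩ := g3
    have g4 : κ • p = q := by rw [← hqp, smul_smul, mul_inv_cancel₀ hκ.ne', one_smul]
    have g5 : ⟪corr u p, q⟫ = 0 := by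
      rw [← g4, real_inner_smul_right, real_inner_comm, inner_corr u g2, mul_zero]
    have := bwd q hq _ g1 g5
    rw [← g4] at this
    exact hmaxA _ this
  set v : V := κ⁻¹ • (Real.exp (-σ u) • a + X u) - a with hv
  set r : ℝ := κ * Real.exp (σ u) with hr
  have hr0 : 0 < r := by positivity
  have hee : Real.exp (σ u) * Real.exp (-σ u) = 1 := by rw [← Real.exp_add, add_neg_cancel, Real.exp_zero]
  have e1 : κ⁻¹ • (Real.exp (-σ u) • a + X u) = a + v := by rw [hv]; abel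
  have e2 : Real.exp (σ u) • (κ • a - X u) = a - r • v := by
    rw [hv, hr, smul_sub (κ * Real.exp (σ u)), smul_smul]
    have e3 : κ * Real.exp (σ u) * κ⁻¹ = Real.exp (σ u) := by field_simp
    rw [e3, smul_add, smul_smul, hee, one_smul, smul_sub, smul_smul, mul_comm (Real.exp (σ u)) κ]
    abel
  rw [e1] at n1
  rw [e2] at n2
  have s1 : ‖a + v‖ ^ 2 ≤ ‖a‖ ^ 2 := pow_le_pow_left₀ (norm_nonneg _) n1 2
  have s2 : ‖a - r • v‖ ^ 2 ≤ ‖a‖ ^ 2 := pow_le_pow_left₀ (norm_nonneg _) n2 2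
  rw [norm_add_sq_real] at s1
  rw [norm_sub_sq_real, real_inner_smul_right, norm_smul, Real.norm_eq_abs, abs_of_pos hr0] at s2
  have s3 : r * (r * ‖v‖ ^ 2 - 2 * ⟪a, v⟫) ≤ 0 := by nlinarith
  have s4 : r * ‖v‖ ^ 2 - 2 * ⟪a, v⟫ ≤ 0 := by
    by_contra hcon
    push Not at hcon
    have := mul_pos hr0 hcon
    linarith
  have s5 : ‖v‖ ^ 2 * (1 + r) ≤ 0 := by nlinarith
  have s6 : ‖v‖ = 0 := by
    have : 0 ≤ ‖v‖ ^ 2 := sq_nonneg _
    have h3 : ‖v‖ ^ 2 = 0 := by nlinarith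
    exact pow_eq_zero_iff (two_ne_zero) |>.1 h3
  have hv0 : v = 0 := norm_eq_zero.1 s6
  rw [hv0, add_zero] at e1
  refine ⟨κ - Real.exp (-σ u), ?_⟩
  have e3 : Real.exp (-σ u) • a + X u = κ • a := by
    have e4 := congrArg (fun z => κ • z) e1
    simp only [smul_smul κ κ⁻¹, mul_inv_cancel₀ hκ.ne', one_smul] at e4
    exact e4
  rw [sub_smul, ← e3]; abel

end Pool.Agent.Helper104.TrSec
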