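import Mathlib
import Pool.Agent.Helper104.TrSpat

open MeasureTheory Set Filter Topology
open scoped RealInnerProductSpace

namespace Pool.Agent.Helper104.TrSec

variable {V : Type} [NormedAddCommGroup V] [InnerProductSpace ℝ V] [FiniteDimensional ℝ V] {G H : Gauge V} {X : V → V}

lemma local_pair (hX : ∀ u, u ≠ 0 → Tr G H u (X u)) {ℓ p u : V} (hp : ∀ᶠ y in 𝓝 p, H.g y = ⟪ℓ, y⟫) (hp1 : H.g p = 1) 
    (hu : u ≠ 0) (hup : ⟪u, p⟫ = 0) : 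
    ∀ᶠ z in 𝓝 ((p + X u, u) : V × V), ⟪z.2, z.1⟫ = 0 → G.g z.1 * (1 + ⟪ℓ, X z.2⟫) = ⟪ℓ, z.1⟫ := by
  have hGq : G.g (p + X u) = 1 := by
    have := (hX u hu).eq hup
    rwa [hp1, one_smul] at this
  have hXc : ContinuousAt (fun z : V × V => X z.2) (p + X u, u) := 
    ContinuousAt.comp (f := fun z : V × V => z.2) (continuousAt_X hX hu) continuousAt_snd
  have hGc : ContinuousAt (fun z : V × V => G.g z.1) (p + X u, u) := (G.cont.comp continuous_fst).continuousAt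
  have hc : Tendsto (fun z : V × V => z.1 - G.g z.1 • X z.2) (𝓝 (p + X u, u)) (𝓝 p) := by
    have h1 : ContinuousAt (fun z : V × V => z.1 - G.g z.1 • X z.2) (p + X u, u) := continuousAt_fst.sub (hGc.smul hXc)
    have h2 := h1.tendsto
    simp only [hGq, one_smul, add_sub_cancel_right] at h2
    exact h2
  have hne : ∀ᶠ z in 𝓝 ((p + X u, u) : V × V), z.2 ≠ 0 := continuousAt_snd.eventually_ne hu
  filter_upwards [hc.eventually hp, hne] with z h1 h2 h3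
  have h4 := (hX z.2 h2).symm.eq h3
  rw [smul_neg, ← sub_eq_add_neg, h1, inner_sub_right, real_inner_smul_right] at h4
  linarith

lemma local_flat (hdim : Module.finrank ℝ V = 3) (hX : ∀ u, u ≠ 0 → Tr G H u (X u)) {ℓ p u : V} (hp : ∀ᶠ y in 𝓝 p, H.g y = ⟪ℓ, y⟫) (hp1 : H.g p = 1) 
    (hu : u ≠ 0) (hup : ⟪u, p⟫ = 0) : ∀ᶠ y in 𝓝 (p + X u), G.g y * (1 + ⟪ℓ, X u⟫) = ⟪ℓ, y⟫ := by
  have hpair := local_pair hX hp hp1 hu hup
  have hGq : G.g (p + X u) = 1 := by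
    have := (hX u hu).eq hup
    rwa [hp1, one_smul] at this
  have huq : ⟪u, p + X u⟫ = 0 := by rw [inner_add_right, hup, (hX u hu).1, add_zero]
  set q := p + X u with hq
  have hq0 : q ≠ 0 := by
    intro h; rw [h, G.zero] at hGq; exact zero_ne_one hGq
  obtain ⟨f, hf0, hfq, hfu⟩ := exists_orth_pair (by omega : 3 ≤ Module.finrank ℝ V) q u
  rw [Metric.eventually_nhds_iff] at hpair
  obtain ⟨ε0, hε0, hpair⟩ := hpair
  have hpair' : ∀ y u', ‖y - q‖ < ε0 → ‖u' - u‖ < ε0 → ⟪u', y⟫ = 0 → G.g y * (1 + ⟪ℓ, X u'⟫) = ⟪ℓ, y⟫ := by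
    intro y u' h1 h2 h3
    refine hpair (y := (y, u')) ?_ h3
    rw [Prod.dist_eq, dist_eq_norm, dist_eq_norm]
    exact max_lt h1 h2
  have hfn : 0 < ‖f‖ := norm_pos_iff.2 hf0
  set ε : ℝ := ε0 / (2 * ‖f‖) with hε
  have hεpos : 0 < ε := by positivity
  set y2 := q + ε • f with hy2
  have hy2n : ‖y2 - q‖ < ε0 := by
    rw [hy2, add_sub_cancel_left, norm_smul, Real.norm_eq_abs, abs_of_pos hεpos, hε, div_mul_eq_mul_div, div_lt_iff₀ (by positivity)]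
    nlinarith
  have hG2 : 0 < G.g y2 := by
    apply G.pos
    intro h
    have h1 : ⟪f, y2⟫ = ε * ‖f‖ ^ 2 := by
      rw [hy2, inner_add_right, hfq, real_inner_smul_right, real_inner_self_eq_norm_sq, zero_add]
    rw [h, inner_zero_right] at h1
    have : 0 < ε * ‖f‖ ^ 2 := by positivity
    linarith
  have huy2 : ⟪u, y2⟫ = 0 := by
    rw [hy2, inner_add_right, huq, real_inner_smul_right, real_inner_comm, hfu]; ring
  have m1 := hpair' y2 u hy2n (by simpa using hε0) huy2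
  -- the moving normal
  have hqn : 0 < ‖q‖ := norm_pos_iff.2 hq0
  set α : V → ℝ := fun y => -⟪u, y⟫ / (⟪q, y⟫ * (ε * ‖f‖ ^ 2) - ‖q‖ ^ 2 * ⟪f, y⟫) with hα
  set u2 : V → V := fun y => u + α y • ((ε * ‖f‖ ^ 2) • q - ‖q‖ ^ 2 • f) with hu2
  have hden : ContinuousAt (fun y : V => ⟪q, y⟫ * (ε * ‖f‖ ^ 2) - ‖q‖ ^ 2 * ⟪f, y⟫) q := by fun_prop
  have hden0 : ⟪q, q⟫ * (ε * ‖f‖ ^ 2) - ‖q‖ ^ 2 * ⟪f, q⟫ ≠ 0 := by
    rw [hfq, mul_zero, sub_zero, real_inner_self_eq_norm_sq]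
    positivity
  have hαc : ContinuousAt α q := by
    have h1 : ContinuousAt (fun y : V => -⟪u, y⟫) q := by fun_prop
    exact h1.div hden hden0
  have hα0 : α q = 0 := by simp only [hα, huq, neg_zero, zero_div]
  have hu2c : Tendsto u2 (𝓝 q) (𝓝 u) := by
    have h1 : ContinuousAt u2 q := continuousAt_const.add (hαc.smul continuousAt_const)
    have h2 := h1.tendsto
    simp only [hu2, hα0, zero_smul, add_zero] at h2
    exact h2
  have ev1 : ∀ᶠ y in 𝓝 q, ‖u2 y - u‖ < ε0 := by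
    have : Tendsto (fun y => ‖u2 y - u‖) (𝓝 q) (𝓝 0) := by
      rw [← tendsto_iff_norm_sub_tendsto_zero]; exact hu2c
    exact this.eventually_lt_const hε0
  have ev2 : ∀ᶠ y in 𝓝 q, ‖y - q‖ < ε0 := by
    have : Tendsto (fun y : V => ‖y - q‖) (𝓝 q) (𝓝 0) := by
      rw [← tendsto_iff_norm_sub_tendsto_zero]; exact tendsto_id
    exact this.eventually_lt_const hε0
  have ev3 : ∀ᶠ y in 𝓝 q, ⟪q, y⟫ * (ε * ‖f‖ ^ 2) - ‖q‖ ^ 2 * ⟪f, y⟫ ≠ 0 := hden.eventually_ne hden0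
  filter_upwards [ev1, ev2, ev3] with y h1 h2 h3
  have o1 : ⟪u2 y, y2⟫ = 0 := by
    simp only [hu2, hy2, inner_add_left, inner_add_right, inner_sub_left, real_inner_smul_left, real_inner_smul_right, huq, hfq,
      real_inner_self_eq_norm_sq]
    rw [real_inner_comm f u, hfu, real_inner_comm f q, hfq]
    ring
  have o2 : ⟪u2 y, y⟫ = 0 := by
    simp only [hu2, inner_add_left, inner_sub_left, real_inner_smul_left]
    have : α y * (⟪q, y⟫ * (ε * ‖f‖ ^ 2) - ‖q‖ ^ 2 * ⟪f, y⟫) = -⟪u, y⟫ := by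
      simp only [hα]; exact div_mul_cancel₀ _ h3
    linear_combination this
  have m2 := hpair' y2 (u2 y) hy2n h1 o1
  have m3 := hpair' y (u2 y) h2 h1 o2
  have m4 : 1 + ⟪ℓ, X (u2 y)⟫ = 1 + ⟪ℓ, X u⟫ := by
    have : G.g y2 * (1 + ⟪ℓ, X (u2 y)⟫) = G.g y2 * (1 + ⟪ℓ, X u⟫) := by rw [m1, m2]
    exact mul_left_cancel₀ hG2.ne' this
  rw [m4] at m3
  exact m3

lemma const_through (hdim : Module.finrank ℝ V = 3) (hX : ∀ u, u ≠ 0 → Tr G H u (X u)) {ℓ p : V} (hp : ∀ᶠ y in 𝓝 p, H.g y = ⟪ℓ, y⟫) (hp1 : H.g p = 1) 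
    {u u' : V} (hu : u ≠ 0) (hup : ⟪u, p⟫ = 0) (hu' : u' ≠ 0) (hup' : ⟪u', p⟫ = 0) : ⟪ℓ, X u⟫ = ⟪ℓ, X u'⟫ := by
  have hℓp : ⟪ℓ, p⟫ = 1 := by rw [← hp.self_of_nhds, hp1]
  have loc : ∀ u, u ≠ 0 → ⟪u, p⟫ = 0 → ∀ᶠ v in 𝓝 u, ⟪v, p⟫ = 0 → ⟪ℓ, X v⟫ = ⟪ℓ, X u⟫ := by
    intro u hu hup
    have h1 := local_flat hdim hX hp hp1 hu hup
    have h2 : Tendsto (fun v => p + X v) (𝓝 u) (𝓝 (p + X u)) := (continuousAt_X hX hu).tendsto.const_add p
    have h3 : ∀ᶠ v in 𝓝 u, v ≠ 0 := isOpen_ne.mem_nhds hu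
    filter_upwards [h2.eventually h1, h3] with v h4 h5 h6
    have h7 := (hX v h5).eq h6
    rw [hp1, one_smul] at h7
    rw [h7, inner_add_right, hℓp] at h4
    linarith
  by_cases hdep : ∃ c : ℝ, c ≠ 0 ∧ u' = c • u
  · obtain ⟨c, hc, rfl⟩ := hdep
    rw [X_smul hX hu hc]
  · have hne := path_ne hu hu' hdep
    have hlc : IsLocallyConstant (fun s : ℝ => ⟪ℓ, X ((1 - s) • u + s • u')⟫) := by
      rw [IsLocallyConstant.iff_eventually_eq]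
      intro s
      have ho : ∀ s : ℝ, ⟪(1 - s) • u + s • u', p⟫ = 0 := by
        intro s
        rw [inner_add_left, real_inner_smul_left, real_inner_smul_left, hup, hup']; ring
      have h1 := loc _ (hne s) (ho s)
      have h2 : Tendsto (fun s : ℝ => (1 - s) • u + s • u') (𝓝 s) (𝓝 ((1 - s) • u + s • u')) := by
        have : Continuous (fun s : ℝ => (1 - s) • u + s • u') := by fun_prop
        exact this.tendsto s
      filter_upwards [h2.eventually h1] with s' hs'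
      exact hs' (ho s')
    have := hlc.apply_eq_of_preconnectedSpace 0 1
    simpa using this

/-- every line is a chord of some plane with parallel translation -/
lemma exists_zero_plane (hdim : Module.finrank ℝ V = 3) (hX : ∀ u, u ≠ 0 → Tr G H u (X u)) {θ : V} (hθ : ‖θ‖ = 1) : 
    ∃ u, u ≠ 0 ∧ ⟪u, θ⟫ = 0 ∧ X u = (1 / G.g θ - 1 / H.g θ) • θ := by
  obtain ⟨p, q, hF⟩ := exists_frame hdim hθ
  have hBc := BB_continuous hX hF
  have hBφ : Continuous fun φ => BB X θ p q 0 φ := hBc.comp (by fun_prop : Continuous fun φ : ℝ => ((0, φ) : (ℝ × ℝ) × ℝ))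
  have hpt0 : ptw θ p q 0 = θ := by simp [ptw]
  obtain ⟨φ, hφ⟩ : ∃ φ, BB X θ p q 0 φ = 0 := by
    have hpi := BB_zero_pi hX hF 0
    rw [zero_add] at hpi
    rcases le_total 0 (BB X θ p q 0 0) with g | g
    · obtain ⟨φ, -, h⟩ := intermediate_value_Icc' Real.pi_pos.le hBφ.continuousOn (show (0:ℝ) ∈ Icc _ _ from ⟨by rw [hpi]; linarith, g⟩)
      exact ⟨φ, h⟩
    · obtain ⟨φ, -, h⟩ := intermediate_value_Icc Real.pi_pos.le hBφ.continuousOn (show (0:ℝ) ∈ Icc _ _ from ⟨g, by rw [hpi]; linarith⟩)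
      exact ⟨φ, h⟩
  have h4 := eq_smul_of_zero hF (hX _ (nrm_ne hF 0 φ)).1 hφ
  have h5 := (hX _ (nrm_ne hF 0 φ)).chord (nrm_ptw hF 0 φ) (ptw_ne hF 0) h4
  have h6 := nrm_ptw hF 0 φ
  rw [hpt0] at h4 h5 h6
  exact ⟨_, nrm_ne hF 0 φ, h6, by rw [← h5]; exact h4⟩

/-- forward map -/
lemma flat_fwd (hdim : Module.finrank ℝ V = 3) (hX : ∀ u, u ≠ 0 → Tr G H u (X u)) {ℓ θ : V} {κ : ℝ} (hκ : 0 < κ) (hθ : ‖θ‖ = 1) 
    (h1 : ∀ᶠ y in 𝓝 θ, H.g y = ⟪ℓ, y⟫) (h2 : H.g θ = κ * G.g θ) {p : V} (hp : ∀ᶠ y in 𝓝 p, H.g y = ⟪ℓ, y⟫) (hp1 : H.g p = 1) {u : V} 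
    (hu : u ≠ 0) (hup : ⟪u, p⟫ = 0) : ⟪ℓ, X u⟫ = κ - 1 ∧ ∀ᶠ y in 𝓝 (p + X u), κ * G.g y = ⟪ℓ, y⟫ := by
  have key : ⟪ℓ, X u⟫ = κ - 1 := by
    have hθ0 : θ ≠ 0 := by rintro rfl; simp at hθ
    have hHθ := H.pos θ hθ0
    have hGθ := G.pos θ hθ0
    obtain ⟨u0, hu0, hu0θ, hXu0⟩ := exists_zero_plane hdim hX hθ
    set p0 : V := (H.g θ)⁻¹ • θ with hp0
    have hHp0 : H.g p0 = 1 := by
      rw [hp0, H.homog _ (inv_nonneg.2 hHθ.le), inv_mul_cancel₀ hHθ.ne']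
    have hp0ev : ∀ᶠ y in 𝓝 p0, H.g y = ⟪ℓ, y⟫ := by
      have hc : Tendsto (fun y : V => H.g θ • y) (𝓝 p0) (𝓝 θ) := by
        have : Continuous (fun y : V => H.g θ • y) := by fun_prop
        have h := this.tendsto p0
        simp only [hp0, smul_smul, mul_inv_cancel₀ hHθ.ne', one_smul] at h
        exact h
      filter_upwards [hc.eventually h1] with y hy
      rw [H.homog _ hHθ.le, real_inner_smul_right] at hy
      exact mul_left_cancel₀ hHθ.ne' hy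
    obtain ⟨u', hu', hu'p, hu'p0⟩ := exists_orth_pair (by omega : 3 ≤ Module.finrank ℝ V) p p0
    have e1 := const_through hdim hX hp hp1 hu hup hu' hu'p
    have e2 := const_through hdim hX hp0ev hHp0 hu' hu'p0 hu0 (by rw [hp0, real_inner_smul_right, hu0θ, mul_zero])
    rw [e1, e2, hXu0, real_inner_smul_right, ← h1.self_of_nhds, h2]
    field_simp
  refine ⟨key, ?_⟩
  have := local_flat hdim hX hp hp1 hu hup
  rw [key] at this
  filter_upwards [this] with y hy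
  rw [← hy]; ring

theorem flat_false (hdim : Module.finrank ℝ V = 3) (hX : ∀ u, u ≠ 0 → Tr G H u (X u)) {ℓ θ : V} {κ : ℝ} (hκ : 1 < κ) (hθ : ‖θ‖ = 1) 
    (h1 : ∀ᶠ y in 𝓝 θ, H.g y = ⟪ℓ, y⟫) (h2 : ∀ᶠ y in 𝓝 θ, H.g y = κ * G.g y) : False := by
  have hκ0 : 0 < κ := by linarith
  have hθ0 : θ ≠ 0 := by rintro rfl; simp at hθ
  have hHθ := H.pos θ hθ0
  -- reverse
  have hrev : ∀ q, (∀ᶠ y in 𝓝 q, κ * G.g y = ⟪ℓ, y⟫) → G.g q = 1 → ∀ u, u ≠ 0 → ⟪u, q⟫ = 0 → 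
      (∀ᶠ y in 𝓝 (q + -X u), H.g y = ⟪ℓ, y⟫) := by
    intro q hq hq1 u hu huq
    have h3 := flat_fwd (G := H) (H := G) (X := fun u => -X u) (ℓ := κ⁻¹ • ℓ) (κ := κ⁻¹) hdim (fun u hu => (hX u hu).symm) (by positivity) hθ
      (by
        filter_upwards [h1, h2] with y e1 e2
        rw [real_inner_smul_left, ← e1, e2]; field_simp)
      (by rw [h2.self_of_nhds]; field_simp) (p := q)
      (by
        filter_upwards [hq] with y e1
        rw [real_inner_smul_left, ← e1]; field_simp) hq1 hu huq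
    filter_upwards [h3.2] with y hy
    rw [real_inner_smul_left] at hy
    exact mul_left_cancel₀ (by positivity) hy
  -- one step
  have step : ∀ a a' : V, (∀ᶠ y in 𝓝 a, H.g y = ⟪ℓ, y⟫) → H.g a = 1 → (∀ᶠ y in 𝓝 a', H.g y = ⟪ℓ, y⟫) → H.g a' = 1 → a ≠ a' → 
      ∃ b b' : V, (∀ᶠ y in 𝓝 b, H.g y = ⟪ℓ, y⟫) ∧ H.g b = 1 ∧ (∀ᶠ y in 𝓝 b', H.g y = ⟪ℓ, y⟫) ∧ H.g b' = 1 ∧ κ * ‖a' - a‖ ≤ ‖b' - b‖ := by
    intro a a' ha ha1 ha' ha1' hne
    set w := a' - a with hw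
    have hw0 : w ≠ 0 := by rw [hw, sub_ne_zero]; exact hne.symm
    have hwn : 0 < ‖w‖ := norm_pos_iff.2 hw0
    have hℓa : ⟪ℓ, a⟫ = 1 := by rw [← ha.self_of_nhds, ha1]
    have hℓa' : ⟪ℓ, a'⟫ = 1 := by rw [← ha'.self_of_nhds, ha1']
    have hℓw : ⟪ℓ, w⟫ = 0 := by rw [hw, inner_sub_right, hℓa, hℓa', sub_self]
    have hu : ∀ c : ℝ, w - c • ℓ ≠ 0 := by
      intro c h
      have h3 : ⟪w - c • ℓ, w⟫ = ‖w‖ ^ 2 := by
        rw [inner_sub_left, real_inner_smul_left, hℓw, real_inner_self_eq_norm_sq]; ring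
      rw [h, inner_zero_left] at h3
      have : 0 < ‖w‖ ^ 2 := by positivity
      linarith
    have plane : ∀ a : V, (∀ᶠ y in 𝓝 a, H.g y = ⟪ℓ, y⟫) → H.g a = 1 → 
        ∃ q : V, (∀ᶠ y in 𝓝 q, κ * G.g y = ⟪ℓ, y⟫) ∧ G.g q = 1 ∧ ⟪w, q⟫ = κ * ⟪w, a⟫ := by
      intro a ha ha1
      have hℓa : ⟪ℓ, a⟫ = 1 := by rw [← ha.self_of_nhds, ha1]
      have hua : ⟪w - ⟪w, a⟫ • ℓ, a⟫ = 0 := by
        rw [inner_sub_left, real_inner_smul_left, hℓa]; ring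
      obtain ⟨f1, f2⟩ := flat_fwd hdim hX hκ0 hθ h1 h2.self_of_nhds ha ha1 (hu ⟪w, a⟫) hua
      have f3 := (hX _ (hu ⟪w, a⟫)).eq hua
      rw [ha1, one_smul] at f3
      refine ⟨_, f2, f3, ?_⟩
      have f4 := (hX _ (hu ⟪w, a⟫)).1
      rw [inner_sub_left, real_inner_smul_left, f1] at f4
      rw [inner_add_right]
      linarith
    obtain ⟨q, hq1, hq2, hq3⟩ := plane a ha ha1
    obtain ⟨q', hq1', hq2', hq3'⟩ := plane a' ha' ha1'
    have hdist : κ * ‖w‖ ≤ ‖q' - q‖ := by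
      have h3 : ⟪w, q' - q⟫ = κ * ‖w‖ ^ 2 := by
        rw [inner_sub_right, hq3, hq3', ← mul_sub, ← inner_sub_right, ← hw, real_inner_self_eq_norm_sq]
      have h4 := real_inner_le_norm w (q' - q)
      rw [h3] at h4
      have h5 : ‖w‖ * (κ * ‖w‖) ≤ ‖w‖ * ‖q' - q‖ := by
        calc ‖w‖ * (κ * ‖w‖) = κ * ‖w‖ ^ 2 := by ring
          _ ≤ _ := h4
      exact le_of_mul_le_mul_left h5 hwn
    obtain ⟨u, hu0, huq, huq'⟩ := exists_orth_pair (by omega : 3 ≤ Module.finrank ℝ V) q q'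
    refine ⟨q + -X u, q' + -X u, hrev q hq1 hq2 u hu0 huq, ?_, hrev q' hq1' hq2' u hu0 huq', ?_, ?_⟩
    · have := (hX u hu0).symm.eq huq
      rwa [hq2, one_smul] at this
    · have := (hX u hu0).symm.eq huq'
      rwa [hq2', one_smul] at this
    · rw [add_sub_add_right_eq_sub]; exact hdist
  -- iterate
  have iter : ∀ a a' : V, (∀ᶠ y in 𝓝 a, H.g y = ⟪ℓ, y⟫) → H.g a = 1 → (∀ᶠ y in 𝓝 a', H.g y = ⟪ℓ, y⟫) → H.g a' = 1 → a ≠ a' → ∀ k : ℕ, 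
      ∃ b b' : V, (∀ᶠ y in 𝓝 b, H.g y = ⟪ℓ, y⟫) ∧ H.g b = 1 ∧ (∀ᶠ y in 𝓝 b', H.g y = ⟪ℓ, y⟫) ∧ H.g b' = 1 ∧ κ ^ k * ‖a' - a‖ ≤ ‖b' - b‖ := by
    intro a a' ha ha1 ha' ha1' hne k
    induction k with
    | zero => exact ⟨a, a', ha, ha1, ha', ha1', by simp⟩
    | succ k ih =>
      obtain ⟨b, b', g1, g2, g3, g4, g5⟩ := ih
      have hwn : 0 < ‖a' - a‖ := norm_pos_iff.2 (sub_ne_zero.2 hne.symm)
      have hbne : b ≠ b' := by
        rintro rfl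
        rw [sub_self, norm_zero] at g5
        have : 0 < κ ^ k * ‖a' - a‖ := by positivity
        linarith
      obtain ⟨c, c', j1, j2, j3, j4, j5⟩ := step b b' g1 g2 g3 g4 hbne
      refine ⟨c, c', j1, j2, j3, j4, ?_⟩
      calc κ ^ (k + 1) * ‖a' - a‖ = κ * (κ ^ k * ‖a' - a‖) := by ring
        _ ≤ κ * ‖b' - b‖ := by gcongr
        _ ≤ _ := j5
  -- two points of A
  obtain ⟨v, hv0, hvθ, -⟩ := exists_orth_pair (by omega : 3 ≤ Module.finrank ℝ V) θ θ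
  have hnorm : ∀ z : V, 0 < H.g z → (∀ᶠ y in 𝓝 z, H.g y = ⟪ℓ, y⟫) → (∀ᶠ y in 𝓝 ((H.g z)⁻¹ • z), H.g y = ⟪ℓ, y⟫) ∧ H.g ((H.g z)⁻¹ • z) = 1 := by
    intro z hz hev
    constructor
    · have hc : Tendsto (fun y : V => H.g z • y) (𝓝 ((H.g z)⁻¹ • z)) (𝓝 z) := by
        have : Continuous (fun y : V => H.g z • y) := by fun_prop
        have h := this.tendsto ((H.g z)⁻¹ • z)
        simp only [smul_smul, mul_inv_cancel₀ hz.ne', one_smul] at h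
        exact h
      filter_upwards [hc.eventually hev] with y hy
      rw [H.homog _ hz.le, real_inner_smul_right] at hy
      exact mul_left_cancel₀ hz.ne' hy
    · rw [H.homog _ (inv_nonneg.2 hz.le), inv_mul_cancel₀ hz.ne']
  have hev : ∀ᶠ s in 𝓝 (0:ℝ), ∀ᶠ y in 𝓝 (θ + s • v), H.g y = ⟪ℓ, y⟫ := by
    have hc : Tendsto (fun s : ℝ => θ + s • v) (𝓝 0) (𝓝 θ) := by
      have : Continuous (fun s : ℝ => θ + s • v) := by fun_prop
      have h := this.tendsto 0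
      simp only [zero_smul, add_zero] at h
      exact h
    exact hc.eventually (eventually_eventually_nhds.2 h1)
  obtain ⟨s, hs, hspos⟩ := ((hev.filter_mono (nhdsWithin_le_nhds (s := Ioi (0:ℝ)))).and self_mem_nhdsWithin).exists
  have hspos : 0 < s := hspos
  have hz0 : θ + s • v ≠ 0 := by
    intro h
    have h3 : ⟪v, θ + s • v⟫ = s * ‖v‖ ^ 2 := by
      rw [inner_add_right, hvθ, real_inner_smul_right, real_inner_self_eq_norm_sq, zero_add]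
    rw [h, inner_zero_right] at h3
    have : 0 < ‖v‖ := norm_pos_iff.2 hv0
    have : 0 < s * ‖v‖ ^ 2 := by positivity
    linarith
  have hHz := H.pos _ hz0
  obtain ⟨A1, A2⟩ := hnorm θ hHθ h1
  obtain ⟨B1, B2⟩ := hnorm _ hHz hs
  have hne : (H.g θ)⁻¹ • θ ≠ (H.g (θ + s • v))⁻¹ • (θ + s • v) := by
    intro h
    have h3 := congrArg (fun y => ⟪v, y⟫) h
    simp only [real_inner_smul_right, inner_add_right, hvθ, real_inner_self_eq_norm_sq, mul_zero, zero_add] at h3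
    have : 0 < ‖v‖ := norm_pos_iff.2 hv0
    have : 0 < (H.g (θ + s • v))⁻¹ * (s * ‖v‖ ^ 2) := by positivity
    linarith
  have hfin := iter _ _ A1 A2 B1 B2 hne
  obtain ⟨c, C, hc, hC, hb⟩ := H.exists_bounds
  have hd : 0 < ‖(H.g (θ + s • v))⁻¹ • (θ + s • v) - (H.g θ)⁻¹ • θ‖ := norm_pos_iff.2 (sub_ne_zero.2 hne.symm)
  set d := ‖(H.g (θ + s • v))⁻¹ • (θ + s • v) - (H.g θ)⁻¹ • θ‖ with hdd
  obtain ⟨k, hk⟩ := pow_unbounded_of_one_lt (2 / c / d) hκ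
  obtain ⟨b, b', -, g2, -, g4, g5⟩ := hfin k
  have n1 : ‖b‖ ≤ 1 / c := by
    rw [le_div_iff₀ hc]; linarith [(hb b).1]
  have n2 : ‖b'‖ ≤ 1 / c := by
    rw [le_div_iff₀ hc]; linarith [(hb b').1]
  have n3 : ‖b' - b‖ ≤ 2 / c := by
    calc ‖b' - b‖ ≤ ‖b'‖ + ‖b‖ := norm_sub_le _ _
      _ ≤ 1 / c + 1 / c := add_le_add n2 n1
      _ = 2 / c := by ring
  rw [div_lt_iff₀ hd] at hk
  linarith

end Pool.Agent.Helper104.TrSec
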