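import Mathlib
import Pool.Agent.Helper104.TrFlat

open MeasureTheory Set Filter Topology
open scoped RealInnerProductSpace

namespace Pool.Agent.Helper104.TrSec

/-- change of variables `b = a σ` -/
lemma shear_integral {k : (ℝ × ℝ) × ℝ → ℝ} (hk : Measurable k) (hi : Integrable k) : 
    Integrable (fun w : (ℝ × ℝ) × ℝ => |w.1.2| * k (w.1, w.1.2 * w.2)) ∧ 
    ∫ w : (ℝ × ℝ) × ℝ, |w.1.2| * k (w.1, w.1.2 * w.2) = ∫ w, k w := by
  have hne : ∀ᵐ e : ℝ × ℝ, e.2 ≠ 0 := by
    have h1 : ∀ᵐ b : ℝ, b ≠ 0 := by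
      rw [ae_iff]; simp
    exact (Measure.quasiMeasurePreserving_snd (μ := (volume : Measure ℝ)) (ν := (volume : Measure ℝ))).ae h1
  have hi' : Integrable k ((volume : Measure (ℝ × ℝ)).prod (volume : Measure ℝ)) := hi
  have hm : Measurable (fun w : (ℝ × ℝ) × ℝ => |w.1.2| * k (w.1, w.1.2 * w.2)) := by
    apply Measurable.mul
    · fun_prop
    · exact hk.comp (by fun_prop)
  have hs := hi'.prod_right_ae
  have hsec : ∀ᵐ e : ℝ × ℝ, Integrable (fun σ : ℝ => |e.2| * k (e, e.2 * σ)) ∧ 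
      ∫ σ : ℝ, |e.2| * k (e, e.2 * σ) = ∫ b, k (e, b) ∧ ∫ σ : ℝ, ‖|e.2| * k (e, e.2 * σ)‖ = ∫ b, ‖k (e, b)‖ := by
    filter_upwards [hne, hs] with e he h1
    refine ⟨((integrable_comp_mul_left_iff (fun b => k (e, b)) he).2 h1).const_mul _, ?_, ?_⟩
    · rw [integral_const_mul, Measure.integral_comp_mul_left (fun b => k (e, b)), smul_eq_mul, ← mul_assoc, abs_inv,
        mul_inv_cancel₀ (abs_ne_zero.2 he), one_mul]
    · simp_rw [norm_mul, Real.norm_eq_abs, abs_abs]
      rw [integral_const_mul, Measure.integral_comp_mul_left (fun b => |k (e, b)|), smul_eq_mul, ← mul_assoc, abs_inv,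
        mul_inv_cancel₀ (abs_ne_zero.2 he), one_mul]
  have hI : Integrable (fun w : (ℝ × ℝ) × ℝ => |w.1.2| * k (w.1, w.1.2 * w.2)) ((volume : Measure (ℝ × ℝ)).prod (volume : Measure ℝ)) := by
    rw [integrable_prod_iff hm.aestronglyMeasurable]
    constructor
    · filter_upwards [hsec] with e he using he.1
    · have h2 : Integrable (fun e : ℝ × ℝ => ∫ b, ‖k (e, b)‖) := hi'.integral_norm_prod_left
      refine h2.congr ?_
      filter_upwards [hsec] with e he using he.2.2.symm
  refine ⟨hI, ?_⟩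
  have e1 := integral_prod _ hI
  have e2 := integral_prod _ hi'
  rw [show (∫ w : (ℝ × ℝ) × ℝ, |w.1.2| * k (w.1, w.1.2 * w.2)) = ∫ w, |w.1.2| * k (w.1, w.1.2 * w.2) ∂((volume : Measure (ℝ × ℝ)).prod (volume : Measure ℝ)) from rfl,
    show (∫ w : (ℝ × ℝ) × ℝ, k w) = ∫ w, k w ∂((volume : Measure (ℝ × ℝ)).prod (volume : Measure ℝ)) from rfl, e1, e2]
  apply integral_congr_ae
  filter_upwards [hsec] with e he using he.2.1

lemma mul_abs_strictMono : StrictMono fun a : ℝ => a * |a| := by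
  intro a b hab
  simp only
  rcases le_total 0 a with ha | ha
  · rw [abs_of_nonneg ha, abs_of_pos (by linarith)]; nlinarith
  · rcases le_total 0 b with hb | hb
    · rw [abs_of_nonpos ha, abs_of_nonneg hb]
      rcases eq_or_lt_of_le ha with h | h
      · subst h; nlinarith
      · nlinarith
    · rw [abs_of_nonpos ha, abs_of_nonpos hb]; nlinarith

/-- the planar comparison -/
lemma planar_compare {A B : Set (ℝ × ℝ)} (hA : IsCompact A) (hB : IsCompact B) (hB0 : 0 < volume B) {x : ℝ × ℝ} 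
    (hAB : ∀ e, e ∈ B ↔ e + x ∈ A) (hx : 0 ≤ x.2) : 
    0 ≤ (∫ e in A, e.2 * |e.2|) - ∫ e in B, e.2 * |e.2| ∧ 
    ((∫ e in A, e.2 * |e.2|) - ∫ e in B, e.2 * |e.2| = 0 → x.2 = 0) := by
  have hc : Continuous fun e : ℝ × ℝ => e.2 * |e.2| := by fun_prop
  have hc2 : Continuous fun e : ℝ × ℝ => (e + x).2 * |(e + x).2| := by fun_prop
  have h1 : ∫ e in A, e.2 * |e.2| = ∫ e in B, (e + x).2 * |(e + x).2| := by
    rw [← integral_indicator hA.measurableSet, ← integral_indicator hB.measurableSet,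
      ← integral_add_right_eq_self (μ := (volume : Measure (ℝ × ℝ))) _ x]
    congr 1
    ext e
    by_cases h : e ∈ B
    · rw [indicator_of_mem h, indicator_of_mem ((hAB e).1 h)]
    · rw [indicator_of_notMem h, indicator_of_notMem (fun h' => h ((hAB e).2 h'))]
  have i1 : IntegrableOn (fun e : ℝ × ℝ => (e + x).2 * |(e + x).2|) B := hc2.continuousOn.integrableOn_compact hB
  have i2 : IntegrableOn (fun e : ℝ × ℝ => e.2 * |e.2|) B := hc.continuousOn.integrableOn_compact hB
  rw [h1, ← integral_sub i1 i2]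
  have hmono : ∀ e : ℝ × ℝ, 0 ≤ (e + x).2 * |(e + x).2| - e.2 * |e.2| := by
    intro e
    have := mul_abs_strictMono.monotone (show e.2 ≤ (e + x).2 by rw [Prod.snd_add]; linarith)
    linarith
  constructor
  · exact integral_nonneg hmono
  · intro h0
    by_contra hne
    have hx' : 0 < x.2 := lt_of_le_of_ne hx (Ne.symm hne)
    have hpos : 0 < ∫ e in B, ((e + x).2 * |(e + x).2| - e.2 * |e.2|) := by
      rw [setIntegral_pos_iff_support_of_nonneg_ae (ae_of_all _ hmono) (i1.sub i2)]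
      have : Function.support (fun e : ℝ × ℝ => (e + x).2 * |(e + x).2| - e.2 * |e.2|) ∩ B = B := by
        apply inter_eq_self_of_subset_right
        intro e _
        rw [Function.mem_support]
        have := mul_abs_strictMono (show e.2 < (e + x).2 by rw [Prod.snd_add]; linarith)
        linarith
      rw [this]; exact hB0
    linarith

variable {V : Type} [NormedAddCommGroup V] [InnerProductSpace ℝ V] [FiniteDimensional ℝ V]

lemma Gauge.isCompact_body (G : Gauge V) : IsCompact {y | G.g y ≤ 1} := by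
  obtain ⟨c, C, hc, hC, hb⟩ := G.exists_bounds
  apply Metric.isCompact_of_isClosed_isBounded
  · exact isClosed_le G.cont continuous_const
  · rw [isBounded_iff_forall_norm_le]
    refine ⟨1 / c, fun y hy => ?_⟩
    rw [le_div_iff₀ hc]
    linarith [(hb y).1, mem_setOf_eq ▸ hy]

/-- coordinates of a frame -/
noncomputable def Frame.equiv {θ p q : V} (hF : Frame θ p q) : ((ℝ × ℝ) × ℝ) ≃L[ℝ] V := 
  LinearEquiv.toContinuousLinearEquiv 
  { toFun := fun w => w.1.1 • θ + w.1.2 • p + w.2 • q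
    map_add' := fun x y => by simp only [Prod.fst_add, Prod.snd_add, add_smul]; abel
    map_smul' := fun c x => by simp only [Prod.smul_fst, Prod.smul_snd, smul_eq_mul, smul_add, smul_smul, RingHom.id_apply]
    invFun := fun y => ((⟪θ, y⟫, ⟪p, y⟫), ⟪q, y⟫)
    left_inv := fun w => by
      simp only [inner_add_right, real_inner_smul_right, hF.tt, hF.tp, hF.tq, hF.pp, hF.pq, hF.qq, hF.pt', hF.qt', hF.qp']
      simp
    right_inv := fun y => (hF.span y).symm }

lemma Frame.equiv_apply {θ p q : V} (hF : Frame θ p q) (w : (ℝ × ℝ) × ℝ) : hF.equiv w = w.1.1 • θ + w.1.2 • p + w.2 • q := rfl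

theorem parallel_of_onesided [MeasurableSpace V] [BorelSpace V] {G H : Gauge V} {X : V → V} (hX : ∀ u, u ≠ 0 → Tr G H u (X u)) 
    {θ p q : V} (hF : Frame θ p q) (μ : Measure V) [μ.IsAddHaarMeasure] 
    (hmom : ∫ y in {y | G.g y ≤ 1}, ⟪p, y⟫ ∂μ = ∫ y in {y | H.g y ≤ 1}, ⟪p, y⟫ ∂μ) 
    (hone : ∀ u, u ≠ 0 → ⟪u, θ⟫ = 0 → 0 ≤ ⟪X u, p⟫) : ∀ u, u ≠ 0 → ⟪u, θ⟫ = 0 → X u = ⟪θ, X u⟫ • θ := by
  set Φ := hF.equiv with hΦ
  have hcoord : ∀ w, ⟪p, Φ w⟫ = w.1.2 := by
    intro w
    rw [hΦ, hF.equiv_apply]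
    simp only [inner_add_right, real_inner_smul_right, hF.pt', hF.pp, hF.pq]
    ring
  have hcomp : ∀ A : Gauge V, IsCompact (Φ ⁻¹' {y | A.g y ≤ 1}) := fun A => 
    Φ.toHomeomorph.isCompact_preimage.2 A.isCompact_body
  have hcf : Continuous fun w : (ℝ × ℝ) × ℝ => w.1.2 := by fun_prop
  set k : (ℝ × ℝ) × ℝ → ℝ := fun w => (Φ ⁻¹' {y | G.g y ≤ 1}).indicator (fun w => w.1.2) w - (Φ ⁻¹' {y | H.g y ≤ 1}).indicator (fun w => w.1.2) w with hk
  have hkm : Measurable k := 
    (hcf.measurable.indicator (hcomp G).measurableSet).sub (hcf.measurable.indicator (hcomp H).measurableSet)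
  have hint : ∀ A : Gauge V, Integrable ((Φ ⁻¹' {y | A.g y ≤ 1}).indicator (fun w : (ℝ × ℝ) × ℝ => w.1.2)) := fun A =>
    (hcf.continuousOn.integrableOn_compact (hcomp A)).integrable_indicator (hcomp A).measurableSet
  have hki : Integrable k := (hint G).sub (hint H)
  have hk0 : ∫ w, k w = 0 := by
    rw [hk, integral_sub (hint G) (hint H), integral_indicator (hcomp G).measurableSet, integral_indicator (hcomp H).measurableSet]
    have i1 : (volume : Measure (ℝ × ℝ)).IsAddHaarMeasure := 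
      inferInstanceAs ((volume : Measure ℝ).prod (volume : Measure ℝ)).IsAddHaarMeasure
    have i2 : (volume : Measure ((ℝ × ℝ) × ℝ)).IsAddHaarMeasure := 
      inferInstanceAs ((volume : Measure (ℝ × ℝ)).prod (volume : Measure ℝ)).IsAddHaarMeasure
    have i3 : (Measure.map Φ (volume : Measure ((ℝ × ℝ) × ℝ))).IsAddHaarMeasure := Φ.isAddHaarMeasure_map _
    have hmap : Measure.map Φ (volume : Measure ((ℝ × ℝ) × ℝ)) = Measure.addHaarScalarFactor (Measure.map Φ volume) μ • μ := 
      Measure.isAddLeftInvariant_eq_smul _ _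
    have hemb : MeasurableEmbedding Φ := Φ.toHomeomorph.measurableEmbedding
    have e : ∀ A : Gauge V, ∫ w in (Φ ⁻¹' {y | A.g y ≤ 1}), w.1.2 = 
        Measure.addHaarScalarFactor (Measure.map Φ volume) μ • ∫ y in {y | A.g y ≤ 1}, ⟪p, y⟫ ∂μ := by
      intro A
      have h1 := hemb.setIntegral_map (μ := volume) (fun y => ⟪p, y⟫) {y | A.g y ≤ 1}
      simp only [hcoord] at h1
      rw [← h1]
      conv_lhs => rw [hmap]
      rw [Measure.restrict_smul, integral_smul_nnreal_measure]
    rw [e G, e H, hmom, sub_self]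
  obtain ⟨hsI, hsE⟩ := shear_integral hkm hki
  rw [hk0] at hsE
  have hsI' : Integrable (fun w : (ℝ × ℝ) × ℝ => |w.1.2| * k (w.1, w.1.2 * w.2)) ((volume : Measure (ℝ × ℝ)).prod (volume : Measure ℝ)) := hsI
  set D : ℝ → ℝ := fun σ => ∫ e : ℝ × ℝ, |e.2| * k (e, e.2 * σ) with hD
  have hDint : Integrable D := hsI'.integral_prod_right
  have hD0 : ∫ σ, D σ = 0 := by
    rw [← hsE]
    exact (integral_prod_symm _ hsI').symm
  -- slices
  have huσ : ∀ σ : ℝ, q - σ • p ≠ 0 := by
    intro σ h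
    have h1 : ⟪q, q - σ • p⟫ = 1 := by rw [inner_sub_right, real_inner_smul_right, hF.qq, hF.qp']; ring
    rw [h, inner_zero_right] at h1
    exact zero_ne_one h1
  have huθ : ∀ σ : ℝ, ⟪q - σ • p, θ⟫ = 0 := by
    intro σ
    rw [inner_sub_left, real_inner_smul_left, hF.qt', hF.pt']; ring
  have hqσ : ∀ σ : ℝ, ⟪q, X (q - σ • p)⟫ = σ * ⟪p, X (q - σ • p)⟫ := by
    intro σ
    have := (hX _ (huσ σ)).1
    rw [inner_sub_left, real_inner_smul_left] at this
    linarith
  have hDσ : ∀ σ, 0 ≤ D σ ∧ (D σ = 0 → ⟪p, X (q - σ • p)⟫ = 0) := by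
    intro σ
    set S : Gauge V → Set (ℝ × ℝ) := fun A => {e | A.g (Φ (e, e.2 * σ)) ≤ 1} with hS
    have hScomp : ∀ A, IsCompact (S A) := by
      intro A
      refine IsCompact.of_isClosed_subset ((hcomp A).image continuous_fst) ?_ ?_
      · apply isClosed_le _ continuous_const
        exact A.cont.comp (Φ.continuous.comp (by fun_prop))
      · intro e he
        exact ⟨(e, e.2 * σ), he, rfl⟩
    have hDeq : D σ = (∫ e in S G, e.2 * |e.2|) - ∫ e in S H, e.2 * |e.2| := by
      have hc : Continuous fun e : ℝ × ℝ => e.2 * |e.2| := by fun_prop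
      rw [← integral_indicator (hScomp G).measurableSet, ← integral_indicator (hScomp H).measurableSet, ← integral_sub]
      · simp only [hD]
        congr 1
        ext e
        have hi : ∀ A : Gauge V, |e.2| * (Φ ⁻¹' {y | A.g y ≤ 1}).indicator (fun w => w.1.2) (e, e.2 * σ) = (S A).indicator (fun e => e.2 * |e.2|) e := by
          intro A
          by_cases h : e ∈ S A
          · rw [indicator_of_mem h, indicator_of_mem (show (e, e.2 * σ) ∈ Φ ⁻¹' {y | A.g y ≤ 1} from h), mul_comm]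
          · rw [indicator_of_notMem h, indicator_of_notMem (show (e, e.2 * σ) ∉ Φ ⁻¹' {y | A.g y ≤ 1} from h), mul_zero]
        rw [← hi G, ← hi H, ← mul_sub]
      · exact (hc.continuousOn.integrableOn_compact (hScomp G)).integrable_indicator (hScomp G).measurableSet
      · exact (hc.continuousOn.integrableOn_compact (hScomp H)).integrable_indicator (hScomp H).measurableSet
    have hpos : 0 < volume (S H) := by
      have hop : IsOpen {e : ℝ × ℝ | H.g (Φ (e, e.2 * σ)) < 1} := by
        apply isOpen_lt _ continuous_const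
        exact H.cont.comp (Φ.continuous.comp (by fun_prop))
      have hne : ({e : ℝ × ℝ | H.g (Φ (e, e.2 * σ)) < 1}).Nonempty := by
        refine ⟨0, ?_⟩
        have : Φ ((0 : ℝ × ℝ), (0 : ℝ × ℝ).2 * σ) = 0 := by
          rw [hΦ, hF.equiv_apply]; simp
        rw [mem_setOf_eq, this, H.zero]; exact one_pos
      refine lt_of_lt_of_le (hop.measure_pos volume hne) (measure_mono ?_)
      intro e he
      exact le_of_lt (mem_setOf_eq ▸ he)
    have hTr := hX _ (huσ σ)
    have hcmp := planar_compare (hScomp G) (hScomp H) hpos (x := (⟪θ, X (q - σ • p)⟫, ⟪p, X (q - σ • p)⟫)) (by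
      intro e
      have h1 := hTr.2 (Φ (e, e.2 * σ)) (by
        rw [hΦ, hF.equiv_apply]
        simp only [inner_add_right, inner_sub_left, real_inner_smul_left, real_inner_smul_right, hF.qt', hF.pt', hF.qp', hF.pp, hF.qq, hF.pq]
        ring)
      have h2 : Φ (e, e.2 * σ) + X (q - σ • p) = Φ (e + (⟪θ, X (q - σ • p)⟫, ⟪p, X (q - σ • p)⟫), 
          (e + (⟪θ, X (q - σ • p)⟫, ⟪p, X (q - σ • p)⟫)).2 * σ) := by
        conv_lhs => rw [hF.span (X (q - σ • p)), hqσ]
        rw [hΦ, hF.equiv_apply, hF.equiv_apply]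
        simp only [Prod.fst_add, Prod.snd_add]
        module
      rw [h2] at h1
      exact h1) (by
        simp only
        rw [real_inner_comm]
        exact hone _ (huσ σ) (huθ σ))
    rw [← hDeq] at hcmp
    exact hcmp
  have hae : ∀ᵐ σ : ℝ, ⟪p, X (q - σ • p)⟫ = 0 := by
    have h1 := (integral_eq_zero_iff_of_nonneg (fun σ => (hDσ σ).1) hDint).1 hD0
    filter_upwards [h1] with σ hσ
    exact (hDσ σ).2 hσ
  have hcont : Continuous fun σ : ℝ => ⟪p, X (q - σ • p)⟫ := by
    rw [continuous_iff_continuousAt]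
    intro σ
    have h1 : ContinuousAt (fun σ : ℝ => X (q - σ • p)) σ := 
      ContinuousAt.comp (f := fun σ : ℝ => q - σ • p) (continuousAt_X hX (huσ σ)) (by fun_prop)
    exact continuousAt_const.inner h1
  have hall : ∀ σ : ℝ, ⟪p, X (q - σ • p)⟫ = 0 := by
    have hcl : IsClosed {σ : ℝ | ⟪p, X (q - σ • p)⟫ = 0} := isClosed_eq hcont continuous_const
    have hd := Measure.dense_of_ae hae
    have := hcl.closure_eq
    rw [hd.closure_eq] at this
    intro σ
    have h2 : σ ∈ {σ : ℝ | ⟪p, X (q - σ • p)⟫ = 0} := by rw [← this]; exact mem_univ _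
    exact h2
  have hallX : ∀ σ : ℝ, X (q - σ • p) = ⟪θ, X (q - σ • p)⟫ • θ := by
    intro σ
    conv_lhs => rw [hF.span (X (q - σ • p)), hqσ, hall]
    simp
  intro u hu hθu
  have hs := hF.span u
  rw [real_inner_comm u θ] at hs
  rw [hθu, zero_smul, zero_add] at hs
  by_cases hq0 : ⟪q, u⟫ = 0
  · -- u parallel to p
    rw [hq0, zero_smul, add_zero] at hs
    have hp0 : ⟪p, u⟫ ≠ 0 := by
      intro h; rw [h, zero_smul] at hs; exact hu hs
    have hpne : p ≠ 0 := by
      intro h; rw [h, smul_zero] at hs; exact hu hs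
    rw [hs, X_smul hX hpne hp0]
    have h1 : ⟪q, X p⟫ = 0 := by
      have hc1 : Continuous fun t : ℝ => ⟪q, X (p - t • q)⟫ := by
        rw [continuous_iff_continuousAt]
        intro t
        have hne : p - t • q ≠ 0 := by
          intro h
          have h1 : ⟪p, p - t • q⟫ = 1 := by rw [inner_sub_right, real_inner_smul_right, hF.pp, hF.pq]; ring
          rw [h, inner_zero_right] at h1
          exact zero_ne_one h1
        have h1 : ContinuousAt (fun t : ℝ => X (p - t • q)) t := 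
          ContinuousAt.comp (f := fun t : ℝ => p - t • q) (continuousAt_X hX hne) (by fun_prop)
        exact continuousAt_const.inner h1
      have hz : ∀ t : ℝ, t ≠ 0 → ⟪q, X (p - t • q)⟫ = 0 := by
        intro t ht
        have e1 : p - t • q = (-t) • (q - t⁻¹ • p) := by
          rw [smul_sub, smul_smul, neg_mul, mul_inv_cancel₀ ht]; module
        rw [e1, X_smul hX (huσ _) (neg_ne_zero.2 ht), hallX, real_inner_smul_right, hF.qt', mul_zero]
      have hd : Dense {t : ℝ | t ≠ 0} := dense_compl_singleton 0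
      have hcl : IsClosed {t : ℝ | ⟪q, X (p - t • q)⟫ = 0} := isClosed_eq hc1 continuous_const
      have hsub : closure {t : ℝ | t ≠ 0} ⊆ {t : ℝ | ⟪q, X (p - t • q)⟫ = 0} := hcl.closure_subset_iff.2 fun t ht => hz t ht
      rw [hd.closure_eq] at hsub
      have := hsub (mem_univ (0:ℝ))
      simpa using this
    have h2 : ⟪p, X p⟫ = 0 := (hX p hpne).1
    conv_lhs => rw [hF.span (X p), h1, h2]
    simp
  · have e1 : u = ⟪q, u⟫ • (q - (-⟪p, u⟫ / ⟪q, u⟫) • p) := by
      conv_lhs => rw [hs]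
      rw [smul_sub, smul_smul, mul_div_cancel₀ _ hq0]; module
    rw [e1, X_smul hX (huσ _) hq0]
    exact hallX _

end Pool.Agent.Helper104.TrSec
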