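import Mathlib
import Pool.Agent.Helper104.TrMedian

open MeasureTheory Set Filter Topology
open scoped RealInnerProductSpace

namespace Pool.Agent.Helper104.TrSec

variable {V : Type} [NormedAddCommGroup V] [InnerProductSpace ℝ V] [FiniteDimensional ℝ V]

lemma exists_frame2 (hdim : Module.finrank ℝ V = 3) {θ p : V} (hθ : ⟪θ, θ⟫ = 1) (hp : ⟪p, p⟫ = 1) (hθp : ⟪θ, p⟫ = 0) : 
    ∃ q : V, Frame θ p q := by
  obtain ⟨q0, hq0, h1, h2⟩ := exists_orth_pair (by omega : 3 ≤ Module.finrank ℝ V) θ p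
  have hn : 0 < ‖q0‖ := norm_pos_iff.2 hq0
  set q : V := ‖q0‖⁻¹ • q0 with hq
  have hqq : ⟪q, q⟫ = 1 := by
    rw [hq, real_inner_smul_left, real_inner_smul_right, real_inner_self_eq_norm_sq]
    field_simp
  have hθq : ⟪θ, q⟫ = 0 := by rw [hq, real_inner_smul_right, real_inner_comm, h1, mul_zero]
  have hpq : ⟪p, q⟫ = 0 := by rw [hq, real_inner_smul_right, real_inner_comm, h2, mul_zero]
  have hqθ : ⟪q, θ⟫ = 0 := by rw [real_inner_comm]; exact hθq
  have hqp : ⟪q, p⟫ = 0 := by rw [real_inner_comm]; exact hpq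
  have hpθ : ⟪p, θ⟫ = 0 := by rw [real_inner_comm]; exact hθp
  have hon : Orthonormal ℝ ![θ, p, q] := by
    rw [orthonormal_iff_ite]
    intro i j
    fin_cases i <;> fin_cases j <;> simp [hθ, hp, hqq, hθp, hθq, hpq, hqθ, hqp, hpθ, -inner_self_eq_norm_sq_to_K, -real_inner_self_eq_norm_sq]
  have hcard : Fintype.card (Fin 3) = Module.finrank ℝ V := by rw [hdim]; simp
  set b := basisOfOrthonormalOfCardEqFinrank hon hcard with hb
  have hbo : Orthonormal ℝ b := by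
    rw [hb, coe_basisOfOrthonormalOfCardEqFinrank]; exact hon
  set b' := b.toOrthonormalBasis hbo with hb'
  have hcoe : ⇑b' = ![θ, p, q] := by
    rw [hb', Module.Basis.coe_toOrthonormalBasis, hb, coe_basisOfOrthonormalOfCardEqFinrank]
  refine ⟨q, ⟨hθ, hp, hqq, hθp, hθq, hpq, fun y => ?_⟩⟩
  have := b'.sum_repr' y
  rw [Fin.sum_univ_three, hcoe] at this
  simpa using this.symm

theorem not_twoSided (hdim : Module.finrank ℝ V = 3) {G H : Gauge V} {X : V → V} (hX : ∀ u, u ≠ 0 → Tr G H u (X u)) {θ : V} (hθ : ‖θ‖ = 1) : 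
    ¬ TwoSided X θ := by
  intro hT
  have main : ∀ (G H : Gauge V) (X : V → V), (∀ u, u ≠ 0 → Tr G H u (X u)) → TwoSided X θ → ¬ G.g θ < H.g θ := by
    intro G H X hX hT hlt
    obtain ⟨κ, ρ, ℓ, hκ, hρ, hball⟩ := (spatial hdim hX hθ hT).2 hlt
    have hmem := Metric.isOpen_ball.mem_nhds (Metric.mem_ball_self hρ : θ ∈ Metric.ball θ ρ)
    refine flat_false hdim hX hκ hθ (ℓ := ℓ) ?_ ?_
    · filter_upwards [hmem] with y hy using (hball y hy).1
    · filter_upwards [hmem] with y hy using (hball y hy).2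
  rcases lt_trichotomy (G.g θ) (H.g θ) with h | h | h
  · exact main G H X hX hT h
  · exact (spatial hdim hX hθ hT).1 h
  · exact main H G (fun u => -X u) (fun u hu => (hX u hu).symm) hT.neg h

/-- three dimensional theorem -/
theorem three_dim (hdim : Module.finrank ℝ V = 3) {G H : Gauge V} (h : ∀ u, u ≠ 0 → ∃ x, Tr G H u x) : 
    ∃ x0 : V, ∀ y, H.g y ≤ 1 ↔ G.g (y + x0) ≤ 1 := by
  classical
  choose! X hX using h
  borelize V
  set μ : Measure V := Measure.addHaar with hμ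
  have hint : ∀ A : Gauge V, IntegrableOn (fun y : V => y) {y | A.g y ≤ 1} μ := fun A => 
    continuous_id.continuousOn.integrableOn_compact A.isCompact_body
  set c : V := (∫ y in {y | G.g y ≤ 1}, y ∂μ) - ∫ y in {y | H.g y ≤ 1}, y ∂μ with hc
  have hcν : ∀ ν : V, ⟪ν, c⟫ = (∫ y in {y | G.g y ≤ 1}, ⟪ν, y⟫ ∂μ) - ∫ y in {y | H.g y ≤ 1}, ⟪ν, y⟫ ∂μ := by
    intro ν
    rw [hc, inner_sub_right, ← integral_inner (hint G), ← integral_inner (hint H)]
  haveI : Nontrivial V := Module.nontrivial_of_finrank_pos (R := ℝ) (by omega)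
  obtain ⟨θ, hθ, hθc⟩ : ∃ θ : V, ‖θ‖ = 1 ∧ ∀ ν, ⟪θ, ν⟫ = 0 → ⟪ν, c⟫ = 0 := by
    by_cases h0 : c = 0
    · obtain ⟨θ, hθ⟩ := exists_norm_eq V (zero_le_one (α := ℝ))
      exact ⟨θ, hθ, fun ν _ => by rw [h0, inner_zero_right]⟩
    · have hn : 0 < ‖c‖ := norm_pos_iff.2 h0
      refine ⟨‖c‖⁻¹ • c, by rw [norm_smul, norm_inv, norm_norm, inv_mul_cancel₀ hn.ne'], fun ν hν => ?_⟩
      rw [real_inner_smul_left] at hν
      rcases mul_eq_zero.1 hν with h1 | h1
      · exact absurd h1 (inv_ne_zero hn.ne')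
      · rw [real_inner_comm]; exact h1
  have hθθ : ⟪θ, θ⟫ = 1 := by rw [real_inner_self_eq_norm_sq, hθ]; norm_num
  have hns := not_twoSided hdim hX hθ
  simp only [TwoSided, not_forall, not_exists, not_and, not_lt] at hns
  obtain ⟨ν, hν, hθν, hone⟩ := hns
  have hνn : 0 < ‖ν‖ := norm_pos_iff.2 hν
  set p : V := ‖ν‖⁻¹ • ν with hp
  have hpp : ⟪p, p⟫ = 1 := by
    rw [hp, real_inner_smul_left, real_inner_smul_right, real_inner_self_eq_norm_sq]
    field_simp
  have hθp : ⟪θ, p⟫ = 0 := by rw [hp, real_inner_smul_right, hθν, mul_zero]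
  obtain ⟨q, hF⟩ := exists_frame2 hdim hθθ hpp hθp
  have hpar := parallel_of_onesided hX hF μ (by
    have := hcν p
    rw [hθc p hθp] at this
    linarith) (by
    intro u hu huθ
    rw [hp, real_inner_smul_right]
    exact mul_nonneg (inv_nonneg.2 hνn.le) (hone u hu huθ))
  have hθ0 : θ ≠ 0 := by rintro rfl; simp at hθ
  refine ⟨(1 / G.g θ - 1 / H.g θ) • θ, fun y => ?_⟩
  obtain ⟨u, hu, huθ, huy⟩ := exists_orth_pair (by omega : 3 ≤ Module.finrank ℝ V) θ y
  have h1 := hpar u hu huθ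
  have h2 := (hX u hu).chord huθ hθ0 h1
  rw [h2] at h1
  have h3 := (hX u hu).2 y huy
  rw [h1] at h3
  exact h3

end Pool.Agent.Helper104.TrSec
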