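import Mathlib
import Pool.Agent.Helper104.HmFlat
import Pool.Agent.Helper104.HairyBall
import Pool.Agent.Helper104.TrThree

open MeasureTheory Set Filter Topology
open scoped RealInnerProductSpace

namespace Pool.Agent.Helper104.TrSec

variable {V : Type} [NormedAddCommGroup V] [InnerProductSpace ℝ V] [FiniteDimensional ℝ V] {G H : Gauge V} {X : V → V} {σ : V → ℝ}

theorem total_of_twoSided (hdim : Module.finrank ℝ V = 3) (hX : ∀ u, u ≠ 0 → Tr G (H.ex (σ u)) u (X u)) {θ : V} (hθ : ‖θ‖ = 1) (hT : TwoSided X θ) : 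
    ∃ a : V, a ≠ 0 ∧ ∀ u, u ≠ 0 → ⟪u, a⟫ = 0 → ∃ c : ℝ, X u = c • a := by
  have main : ∀ (G H : Gauge V) (X : V → V) (σ : V → ℝ), (∀ u, u ≠ 0 → Tr G (H.ex (σ u)) u (X u)) → TwoSided X θ → 
      G.g θ < wid H θ / wid G θ * H.g θ → ∃ a : V, a ≠ 0 ∧ ∀ u, u ≠ 0 → ⟪u, a⟫ = 0 → ∃ c : ℝ, X u = c • a := by
    intro G H X σ hX hT hlt
    obtain ⟨κ, ρ, ℓ, hκ, hρ, hball⟩ := (hm_spatial hdim hX hθ hT).2 hlt
    have hmem := Metric.isOpen_ball.mem_nhds (Metric.mem_ball_self hρ : θ ∈ Metric.ball θ ρ)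
    refine exists_total_of_flat hdim hX hκ hθ (ℓ := ℓ) ?_ ?_
    · filter_upwards [hmem] with y hy using (hball y hy).1
    · filter_upwards [hmem] with y hy using (hball y hy).2
  have hθ0 : θ ≠ 0 := by rintro rfl; simp at hθ
  rcases lt_trichotomy (G.g θ) (wid H θ / wid G θ * H.g θ) with h | h | h
  · exact main G H X σ hX hT h
  · exact absurd h (hm_spatial hdim hX hθ hT).1
  · have hwG := wid_pos G hθ0
    have hwH := wid_pos H hθ0
    obtain ⟨a, ha, hall⟩ := main H G (fun u => -(Real.exp (σ u) • X u)) (fun u => -σ u) (fun u hu => (hX u hu).swap) (hT.swap σ) (by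
      rw [div_mul_eq_mul_div, div_lt_iff₀ hwG] at h
      rw [div_mul_eq_mul_div, lt_div_iff₀ hwH]
      linarith)
    refine ⟨a, ha, fun u hu hua => ?_⟩
    obtain ⟨c, hc⟩ := hall u hu hua
    refine ⟨-(Real.exp (-σ u) * c), ?_⟩
    rw [neg_smul, ← smul_smul, ← hc, smul_neg, neg_neg, smul_smul, ← Real.exp_add, neg_add_cancel, Real.exp_zero, one_smul]

section field

variable [MeasurableSpace V] [BorelSpace V]

lemma corr_eq_zero_mem {u θ : V} (h : corr u θ = 0) : u ∈ Submodule.span ℝ ({θ} : Set V) := by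
  rw [Submodule.mem_span_singleton]
  refine ⟨⟪θ, u⟫ / ‖θ‖ ^ 2, ?_⟩
  rw [corr, sub_eq_zero] at h
  exact h.symm

lemma corr_ae_ne (hdim : Module.finrank ℝ V = 3) (μ : Measure V) [μ.IsAddHaarMeasure] {θ : V} (hθ : θ ≠ 0) : ∀ᵐ u ∂μ, corr u θ ≠ 0 := by
  have h1 : (Submodule.span ℝ ({θ} : Set V)) ≠ ⊤ := by
    intro h
    have := finrank_span_singleton (K := ℝ) hθ
    rw [h, finrank_top, hdim] at this
    omega
  have h2 := Measure.addHaar_submodule μ _ h1
  rw [ae_iff]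
  refine measure_mono_null ?_ h2
  intro u hu
  simp only [mem_ofPred_eq, not_not] at hu
  exact corr_eq_zero_mem hu

omit [MeasurableSpace V] [BorelSpace V] [FiniteDimensional ℝ V] in
lemma corr_continuousAt_right {u θ : V} (hθ : θ ≠ 0) : ContinuousAt (fun θ' => corr u θ') θ := by
  have h0 : ‖θ‖ ^ 2 ≠ 0 := pow_ne_zero 2 (norm_ne_zero_iff.2 hθ)
  unfold corr
  fun_prop (disch := assumption)

omit [MeasurableSpace V] [BorelSpace V] [FiniteDimensional ℝ V] in
lemma corr_continuous_left (θ : V) : Continuous (fun u => corr u θ) := by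
  unfold corr
  fun_prop

lemma field_meas (hdim : Module.finrank ℝ V = 3) (hX : ∀ u, u ≠ 0 → Tr G (H.ex (σ u)) u (X u)) (μ : Measure V) [μ.IsAddHaarMeasure] {θ : V} (hθ : θ ≠ 0) 
    (s : Set V) : AEStronglyMeasurable (fun u => X (corr u θ)) (μ.restrict s) := by
  apply AEStronglyMeasurable.restrict
  have ho : IsOpen {u : V | corr u θ ≠ 0} := (isOpen_ne (x := (0:V))).preimage (corr_continuous_left θ)
  have h1 : AEStronglyMeasurable (fun u => X (corr u θ)) (μ.restrict {u : V | corr u θ ≠ 0}) := by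
    apply ContinuousOn.aestronglyMeasurable _ ho.measurableSet
    intro u hu
    apply ContinuousAt.continuousWithinAt
    exact ContinuousAt.comp (f := fun u => corr u θ) (contX (by omega) hX hu) (corr_continuous_left θ).continuousAt
  have hr : μ.restrict {u : V | corr u θ ≠ 0} = μ := Measure.restrict_eq_self_of_ae_mem (corr_ae_ne hdim μ hθ)
  rw [hr] at h1
  exact h1

/-- the averaged field -/
noncomputable def Fld (X : V → V) (μ : Measure V) (θ : V) : V := ∫ u in Metric.ball (0:V) 1, X (corr u θ) ∂μ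

lemma exists_bound_X (hX : ∀ u, u ≠ 0 → Tr G (H.ex (σ u)) u (X u)) : ∃ M : ℝ, ∀ u, u ≠ 0 → ‖X u‖ ≤ M := by
  obtain ⟨c, C, hc, hC, hb⟩ := G.exists_bounds
  refine ⟨1 / c, fun u hu => ?_⟩
  rw [le_div_iff₀ hc]
  linarith [(hb (X u)).1, (hX u hu).le_one]

lemma Fld_integrable (hdim : Module.finrank ℝ V = 3) (hX : ∀ u, u ≠ 0 → Tr G (H.ex (σ u)) u (X u)) (μ : Measure V) [μ.IsAddHaarMeasure] {θ : V} (hθ : θ ≠ 0) : 
    IntegrableOn (fun u => X (corr u θ)) (Metric.ball (0:V) 1) μ := by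
  obtain ⟨M, hM⟩ := exists_bound_X hX
  have hfin : IsFiniteMeasure (μ.restrict (Metric.ball (0:V) 1)) := ⟨by
    rw [Measure.restrict_apply_univ]; exact measure_ball_lt_top⟩
  refine (integrable_const M).mono' (field_meas hdim hX μ hθ _) ?_
  filter_upwards [ae_restrict_of_ae (corr_ae_ne hdim μ hθ)] with u hu using hM _ hu

lemma Fld_continuousAt (hdim : Module.finrank ℝ V = 3) (hX : ∀ u, u ≠ 0 → Tr G (H.ex (σ u)) u (X u)) (μ : Measure V) [μ.IsAddHaarMeasure] {θ : V} (hθ : θ ≠ 0) : 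
    ContinuousAt (Fld X μ) θ := by
  obtain ⟨M, hM⟩ := exists_bound_X hX
  have hfin : IsFiniteMeasure (μ.restrict (Metric.ball (0:V) 1)) := ⟨by
    rw [Measure.restrict_apply_univ]; exact measure_ball_lt_top⟩
  have hne : ∀ᶠ θ' in 𝓝 θ, θ' ≠ 0 := isOpen_ne.mem_nhds hθ
  refine continuousAt_of_dominated (bound := fun _ => M) ?_ ?_ (integrable_const M) ?_
  · filter_upwards [hne] with θ' hθ' using field_meas hdim hX μ hθ' _
  · filter_upwards [hne] with θ' hθ'
    filter_upwards [ae_restrict_of_ae (corr_ae_ne hdim μ hθ')] with u hu using hM _ hu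
  · filter_upwards [ae_restrict_of_ae (corr_ae_ne hdim μ hθ)] with u hu
    exact ContinuousAt.comp (f := fun θ' => corr u θ') (contX (by omega) hX hu) (corr_continuousAt_right hθ)

theorem exists_field_zero (hdim : Module.finrank ℝ V = 3) (hX : ∀ u, u ≠ 0 → Tr G (H.ex (σ u)) u (X u)) (μ : Measure V) [μ.IsAddHaarMeasure] : 
    ∃ θ : V, ‖θ‖ = 1 ∧ ∀ ν, ⟪θ, ν⟫ = 0 → ⟪Fld X μ θ, ν⟫ = 0 := by
  by_contra hcon
  push Not at hcon
  set b := (stdOrthonormalBasis ℝ V).reindex (finCongr hdim) with hb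
  set Φ := b.repr with hΦ
  have hns : ∀ x : Metric.sphere (0 : EuclideanSpace ℝ (Fin 3)) 1, ‖Φ.symm (x : EuclideanSpace ℝ (Fin 3))‖ = 1 := by
    intro x
    rw [LinearIsometryEquiv.norm_map]
    exact mem_sphere_zero_iff_norm.1 x.2
  have hne : ∀ x : Metric.sphere (0 : EuclideanSpace ℝ (Fin 3)) 1, Φ.symm (x : EuclideanSpace ℝ (Fin 3)) ≠ 0 := by
    intro x h
    have := hns x
    rw [h, norm_zero] at this
    exact zero_ne_one this
  refine Pool.Agent.Helper775.Hairy.hairy (fun x => Φ (Fld X μ (Φ.symm x) - ⟪Φ.symm x, Fld X μ (Φ.symm x)⟫ • Φ.symm x)) ?_ ?_ ?_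
  · apply Φ.continuous.comp
    have h1 : Continuous fun x : Metric.sphere (0 : EuclideanSpace ℝ (Fin 3)) 1 => Φ.symm (x : EuclideanSpace ℝ (Fin 3)) := 
      Φ.symm.continuous.comp continuous_subtype_val
    have h2 : Continuous fun x : Metric.sphere (0 : EuclideanSpace ℝ (Fin 3)) 1 => Fld X μ (Φ.symm (x : EuclideanSpace ℝ (Fin 3))) := by
      rw [continuous_iff_continuousAt]
      intro x
      exact ContinuousAt.comp (f := fun x : Metric.sphere (0 : EuclideanSpace ℝ (Fin 3)) 1 => Φ.symm (x : EuclideanSpace ℝ (Fin 3))) 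
        (Fld_continuousAt hdim hX μ (hne x)) h1.continuousAt
    exact h2.sub ((h1.inner h2).smul h1)
  · intro x h
    obtain ⟨ν, hν, hν2⟩ := hcon _ (hns x)
    have h3 : Fld X μ (Φ.symm x) - ⟪Φ.symm x, Fld X μ (Φ.symm x)⟫ • Φ.symm (x : EuclideanSpace ℝ (Fin 3)) = 0 := by
      have := congrArg Φ.symm h
      simpa using this
    rw [sub_eq_zero] at h3
    apply hν2
    rw [h3, real_inner_smul_left, hν, mul_zero]
  · intro x
    have h1 : (x : EuclideanSpace ℝ (Fin 3)) = Φ (Φ.symm x) := by simp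
    have h2 := hns x
    conv_lhs => rw [h1]
    rw [LinearIsometryEquiv.inner_map_map]
    simp only [LinearIsometryEquiv.symm_apply_apply]
    rw [inner_sub_right, real_inner_smul_right, real_inner_self_eq_norm_sq, h2]
    ring

theorem total_of_onesided (hdim : Module.finrank ℝ V = 3) (hX : ∀ u, u ≠ 0 → Tr G (H.ex (σ u)) u (X u)) (μ : Measure V) [μ.IsAddHaarMeasure] 
    {θ ν : V} (hθ : ‖θ‖ = 1) (hν : ν ≠ 0) (hθν : ⟪θ, ν⟫ = 0) (h0 : ⟪Fld X μ θ, ν⟫ = 0) 
    (hone : ∀ u, u ≠ 0 → ⟪u, θ⟫ = 0 → 0 ≤ ⟪X u, ν⟫) : ∀ u, u ≠ 0 → ⟪u, θ⟫ = 0 → ∃ c : ℝ, X u = c • θ := by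
  have hdim2 : 2 ≤ Module.finrank ℝ V := by omega
  have hθ0 : θ ≠ 0 := by rintro rfl; simp at hθ
  have hint := Fld_integrable hdim hX μ hθ0
  have hg0 : ∫ u in Metric.ball (0:V) 1, ⟪X (corr u θ), ν⟫ ∂μ = 0 := by
    rw [← h0, Fld, real_inner_comm, ← integral_inner hint]
    simp only [real_inner_comm]
  have hnn : ∀ᵐ u ∂(μ.restrict (Metric.ball (0:V) 1)), 0 ≤ ⟪X (corr u θ), ν⟫ := by
    filter_upwards [ae_restrict_of_ae (corr_ae_ne hdim μ hθ0)] with u hu
    exact hone _ hu (by rw [real_inner_comm]; exact inner_corr u hθ0)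
  have hgi : Integrable (fun u => ⟪X (corr u θ), ν⟫) (μ.restrict (Metric.ball (0:V) 1)) := by
    have := Integrable.inner_const (𝕜 := ℝ) hint ν
    exact this
  have hae := (integral_eq_zero_iff_of_nonneg_ae hnn hgi).1 hg0
  have hae2 : ∀ᵐ u ∂μ, u ∈ Metric.ball (0:V) 1 → ⟪X (corr u θ), ν⟫ = 0 := 
    (ae_restrict_iff' Metric.isOpen_ball.measurableSet).1 hae
  have hdense := Measure.dense_of_ae hae2
  have hzero1 : ∀ n, n ≠ 0 → ⟪n, θ⟫ = 0 → ‖n‖ < 1 → ⟪X n, ν⟫ = 0 := by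
    intro n hn hnθ hn1
    by_contra hne
    have hc0 : corr n θ = n := by
      rw [corr, real_inner_comm, hnθ, zero_div, zero_smul, sub_zero]
    have hcont : ContinuousAt (fun u => ⟪X (corr u θ), ν⟫) n := by
      have h1 : ContinuousAt X (corr n θ) := by rw [hc0]; exact contX hdim2 hX hn
      exact (ContinuousAt.comp (f := fun u => corr u θ) h1 (corr_continuous_left θ).continuousAt).inner continuousAt_const
    have hev : ∀ᶠ u in 𝓝 n, ⟪X (corr u θ), ν⟫ ≠ 0 := by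
      apply hcont.eventually_ne
      rw [hc0]; exact hne
    have hev2 : ∀ᶠ u in 𝓝 n, u ∈ Metric.ball (0:V) 1 := Metric.isOpen_ball.mem_nhds (by rw [mem_ball_zero_iff]; exact hn1)
    obtain ⟨O, hO1, hO2, hO3⟩ := mem_nhds_iff.1 (hev.and hev2)
    obtain ⟨u, hu1, hu2⟩ := hdense.exists_mem_open hO2 ⟨n, hO3⟩
    exact (hO1 hu2).1 (hu1 (hO1 hu2).2)
  have hzero : ∀ n, n ≠ 0 → ⟪n, θ⟫ = 0 → ⟪X n, ν⟫ = 0 := by
    intro n hn hnθ
    have hnn : 0 < ‖n‖ := norm_pos_iff.2 hn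
    have hc : (2 * ‖n‖)⁻¹ ≠ 0 := by positivity
    have := hzero1 ((2 * ‖n‖)⁻¹ • n) (smul_ne_zero hc hn) (by rw [real_inner_smul_left, hnθ, mul_zero]) (by
      rw [norm_smul, norm_inv, Real.norm_eq_abs, abs_of_pos (by positivity)]
      field_simp; norm_num)
    rwa [hX_smul hdim2 hX hn hc] at this
  -- frame
  have hθθ : ⟪θ, θ⟫ = 1 := by rw [real_inner_self_eq_norm_sq, hθ]; norm_num
  have hνn : 0 < ‖ν‖ := norm_pos_iff.2 hν
  set p : V := ‖ν‖⁻¹ • ν with hp
  have hpp : ⟪p, p⟫ = 1 := by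
    rw [hp, real_inner_smul_left, real_inner_smul_right, real_inner_self_eq_norm_sq]
    field_simp
  have hθp : ⟪θ, p⟫ = 0 := by rw [hp, real_inner_smul_right, hθν, mul_zero]
  obtain ⟨q, hF⟩ := exists_frame2 hdim hθθ hpp hθp
  have hpX : ∀ n, n ≠ 0 → ⟪n, θ⟫ = 0 → ⟪p, X n⟫ = 0 := by
    intro n hn hnθ
    rw [hp, real_inner_smul_left, real_inner_comm, hzero n hn hnθ, mul_zero]
  have hq1 : ∀ n, n ≠ 0 → ⟪n, θ⟫ = 0 → ⟪q, n⟫ ≠ 0 → ⟪q, X n⟫ = 0 := by
    intro n hn hnθ hqn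
    have h1 := (hX n hn).1
    have h2 := hF.span n
    rw [real_inner_comm n θ] at h2
    rw [hnθ, zero_smul, zero_add] at h2
    have h3 : ⟪n, X n⟫ = ⟪⟪p, n⟫ • p + ⟪q, n⟫ • q, X n⟫ := congrArg (fun z => ⟪z, X n⟫) h2
    rw [h1, inner_add_left, real_inner_smul_left, hpX n hn hnθ, mul_zero, zero_add, real_inner_smul_left] at h3
    exact (mul_eq_zero.1 h3.symm).resolve_left hqn
  intro u hu hθu
  have hqX : ⟪q, X u⟫ = 0 := by
    by_cases hqu : ⟪q, u⟫ = 0
    · have hc1 : ContinuousAt (fun t : ℝ => ⟪q, X (u + t • q)⟫) 0 := by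
        have h1 : ContinuousAt (fun t : ℝ => X (u + t • q)) 0 := by
          refine ContinuousAt.comp (f := fun t : ℝ => u + t • q) ?_ (by fun_prop)
          rw [zero_smul, add_zero]
          exact contX hdim2 hX hu
        exact continuousAt_const.inner h1
      have hz : ∀ t : ℝ, t ≠ 0 → ⟪q, X (u + t • q)⟫ = 0 := by
        intro t ht
        have hqt : ⟪q, u + t • q⟫ ≠ 0 := by
          rw [inner_add_right, hqu, real_inner_smul_right, hF.qq, mul_one, zero_add]; exact ht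
        refine hq1 _ ?_ ?_ hqt
        · intro h; rw [h, inner_zero_right] at hqt; exact hqt rfl
        · rw [inner_add_left, hθu, real_inner_smul_left, hF.qt']; ring
      have h1 : Tendsto (fun t : ℝ => ⟪q, X (u + t • q)⟫) (𝓝[≠] 0) (𝓝 ⟪q, X (u + (0:ℝ) • q)⟫) := hc1.tendsto.mono_left nhdsWithin_le_nhds
      have h2 : Tendsto (fun t : ℝ => ⟪q, X (u + t • q)⟫) (𝓝[≠] 0) (𝓝 0) := by
        refine tendsto_const_nhds.congr' ?_
        filter_upwards [self_mem_nhdsWithin] with t ht using (hz t ht).symm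
      have h3 := tendsto_nhds_unique h1 h2
      rwa [zero_smul, add_zero] at h3
    · exact hq1 u hu hθu hqu
  refine ⟨⟪θ, X u⟫, ?_⟩
  have h2 := hF.span (X u)
  rw [hpX u hu hθu, hqX, zero_smul, zero_smul, add_zero, add_zero] at h2
  exact h2

end field

/-- three dimensional theorem for homothetic sections -/
theorem hm_three_dim (hdim : Module.finrank ℝ V = 3) {G H : Gauge V} (h : ∀ u, u ≠ 0 → ∃ x s, Tr G (H.ex s) u x) : 
    ∃ (x0 : V) (s0 : ℝ), ∀ y, (H.ex s0).g y ≤ 1 ↔ G.g (y + x0) ≤ 1 := by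
  classical
  choose! X σ hX using h
  borelize V
  set μ : Measure V := Measure.addHaar with hμ
  obtain ⟨a, ha, hall⟩ : ∃ a : V, a ≠ 0 ∧ ∀ u, u ≠ 0 → ⟪u, a⟫ = 0 → ∃ c : ℝ, X u = c • a := by
    obtain ⟨θ, hθ, hθ0⟩ := exists_field_zero hdim hX μ
    by_cases hT : TwoSided X θ
    · exact total_of_twoSided hdim hX hθ hT
    · simp only [TwoSided, not_forall, not_exists, not_and, not_lt] at hT
      obtain ⟨ν, hν, hθν, hone⟩ := hT
      exact ⟨θ, by rintro rfl; simp at hθ, total_of_onesided hdim hX μ hθ hν hθν (hθ0 ν hθν) hone⟩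
  refine ⟨(1 / G.g a - 1 / (wid H a / wid G a * H.g a)) • a, Real.log (wid H a / wid G a), fun y => ?_⟩
  obtain ⟨u, hu, hua, huy⟩ := exists_orth_pair (by omega : 3 ≤ Module.finrank ℝ V) a y
  obtain ⟨c, hc⟩ := hall u hu hua
  obtain ⟨h1, h2⟩ := (hX u hu).chord2 hua ha hc
  rw [← h1, Real.log_exp, ← h2, ← hc]
  exact (hX u hu).2 y huy

end Pool.Agent.Helper104.TrSec
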