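import Mathlib
import Pool.Agent.Helper104.TrThree

open MeasureTheory Set Filter Topology
open scoped RealInnerProductSpace Pointwise

namespace Pool.Agent.Helper104.TrSec

section proj

variable {V : Type} [NormedAddCommGroup V] [InnerProductSpace ℝ V] [FiniteDimensional ℝ V]

/-- gauge of the projection along `w` -/
theorem exists_proj (G : Gauge V) {w : V} (hw : w ≠ 0) : 
    ∃ P : Gauge (Submodule.span ℝ {w})ᗮ, ∀ y : (Submodule.span ℝ {w})ᗮ, P.g y ≤ 1 ↔ ∃ σ : ℝ, G.g ((y : V) + σ • w) ≤ 1 := by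
  obtain ⟨c, C, hc, hC, hb⟩ := G.exists_bounds
  have hwn : 0 < ‖w‖ := norm_pos_iff.2 hw
  set M : ℝ := C / (c * ‖w‖) with hM
  have hM0 : 0 < M := by positivity
  have horth : ∀ y : (Submodule.span ℝ {w})ᗮ, ⟪w, (y : V)⟫ = 0 := fun y => 
    Submodule.mem_orthogonal_singleton_iff_inner_right.1 y.2
  set F : (Submodule.span ℝ {w})ᗮ → ℝ → ℝ := fun y s => G.g ((y : V) + (‖y‖ * s) • w) with hF
  have hFc : Continuous fun z : (Submodule.span ℝ {w})ᗮ × ℝ => F z.1 z.2 := by
    simp only [hF]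
    apply G.cont.comp
    fun_prop
  have hcpt : IsCompact (Icc (-M) M) := isCompact_Icc
  have hne : (Icc (-M) M).Nonempty := ⟨0, by constructor <;> linarith⟩
  have hF1 : ∀ y, Continuous (F y) := fun y => hFc.comp (by fun_prop : Continuous fun s : ℝ => (y, s))
  have hatt : ∀ y, ∃ s ∈ Icc (-M) M, sInf (F y '' Icc (-M) M) = F y s := by
    intro y
    obtain ⟨s, hs, h1, -⟩ := hcpt.exists_sInf_image_eq_and_le hne (hF1 y).continuousOn
    exact ⟨s, hs, h1⟩
  have hle : ∀ y, ∀ s ∈ Icc (-M) M, sInf (F y '' Icc (-M) M) ≤ F y s := by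
    intro y s hs
    apply csInf_le _ (mem_image_of_mem _ hs)
    refine ⟨0, ?_⟩
    rintro _ ⟨s, -, rfl⟩
    exact G.nonneg _
  let P : Gauge (Submodule.span ℝ {w})ᗮ := 
    { g := fun y => sInf (F y '' Icc (-M) M)
      cont := hcpt.continuous_sInf hFc
      homog := by
        intro t ht y
        have h1 : F (t • y) '' Icc (-M) M = t • (F y '' Icc (-M) M) := by
          ext r
          simp only [mem_image, Set.mem_smul_set, smul_eq_mul]
          have e : ∀ s, F (t • y) s = t * F y s := by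
            intro s
            simp only [hF]
            rw [← G.homog t ht, norm_smul, Real.norm_eq_abs, abs_of_nonneg ht, Submodule.coe_smul, smul_add, smul_smul, mul_assoc]
          constructor
          · rintro ⟨s, hs, rfl⟩
            exact ⟨F y s, ⟨s, hs, rfl⟩, (e s).symm⟩
          · rintro ⟨_, ⟨s, hs, rfl⟩, rfl⟩
            exact ⟨s, hs, e s⟩
        rw [h1, Real.sInf_smul_of_nonneg ht, smul_eq_mul]
      pos := by
        intro y hy
        obtain ⟨s, -, h1⟩ := hatt y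
        rw [h1]
        apply G.pos
        intro h2
        have h3 : ⟪(y : V), (y : V) + (‖y‖ * s) • w⟫ = ‖(y : V)‖ ^ 2 := by
          have h5 : ⟪(y : V), w⟫ = 0 := by rw [real_inner_comm]; exact horth y
          rw [inner_add_right, real_inner_smul_right, h5, real_inner_self_eq_norm_sq]
          ring
        rw [h2, inner_zero_right] at h3
        have h4 : (y : V) ≠ 0 := by simpa using hy
        have : 0 < ‖(y : V)‖ ^ 2 := by positivity
        linarith }
  refine ⟨P, fun y => ?_⟩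
  constructor
  · intro h
    obtain ⟨s, -, h1⟩ := hatt y
    exact ⟨‖y‖ * s, by 
      have : P.g y = F y s := h1
      rw [this] at h
      exact h⟩
  · rintro ⟨σ, hσ⟩
    by_cases hy : y = 0
    · subst hy
      rw [P.zero]; exact zero_le_one
    · have hyn : 0 < ‖y‖ := norm_pos_iff.2 hy
      by_cases hs : |σ / ‖y‖| ≤ M
      · refine (hle y (σ / ‖y‖) (abs_le.1 hs)).trans ?_
        simp only [hF]
        rw [mul_div_cancel₀ _ hyn.ne']
        exact hσ
      · push Not at hs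
        rw [abs_div, abs_of_pos hyn, lt_div_iff₀ hyn] at hs
        refine (hle y 0 (by constructor <;> linarith)).trans ?_
        simp only [hF, mul_zero, zero_smul, add_zero]
        refine le_trans ?_ hσ
        have h1 := (hb (y : V)).2
        have h2 := (hb ((y : V) + σ • w)).1
        have h3 : |σ| * ‖w‖ ≤ ‖(y : V) + σ • w‖ := by
          have h4 : (|σ| * ‖w‖) ^ 2 ≤ ‖(y : V) + σ • w‖ ^ 2 := by
            rw [norm_add_sq_real, real_inner_smul_right, real_inner_comm, horth y, norm_smul, Real.norm_eq_abs]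
            nlinarith [sq_nonneg ‖(y : V)‖]
          exact (pow_le_pow_iff_left₀ (by positivity) (norm_nonneg _) (by norm_num)).1 h4
        have h5 : C * ‖y‖ ≤ c * (|σ| * ‖w‖) := by
          have h6 : M * ‖y‖ * (c * ‖w‖) = C * ‖y‖ := by
            rw [hM]; field_simp
          have h7 : M * ‖y‖ * (c * ‖w‖) ≤ |σ| * (c * ‖w‖) := by gcongr
          rw [h6] at h7
          linarith
        have h8 : ‖(y : V)‖ = ‖y‖ := rfl
        rw [h8] at h1
        nlinarith [mul_le_mul_of_nonneg_left h3 hc.le]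

end proj

/-- hyperplane theorem in dimension `n` -/
def HP (n : ℕ) : Prop := 
  ∀ (V : Type) [NormedAddCommGroup V] [InnerProductSpace ℝ V] [FiniteDimensional ℝ V], Module.finrank ℝ V = n → 
    ∀ G H : Gauge V, (∀ u, u ≠ 0 → ∃ x, Tr G H u x) → ∃ x0 : V, ∀ y, H.g y ≤ 1 ↔ G.g (y + x0) ≤ 1

lemma HP_three : HP 3 := by
  intro V _ _ _ hdim G H h
  exact three_dim hdim h

lemma proj_translate {n : ℕ} (hn : HP n) {V : Type} [NormedAddCommGroup V] [InnerProductSpace ℝ V] [FiniteDimensional ℝ V] 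
    (hdim : Module.finrank ℝ V = n + 1) {G H : Gauge V} (h : ∀ u, u ≠ 0 → ∃ x, Tr G H u x) {w : V} (hw : w ≠ 0) : 
    ∃ x : V, ∀ y : V, (∃ σ : ℝ, H.g (y + σ • w) ≤ 1) ↔ ∃ σ : ℝ, G.g (y + x + σ • w) ≤ 1 := by
  obtain ⟨PG, hPG⟩ := exists_proj G hw
  obtain ⟨PH, hPH⟩ := exists_proj H hw
  have hwn : 0 < ‖w‖ ^ 2 := by have := norm_pos_iff.2 hw; positivity
  have horth : ∀ y : (Submodule.span ℝ {w})ᗮ, ⟪w, (y : V)⟫ = 0 := fun y => 
    Submodule.mem_orthogonal_singleton_iff_inner_right.1 y.2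
  have hdec : ∀ x : V, ∃ (x' : (Submodule.span ℝ {w})ᗮ) (s : ℝ), x = x' + s • w := by
    intro x
    refine ⟨⟨x - (⟪w, x⟫ / ‖w‖ ^ 2) • w, ?_⟩, ⟪w, x⟫ / ‖w‖ ^ 2, ?_⟩
    · rw [Submodule.mem_orthogonal_singleton_iff_inner_right, inner_sub_right, real_inner_smul_right, real_inner_self_eq_norm_sq,
        div_mul_cancel₀ _ hwn.ne', sub_self]
    · simp
  have hfin : Module.finrank ℝ (Submodule.span ℝ {w})ᗮ = n := by
    have h1 := Submodule.finrank_add_finrank_orthogonal (Submodule.span ℝ {w})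
    rw [finrank_span_singleton hw, hdim] at h1
    omega
  obtain ⟨x0, hx0⟩ := hn _ hfin PG PH (by
    intro u hu
    have hu' : (u : V) ≠ 0 := by simpa using hu
    obtain ⟨x, hx⟩ := h u hu'
    obtain ⟨x', s, hxs⟩ := hdec x
    have huw : ⟪(u : V), w⟫ = 0 := by rw [real_inner_comm]; exact horth u
    refine ⟨x', ?_, ?_⟩
    · have h1 := hx.1
      rw [hxs, inner_add_right, real_inner_smul_right, huw, mul_zero, add_zero] at h1
      exact h1
    · intro y hy
      have hy' : ⟪(u : V), (y : V)⟫ = 0 := hy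
      rw [hPH, hPG]
      have e : ∀ σ : ℝ, H.g ((y : V) + σ • w) ≤ 1 ↔ G.g ((y + x' : (Submodule.span ℝ {w})ᗮ) + (σ + s) • w) ≤ 1 := by
        intro σ
        rw [hx.2 _ (by rw [inner_add_right, hy', real_inner_smul_right, huw]; ring), hxs, Submodule.coe_add]
        have : (y : V) + σ • w + (↑x' + s • w) = ↑y + ↑x' + (σ + s) • w := by module
        rw [this]
      constructor
      · rintro ⟨σ, hσ⟩
        exact ⟨σ + s, (e σ).1 hσ⟩
      · rintro ⟨σ, hσ⟩
        exact ⟨σ - s, (e (σ - s)).2 (by rw [sub_add_cancel]; exact hσ)⟩)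
  refine ⟨x0, fun y => ?_⟩
  obtain ⟨y', s, hys⟩ := hdec y
  have h1 := hx0 y'
  rw [hPH, hPG] at h1
  have h2 : (∃ σ : ℝ, H.g (y + σ • w) ≤ 1) ↔ ∃ σ : ℝ, H.g ((y' : V) + σ • w) ≤ 1 := by
    constructor
    · rintro ⟨σ, hσ⟩
      refine ⟨s + σ, ?_⟩
      have : (y' : V) + (s + σ) • w = y + σ • w := by rw [hys]; module
      rw [this]; exact hσ
    · rintro ⟨σ, hσ⟩
      refine ⟨σ - s, ?_⟩
      have : y + (σ - s) • w = (y' : V) + σ • w := by rw [hys]; module
      rw [this]; exact hσ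
  have h3 : (∃ σ : ℝ, G.g (y + x0 + σ • w) ≤ 1) ↔ ∃ σ : ℝ, G.g (((y' + x0 : (Submodule.span ℝ {w})ᗮ) : V) + σ • w) ≤ 1 := by
    constructor
    · rintro ⟨σ, hσ⟩
      refine ⟨s + σ, ?_⟩
      have : ((y' + x0 : (Submodule.span ℝ {w})ᗮ) : V) + (s + σ) • w = y + x0 + σ • w := by rw [hys, Submodule.coe_add]; module
      rw [this]; exact hσ
    · rintro ⟨σ, hσ⟩
      refine ⟨σ - s, ?_⟩
      have : y + x0 + (σ - s) • w = ((y' + x0 : (Submodule.span ℝ {w})ᗮ) : V) + σ • w := by rw [hys, Submodule.coe_add]; module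
      rw [this]; exact hσ
  rw [h2, h3]
  exact h1

end Pool.Agent.Helper104.TrSec
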