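import Mathlib
import Pool.Agent.Helper104.TrProj

open MeasureTheory Set Filter Topology
open scoped RealInnerProductSpace

namespace Pool.Agent.Helper104.TrSec

section supp

variable {V : Type} [NormedAddCommGroup V] [InnerProductSpace ℝ V] [FiniteDimensional ℝ V]

/-- support function of the body of `A` -/
noncomputable def supp (A : Gauge V) (v : V) : ℝ := sSup ((fun y => ⟪y, v⟫) '' {y | A.g y ≤ 1})

omit [FiniteDimensional ℝ V] in
lemma supp_le {A : Gauge V} {v : V} {b : ℝ} (h : ∀ y, A.g y ≤ 1 → ⟪y, v⟫ ≤ b) : supp A v ≤ b := by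
  apply csSup_le
  · exact ⟨⟪(0:V), v⟫, 0, by rw [mem_setOf_eq, A.zero]; exact zero_le_one, rfl⟩
  · rintro _ ⟨y, hy, rfl⟩
    exact h y hy

lemma le_supp {A : Gauge V} {v y : V} (h : A.g y ≤ 1) : ⟪y, v⟫ ≤ supp A v := by
  have hc : Continuous fun y : V => ⟪y, v⟫ := by fun_prop
  exact le_csSup (A.isCompact_body.image hc).bddAbove (mem_image_of_mem (fun y => ⟪y, v⟫) h)

lemma supp_eq {G H : Gauge V} {w x v : V} (hx : ∀ y : V, (∃ σ : ℝ, H.g (y + σ • w) ≤ 1) ↔ ∃ σ : ℝ, G.g (y + x + σ • w) ≤ 1) 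
    (hv : ⟪w, v⟫ = 0) : supp G v - supp H v = ⟪x, v⟫ := by
  apply le_antisymm
  · have : supp G v ≤ supp H v + ⟪x, v⟫ := by
      apply supp_le
      intro y hy
      obtain ⟨σ, hσ⟩ := (hx (y - x)).2 ⟨0, by simpa using hy⟩
      have := le_supp (v := v) hσ
      rw [inner_add_left, inner_sub_left, real_inner_smul_left, hv] at this
      linarith
    linarith
  · have : supp H v ≤ supp G v - ⟪x, v⟫ := by
      apply supp_le
      intro y hy
      obtain ⟨σ, hσ⟩ := (hx y).1 ⟨0, by simpa using hy⟩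
      have := le_supp (v := v) hσ
      rw [inner_add_left, inner_add_left, real_inner_smul_left, hv] at this
      linarith
    linarith

end supp

theorem HP_succ {n : ℕ} (hn2 : 2 ≤ n) (hn : HP n) : HP (n + 1) := by
  intro V _ _ _ hdim G H h
  have hdim3 : 3 ≤ Module.finrank ℝ V := by omega
  have hproj := fun (w : V) (hw : w ≠ 0) => proj_translate hn hdim h hw
  choose! Y hY using hproj
  set d : V → ℝ := fun v => supp G v - supp H v with hd
  have hdY : ∀ w v, w ≠ 0 → ⟪w, v⟫ = 0 → d v = ⟪Y w, v⟫ := fun w v hw hv => supp_eq (hY w hw) hv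
  have hadd : ∀ v1 v2, d (v1 + v2) = d v1 + d v2 := by
    intro v1 v2
    obtain ⟨w, hw, h1, h2⟩ := exists_orth_pair hdim3 v1 v2
    rw [hdY w _ hw h1, hdY w _ hw h2, hdY w _ hw (by rw [inner_add_right, h1, h2, add_zero]), inner_add_right]
  have hsmul : ∀ (c : ℝ) v, d (c • v) = c * d v := by
    intro c v
    obtain ⟨w, hw, h1, -⟩ := exists_orth_pair hdim3 v v
    rw [hdY w _ hw h1, hdY w _ hw (by rw [real_inner_smul_right, h1, mul_zero]), real_inner_smul_right]
  let D : V →ₗ[ℝ] ℝ := { toFun := d, map_add' := hadd, map_smul' := hsmul }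
  set y0 : V := (InnerProductSpace.toDual ℝ V).symm (LinearMap.toContinuousLinearMap D) with hy0
  have hdy0 : ∀ v, ⟪y0, v⟫ = d v := by
    intro v
    rw [hy0, InnerProductSpace.toDual_symm_apply]
    rfl
  -- Y w - y0 is parallel to w
  have hpar : ∀ w, w ≠ 0 → ∃ c : ℝ, Y w = y0 + c • w := by
    intro w hw
    have h1 : Y w - y0 ∈ (Submodule.span ℝ {w})ᗮᗮ := by
      rw [Submodule.mem_orthogonal]
      intro v hv
      rw [Submodule.mem_orthogonal_singleton_iff_inner_right] at hv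
      rw [inner_sub_right, real_inner_comm, real_inner_comm y0 v, hdy0, hdY w v hw hv, sub_self]
    rw [Submodule.orthogonal_orthogonal, Submodule.mem_span_singleton] at h1
    obtain ⟨c, hc⟩ := h1
    exact ⟨c, by rw [hc]; abel⟩
  have hY0 : ∀ w, w ≠ 0 → ∀ y : V, (∃ σ : ℝ, H.g (y + σ • w) ≤ 1) ↔ ∃ σ : ℝ, G.g (y + y0 + σ • w) ≤ 1 := by
    intro w hw y
    obtain ⟨c, hc⟩ := hpar w hw
    rw [hY w hw y, hc]
    constructor
    · rintro ⟨σ, hσ⟩
      exact ⟨c + σ, by
        have : y + y0 + (c + σ) • w = y + (y0 + c • w) + σ • w := by module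
        rw [this]; exact hσ⟩
    · rintro ⟨σ, hσ⟩
      exact ⟨σ - c, by
        have : y + (y0 + c • w) + (σ - c) • w = y + y0 + σ • w := by module
        rw [this]; exact hσ⟩
  -- planes through y0
  have hplane : ∀ u, u ≠ 0 → ⟪u, y0⟫ = 0 → Tr G H u y0 := by
    intro u hu huy
    obtain ⟨x, hx⟩ := h u hu
    have hxy : y0 = x := by
      by_contra hne
      set δ := y0 - x with hδ
      have hδ0 : δ ≠ 0 := sub_ne_zero.2 hne
      have huδ : ⟪u, δ⟫ = 0 := by rw [hδ, inner_sub_right, huy, hx.1, sub_zero]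
      obtain ⟨w, hw, hwu, hwδ⟩ := exists_orth_pair hdim3 u δ
      have huw : ⟪u, w⟫ = 0 := by rw [real_inner_comm]; exact hwu
      have hx' : ∀ y, ⟪u, y⟫ = 0 → ((∃ σ : ℝ, H.g (y + σ • w) ≤ 1) ↔ ∃ σ : ℝ, G.g (y + x + σ • w) ≤ 1) := by
        intro y hy
        have e : ∀ σ : ℝ, H.g (y + σ • w) ≤ 1 ↔ G.g (y + x + σ • w) ≤ 1 := by
          intro σ
          rw [hx.2 _ (by rw [inner_add_right, hy, real_inner_smul_right, huw]; ring)]
          have : y + σ • w + x = y + x + σ • w := by abel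
          rw [this]
        exact exists_congr e
      have hstep : ∀ y, ⟪u, y⟫ = 0 → (∃ σ : ℝ, G.g (y + σ • w) ≤ 1) → ∃ σ : ℝ, G.g (y + δ + σ • w) ≤ 1 := by
        intro y hy hG
        have hyx : ⟪u, y - x⟫ = 0 := by rw [inner_sub_right, hy, hx.1, sub_zero]
        have h1 := (hx' (y - x) hyx).2 (by rw [sub_add_cancel]; exact hG)
        have h2 := (hY0 w hw (y - x)).1 h1
        have h3 : y - x + y0 = y + δ := by rw [hδ]; abel
        rw [h3] at h2
        exact h2
      have hiter : ∀ k : ℕ, ∃ σ : ℝ, G.g ((k : ℝ) • δ + σ • w) ≤ 1 := by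
        intro k
        induction k with
        | zero => exact ⟨0, by simp [G.zero]⟩
        | succ k ih =>
          obtain ⟨σ, hσ⟩ := hstep _ (by rw [real_inner_smul_right, huδ, mul_zero]) ih
          refine ⟨σ, ?_⟩
          have : (((k + 1 : ℕ)) : ℝ) • δ + σ • w = (k : ℝ) • δ + δ + σ • w := by push_cast; module
          rw [this]; exact hσ
      obtain ⟨c, C, hc, hC, hb⟩ := G.exists_bounds
      have hδn : 0 < ‖δ‖ := norm_pos_iff.2 hδ0
      obtain ⟨k, hk⟩ := exists_nat_gt (1 / c / ‖δ‖)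
      obtain ⟨σ, hσ⟩ := hiter k
      have h1 := (hb ((k : ℝ) • δ + σ • w)).1
      have h2 : ‖(k : ℝ) • δ‖ ≤ ‖(k : ℝ) • δ + σ • w‖ := by
        have h4 : ‖(k : ℝ) • δ‖ ^ 2 ≤ ‖(k : ℝ) • δ + σ • w‖ ^ 2 := by
          have h5 : ⟪(k : ℝ) • δ, σ • w⟫ = 0 := by
            rw [real_inner_smul_left, real_inner_smul_right, real_inner_comm, hwδ]; ring
          rw [norm_add_sq_real, h5]
          nlinarith [sq_nonneg ‖σ • w‖]
        exact (pow_le_pow_iff_left₀ (norm_nonneg _) (norm_nonneg _) (by norm_num)).1 h4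
      rw [norm_smul, Real.norm_natCast] at h2
      rw [div_div, div_lt_iff₀ (by positivity)] at hk
      nlinarith [mul_le_mul_of_nonneg_left h2 hc.le]
    rw [hxy]; exact hx
  refine ⟨y0, fun y => ?_⟩
  obtain ⟨u, hu, h1, h2⟩ := exists_orth_pair hdim3 y0 y
  exact (hplane u hu h1).2 y h2

theorem HP_all {n : ℕ} (hn : 3 ≤ n) : HP n := by
  induction n, hn using Nat.le_induction with
  | base => exact HP_three
  | succ n hn ih => exact HP_succ (by omega) ih

end Pool.Agent.Helper104.TrSec
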