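import Mathlib
import Pool.Agent.Helper104.TrHyp

open MeasureTheory Set Filter Topology
open scoped RealInnerProductSpace

namespace Pool.Agent.Helper104.TrSec

variable {V : Type} [NormedAddCommGroup V] [InnerProductSpace ℝ V]

/-- the sections by `S` are translates, by a vector of `S` -/
def TrS (G H : Gauge V) (S : Submodule ℝ V) : Prop := 
  ∃ x ∈ S, ∀ y ∈ S, (H.g y ≤ 1 ↔ G.g (y + x) ≤ 1)

/-- restriction of a gauge to a subspace -/
def Gauge.restr (G : Gauge V) (F : Submodule ℝ V) : Gauge F where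
  g := fun y => G.g (y : V)
  cont := G.cont.comp continuous_subtype_val
  homog := fun t ht y => G.homog t ht y
  pos := fun y hy => G.pos _ (by simpa using hy)

theorem TrS_succ [FiniteDimensional ℝ V] {G H : Gauge V} {m : ℕ} (hm : 2 ≤ m) (h : ∀ S : Submodule ℝ V, Module.finrank ℝ S = m → TrS G H S) 
    (F : Submodule ℝ V) (hF : Module.finrank ℝ F = m + 1) : TrS G H F := by
  obtain ⟨x0, hx0⟩ := HP_all (n := m + 1) (by omega) F hF (G.restr F) (H.restr F) (by
    intro u hu
    set S : Submodule ℝ V := ((Submodule.span ℝ {u})ᗮ).map F.subtype with hS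
    have hfin : Module.finrank ℝ S = m := by
      have h1 := Submodule.finrank_add_finrank_orthogonal (Submodule.span ℝ {u})
      rw [finrank_span_singleton hu, hF] at h1
      have h2 : Module.finrank ℝ S = Module.finrank ℝ (Submodule.span ℝ {u})ᗮ := 
        Submodule.finrank_map_subtype_eq F _
      rw [h2]
      omega
    obtain ⟨x, hxS, hx⟩ := h S hfin
    rw [hS, Submodule.mem_map] at hxS
    obtain ⟨x', hx', rfl⟩ := hxS
    rw [Submodule.mem_orthogonal_singleton_iff_inner_right] at hx'
    refine ⟨x', hx', fun y hy => ?_⟩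
    have := hx (F.subtype y) (by
      rw [hS, Submodule.mem_map]
      exact ⟨y, by rw [Submodule.mem_orthogonal_singleton_iff_inner_right]; exact hy, rfl⟩)
    exact this)
  refine ⟨x0, x0.2, fun y hy => ?_⟩
  exact hx0 ⟨y, hy⟩

theorem gauge_main [FiniteDimensional ℝ V] {G H : Gauge V} {k : ℕ} (hk : 2 ≤ k) (hkn : k ≤ Module.finrank ℝ V) 
    (h : ∀ S : Submodule ℝ V, Module.finrank ℝ S = k → TrS G H S) : ∃ x0 : V, ∀ y, H.g y ≤ 1 ↔ G.g (y + x0) ≤ 1 := by
  have key : ∀ m, k ≤ m → m ≤ Module.finrank ℝ V → ∀ S : Submodule ℝ V, Module.finrank ℝ S = m → TrS G H S := by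
    intro m hkm
    induction m, hkm using Nat.le_induction with
    | base => intro _; exact h
    | succ m hm ih => 
      intro hmn F hF
      exact TrS_succ (by omega) (ih (by omega)) F hF
  obtain ⟨x, -, hx⟩ := key _ hkn le_rfl ⊤ (finrank_top ℝ V)
  exact ⟨x, fun y => hx y Submodule.mem_top⟩

/-- the radial function `ρ_K(u) = max {t ≥ 0 : t u ∈ K}` -/
noncomputable def radial (K : Set V) (u : V) : ℝ := sSup {t : ℝ | 0 ≤ t ∧ t • u ∈ K}

/-- star bodies -/
structure IsStarBody (K : Set V) : Prop where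
  isCompact : IsCompact K
  starConvex : StarConvex ℝ 0 K
  radial_pos : ∀ u ∈ Metric.sphere (0 : V) 1, 0 < radial K u
  radial_cont : ContinuousOn (radial K) (Metric.sphere (0 : V) 1)

/-- translates -/
def Translates (A B : Set V) : Prop := ∃ x : V, B = (fun a => a + x) '' A

lemma normalize_mem {y : V} (hy : y ≠ 0) : ‖y‖⁻¹ • y ∈ Metric.sphere (0 : V) 1 := by
  have hn : 0 < ‖y‖ := norm_pos_iff.2 hy
  rw [mem_sphere_zero_iff_norm, norm_smul, norm_inv, norm_norm, inv_mul_cancel₀ hn.ne']

theorem exists_gauge [FiniteDimensional ℝ V] [Nontrivial V] {K : Set V} (hK : IsStarBody K) : ∃ G : Gauge V, ∀ y, y ∈ K ↔ G.g y ≤ 1 := by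
  -- facts about the radial function
  have hbdd : ∀ u ∈ Metric.sphere (0 : V) 1, BddAbove {t : ℝ | 0 ≤ t ∧ t • u ∈ K} := by
    intro u hu
    obtain ⟨R, hR⟩ := hK.isCompact.isBounded.exists_norm_le
    refine ⟨R, fun t ht => ?_⟩
    have := hR _ ht.2
    rw [norm_smul, mem_sphere_zero_iff_norm.1 hu, mul_one, Real.norm_eq_abs, abs_of_nonneg ht.1] at this
    exact this
  have hnonempty : ∀ u ∈ Metric.sphere (0 : V) 1, {t : ℝ | 0 ≤ t ∧ t • u ∈ K}.Nonempty := by
    intro u hu
    by_contra hne
    rw [not_nonempty_iff_eq_empty] at hne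
    have := hK.radial_pos u hu
    rw [radial, hne, Real.sSup_empty] at this
    exact lt_irrefl _ this
  have hclosed : ∀ u, IsClosed {t : ℝ | 0 ≤ t ∧ t • u ∈ K} := by
    intro u
    apply IsClosed.inter isClosed_Ici
    exact hK.isCompact.isClosed.preimage (by fun_prop : Continuous fun t : ℝ => t • u)
  have hmem : ∀ u ∈ Metric.sphere (0 : V) 1, radial K u • u ∈ K := fun u hu => 
    ((hclosed u).csSup_mem (hnonempty u hu) (hbdd u hu)).2
  obtain ⟨u0, hu0⟩ : ∃ u0 : V, ‖u0‖ = 1 := exists_norm_eq V zero_le_one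
  have hu0' : u0 ∈ Metric.sphere (0 : V) 1 := mem_sphere_zero_iff_norm.2 hu0
  have h0K : (0 : V) ∈ K := by
    have := hK.starConvex (hmem u0 hu0') (zero_le_one (α := ℝ)) (le_refl (0:ℝ)) (by norm_num)
    simpa using this
  have hscale : ∀ y ∈ K, ∀ s : ℝ, 0 ≤ s → s ≤ 1 → s • y ∈ K := by
    intro y hy s hs0 hs1
    have := hK.starConvex hy (show (0:ℝ) ≤ 1 - s by linarith) hs0 (by ring)
    simpa using this
  obtain ⟨v, hv, hvmin⟩ := (isCompact_sphere (0 : V) 1).exists_isMinOn ⟨u0, hu0'⟩ hK.radial_cont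
  set m : ℝ := radial K v with hm
  have hm0 : 0 < m := hK.radial_pos v hv
  have hmle : ∀ u ∈ Metric.sphere (0 : V) 1, m ≤ radial K u := fun u hu => hvmin hu
  let G : Gauge V := 
    { g := fun y => ‖y‖ / radial K (‖y‖⁻¹ • y)
      cont := by
        rw [continuous_iff_continuousAt]
        intro y
        by_cases hy : y = 0
        · subst hy
          rw [ContinuousAt]
          simp only [norm_zero, zero_div]
          have h1 : Tendsto (fun y : V => ‖y‖ / m) (𝓝 0) (𝓝 0) := by
            have : Continuous fun y : V => ‖y‖ / m := by fun_prop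
            simpa using this.tendsto 0
          refine squeeze_zero (fun y => ?_) (fun y => ?_) h1
          · by_cases h : y = 0
            · subst h; simp
            · exact div_nonneg (norm_nonneg _) (hK.radial_pos _ (normalize_mem h)).le
          · by_cases h : y = 0
            · subst h; simp
            · exact div_le_div_of_nonneg_left (norm_nonneg _) hm0 (hmle _ (normalize_mem h))
        · have hn : ‖y‖ ≠ 0 := norm_ne_zero_iff.2 hy
          have h1 : ContinuousOn (fun y : V => radial K (‖y‖⁻¹ • y)) {y | y ≠ 0} := by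
            apply hK.radial_cont.comp (f := fun y : V => ‖y‖⁻¹ • y)
            · intro z hz
              have hz' : ‖z‖ ≠ 0 := norm_ne_zero_iff.2 hz
              apply ContinuousAt.continuousWithinAt
              fun_prop (disch := assumption)
            · intro z hz
              exact normalize_mem hz
          have h2 : ContinuousAt (fun y : V => radial K (‖y‖⁻¹ • y)) y := h1.continuousAt (isOpen_ne.mem_nhds hy)
          exact continuous_norm.continuousAt.div h2 (hK.radial_pos _ (normalize_mem hy)).ne'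
      homog := by
        intro t ht y
        rcases eq_or_lt_of_le ht with h | h
        · subst h; simp
        · have e : ‖t • y‖⁻¹ • (t • y) = ‖y‖⁻¹ • y := by
            rw [norm_smul, Real.norm_eq_abs, abs_of_pos h, smul_smul, mul_inv, mul_comm t⁻¹, mul_assoc, inv_mul_cancel₀ h.ne', mul_one]
          simp only [e]
          rw [norm_smul, Real.norm_eq_abs, abs_of_pos h, mul_div_assoc]
      pos := fun y hy => div_pos (norm_pos_iff.2 hy) (hK.radial_pos _ (normalize_mem hy)) }
  refine ⟨G, fun y => ?_⟩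
  by_cases hy : y = 0
  · subst hy
    simp only [h0K, true_iff]
    rw [G.zero]; exact zero_le_one
  · have hn : 0 < ‖y‖ := norm_pos_iff.2 hy
    have hs := normalize_mem hy
    have hr := hK.radial_pos _ hs
    have hGy : G.g y = ‖y‖ / radial K (‖y‖⁻¹ • y) := rfl
    rw [hGy, div_le_one hr]
    constructor
    · intro h
      apply le_csSup (hbdd _ hs)
      refine ⟨norm_nonneg _, ?_⟩
      rw [smul_smul, mul_inv_cancel₀ hn.ne', one_smul]
      exact h
    · intro h
      have h1 := hscale _ (hmem _ hs) (‖y‖ / radial K (‖y‖⁻¹ • y)) (by positivity) ((div_le_one hr).2 h)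
      rw [smul_smul, div_mul_cancel₀ _ hr.ne', smul_smul, mul_inv_cancel₀ hn.ne', one_smul] at h1
      exact h1

theorem main [FiniteDimensional ℝ V] {k : ℕ} (hk : 2 ≤ k) (hkn : k ≤ Module.finrank ℝ V) {K L : Set V} (hK : IsStarBody K) (hL : IsStarBody L) 
    (h : ∀ S : Submodule ℝ V, Module.finrank ℝ S = k → Translates (K ∩ S) (L ∩ S)) : Translates K L := by
  haveI : Nontrivial V := Module.nontrivial_of_finrank_pos (R := ℝ) (by omega)
  obtain ⟨G, hG⟩ := exists_gauge hK
  obtain ⟨H, hH⟩ := exists_gauge hL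
  have h0K : (0 : V) ∈ K := by rw [hG, G.zero]; exact zero_le_one
  obtain ⟨x0, hx0⟩ := gauge_main (G := G) (H := H) hk hkn (by
    intro S hS
    obtain ⟨x, hx⟩ := h S hS
    have hxS : x ∈ S := by
      have : x ∈ L ∩ (S : Set V) := by
        rw [hx]
        exact ⟨0, ⟨h0K, S.zero_mem⟩, by simp⟩
      exact this.2
    refine ⟨-x, S.neg_mem hxS, fun y hy => ?_⟩
    rw [← hH, ← hG]
    constructor
    · intro hyL
      have : y ∈ L ∩ (S : Set V) := ⟨hyL, hy⟩
      rw [hx] at this
      obtain ⟨a, ha, hay⟩ := this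
      simp only at hay
      rw [← hay, add_neg_cancel_right]
      exact ha.1
    · intro hyK
      have : y ∈ L ∩ (S : Set V) := by
        rw [hx]
        exact ⟨y + -x, ⟨hyK, S.add_mem hy (S.neg_mem hxS)⟩, by simp⟩
      exact this.1)
  refine ⟨-x0, ?_⟩
  ext y
  rw [hH, hx0, ← hG]
  constructor
  · intro hy
    exact ⟨y + x0, hy, by simp⟩
  · rintro ⟨a, ha, rfl⟩
    simpa using ha

end Pool.Agent.Helper104.TrSec
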