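import Mathlib
import Pool.Agent.Helper104.HmThree
import Pool.Agent.Helper104.TrGen

open MeasureTheory Set Filter Topology
open scoped RealInnerProductSpace Pointwise

namespace Pool.Agent.Helper104.TrSec

section supp

variable {V : Type} [NormedAddCommGroup V] [InnerProductSpace ℝ V] [FiniteDimensional ℝ V]

lemma supp_pos {A : Gauge V} {v : V} (hv : v ≠ 0) : 0 < supp A v := by
  have hA := A.pos v hv
  have h1 : A.g ((A.g v)⁻¹ • v) ≤ 1 := by
    rw [A.homog _ (inv_nonneg.2 hA.le), inv_mul_cancel₀ hA.ne']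
  have h2 := le_supp (v := v) h1
  rw [real_inner_smul_left] at h2
  have h3 : 0 < ⟪v, v⟫ := real_inner_self_pos.2 hv
  have : 0 < (A.g v)⁻¹ * ⟪v, v⟫ := by positivity
  linarith

lemma supp_ex {A : Gauge V} {v : V} (s : ℝ) : supp (A.ex s) v = Real.exp (-s) * supp A v := by
  have hee : Real.exp (-s) * Real.exp s = 1 := by rw [← Real.exp_add, neg_add_cancel, Real.exp_zero]
  apply le_antisymm
  · apply supp_le
    intro y hy
    have h1 : A.g (Real.exp s • y) ≤ 1 := by rw [A.homog _ (Real.exp_pos s).le]; exact hy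
    have h2 := le_supp (v := v) h1
    rw [real_inner_smul_left] at h2
    calc ⟪y, v⟫ = Real.exp (-s) * (Real.exp s * ⟪y, v⟫) := by rw [← mul_assoc, hee, one_mul]
      _ ≤ _ := mul_le_mul_of_nonneg_left h2 (Real.exp_pos _).le
  · have h1 : supp A v ≤ Real.exp s * supp (A.ex s) v := by
      apply supp_le
      intro y hy
      have h1 : (A.ex s).g (Real.exp (-s) • y) ≤ 1 := by
        rw [Gauge.ex_g, A.homog _ (Real.exp_pos _).le, ← mul_assoc, mul_comm (Real.exp s), hee, one_mul]; exact hy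
      have h2 := le_supp (v := v) h1
      rw [real_inner_smul_left] at h2
      calc ⟪y, v⟫ = Real.exp s * (Real.exp (-s) * ⟪y, v⟫) := by rw [← mul_assoc, mul_comm (Real.exp s), hee, one_mul]
        _ ≤ _ := mul_le_mul_of_nonneg_left h2 (Real.exp_pos _).le
    calc Real.exp (-s) * supp A v ≤ Real.exp (-s) * (Real.exp s * supp (A.ex s) v) := mul_le_mul_of_nonneg_left h1 (Real.exp_pos _).le
      _ = _ := by rw [← mul_assoc, hee, one_mul]

end supp

/-- hyperplane theorem in dimension `n`, homothetic version -/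
def HPm (n : ℕ) : Prop := 
  ∀ (V : Type) [NormedAddCommGroup V] [InnerProductSpace ℝ V] [FiniteDimensional ℝ V], Module.finrank ℝ V = n → 
    ∀ G H : Gauge V, (∀ u, u ≠ 0 → ∃ x s, Tr G (H.ex s) u x) → ∃ (x0 : V) (s0 : ℝ), ∀ y, (H.ex s0).g y ≤ 1 ↔ G.g (y + x0) ≤ 1

lemma HPm_three : HPm 3 := by
  intro V _ _ _ hdim G H h
  exact hm_three_dim hdim h

lemma proj_ex {V : Type} [NormedAddCommGroup V] [InnerProductSpace ℝ V] [FiniteDimensional ℝ V] {H : Gauge V} {w : V} 
    {P : Gauge (Submodule.span ℝ {w})ᗮ} (hP : ∀ y : (Submodule.span ℝ {w})ᗮ, P.g y ≤ 1 ↔ ∃ σ : ℝ, H.g ((y : V) + σ • w) ≤ 1) (s : ℝ) 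
    (y : (Submodule.span ℝ {w})ᗮ) : (P.ex s).g y ≤ 1 ↔ ∃ σ : ℝ, (H.ex s).g ((y : V) + σ • w) ≤ 1 := by
  have h1 := hP (Real.exp s • y)
  rw [P.homog _ (Real.exp_pos s).le] at h1
  rw [Gauge.ex_g, h1]
  have e : ∀ σ : ℝ, (H.ex s).g ((y : V) + σ • w) = H.g (((Real.exp s • y : (Submodule.span ℝ {w})ᗮ) : V) + (Real.exp s * σ) • w) := by
    intro σ
    rw [Gauge.ex_g, ← H.homog _ (Real.exp_pos s).le, smul_add, smul_smul, Submodule.coe_smul]
  constructor
  · rintro ⟨σ, hσ⟩
    refine ⟨Real.exp (-s) * σ, ?_⟩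
    rw [e, ← mul_assoc, ← Real.exp_add, add_neg_cancel, Real.exp_zero, one_mul]
    exact hσ
  · rintro ⟨σ, hσ⟩
    exact ⟨_, by rw [e] at hσ; exact hσ⟩

lemma hm_proj_translate {n : ℕ} (hn : HPm n) {V : Type} [NormedAddCommGroup V] [InnerProductSpace ℝ V] [FiniteDimensional ℝ V] 
    (hdim : Module.finrank ℝ V = n + 1) {G H : Gauge V} (h : ∀ u, u ≠ 0 → ∃ x s, Tr G (H.ex s) u x) {w : V} (hw : w ≠ 0) : 
    ∃ (x : V) (s0 : ℝ), ∀ y : V, (∃ σ : ℝ, (H.ex s0).g (y + σ • w) ≤ 1) ↔ ∃ σ : ℝ, G.g (y + x + σ • w) ≤ 1 := by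
  obtain ⟨PG, hPG⟩ := exists_proj G hw
  obtain ⟨PH, hPH⟩ := exists_proj H hw
  have hPHs := fun s => proj_ex hPH s
  have hwn : 0 < ‖w‖ ^ 2 := by have := norm_pos_iff.2 hw; positivity
  have horth : ∀ y : (Submodule.span ℝ {w})ᗮ, ⟪w, (y : V)⟫ = 0 := fun y => 
    Submodule.mem_orthogonal_singleton_iff_inner_right.1 y.2
  have hdec : ∀ x : V, ∃ (x' : (Submodule.span ℝ {w})ᗮ) (s : ℝ), x = x' + s • w := by
    intro x
    refine ⟨⟨x - (⟪w, x⟫ / ‖w‖ ^ 2) • w, ?_⟩, ⟪w, x⟫ / ‖w‖ ^ 2, ?_⟩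
    · rw [Submodule.mem_orthogonal_singleton_iff_inner_right, inner_sub_right, real_inner_smul_right, real_inner_self_eq_norm_sq,
        div_mul_cancel₀ _ hwn.ne', sub_self]
    · simp
  have hfin : Module.finrank ℝ (Submodule.span ℝ {w})ᗮ = n := by
    have h1 := Submodule.finrank_add_finrank_orthogonal (Submodule.span ℝ {w})
    rw [finrank_span_singleton hw, hdim] at h1
    omega
  obtain ⟨x0, s0, hx0⟩ := hn _ hfin PG PH (by
    intro u hu
    have hu' : (u : V) ≠ 0 := by simpa using hu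
    obtain ⟨x, s', hx⟩ := h u hu'
    obtain ⟨x', s, hxs⟩ := hdec x
    have huw : ⟪(u : V), w⟫ = 0 := by rw [real_inner_comm]; exact horth u
    refine ⟨x', s', ?_, ?_⟩
    · have h1 := hx.1
      rw [hxs, inner_add_right, real_inner_smul_right, huw, mul_zero, add_zero] at h1
      exact h1
    · intro y hy
      have hy' : ⟪(u : V), (y : V)⟫ = 0 := hy
      rw [hPHs, hPG]
      have e : ∀ σ : ℝ, (H.ex s').g ((y : V) + σ • w) ≤ 1 ↔ G.g ((y + x' : (Submodule.span ℝ {w})ᗮ) + (σ + s) • w) ≤ 1 := by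
        intro σ
        rw [hx.2 _ (by rw [inner_add_right, hy', real_inner_smul_right, huw]; ring), hxs, Submodule.coe_add]
        have : (y : V) + σ • w + (↑x' + s • w) = ↑y + ↑x' + (σ + s) • w := by module
        rw [this]
      constructor
      · rintro ⟨σ, hσ⟩
        exact ⟨σ + s, (e σ).1 hσ⟩
      · rintro ⟨σ, hσ⟩
        exact ⟨σ - s, (e (σ - s)).2 (by rw [sub_add_cancel]; exact hσ)⟩)
  refine ⟨x0, s0, fun y => ?_⟩
  obtain ⟨y', s, hys⟩ := hdec y
  have h1 := hx0 y'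
  rw [hPHs, hPG] at h1
  have h2 : (∃ σ : ℝ, (H.ex s0).g (y + σ • w) ≤ 1) ↔ ∃ σ : ℝ, (H.ex s0).g ((y' : V) + σ • w) ≤ 1 := by
    constructor
    · rintro ⟨σ, hσ⟩
      refine ⟨s + σ, ?_⟩
      have : (y' : V) + (s + σ) • w = y + σ • w := by rw [hys]; module
      rw [this]; exact hσ
    · rintro ⟨σ, hσ⟩
      refine ⟨σ - s, ?_⟩
      have : y + (σ - s) • w = (y' : V) + σ • w := by rw [hys]; module
      rw [this]; exact hσ
  have h3 : (∃ σ : ℝ, G.g (y + x0 + σ • w) ≤ 1) ↔ ∃ σ : ℝ, G.g (((y' + x0 : (Submodule.span ℝ {w})ᗮ) : V) + σ • w) ≤ 1 := by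
    constructor
    · rintro ⟨σ, hσ⟩
      refine ⟨s + σ, ?_⟩
      have : ((y' + x0 : (Submodule.span ℝ {w})ᗮ) : V) + (s + σ) • w = y + x0 + σ • w := by rw [hys, Submodule.coe_add]; module
      rw [this]; exact hσ
    · rintro ⟨σ, hσ⟩
      refine ⟨σ - s, ?_⟩
      have : y + x0 + (σ - s) • w = ((y' + x0 : (Submodule.span ℝ {w})ᗮ) : V) + σ • w := by rw [hys, Submodule.coe_add]; module
      rw [this]; exact hσ
  rw [h2, h3]
  exact h1

theorem HPm_succ {n : ℕ} (hn2 : 2 ≤ n) (hn : HPm n) : HPm (n + 1) := by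
  intro V _ _ _ hdim G H h
  have hdim3 : 3 ≤ Module.finrank ℝ V := by omega
  haveI : Nontrivial V := Module.nontrivial_of_finrank_pos (R := ℝ) (by omega)
  have hproj := fun (w : V) (hw : w ≠ 0) => hm_proj_translate hn hdim h hw
  choose! Y τ hY using hproj
  have hwt : ∀ w v, w ≠ 0 → ⟪w, v⟫ = 0 → supp G v - Real.exp (-τ w) * supp H v = ⟪Y w, v⟫ := by
    intro w v hw hv
    have := supp_eq (hY w hw) hv
    rwa [supp_ex] at this
  obtain ⟨w0, hw0⟩ := exists_ne (0 : V)
  have hτ : ∀ w, w ≠ 0 → τ w = τ w0 := by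
    intro w hw
    obtain ⟨v, hv, hvw, hvw0⟩ := exists_orth_pair hdim3 w w0
    have hwv : ⟪w, v⟫ = 0 := by rw [real_inner_comm]; exact hvw
    have hw0v : ⟪w0, v⟫ = 0 := by rw [real_inner_comm]; exact hvw0
    have a1 := hwt w v hw hwv
    have a2 := hwt w (-v) hw (by rw [inner_neg_right, hwv, neg_zero])
    have a3 := hwt w0 v hw0 hw0v
    have a4 := hwt w0 (-v) hw0 (by rw [inner_neg_right, hw0v, neg_zero])
    rw [inner_neg_right] at a2 a4
    have p1 := supp_pos (A := H) hv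
    have p2 := supp_pos (A := H) (neg_ne_zero.2 hv)
    have e1 : (Real.exp (-τ w) - Real.exp (-τ w0)) * (supp H v + supp H (-v)) = 0 := by linarith
    rcases mul_eq_zero.1 e1 with e2 | e2
    · have := Real.exp_injective (sub_eq_zero.1 e2)
      linarith
    · linarith
  set s0 := τ w0 with hs0
  set H0 : Gauge V := H.ex s0 with hH0
  have hY' : ∀ w, w ≠ 0 → ∀ y : V, (∃ σ : ℝ, H0.g (y + σ • w) ≤ 1) ↔ ∃ σ : ℝ, G.g (y + Y w + σ • w) ≤ 1 := by
    intro w hw y
    have := hY w hw y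
    rwa [hτ w hw] at this
  set d : V → ℝ := fun v => supp G v - supp H0 v with hd
  have hdY : ∀ w v, w ≠ 0 → ⟪w, v⟫ = 0 → d v = ⟪Y w, v⟫ := fun w v hw hv => supp_eq (hY' w hw) hv
  have hadd : ∀ v1 v2, d (v1 + v2) = d v1 + d v2 := by
    intro v1 v2
    obtain ⟨w, hw, h1, h2⟩ := exists_orth_pair hdim3 v1 v2
    rw [hdY w _ hw h1, hdY w _ hw h2, hdY w _ hw (by rw [inner_add_right, h1, h2, add_zero]), inner_add_right]
  have hsmul : ∀ (c : ℝ) v, d (c • v) = c * d v := by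
    intro c v
    obtain ⟨w, hw, h1, -⟩ := exists_orth_pair hdim3 v v
    rw [hdY w _ hw h1, hdY w _ hw (by rw [real_inner_smul_right, h1, mul_zero]), real_inner_smul_right]
  let D : V →ₗ[ℝ] ℝ := { toFun := d, map_add' := hadd, map_smul' := hsmul }
  set y0 : V := (InnerProductSpace.toDual ℝ V).symm (LinearMap.toContinuousLinearMap D) with hy0
  have hdy0 : ∀ v, ⟪y0, v⟫ = d v := by
    intro v
    rw [hy0, InnerProductSpace.toDual_symm_apply]
    rfl
  -- Y w - y0 is parallel to w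
  have hpar : ∀ w, w ≠ 0 → ∃ c : ℝ, Y w = y0 + c • w := by
    intro w hw
    have h1 : Y w - y0 ∈ (Submodule.span ℝ {w})ᗮᗮ := by
      rw [Submodule.mem_orthogonal]
      intro v hv
      rw [Submodule.mem_orthogonal_singleton_iff_inner_right] at hv
      rw [inner_sub_right, real_inner_comm, real_inner_comm y0 v, hdy0, hdY w v hw hv, sub_self]
    rw [Submodule.orthogonal_orthogonal, Submodule.mem_span_singleton] at h1
    obtain ⟨c, hc⟩ := h1
    exact ⟨c, by rw [hc]; abel⟩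
  have hY0 : ∀ w, w ≠ 0 → ∀ y : V, (∃ σ : ℝ, H0.g (y + σ • w) ≤ 1) ↔ ∃ σ : ℝ, G.g (y + y0 + σ • w) ≤ 1 := by
    intro w hw y
    obtain ⟨c, hc⟩ := hpar w hw
    rw [hY' w hw y, hc]
    constructor
    · rintro ⟨σ, hσ⟩
      exact ⟨c + σ, by
        have : y + y0 + (c + σ) • w = y + (y0 + c • w) + σ • w := by module
        rw [this]; exact hσ⟩
    · rintro ⟨σ, hσ⟩
      exact ⟨σ - c, by
        have : y + (y0 + c • w) + (σ - c) • w = y + y0 + σ • w := by module
        rw [this]; exact hσ⟩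
  -- planes through y0
  have hplane : ∀ u, u ≠ 0 → ⟪u, y0⟫ = 0 → Tr G H0 u y0 := by
    intro u hu huy
    obtain ⟨x, s, hx⟩ := h u hu
    set r := s - s0 with hr
    have hHs : H.ex s = H0.ex r := by rw [hH0, Gauge.ex_ex, hr]; congr 1; ring
    rw [hHs] at hx
    set F : Submodule ℝ V := (Submodule.span ℝ {u})ᗮ with hF
    have hmem : ∀ y : V, y ∈ F ↔ ⟪u, y⟫ = 0 := fun y => Submodule.mem_orthogonal_singleton_iff_inner_right
    have hfin : Module.finrank ℝ F = n := by
      have h1 := Submodule.finrank_add_finrank_orthogonal (Submodule.span ℝ {u})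
      rw [finrank_span_singleton hu, hdim, ← hF] at h1
      omega
    set xF : F := ⟨x, (hmem x).2 hx.1⟩ with hxF
    set yF : F := ⟨y0, (hmem y0).2 huy⟩ with hyF
    have a1 : ∀ v : F, supp (G.restr F) v - supp ((H0.restr F).ex r) v = ⟪xF, v⟫ := by
      intro v
      refine supp_eq (w := (0 : F)) (x := xF) ?_ (inner_zero_left _)
      intro y
      have h1 := hx.2 (y : V) ((hmem y).1 y.2)
      have e1 : ∀ σ : ℝ, (((H0.restr F).ex r).g (y + σ • (0 : F)) ≤ 1 ↔ (G.restr F).g (y + xF + σ • (0 : F)) ≤ 1) := by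
        intro σ
        rw [smul_zero, add_zero, add_zero]
        exact h1
      exact exists_congr e1
    have a2 : ∀ v : F, supp (G.restr F) v - supp (H0.restr F) v = ⟪yF, v⟫ := by
      intro v
      obtain ⟨w, hw, hvw⟩ := exists_orth_one (by rw [hfin]; exact hn2) v
      have hw' : (w : V) ≠ 0 := by simpa using hw
      refine supp_eq (w := w) (x := yF) ?_ (by rw [real_inner_comm]; exact hvw)
      intro y
      exact hY0 w hw' y
    have a3 : ∀ v : F, (1 - Real.exp (-r)) * supp (H0.restr F) v = ⟪xF - yF, v⟫ := by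
      intro v
      have b1 := a1 v
      have b2 := a2 v
      rw [supp_ex] at b1
      rw [inner_sub_left]
      linarith
    have hr0 : Real.exp (-r) = 1 := by
      obtain ⟨v, hv, -⟩ := exists_orth_one (V := F) (by rw [hfin]; exact hn2) 0
      have b1 := a3 v
      have b2 := a3 (-v)
      rw [inner_neg_right] at b2
      have p1 := supp_pos (A := H0.restr F) hv
      have p2 := supp_pos (A := H0.restr F) (neg_ne_zero.2 hv)
      have e1 : (1 - Real.exp (-r)) * (supp (H0.restr F) v + supp (H0.restr F) (-v)) = 0 := by linarith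
      rcases mul_eq_zero.1 e1 with e2 | e2
      · linarith
      · linarith
    have hr1 : r = 0 := by
      have := Real.exp_injective (hr0.trans Real.exp_zero.symm)
      linarith
    have hxy : xF = yF := by
      have b := a3 (xF - yF)
      rw [hr0, sub_self, zero_mul] at b
      exact sub_eq_zero.1 (inner_self_eq_zero.1 b.symm)
    have hxy' : x = y0 := congrArg Subtype.val hxy
    rw [hr1, Gauge.ex_zero, hxy'] at hx
    exact hx
  refine ⟨y0, s0, fun y => ?_⟩
  obtain ⟨u, hu, h1, h2⟩ := exists_orth_pair hdim3 y0 y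
  exact (hplane u hu h1).2 y h2

theorem HPm_all {n : ℕ} (hn : 3 ≤ n) : HPm n := by
  induction n, hn using Nat.le_induction with
  | base => exact HPm_three
  | succ n hn ih => exact HPm_succ (by omega) ih

end Pool.Agent.Helper104.TrSec
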