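import Mathlib
import Pool.Agent.Helper104.HmHyp

open MeasureTheory Set Filter Topology
open scoped RealInnerProductSpace

namespace Pool.Agent.Helper104.TrSec

variable {V : Type} [NormedAddCommGroup V] [InnerProductSpace ℝ V]

/-- the sections by `S` are homothetic, with translation vector in `S` -/
def HmS (G H : Gauge V) (S : Submodule ℝ V) : Prop := 
  ∃ x ∈ S, ∃ s : ℝ, ∀ y ∈ S, ((H.ex s).g y ≤ 1 ↔ G.g (y + x) ≤ 1)

theorem HmS_succ [FiniteDimensional ℝ V] {G H : Gauge V} {m : ℕ} (hm : 2 ≤ m) (h : ∀ S : Submodule ℝ V, Module.finrank ℝ S = m → HmS G H S) 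
    (F : Submodule ℝ V) (hF : Module.finrank ℝ F = m + 1) : HmS G H F := by
  obtain ⟨x0, s0, hx0⟩ := HPm_all (n := m + 1) (by omega) F hF (G.restr F) (H.restr F) (by
    intro u hu
    set S : Submodule ℝ V := ((Submodule.span ℝ {u})ᗮ).map F.subtype with hS
    have hfin : Module.finrank ℝ S = m := by
      have h1 := Submodule.finrank_add_finrank_orthogonal (Submodule.span ℝ {u})
      rw [finrank_span_singleton hu, hF] at h1
      have h2 : Module.finrank ℝ S = Module.finrank ℝ (Submodule.span ℝ {u})ᗮ := 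
        Submodule.finrank_map_subtype_eq F _
      rw [h2]
      omega
    obtain ⟨x, hxS, s, hx⟩ := h S hfin
    rw [hS, Submodule.mem_map] at hxS
    obtain ⟨x', hx', rfl⟩ := hxS
    rw [Submodule.mem_orthogonal_singleton_iff_inner_right] at hx'
    refine ⟨x', s, hx', fun y hy => ?_⟩
    have := hx (F.subtype y) (by
      rw [hS, Submodule.mem_map]
      exact ⟨y, by rw [Submodule.mem_orthogonal_singleton_iff_inner_right]; exact hy, rfl⟩)
    exact this)
  refine ⟨x0, x0.2, s0, fun y hy => ?_⟩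
  exact hx0 ⟨y, hy⟩

theorem hm_gauge_main [FiniteDimensional ℝ V] {G H : Gauge V} {k : ℕ} (hk : 2 ≤ k) (hkn : k ≤ Module.finrank ℝ V) 
    (h : ∀ S : Submodule ℝ V, Module.finrank ℝ S = k → HmS G H S) : ∃ (x0 : V) (s : ℝ), ∀ y, (H.ex s).g y ≤ 1 ↔ G.g (y + x0) ≤ 1 := by
  have key : ∀ m, k ≤ m → m ≤ Module.finrank ℝ V → ∀ S : Submodule ℝ V, Module.finrank ℝ S = m → HmS G H S := by
    intro m hkm
    induction m, hkm using Nat.le_induction with
    | base => intro _; exact h
    | succ m hm ih => 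
      intro hmn F hF
      exact HmS_succ (by omega) (ih (by omega)) F hF
  obtain ⟨x, -, s, hx⟩ := key _ hkn le_rfl ⊤ (finrank_top ℝ V)
  exact ⟨x, s, fun y => hx y Submodule.mem_top⟩

/-- homothetic sets: `A = x + l B` -/
def Homothets (A B : Set V) : Prop := ∃ (x : V) (l : ℝ), 0 < l ∧ A = (fun b => x + l • b) '' B

theorem hm_main [FiniteDimensional ℝ V] {k : ℕ} (hk : 2 ≤ k) (hkn : k ≤ Module.finrank ℝ V) {K L : Set V} (hK : IsStarBody K) (hL : IsStarBody L) 
    (h : ∀ S : Submodule ℝ V, Module.finrank ℝ S = k → Homothets (K ∩ S) (L ∩ S)) : Homothets K L := by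
  haveI : Nontrivial V := Module.nontrivial_of_finrank_pos (R := ℝ) (by omega)
  obtain ⟨G, hG⟩ := exists_gauge hK
  obtain ⟨H, hH⟩ := exists_gauge hL
  have h0L : (0 : V) ∈ L := by rw [hH, H.zero]; exact zero_le_one
  have hex : ∀ (s : ℝ) (y : V), (H.ex s).g y ≤ 1 ↔ Real.exp s • y ∈ L := by
    intro s y
    rw [hH, H.homog _ (Real.exp_pos s).le]; rfl
  obtain ⟨x0, s0, hx0⟩ := hm_gauge_main (G := G) (H := H) hk hkn (by
    intro S hS
    obtain ⟨x, l, hl, hx⟩ := h S hS
    have hxS : x ∈ S := by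
      have : x ∈ K ∩ (S : Set V) := by
        rw [hx]
        exact ⟨0, ⟨h0L, S.zero_mem⟩, by simp⟩
      exact this.2
    have hle : l * Real.exp (-Real.log l) = 1 := by
      rw [Real.exp_neg, Real.exp_log hl, mul_inv_cancel₀ hl.ne']
    refine ⟨x, hxS, -Real.log l, fun y hy => ?_⟩
    rw [hex, ← hG]
    constructor
    · intro hyL
      have : y + x ∈ K ∩ (S : Set V) := by
        rw [hx]
        refine ⟨Real.exp (-Real.log l) • y, ⟨hyL, S.smul_mem _ hy⟩, ?_⟩
        simp only
        rw [smul_smul, hle, one_smul, add_comm]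
      exact this.1
    · intro hyK
      have : y + x ∈ K ∩ (S : Set V) := ⟨hyK, S.add_mem hy hxS⟩
      rw [hx] at this
      obtain ⟨b, hb, hby⟩ := this
      simp only at hby
      have h1 : l • b = y := by
        have : x + l • b - x = y + x - x := by rw [hby]
        simpa using this
      have h2 : Real.exp (-Real.log l) • y = b := by
        rw [← h1, smul_smul, mul_comm, hle, one_smul]
      rw [h2]; exact hb.1)
  refine ⟨x0, Real.exp (-s0), Real.exp_pos _, ?_⟩
  have hee : Real.exp (-s0) * Real.exp s0 = 1 := by rw [← Real.exp_add, neg_add_cancel, Real.exp_zero]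
  ext y
  constructor
  · intro hy
    have h1 := (hx0 (y - x0)).2 (by rw [sub_add_cancel, ← hG]; exact hy)
    rw [hex] at h1
    refine ⟨_, h1, ?_⟩
    simp only
    rw [smul_smul, hee, one_smul]; abel
  · rintro ⟨b, hb, rfl⟩
    simp only
    have h1 := (hx0 (Real.exp (-s0) • b)).1 (by
      rw [hex, smul_smul, mul_comm, hee, one_smul]; exact hb)
    rw [hG, add_comm]; exact h1

end Pool.Agent.Helper104.TrSec
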